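import Pool.Agent.LibCS15.Frame
set_option autoImplicit false
namespace Pool.Agent.LibCS15
open Topology Filter

/-- A block diagonal element whose blocks are either invertible or close to a multiple of the isometry `S`
(at least one of them being of the second kind) factors as `V * W` with `V` invertible and `W` a proper isometry.  For a block of the second kind write
`c • f a = S + R`, `‖R‖ < 1`, so `f a = c⁻¹ • (1 + R * star S) * S` (as `star S * S = 1`) with `1 + R * star S` invertible (`‖star S‖ ≤ 1`); put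
`V a = c⁻¹ • (1 + R * star S)`, `W a = S`.  For a block of the first kind `V a = f a`, `W a = 1`.
(`blk ι W * star (blk ι W) = blk ι (W a * star (W a)) ≠ 1` by `blk_injective`.) -/
theorem blk_factor {n : Type} [Fintype n] {D : Type} [CStarAlgebra D] {ι : n → D}
    (hι : IsFrame ι) {S : D} (hS : star S * S = 1) (hS' : S * star S ≠ 1) {f : n → D}
    (hf : ∀ a, IsUnit (f a) ∨ ∃ c : ℂ, c ≠ 0 ∧ ‖c • f a - S‖ < 1) (a₀ : n)
    (ha₀ : ∃ c : ℂ, c ≠ 0 ∧ ‖c • f a₀ - S‖ < 1) :
    ∃ V W : D, IsUnit V ∧ star W * W = 1 ∧ W * star W ≠ 1 ∧ blk ι f = V * W := by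
  haveI : Nontrivial D := ⟨⟨_, _, hS'⟩⟩
  have hSn : ‖star S‖ = 1 := by
    have h1 := CStarRing.norm_star_mul_self (x := S)
    rw [hS, CStarRing.norm_one] at h1
    rw [norm_star]
    nlinarith [norm_nonneg S]
  have key : ∀ a, ∃ v w : D, IsUnit v ∧ star w * w = 1 ∧ f a = v * w ∧ (a = a₀ → w = S) := by
    intro a
    by_cases h : ∃ c : ℂ, c ≠ 0 ∧ ‖c • f a - S‖ < 1
    · obtain ⟨c, hc, hcn⟩ := h
      refine ⟨c⁻¹ • (1 + (c • f a - S) * star S), S, ?_, hS, ?_, fun _ => rfl⟩
      · have h1 : ‖-((c • f a - S) * star S)‖ < 1 := by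
          rw [norm_neg]
          refine (norm_mul_le _ _).trans_lt ?_
          rw [hSn, mul_one]
          exact hcn
        have h2 : IsUnit (1 + (c • f a - S) * star S) := by
          have := isUnit_one_sub_of_norm_lt_one h1
          rwa [sub_neg_eq_add] at this
        exact h2.smul (Units.mk0 c⁻¹ (inv_ne_zero hc))
      · rw [smul_mul_assoc, add_mul, one_mul, mul_assoc, hS, mul_one, add_sub_cancel, smul_smul,
          inv_mul_cancel₀ hc, one_smul]
    · refine ⟨f a, 1, ?_, by simp, by simp, ?_⟩
      · rcases hf a with h1 | h1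
        · exact h1
        · exact absurd h1 h
      · rintro rfl
        exact absurd ha₀ h
  choose v w hv hw hfa ha using key
  refine ⟨blk ι v, blk ι w, blk_isUnit hι hv, ?_, ?_, ?_⟩
  · rw [star_blk hι, blk_mul hι]
    simp only [hw]
    exact blk_one hι
  · rw [star_blk hι, blk_mul hι, ← blk_one hι]
    intro h
    have h1 := blk_injective hι h a₀
    rw [ha a₀ rfl] at h1
    exact hS' h1
  · rw [blk_mul hι]
    congr 1
    funext a
    exact hfa a

end Pool.Agent.LibCS15
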