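import Mathlib
set_option autoImplicit false
namespace Pool.Agent.LibCS15
open Topology Filter

variable {G : Type} [Group G] (H : Subgroup G)

/-- the cocycle of the induced representation -/
noncomputable def cocy (g : G) (a : G ⧸ H) : H :=
  ⟨((g • a).out)⁻¹ * g * a.out, by
    have h : (((g • a).out : G) : G ⧸ H) = ((g * a.out : G) : G ⧸ H) := by
      rw [QuotientGroup.out_eq']
      conv_lhs => rw [← QuotientGroup.out_eq' a]
      rfl
    have := QuotientGroup.eq.1 h
    simpa [mul_assoc] using this⟩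

theorem cocy_mul (g h : G) (a : G ⧸ H) : cocy H (g * h) a = cocy H g (h • a) * cocy H h a := by
  apply Subtype.ext
  simp only [cocy, Subgroup.coe_mul, mul_smul]
  group

theorem cocy_one (a : G ⧸ H) : cocy H 1 a = 1 := by
  apply Subtype.ext
  simp only [cocy, Subgroup.coe_one, one_smul, mul_one]
  group

theorem cocy_inv (g : G) (a : G ⧸ H) : cocy H g⁻¹ (g • a) = (cocy H g a)⁻¹ := by
  have h := cocy_mul H g⁻¹ g a
  rw [inv_mul_cancel, cocy_one] at h
  exact eq_inv_of_mul_eq_one_left h.symm

/-- for `H` normal, elements of `H` act trivially on the cosets -/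
theorem smul_of_mem_normal [H.Normal] (h : H) (a : G ⧸ H) : (h : G) • a = a := by
  have hH : H.Normal := inferInstance
  conv_rhs => rw [← QuotientGroup.out_eq' a]
  conv_lhs => rw [← QuotientGroup.out_eq' a]
  change (((h : G) * a.out : G) : G ⧸ H) = _
  rw [QuotientGroup.eq]
  have h1 := hH.conj_mem (h : G)⁻¹ (H.inv_mem h.2) (a.out)⁻¹
  simpa [mul_assoc] using h1

/-- the conjugate `(out a)⁻¹ * h * out a` -/
noncomputable def cnj [hH : H.Normal] (a : G ⧸ H) (h : H) : H :=
  ⟨(a.out)⁻¹ * h * a.out, by simpa using hH.conj_mem (h : G) h.2 (a.out)⁻¹⟩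

theorem cocy_normal [H.Normal] (h : H) (a : G ⧸ H) : cocy H (h : G) a = cnj H a h := by
  apply Subtype.ext
  simp only [cocy, cnj, smul_of_mem_normal]

end Pool.Agent.LibCS15
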