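import Pool.Agent.LibCS15.Frame
import Pool.Agent.LibCS15.IndA
set_option autoImplicit false
namespace Pool.Agent.LibCS15
open Topology Filter

variable {G : Type} [Group G] (H : Subgroup G)
variable {D : Type} [CStarAlgebra D] [Fintype (G ⧸ H)]

/-- the induced map -/
noncomputable def ind (ι : G ⧸ H → D) (v : H → D) (g : G) : D :=
  ∑ a : G ⧸ H, ι (g • a) * v (cocy H g a) * star (ι a)

theorem ind_normal [H.Normal] (ι : G ⧸ H → D) (v : H → D) (h : H) :
    ind H ι v (h : G) = blk ι (fun a => v (cnj H a h)) := by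
  unfold ind blk
  refine Finset.sum_congr rfl fun a _ => ?_
  rw [cocy_normal, smul_of_mem_normal]

theorem ind_one {ι : G ⧸ H → D} (hι : IsFrame ι) {v : H → D} (hv : v 1 = 1) :
    ind H ι v 1 = 1 := by
  unfold ind
  rw [← hι.sum]
  refine Finset.sum_congr rfl fun a _ => ?_
  rw [cocy_one, hv, one_smul, mul_one]

private theorem IndB_mul {ι : G ⧸ H → D} (hι : IsFrame ι) (v : H → D) (g h : G) :
    ind H ι v g * ind H ι v h =
      ∑ a : G ⧸ H, ι (g • h • a) * (v (cocy H g (h • a)) * v (cocy H h a)) * star (ι a) := by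
  unfold ind
  rw [Finset.mul_sum]
  refine Finset.sum_congr rfl fun a _ => ?_
  rw [Finset.sum_mul, Finset.sum_eq_single (h • a)]
  · calc ι (g • h • a) * v (cocy H g (h • a)) * star (ι (h • a)) *
          (ι (h • a) * v (cocy H h a) * star (ι a))
        = ι (g • h • a) * v (cocy H g (h • a)) * (star (ι (h • a)) * ι (h • a)) *
          v (cocy H h a) * star (ι a) := by simp only [mul_assoc]
      _ = ι (g • h • a) * (v (cocy H g (h • a)) * v (cocy H h a)) * star (ι a) := by
          rw [hι.same, mul_one]; simp only [mul_assoc]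
  · intro b _ hb
    calc ι (g • b) * v (cocy H g b) * star (ι b) *
          (ι (h • a) * v (cocy H h a) * star (ι a))
        = ι (g • b) * v (cocy H g b) * (star (ι b) * ι (h • a)) *
          v (cocy H h a) * star (ι a) := by simp only [mul_assoc]
      _ = 0 := by rw [hι.diff b (h • a) hb, mul_zero, zero_mul, zero_mul]
  · intro h
    exact absurd (Finset.mem_univ _) h

theorem ind_defect {ι : G ⧸ H → D} (hι : IsFrame ι) (v : H → D) (g h : G) :
    ind H ι v (g * h) - ind H ι v g * ind H ι v h =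
      ∑ a : G ⧸ H, ι (g • h • a) * (v (cocy H g (h • a) * cocy H h a) -
        v (cocy H g (h • a)) * v (cocy H h a)) * star (ι a) := by
  rw [IndB_mul H hι v g h]
  unfold ind
  rw [← Finset.sum_sub_distrib]
  refine Finset.sum_congr rfl fun a _ => ?_
  rw [cocy_mul, mul_smul, mul_sub, sub_mul]

theorem ind_star (ι : G ⧸ H → D) {v : H → D} (hv : ∀ h, v h⁻¹ = star (v h)) (g : G) :
    ind H ι v g⁻¹ = star (ind H ι v g) := by
  unfold ind
  rw [star_sum, ← Equiv.sum_comp (MulAction.toPerm g : Equiv.Perm (G ⧸ H))]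
  refine Finset.sum_congr rfl fun a _ => ?_
  rw [MulAction.toPerm_apply, inv_smul_smul, cocy_inv, hv, star_mul, star_mul, star_star,
    mul_assoc]

/-- inducing an exact unitary representation -/
theorem ind_rep {ι : G ⧸ H → D} (hι : IsFrame ι) (v : H →* unitary D) :
    ∃ ρ : G →* unitary D, ∀ g, (ρ g : D) = ind H ι (fun h => (v h : D)) g := by
  obtain ⟨w, hw⟩ : ∃ w : H → D, w = fun h => (v h : D) := ⟨_, rfl⟩
  have h1 : w 1 = 1 := by
    rw [hw]
    change ((v 1 : unitary D) : D) = 1
    rw [map_one]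
    rfl
  have hmul : ∀ a b, w (a * b) = w a * w b := by
    intro a b
    rw [hw]
    change ((v (a * b) : unitary D) : D) = (v a : D) * (v b : D)
    rw [map_mul]
    rfl
  have hinv : ∀ h, w h⁻¹ = star (w h) := by
    intro h
    rw [hw]
    change ((v h⁻¹ : unitary D) : D) = star (v h : D)
    rw [map_inv]
    rfl
  have hm : ∀ g h, ind H ι w (g * h) = ind H ι w g * ind H ι w h := by
    intro g h
    rw [← sub_eq_zero, ind_defect H hι]
    refine Finset.sum_eq_zero fun a _ => ?_
    rw [hmul, sub_self, mul_zero, zero_mul]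
  have ho : ind H ι w 1 = 1 := ind_one H hι h1
  have hu : ∀ g, ind H ι w g ∈ unitary D := by
    intro g
    rw [Unitary.mem_iff, ← ind_star H ι hinv, ← hm, ← hm, inv_mul_cancel, mul_inv_cancel, ho]
    exact ⟨rfl, rfl⟩
  rw [← hw]
  exact ⟨{ toFun := fun g => ⟨ind H ι w g, hu g⟩
           map_one' := Subtype.ext ho
           map_mul' := fun g h => Subtype.ext (hm g h) }, fun g => rfl⟩

end Pool.Agent.LibCS15
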