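import Mathlib
set_option autoImplicit false
namespace Pool.Agent.LibCS15
open Topology Filter

/-- elements close to `1` with `r ^ N = 1` are equal to `1`: `r ^ N - 1 = (r - 1) * (1 + r + ... + r ^ (N-1))` and the second factor is close to `N` -/
theorem eq_one_of_pow {D : Type} [CStarAlgebra D] {N : ℕ} (hN : 0 < N) :
    ∃ ε : ℝ, 0 < ε ∧ ∀ r : D, ‖r - 1‖ < ε → r ^ N = 1 → r = 1 := by
  have hcont : Continuous (fun r : D => ∑ i ∈ Finset.range N, r ^ i) := by fun_prop
  have h1 : (fun r : D => ∑ i ∈ Finset.range N, r ^ i) 1 = (N : D) := by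
    simp
  have hunit : IsUnit ((N : D)) := by
    have h2 : IsUnit ((N : ℂ)) := by
      rw [isUnit_iff_ne_zero]
      exact_mod_cast hN.ne'
    have h3 := h2.map (algebraMap ℂ D)
    rwa [map_natCast] at h3
  have hmem : {x : D | IsUnit x} ∈ 𝓝 ((fun r : D => ∑ i ∈ Finset.range N, r ^ i) 1) := by
    rw [h1]
    exact Units.isOpen.mem_nhds hunit
  have hev : ∀ᶠ r : D in 𝓝 1, IsUnit (∑ i ∈ Finset.range N, r ^ i) :=
    hcont.continuousAt.eventually hmem
  obtain ⟨ε, hε, h⟩ := Metric.eventually_nhds_iff.mp hev
  refine ⟨ε, hε, fun r hr hrN => ?_⟩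
  have hu := h (show dist r 1 < ε by rwa [dist_eq_norm])
  have hg := mul_geom_sum r N
  rw [hrN, sub_self] at hg
  have := hu.mul_left_eq_zero.mp hg
  exact sub_eq_zero.mp this

/-- a path starting from `1` in the solutions of `r ^ N = 1` is constant: `{t | r t = 1}` is open and closed -/
theorem path_torsion {D : Type} [CStarAlgebra D] {N : ℕ} (hN : 0 < N) {r : C(unitInterval, D)}
    (hr : r ^ N = 1) (h0 : r 0 = 1) : r = 1 := by
  obtain ⟨ε, hε, h⟩ := eq_one_of_pow (D := D) hN
  have hset : {t : unitInterval | r t = 1} = {t : unitInterval | ‖r t - 1‖ < ε} := by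
    ext t
    constructor
    · intro ht
      have ht' : r t = 1 := ht
      show ‖r t - 1‖ < ε
      rw [ht', sub_self, norm_zero]
      exact hε
    · intro ht
      refine h (r t) ht ?_
      have := congrArg (fun f : C(unitInterval, D) => f t) hr
      simpa using this
  have hclopen : IsClopen {t : unitInterval | r t = 1} := by
    constructor
    · exact isClosed_eq r.continuous continuous_const
    · rw [hset]
      exact isOpen_lt (r.continuous.sub continuous_const).norm continuous_const
  have huniv := hclopen.eq_univ ⟨0, h0⟩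
  ext t
  have ht : t ∈ {t : unitInterval | r t = 1} := by
    rw [huniv]; trivial
  exact ht

/-- evaluation -/
private noncomputable def evp {D : Type} [CStarAlgebra D] (t : unitInterval) :
    C(unitInterval, D) →⋆ₐ[ℂ] D where
  toFun f := f t
  map_one' := rfl
  map_mul' _ _ := rfl
  map_zero' := rfl
  map_add' _ _ := rfl
  commutes' _ := rfl
  map_star' _ := rfl

private theorem continuous_evp {D : Type} [CStarAlgebra D] (t : unitInterval) :
    Continuous (evp (D := D) t) :=
  (continuous_eval_const t : Continuous fun f : C(unitInterval, D) => f t)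

private theorem expU_at {D : Type} [CStarAlgebra D] {s : unitary C(unitInterval, D)}
    (hs : ‖(s : C(unitInterval, D)) - 1‖ < 2) (t : unitInterval)
    (hst : (s : C(unitInterval, D)) t = 1) (c : ℝ) :
    (selfAdjoint.expUnitary (c • Unitary.argSelfAdjoint s) : C(unitInterval, D)) t = 1 := by
  have hA : ((Unitary.argSelfAdjoint s : C(unitInterval, D))) t = 0 := by
    rw [Unitary.argSelfAdjoint_coe]
    have hc : ContinuousOn (fun z : ℂ => ((Complex.arg z : ℝ) : ℂ))
        (spectrum ℂ (s : C(unitInterval, D))) := by
      refine Complex.continuous_ofReal.comp_continuousOn (Complex.continuousOn_arg.mono ?_)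
      exact (Unitary.spectrum_subset_slitPlane_iff_norm_lt_two s.2).mpr hs
    have hn1 : IsStarNormal (s : C(unitInterval, D)) := inferInstance
    have hn2 : IsStarNormal (evp t (s : C(unitInterval, D))) := hn1.map (evp t)
    have h1 := StarAlgHomClass.map_cfc (evp t) (fun z : ℂ => ((Complex.arg z : ℝ) : ℂ))
      (s : C(unitInterval, D)) hc (continuous_evp t) hn1 hn2
    have h2 : evp t (s : C(unitInterval, D)) = algebraMap ℂ D 1 := by
      rw [map_one]; exact hst
    rw [h2, cfc_algebraMap] at h1
    rw [show evp t (cfc (fun z : ℂ => ((Complex.arg z : ℝ) : ℂ)) (s : C(unitInterval, D))) =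
      (cfc (fun z : ℂ => ((Complex.arg z : ℝ) : ℂ)) (s : C(unitInterval, D))) t from rfl] at h1
    rw [h1]
    simp
  rw [selfAdjoint.expUnitary_coe]
  let _ : NormedAlgebra ℚ C(unitInterval, D) := NormedAlgebra.restrictScalars ℚ ℂ _
  let _ : NormedAlgebra ℚ D := NormedAlgebra.restrictScalars ℚ ℂ _
  have h3 : (NormedSpace.exp (Complex.I • ((c • Unitary.argSelfAdjoint s : selfAdjoint
      C(unitInterval, D)) : C(unitInterval, D)))) t =
      NormedSpace.exp (evp t (Complex.I • ((c • Unitary.argSelfAdjoint s : selfAdjoint
      C(unitInterval, D)) : C(unitInterval, D)))) :=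
    NormedSpace.map_exp (evp t) (continuous_evp t) _
  rw [h3]
  have h4 : evp t (Complex.I • ((c • Unitary.argSelfAdjoint s : selfAdjoint
      C(unitInterval, D)) : C(unitInterval, D))) = 0 := by
    show Complex.I • (c • ((Unitary.argSelfAdjoint s : C(unitInterval, D))) t) = 0
    rw [hA, smul_zero, smul_zero]
  rw [h4, NormedSpace.exp_zero]

/-- Let `A = Unitary.argSelfAdjoint s` (`Mathlib/Analysis/CStarAlgebra/Unitary/Connected.lean`), so `s = exp (i A)`,
`‖A‖ < π`.  Evaluating at `0` and `1`: `exp (i A(0)) = 1`, `‖A(0)‖ < π` gives `A(0) = 0`, similarly `A(1) = 0`.  `A` commutes with `r` (`A` is a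
continuous function of `s`).  Then `r' = r * exp (- i (M / N) A)` satisfies `r' ^ N = 1`, `r' 0 = 1`, so `r' = 1` by `path_torsion`, and `r 1 = r' 1 = 1`. -/
theorem path_rank {D : Type} [CStarAlgebra D] {N : ℕ} (hN : 0 < N) (M : ℤ)
    {r s : unitary C(unitInterval, D)} (hrs : r * s = s * r) (hpow : r ^ N = s ^ M)
    (hs : ‖(s : C(unitInterval, D)) - 1‖ < 2) (hr0 : (r : C(unitInterval, D)) 0 = 1)
    (hs0 : (s : C(unitInterval, D)) 0 = 1) (hs1 : (s : C(unitInterval, D)) 1 = 1) :
    (r : C(unitInterval, D)) 1 = 1 := by
  set A := Unitary.argSelfAdjoint s with hA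
  -- the one parameter group
  have hcomm : ∀ a b : ℝ, Commute ((a • A : selfAdjoint C(unitInterval, D)) : C(unitInterval, D))
      ((b • A : selfAdjoint C(unitInterval, D)) : C(unitInterval, D)) := by
    intro a b
    show Commute (a • (A : C(unitInterval, D))) (b • (A : C(unitInterval, D)))
    exact ((Commute.refl (A : C(unitInterval, D))).smul_left a).smul_right b
  let φ : Multiplicative ℝ →* unitary C(unitInterval, D) :=
    { toFun := fun a => selfAdjoint.expUnitary ((Multiplicative.toAdd a) • A)
      map_one' := by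
        have h0 : (0 : ℝ) • A = 0 := by
          ext1
          show (0 : ℝ) • (A : C(unitInterval, D)) = 0
          exact zero_smul ℝ (A : C(unitInterval, D))
        rw [toAdd_one, h0, selfAdjoint.expUnitary_zero]
      map_mul' := by
        intro a b
        have h0 : (Multiplicative.toAdd a + Multiplicative.toAdd b) • A =
            Multiplicative.toAdd a • A + Multiplicative.toAdd b • A := by
          ext1
          show (Multiplicative.toAdd a + Multiplicative.toAdd b) • (A : C(unitInterval, D)) =
            Multiplicative.toAdd a • (A : C(unitInterval, D)) +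
              Multiplicative.toAdd b • (A : C(unitInterval, D))
          exact add_smul (Multiplicative.toAdd a) (Multiplicative.toAdd b)
            (A : C(unitInterval, D))
        rw [toAdd_mul, h0, Commute.expUnitary_add (hcomm _ _)] }
  have hφ : ∀ a : ℝ, φ (Multiplicative.ofAdd a) = selfAdjoint.expUnitary (a • A) := fun a => rfl
  have hφ1 : φ (Multiplicative.ofAdd 1) = s := by
    have h0 : (1 : ℝ) • A = A := by
      ext1
      show (1 : ℝ) • (A : C(unitInterval, D)) = A
      exact one_smul ℝ (A : C(unitInterval, D))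
    rw [hφ, h0, hA]
    exact expUnitary_argSelfAdjoint hs
  set c : ℝ := -(M : ℝ) / N with hc
  have hNR : (N : ℝ) ≠ 0 := by exact_mod_cast hN.ne'
  have heN : (φ (Multiplicative.ofAdd c)) ^ N = s ^ (-M) := by
    rw [← map_pow, ← hφ1, ← map_zpow]
    congr 1
    rw [← ofAdd_nsmul, ← ofAdd_zsmul]
    congr 1
    rw [nsmul_eq_mul, zsmul_eq_mul, hc]
    push_cast
    field_simp
  -- `A` commutes with `r`
  have hcs : Commute (s : C(unitInterval, D)) (r : C(unitInterval, D)) := by
    have := congrArg (fun x : unitary C(unitInterval, D) => (x : C(unitInterval, D))) hrs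
    exact this.symm
  have hcs' : Commute (star (s : C(unitInterval, D))) (r : C(unitInterval, D)) := by
    have h1 : Commute r s := hrs
    have h2 : Commute r s⁻¹ := h1.inv_right
    have h3 : r * s⁻¹ = s⁻¹ * r := h2
    have := congrArg (fun x : unitary C(unitInterval, D) => (x : C(unitInterval, D))) h3
    exact this.symm
  have hcA : Commute (A : C(unitInterval, D)) (r : C(unitInterval, D)) := by
    rw [hA, Unitary.argSelfAdjoint_coe]
    exact hcs.cfc hcs' _
  have hce : Commute r (φ (Multiplicative.ofAdd c)) := by
    have h1 : Commute (r : C(unitInterval, D))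
        ((φ (Multiplicative.ofAdd c) : unitary C(unitInterval, D)) : C(unitInterval, D)) := by
      rw [hφ, selfAdjoint.expUnitary_coe]
      refine Commute.exp_right ?_
      refine Commute.smul_right ?_ _
      show Commute (r : C(unitInterval, D)) (c • (A : C(unitInterval, D)))
      exact hcA.symm.smul_right c
    exact Subtype.ext h1
  have hpow' : (r * φ (Multiplicative.ofAdd c)) ^ N = 1 := by
    rw [hce.mul_pow, hpow, heN, ← zpow_add, add_neg_cancel, zpow_zero]
  have hr' : ((r * φ (Multiplicative.ofAdd c) : unitary C(unitInterval, D)) :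
      C(unitInterval, D)) = 1 := by
    refine path_torsion hN ?_ ?_
    · have := congrArg (fun x : unitary C(unitInterval, D) => (x : C(unitInterval, D))) hpow'
      simpa using this
    · show (r : C(unitInterval, D)) 0 * ((φ (Multiplicative.ofAdd c) :
        unitary C(unitInterval, D)) : C(unitInterval, D)) 0 = 1
      rw [hr0, one_mul, hφ]
      exact expU_at hs 0 hs0 c
  have h1 : (r : C(unitInterval, D)) 1 * ((φ (Multiplicative.ofAdd c) :
        unitary C(unitInterval, D)) : C(unitInterval, D)) 1 = 1 := by
    have := congrArg (fun f : C(unitInterval, D) => f 1) hr'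
    exact this
  have h2 : ((φ (Multiplicative.ofAdd c) :
        unitary C(unitInterval, D)) : C(unitInterval, D)) 1 = 1 := by
    rw [hφ]
    exact expU_at hs 1 hs1 c
  rwa [h2, mul_one] at h1

end Pool.Agent.LibCS15
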