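import Pool.Agent.LibCS15.PathA
import Pool.Agent.LibCS15.PathB
import Pool.Agent.LibCS15.IndB
import Pool.Agent.LibCS15.ShiftFrame
set_option autoImplicit false
namespace Pool.Agent.LibCS15
open Topology Filter

/-- `chars_trivial` for a given frame -/
theorem chars_trivial_aux {G : Type} [Group G] [Countable G] (hG : CStarStable G) (H : Subgroup G)
    [H.Normal] {D : Type} [CStarAlgebra D] [Nontrivial D] [Fintype (G ⧸ H)] {ι : G ⧸ H → D}
    (hι : IsFrame ι) (x₁ : H)
    (hcomm : ∀ x y : H, IsOfFinOrder (x * y * x⁻¹ * y⁻¹))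
    (hrank : ∀ x : H, ∃ (N : ℕ) (M : ℤ), 0 < N ∧ IsOfFinOrder (x ^ N * (x₁ ^ M)⁻¹))
    (χ : ℕ → H →* unitary ℂ) (hχ : ∀ h, Tendsto (fun m => (χ m h : ℂ)) atTop (𝓝 1))
    (hχ1 : ∀ m (a : G ⧸ H), χ m (cnj H a x₁) = 1) : ∃ m₀, ∀ m, m₀ ≤ m → χ m = 1 := by
  classical
  -- the representations of `H`
  let v : (H →* unitary ℂ) → H →* unitary D := fun χ =>
    (Unitary.map (StarMonoidHom.ofClass (StarAlgHom.ofId ℂ D))).toMonoidHom.comp χ
  have hv : ∀ (χ : H →* unitary ℂ) (h : H),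
      (v χ h : D) = algebraMap ℂ D (χ h : ℂ) := fun χ h => rfl
  have hex : ∀ χ : H →* unitary ℂ, ∃ ρ : G →* unitary D,
      ∀ g, (ρ g : D) = ind H ι (fun h => (v χ h : D)) g :=
    fun χ => ind_rep H hι (v χ)
  choose ρ' hρ' using hex
  have hnorm : ∀ (χ : H →* unitary ℂ) (h : H), (ρ' χ (h : G) : D) =
      blk ι (fun a => algebraMap ℂ D (χ (cnj H a h) : ℂ)) := by
    intro χ h
    rw [hρ', ind_normal]
    simp only [hv]
  have hlim : ∀ g, Tendsto (fun m => (ρ' (χ m) g : D)) atTop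
      (𝓝 (ρ' 1 g : D)) := by
    intro g
    simp only [hρ', ind, hv]
    refine tendsto_finsetSum _ fun a _ => ?_
    refine Tendsto.mul (Tendsto.mul tendsto_const_nhds ?_) tendsto_const_nhds
    have h1 : Tendsto (fun m => algebraMap ℂ D (χ m (cocy H g a) : ℂ)) atTop
        (𝓝 (algebraMap ℂ D 1)) :=
      ((algebraMapCLM ℂ D).continuous.tendsto 1).comp (hχ (cocy H g a))
    exact h1
  obtain ⟨m₀, R, hR, hRlim⟩ := path_lemma hG (fun m => ρ' (χ m)) (ρ' 1) hlim
  have h0 : ∀ h : H, (ρ' 1 (h : G) : D) = 1 := by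
    intro h
    rw [hnorm]
    simp only [MonoidHom.one_apply, OneMemClass.coe_one, map_one]
    exact blk_one hι
  -- eventually close to one
  have hclose : ∀ᶠ m in atTop, ‖(R m (x₁ : G) : C(unitInterval, D)) - 1‖ < 2 := by
    have h1 := hRlim (x₁ : G)
    have h2 : ContinuousMap.const unitInterval (ρ' 1 (x₁ : G) : D) = 1 := by
      rw [h0]; rfl
    rw [h2] at h1
    have h3 := h1.sub_const (1 : C(unitInterval, D))
    rw [sub_self] at h3
    have h4 := h3.norm
    rw [norm_zero] at h4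
    exact h4.eventually_lt_const (by norm_num)
  obtain ⟨m₁, hm₁⟩ := eventually_atTop.1 hclose
  refine ⟨max m₀ m₁, fun m hm => ?_⟩
  have hm0 : m₀ ≤ m := le_trans (le_max_left _ _) hm
  have hm1 : m₁ ≤ m := le_trans (le_max_right _ _) hm
  have hstart : ∀ h : H, (R m (h : G) : C(unitInterval, D)) 0 = 1 := by
    intro h
    rw [(hR m hm0 _).1, h0]
  have htor : ∀ h : H, IsOfFinOrder h → R m (h : G) = 1 := by
    intro h hh
    obtain ⟨N, hN, hN1⟩ := isOfFinOrder_iff_pow_eq_one.1 hh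
    have h1 : (R m (h : G) : C(unitInterval, D)) ^ N = 1 := by
      have h2 : ((R m (h : G)) ^ N : unitary C(unitInterval, D)) = 1 := by
        rw [← map_pow, ← Subgroup.coe_pow, hN1, Subgroup.coe_one, map_one]
      have h3 := congrArg (fun z : unitary C(unitInterval, D) =>
        (z : C(unitInterval, D))) h2
      simpa using h3
    have h2 := path_torsion hN h1 (hstart h)
    exact Subtype.ext h2
  have hall : ∀ (x : H) (a : G ⧸ H), χ m (cnj H a x) = 1 := by
    intro x a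
    have hcm : R m (x : G) * R m (x₁ : G) = R m (x₁ : G) * R m (x : G) := by
      have h1 := htor _ (hcomm x x₁)
      simp only [Subgroup.coe_mul, Subgroup.coe_inv, map_mul, map_inv] at h1
      have h2 := mul_inv_eq_one.1 h1
      exact mul_inv_eq_iff_eq_mul.1 h2
    obtain ⟨N, M, hN, hfin⟩ := hrank x
    have hpow : R m (x : G) ^ N = R m (x₁ : G) ^ M := by
      have h1 := htor _ hfin
      simp only [Subgroup.coe_mul, Subgroup.coe_inv, map_mul, map_inv, Subgroup.coe_pow,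
        Subgroup.coe_zpow, map_pow, map_zpow] at h1
      exact mul_inv_eq_one.1 h1
    have hend : (R m (x₁ : G) : C(unitInterval, D)) 1 = 1 := by
      rw [(hR m hm0 _).2, hnorm]
      simp only [hχ1, OneMemClass.coe_one, map_one]
      exact blk_one hι
    have h1 := path_rank hN M hcm hpow (hm₁ m hm1) (hstart x) (hstart x₁) hend
    rw [(hR m hm0 _).2, hnorm, ← blk_one hι] at h1
    have h2 := blk_injective hι h1 a
    have h3 : algebraMap ℂ D (χ m (cnj H a x) : ℂ) = algebraMap ℂ D 1 := by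
      rw [h2, map_one]
    have h4 := (algebraMap ℂ D).injective h3
    exact Subtype.ext h4
  ext h
  have hHn : H.Normal := inferInstance
  let a : G ⧸ H := ((1 : G) : G ⧸ H)
  have h5 := hall ⟨a.out * h * (a.out)⁻¹, hHn.conj_mem (h : G) h.2 a.out⟩ a
  have h6 : cnj H a ⟨a.out * h * (a.out)⁻¹, hHn.conj_mem (h : G) h.2 a.out⟩ = h := by
    apply Subtype.ext
    simp only [cnj]
    group
  rw [h6] at h5
  rw [h5]
  rfl

/-- Let `D = B(ℓ²)` with a frame indexed by `G ⧸ H` (`exists_shift_frame`), `ρ m` the representation induced (`ind_rep`) by `h ↦ χ m h • 1`, `ρ₀`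
the one induced by the trivial representation, `R m` the path given by `path_lemma`.  For `h : H`: `R m h` is `1` at `0` and
`blk ι (fun a => χ m (cnj H a h) • 1)` at `1` (`ind_normal`).  If `h` has finite order then `R m h = 1` (`path_torsion`).  So `R m x` and `R m x₁` commute, and
`(R m x) ^ N = (R m x₁) ^ M`; `path_rank` gives `R m x 1 = 1` as soon as `‖R m x₁ - 1‖ < 2`, so `χ m (cnj H a x) = 1` for all `x` and `a`. -/
theorem chars_trivial {G : Type} [Group G] [Countable G] (hG : CStarStable G) (H : Subgroup G)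
    [H.Normal] [H.FiniteIndex] (x₁ : H)
    (hcomm : ∀ x y : H, IsOfFinOrder (x * y * x⁻¹ * y⁻¹))
    (hrank : ∀ x : H, ∃ (N : ℕ) (M : ℤ), 0 < N ∧ IsOfFinOrder (x ^ N * (x₁ ^ M)⁻¹))
    (χ : ℕ → H →* unitary ℂ) (hχ : ∀ h, Tendsto (fun m => (χ m h : ℂ)) atTop (𝓝 1))
    (hχ1 : ∀ m (a : G ⧸ H), χ m (cnj H a x₁) = 1) : ∃ m₀, ∀ m, m₀ ≤ m → χ m = 1 := by
  classical
  have : Fintype (G ⧸ H) := Fintype.ofFinite _
  obtain ⟨ι, S, hι, -, hS, -⟩ := exists_shift_frame (G ⧸ H)
  have hnt : Nontrivial (E2 →L[ℂ] E2) := ⟨_, _, hS⟩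
  exact chars_trivial_aux hG H hι x₁ hcomm hrank χ hχ hχ1

end Pool.Agent.LibCS15
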