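import Mathlib
set_option autoImplicit false
namespace Pool.Agent.LibCS15

/-- A cocycle which is a coboundary on every finite subset is a coboundary: let `T : (G × G) →₀ ℝ → G →₀ ℝ` send `e_(g,h)` to `e_g + e_h - e_(g h)` and `W : (G × G) →₀ ℝ → ℝ` send `e_(g,h)` to `w g h`;
the hypothesis gives `ker T ≤ ker W`, so `W = c ∘ T` for a linear form `c` on `G →₀ ℝ` -/
theorem coboundary_of_finite {G : Type} [Group G] (w : G → G → ℝ)
    (h : ∀ F : Finset G, ∃ c : G → ℝ, ∀ g ∈ F, ∀ h ∈ F, g * h ∈ F →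
      w g h = c g + c h - c (g * h)) :
    ∃ c : G → ℝ, ∀ g h, w g h = c g + c h - c (g * h) := by
  classical
  let T : (G × G →₀ ℝ) →ₗ[ℝ] (G →₀ ℝ) := Finsupp.linearCombination ℝ fun p : G × G =>
    Finsupp.single p.1 (1 : ℝ) + Finsupp.single p.2 1 - Finsupp.single (p.1 * p.2) 1
  let W : (G × G →₀ ℝ) →ₗ[ℝ] ℝ := Finsupp.linearCombination ℝ fun p : G × G => w p.1 p.2
  have hW : W ∈ (LinearMap.ker T).dualAnnihilator := by
    rw [Submodule.mem_dualAnnihilator]
    intro v hv
    rw [LinearMap.mem_ker] at hv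
    obtain ⟨c, hc⟩ := h (v.support.biUnion fun p => {p.1, p.2, p.1 * p.2})
    let C : (G →₀ ℝ) →ₗ[ℝ] ℝ := Finsupp.linearCombination ℝ c
    have h1 : W v = C (T v) := by
      simp only [W, T, Finsupp.linearCombination_apply, Finsupp.sum]
      rw [map_sum]
      refine Finset.sum_congr rfl fun p hp => ?_
      have h2 : w p.1 p.2 = c p.1 + c p.2 - c (p.1 * p.2) := by
        apply hc
        · exact Finset.mem_biUnion.2 ⟨p, hp, by simp⟩
        · exact Finset.mem_biUnion.2 ⟨p, hp, by simp⟩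
        · exact Finset.mem_biUnion.2 ⟨p, hp, by simp⟩
      rw [map_smul, h2, map_sub, map_add]
      simp [C]
    rw [h1, hv, map_zero]
  rw [← LinearMap.range_dualMap_eq_dualAnnihilator_ker] at hW
  obtain ⟨φ, hφ⟩ := hW
  refine ⟨fun g => φ (Finsupp.single g 1), fun g k => ?_⟩
  have h1 : W (Finsupp.single (g, k) 1) = w g k := by simp [W]
  have h2 : T (Finsupp.single (g, k) 1) =
      Finsupp.single g 1 + Finsupp.single k 1 - Finsupp.single (g * k) 1 := by simp [T]
  rw [← h1, ← hφ, LinearMap.dualMap_apply, h2, map_sub, map_add]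

end Pool.Agent.LibCS15
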