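import Pool.Agent.LibCS15.Defs
set_option autoImplicit false
namespace Pool.Agent.LibCS15
open Topology Filter

variable {E : Type} [NormedAddCommGroup E] [InnerProductSpace ℂ E] [CompleteSpace E]

private theorem compact_norm_sq (T : E →L[ℂ] E) (x : E) :
    ‖(star T : E →L[ℂ] E) x‖ ^ 2 ≤ ‖T ((star T : E →L[ℂ] E) x)‖ * ‖x‖ := by
  have h1 : inner ℂ ((star T : E →L[ℂ] E) x) ((star T : E →L[ℂ] E) x) =
      inner ℂ (T ((star T : E →L[ℂ] E) x)) x := by
    rw [ContinuousLinearMap.star_eq_adjoint, ContinuousLinearMap.adjoint_inner_right]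
  have h2 : ‖(star T : E →L[ℂ] E) x‖ ^ 2 =
      ‖inner ℂ ((star T : E →L[ℂ] E) x) ((star T : E →L[ℂ] E) x)‖ := by
    rw [inner_self_eq_norm_sq_to_K]
    simp
  rw [h2, h1]
  exact norm_inner_le_norm _ _

/-- the adjoint of a compact operator is compact (Schauder; on a Hilbert space:
`‖star T ξ‖² ≤ ‖T (star T ξ)‖ ‖ξ‖`, so a sequence `ξ n` in the ball with `T (star T (ξ n))` Cauchy has `star T (ξ n)` Cauchy) -/
theorem compact_star {T : E →L[ℂ] E} (hT : IsCompactOperator T) :
    IsCompactOperator (star T : E →L[ℂ] E) := by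
  have hTT : IsCompactOperator (T ∘L (star T : E →L[ℂ] E)) := hT.comp_clm _
  have hK : IsCompact (closure ((T ∘L (star T : E →L[ℂ] E)) '' Metric.closedBall 0 1)) :=
    IsCompactOperator.isCompact_closure_image_closedBall (f := (T ∘L (star T : E →L[ℂ] E)).toLinearMap) hTT 1
  have htb : TotallyBounded ((T ∘L (star T : E →L[ℂ] E)) '' Metric.closedBall 0 1) :=
    hK.totallyBounded.subset subset_closure
  have h1 : TotallyBounded ((star T : E →L[ℂ] E) '' Metric.closedBall 0 1) := by
    rw [Metric.totallyBounded_iff]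
    intro ε hε
    have hδ : 0 < ε ^ 2 / 2 := by positivity
    obtain ⟨t, hts, htf, htc⟩ := totallyBounded_iff_subset.1 htb
      {p : E × E | dist p.1 p.2 < ε ^ 2 / 2} (Metric.dist_mem_uniformity hδ)
    have hpre : ∀ y : E, ∃ z : E, y ∈ t → z ∈ Metric.closedBall (0 : E) 1 ∧
        (T ∘L (star T : E →L[ℂ] E)) z = y := by
      intro y
      by_cases hy : y ∈ t
      · obtain ⟨z, hz1, hz2⟩ := hts hy
        exact ⟨z, fun _ => ⟨hz1, hz2⟩⟩
      · exact ⟨0, fun h => absurd h hy⟩
    choose g hg using hpre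
    refine ⟨(fun y => (star T : E →L[ℂ] E) (g y)) '' t, htf.image _, ?_⟩
    rintro _ ⟨x, hx, rfl⟩
    have h2 := htc (Set.mem_image_of_mem (T ∘L (star T : E →L[ℂ] E)) hx)
    simp only [Set.mem_iUnion, Set.mem_setOf_eq] at h2
    obtain ⟨y, hy, hd⟩ := h2
    obtain ⟨hgy1, hgy2⟩ := hg y hy
    simp only [Set.mem_iUnion]
    refine ⟨(star T : E →L[ℂ] E) (g y), Set.mem_image_of_mem _ hy, ?_⟩
    rw [Metric.mem_ball, dist_eq_norm, ← map_sub]
    rw [← hgy2, dist_eq_norm, ← map_sub] at hd
    have h3 := compact_norm_sq T (x - g y)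
    have h4 : ‖x - g y‖ ≤ 2 := by
      have ha : ‖x‖ ≤ 1 := by simpa using hx
      have hb : ‖g y‖ ≤ 1 := by simpa using hgy1
      exact (norm_sub_le _ _).trans (by linarith)
    have h5 : ‖T ((star T : E →L[ℂ] E) (x - g y))‖ < ε ^ 2 / 2 := hd
    have h6 : ‖(star T : E →L[ℂ] E) (x - g y)‖ ^ 2 < ε ^ 2 := by
      calc ‖(star T : E →L[ℂ] E) (x - g y)‖ ^ 2
          ≤ ‖T ((star T : E →L[ℂ] E) (x - g y))‖ * ‖x - g y‖ := h3
        _ ≤ ‖T ((star T : E →L[ℂ] E) (x - g y))‖ * 2 :=
            mul_le_mul_of_nonneg_left h4 (norm_nonneg _)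
        _ < ε ^ 2 / 2 * 2 := by linarith
        _ = ε ^ 2 := by ring
    exact lt_of_pow_lt_pow_left₀ 2 hε.le h6
  refine ⟨closure ((star T : E →L[ℂ] E) '' Metric.closedBall 0 1), ?_, ?_⟩
  · exact isCompact_iff_totallyBounded_isComplete.2 ⟨h1.closure, isClosed_closure.isComplete⟩
  · refine Filter.mem_of_superset (Metric.closedBall_mem_nhds (0 : E) one_pos) ?_
    intro x hx
    exact subset_closure (Set.mem_image_of_mem _ hx)

/-- the compact operators form a closed ideal of `B(E)` (`isClosed_setOf_isCompactOperator`) -/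
theorem isClosedIdeal_compact :
    IsClosedIdeal {T : E →L[ℂ] E | IsCompactOperator T} := by
  refine ⟨?_, ?_, ?_, ?_, ?_, ?_, ?_⟩
  · exact isClosed_setOfPred_isCompactOperator
  · exact isCompactOperator_zero
  · intro x hx y hy
    exact IsCompactOperator.add hx hy
  · intro c x hx
    exact IsCompactOperator.smul hx c
  · intro b x hx
    exact IsCompactOperator.clm_comp hx b
  · intro b x hx
    exact IsCompactOperator.comp_clm hx b
  · intro x hx
    exact compact_star hx

/-- compact operators send orthonormal sequences to null sequences -/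
theorem compact_orthonormal {T : E →L[ℂ] E} (hT : IsCompactOperator T) {v : ℕ → E}
    (hv : Orthonormal ℂ v) : Tendsto (fun n => T (v n)) atTop (𝓝 0) := by
  have hK : IsCompact (closure (T '' Metric.closedBall 0 1)) :=
    IsCompactOperator.isCompact_closure_image_closedBall (f := T.toLinearMap) hT 1
  refine tendsto_of_subseq_tendsto fun ns hns => ?_
  have hmem : ∀ k, T (v (ns k)) ∈ closure (T '' Metric.closedBall 0 1) := fun k =>
    subset_closure (Set.mem_image_of_mem _ (by
      rw [mem_closedBall_zero_iff, hv.1]))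
  obtain ⟨y, -, φ, hφ, hy⟩ := hK.tendsto_subseq hmem
  refine ⟨φ, ?_⟩
  have hy' : Tendsto (fun k => T (v (ns (φ k)))) atTop (𝓝 y) := hy
  have h1 : Tendsto (fun n => inner ℂ (v n) ((star T : E →L[ℂ] E) y)) atTop (𝓝 0) := by
    have h2 := (hv.inner_products_summable ((star T : E →L[ℂ] E) y)).tendsto_atTop_zero
    rw [tendsto_zero_iff_norm_tendsto_zero]
    have h3 := h2.sqrt
    simpa using h3
  have h2 : Tendsto (fun k => inner ℂ (T (v (ns (φ k)))) y) atTop (𝓝 0) := by
    have h3 := h1.comp (hns.comp hφ.tendsto_atTop)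
    refine h3.congr fun k => ?_
    simp only [Function.comp_apply]
    rw [ContinuousLinearMap.star_eq_adjoint, ContinuousLinearMap.adjoint_inner_right]
  have h3 : Tendsto (fun k => inner ℂ (T (v (ns (φ k)))) y) atTop (𝓝 (inner ℂ y y)) :=
    hy'.inner tendsto_const_nhds
  have h4 : inner ℂ y y = 0 := tendsto_nhds_unique h3 h2
  have h5 : y = 0 := inner_self_eq_zero.1 h4
  rw [h5] at hy'
  exact hy'

end Pool.Agent.LibCS15
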