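import Mathlib

/-!
# `C*`-stable groups: definitions

* `IsClosedIdeal J`: `J` is a norm closed two-sided ideal of the `C*`-algebra `B`.
* `IsHomMod J φ`: the map `φ : A → B` is a `*`-homomorphism modulo `J`, i.e. it induces a
  `*`-homomorphism `A → B / J` (every `*`-homomorphism `A → B / J` arises in this way).
* `Semiprojective A`: Blackadar's semiprojectivity.
* `IsFullGroupCStarAlgebra G A u`: `A` is the full group `C*`-algebra of `G`, with canonical
  unitaries `u g`, characterised by its universal property.
* `CStarStable G`: the full group `C*`-algebra of `G` is semiprojective.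
-/

set_option autoImplicit false

namespace Pool.Agent.LibCS15

open Topology

/-- norm closed two-sided ideals of a (possibly non-unital) `C*`-algebra (closed two-sided ideals
are automatically closed under `star`; this is included for convenience) -/
structure IsClosedIdeal {B : Type} [NonUnitalCStarAlgebra B] (J : Set B) : Prop where
  isClosed : IsClosed J
  zero_mem : (0 : B) ∈ J
  add_mem : ∀ x ∈ J, ∀ y ∈ J, x + y ∈ J
  smul_mem : ∀ (c : ℂ), ∀ x ∈ J, c • x ∈ J
  mul_mem_left : ∀ (b : B), ∀ x ∈ J, b * x ∈ J
  mul_mem_right : ∀ (b : B), ∀ x ∈ J, x * b ∈ J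
  star_mem : ∀ x ∈ J, star x ∈ J

/-- `φ : A → B` is a `*`-homomorphism modulo the ideal `J`: it induces a `*`-homomorphism
`A → B / J` -/
structure IsHomMod {A B : Type} [NonUnitalCStarAlgebra A] [NonUnitalCStarAlgebra B]
    (J : Set B) (φ : A → B) : Prop where
  map_add : ∀ x y, φ (x + y) - (φ x + φ y) ∈ J
  map_smul : ∀ (c : ℂ) (x : A), φ (c • x) - c • φ x ∈ J
  map_mul : ∀ x y, φ (x * y) - φ x * φ y ∈ J
  map_star : ∀ x, φ (star x) - star (φ x) ∈ J

/-- Semiprojective `C*`-algebras: for every separable `C*`-algebra `B`, every increasing sequence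
of closed two-sided ideals `J n` of `B`, and every `*`-homomorphism `φ : A → B / J`, where `J` is the
closure of the union of the `J n`, there are `n` and a `*`-homomorphism `ψ : A → B / J n` whose
composition with `B / J n → B / J` is `φ`. -/
def Semiprojective (A : Type) [NonUnitalCStarAlgebra A] : Prop :=
  ∀ (B : Type) [NonUnitalCStarAlgebra B] [TopologicalSpace.SeparableSpace B] (J : ℕ → Set B),
    (∀ n, IsClosedIdeal (J n)) → Monotone J →
    ∀ φ : A → B, IsHomMod (closure (⋃ n, J n)) φ →
      ∃ (n : ℕ) (ψ : A → B), IsHomMod (J n) ψ ∧ ∀ x, ψ x - φ x ∈ closure (⋃ n, J n)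

/-- `A`, together with the homomorphism `u` from `G` to the unitary group of `A`, is the full group
`C*`-algebra of `G`: every homomorphism from `G` to the unitary group of a unital `C*`-algebra `D`
extends uniquely to a unital `*`-homomorphism `A → D` -/
def IsFullGroupCStarAlgebra (G : Type) [Group G] (A : Type) [CStarAlgebra A]
    (u : G →* unitary A) : Prop :=
  ∀ (D : Type) [CStarAlgebra D] (v : G →* unitary D),
    ∃! Φ : A →⋆ₐ[ℂ] D, ∀ g, Φ (u g : A) = (v g : D)

/-- the group `G` is `C*`-stable: its full group `C*`-algebra is semiprojective -/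
def CStarStable (G : Type) [Group G] : Prop :=
  ∃ (A : Type) (_ : CStarAlgebra A) (u : G →* unitary A),
    IsFullGroupCStarAlgebra G A u ∧ Semiprojective A

end Pool.Agent.LibCS15
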