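import Mathlib

/-!
# Elementary amenable groups

The smallest class of groups containing the finite groups and the abelian groups and closed under extensions and directed unions.
-/

set_option autoImplicit false

namespace Pool.Agent.LibCS15

/-- elementary amenable groups: the smallest class of groups which contains the finite and the abelian groups and is closed under
extensions and under unions of directed families of subgroups (it is then closed under subgroups and quotients, too) -/
inductive ElementaryAmenable : ∀ (G : Type) [Group G], Prop
  | of_finite (G : Type) [Group G] [Finite G] : ElementaryAmenable G
  | of_comm (G : Type) [Group G] (h : ∀ a b : G, a * b = b * a) : ElementaryAmenable G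
  | of_extension (G : Type) [Group G] (K : Subgroup G) [K.Normal] :
      ElementaryAmenable K → ElementaryAmenable (G ⧸ K) → ElementaryAmenable G
  | of_union (G : Type) [Group G] (ι : Type) (K : ι → Subgroup G)
      (hdir : ∀ i j, ∃ k, K i ≤ K k ∧ K j ≤ K k) (htop : ∀ g : G, ∃ i, g ∈ K i) :
      (∀ i, ElementaryAmenable (K i)) → ElementaryAmenable G

end Pool.Agent.LibCS15
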