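import Pool.Agent.LibCS15.Main
set_option autoImplicit false
namespace Pool.Agent.LibCS15
open Topology Filter

private theorem Dep_pow {H : Type} [Group H] {b : H → ℝ} (hb : ∀ g h, b (g * h) = b g + b h)
    (g : H) (n : ℕ) : b (g ^ n) = n * b g := by
  induction n with
  | zero => rw [pow_zero, add_one hb]; simp
  | succ n ih => rw [pow_succ, hb, ih]; push_cast; ring

/-- a power of every element of `N` lies in the normal core of `H` and in `S` -/
private theorem Dep_exists {G : Type} [Group G] (H : Subgroup G)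
    [H.FiniteIndex] (N : Subgroup H) (S : Subgroup N) [S.FiniteIndex] (x : H) (hx : x ∈ N) :
    ∃ p : ℕ, 0 < p ∧ ((x ^ p : H) : G) ∈ H.normalCore ∧ x ^ p ∈ S.map N.subtype := by
  obtain ⟨k₁, hk₁, -, h1⟩ := Subgroup.exists_pow_mem_of_index_ne_zero
    (H := S) Subgroup.FiniteIndex.index_ne_zero (⟨x, hx⟩ : N)
  obtain ⟨k₂, hk₂, -, h2⟩ := Subgroup.exists_pow_mem_of_index_ne_zero
    (H := H.normalCore) Subgroup.FiniteIndex.index_ne_zero (x : G)
  refine ⟨k₁ * k₂, Nat.mul_pos hk₁ hk₂, ?_, ?_⟩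
  · rw [mul_comm, pow_mul]
    push_cast
    exact Subgroup.pow_mem _ h2 k₁
  · refine ⟨(⟨x, hx⟩ : N) ^ (k₁ * k₂), ?_, ?_⟩
    · rw [pow_mul]
      exact Subgroup.pow_mem _ h1 k₂
    · rw [map_pow]
      rfl

/-- from `main_contra`: pass to the normal core of `H`, to powers of `x` and `y` and to linear combinations of `b₁` and `b₂` -/
theorem dependent {G : Type} [Group G] [Countable G] (hG : CStarStable G) (H : Subgroup G)
    [H.FiniteIndex] (N : Subgroup H) (S : Subgroup N) [S.FiniteIndex] (hS : Group.IsSolvable S)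
    (b₁ b₂ : H → ℝ) (hb₁ : ∀ g h, b₁ (g * h) = b₁ g + b₁ h)
    (hb₂ : ∀ g h, b₂ (g * h) = b₂ g + b₂ h) (x y : H) (hx : x ∈ N) (hy : y ∈ N) :
    b₁ x * b₂ y = b₁ y * b₂ x := by
  by_contra hne
  have hd : b₁ x * b₂ y - b₁ y * b₂ x ≠ 0 := sub_ne_zero.2 hne
  obtain ⟨p, hp, hpc, hpS⟩ := Dep_exists H N S x hx
  obtain ⟨q, hq, hqc, hqS⟩ := Dep_exists H N S y hy
  have hp' : (p : ℝ) ≠ 0 := by exact_mod_cast hp.ne'
  have hq' : (q : ℝ) ≠ 0 := by exact_mod_cast hq.ne'
  let inc : H.normalCore →* H := Subgroup.inclusion (Subgroup.normalCore_le H)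
  let x' : H.normalCore := ⟨((x ^ p : H) : G), hpc⟩
  let y' : H.normalCore := ⟨((y ^ q : H) : G), hqc⟩
  have hix : inc x' = x ^ p := Subtype.ext rfl
  have hiy : inc y' = y ^ q := Subtype.ext rfl
  have hle : (Subgroup.closure {x', y'} : Subgroup H.normalCore) ≤
      (S.map N.subtype).comap inc := by
    rw [Subgroup.closure_le]
    rintro z (rfl | hz)
    · change inc x' ∈ S.map N.subtype
      rw [hix]
      exact hpS
    · rw [Set.mem_singleton_iff] at hz
      subst hz
      change inc y' ∈ S.map N.subtype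
      rw [hiy]
      exact hqS
  have hsol : Group.IsSolvable (Subgroup.closure {x', y'} : Subgroup H.normalCore) := by
    have := hS
    have h1 : Group.IsSolvable (S.map N.subtype) :=
      Group.isSolvable_of_surjective (N.subtype.subgroupMap_surjective S)
    let f : (Subgroup.closure {x', y'} : Subgroup H.normalCore) →* S.map N.subtype :=
      (inc.comp (Subgroup.closure {x', y'} : Subgroup H.normalCore).subtype).codRestrict _
        (fun z => hle z.2)
    have hf : Function.Injective f := by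
      intro z w hzw
      have h2 : inc (z : H.normalCore) = inc (w : H.normalCore) := congrArg Subtype.val hzw
      exact Subtype.ext (Subgroup.inclusion_injective _ h2)
    exact Group.isSolvable_of_isSolvable_injective hf
  refine main_contra hG H.normalCore x' y' hsol
    (fun h => (b₂ (y ^ q) * b₁ (inc h) - b₁ (y ^ q) * b₂ (inc h)) /
      (p * q * (b₁ x * b₂ y - b₁ y * b₂ x)))
    (fun h => (b₁ (x ^ p) * b₂ (inc h) - b₂ (x ^ p) * b₁ (inc h)) /
      (p * q * (b₁ x * b₂ y - b₁ y * b₂ x))) ?_ ?_ ?_ ?_ ?_ ?_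
  · intro g h
    simp only [map_mul, hb₁, hb₂]
    ring
  · intro g h
    simp only [map_mul, hb₁, hb₂]
    ring
  · simp only [hix, Dep_pow hb₁, Dep_pow hb₂]
    rw [div_eq_one_iff_eq (mul_ne_zero (mul_ne_zero hp' hq') hd)]
    ring
  · simp only [hix, Dep_pow hb₁, Dep_pow hb₂]
    rw [div_eq_zero_iff]
    left
    ring
  · simp only [hiy, Dep_pow hb₁, Dep_pow hb₂]
    rw [div_eq_zero_iff]
    left
    ring
  · simp only [hiy, Dep_pow hb₁, Dep_pow hb₂]
    rw [div_eq_one_iff_eq (mul_ne_zero (mul_ne_zero hp' hq') hd)]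
    ring

end Pool.Agent.LibCS15
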