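import Pool.Agent.LibCS15.NearOne
set_option autoImplicit false
namespace Pool.Agent.LibCS15
open Topology Filter

variable {E : Type} [NormedAddCommGroup E] [InnerProductSpace ℂ E] [CompleteSpace E]

/-- elements of `S` whose images under `π` are within `1/4` of `1` have commuting images -/
def NC {Γ : Type} [Group Γ] (π : Γ →* unitary (E →L[ℂ] E)) (S : Subgroup Γ) : Prop :=
  ∀ a ∈ S, ∀ b ∈ S, ‖((π a : unitary (E →L[ℂ] E)) : E →L[ℂ] E) - 1‖ < 1 / 4 →
    ‖((π b : unitary (E →L[ℂ] E)) : E →L[ℂ] E) - 1‖ < 1 / 4 → π a * π b = π b * π a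

/-- abelian quotients -/
theorem nc_comm {Γ : Type} [Group Γ] (π : Γ →* unitary (E →L[ℂ] E)) (K : Subgroup Γ) [K.Normal]
    (hK : ∀ a b : Γ, a * b * a⁻¹ * b⁻¹ ∈ K) (h : NC π K) : NC π ⊤ := by
  intro a _ b _ ha hb
  set c : Γ := a * b * a⁻¹ * b⁻¹ with hc
  have hcK : c ∈ K := hK a b
  have hcK' : a * c * a⁻¹ ∈ K := Subgroup.Normal.conj_mem inferInstance c hcK a
  have hcn : ‖((π c : unitary (E →L[ℂ] E)) : E →L[ℂ] E) - 1‖ < 1 / 4 := by
    have h1 := norm_comm_sub_one (π a) (π b)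
    have h2 : π c = π a * π b * (π a)⁻¹ * (π b)⁻¹ := by simp [hc]
    rw [← h2] at h1
    have h3 := norm_nonneg ((π a : E →L[ℂ] E) - 1)
    have h4 := norm_nonneg ((π b : E →L[ℂ] E) - 1)
    nlinarith
  have hcn' : ‖((π (a * c * a⁻¹) : unitary (E →L[ℂ] E)) : E →L[ℂ] E) - 1‖ < 1 / 4 := by
    have h2 : π (a * c * a⁻¹) = π a * π c * (π a)⁻¹ := by simp
    rw [h2, norm_conj_sub_one]
    exact hcn
  have h1 := h c hcK _ hcK' hcn hcn'
  have h2 : π c * π a = π a * π c := by
    refine commute_of_near (a := π c) (b := π a) (by linarith) ?_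
    have h3 : π (a * c * a⁻¹) = π a * π c * (π a)⁻¹ := by simp
    rw [h3] at h1
    have h4 : Commute (π c) (π a * π c * (π a)⁻¹) := h1
    exact (h4.symm.mul_left (Commute.refl (π c)).inv_left).eq
  refine commute_of_near (a := π a) (b := π b) (by linarith) ?_
  have h5 : π b * π a * (π b)⁻¹ * (π a)⁻¹ = (π c)⁻¹ := by
    have : π c = π a * π b * (π a)⁻¹ * (π b)⁻¹ := by simp [hc]
    rw [this]; group
  rw [h5]
  have h6 : Commute (π c) (π a) := h2
  exact h6.inv_left.eq

/-- the iterated commutators -/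
def iter {Γ : Type} [Group Γ] (a b : Γ) : ℕ → Γ
  | 0 => b
  | n + 1 => a * iter a b n * a⁻¹ * (iter a b n)⁻¹

/-- finite quotients -/
theorem nc_finite {Γ : Type} [Group Γ] (π : Γ →* unitary (E →L[ℂ] E)) {Q : Type} [Group Q] [Finite Q]
    (f : Γ →* Q) (h : NC π f.ker) : NC π ⊤ := by
  intro a _ b _ ha hb
  have hstep : ∀ n, ‖((π (iter a b (n + 1)) : unitary (E →L[ℂ] E)) : E →L[ℂ] E) - 1‖ ≤
      1 / 2 * ‖((π (iter a b n) : unitary (E →L[ℂ] E)) : E →L[ℂ] E) - 1‖ := by
    intro n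
    have h1 := norm_comm_sub_one (π a) (π (iter a b n))
    have h2 : π (iter a b (n + 1)) = π a * π (iter a b n) * (π a)⁻¹ * (π (iter a b n))⁻¹ := by
      simp [iter]
    rw [← h2] at h1
    have h3 := norm_nonneg ((π a : E →L[ℂ] E) - 1)
    have h4 := norm_nonneg ((π (iter a b n) : E →L[ℂ] E) - 1)
    nlinarith
  have hsm : ∀ n, ‖((π (iter a b n) : unitary (E →L[ℂ] E)) : E →L[ℂ] E) - 1‖ ≤ 1 / 4 := by
    intro n
    induction n with
    | zero => exact hb.le
    | succ n ih => have := hstep n; linarith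
  have hmono : ∀ n k, ‖((π (iter a b (n + k)) : unitary (E →L[ℂ] E)) : E →L[ℂ] E) - 1‖ ≤
      ‖((π (iter a b n) : unitary (E →L[ℂ] E)) : E →L[ℂ] E) - 1‖ := by
    intro n k
    induction k with
    | zero => exact le_rfl
    | succ k ih =>
      have := hstep (n + k)
      have h4 := norm_nonneg ((π (iter a b (n + k)) : E →L[ℂ] E) - 1)
      rw [← add_assoc]
      linarith
  obtain ⟨k, l, hkl, hfk⟩ : ∃ k l : ℕ, k < l ∧ f (iter a b (k + 1)) = f (iter a b (l + 1)) := by
    obtain ⟨k, l, hne, hkl⟩ := Finite.exists_ne_map_eq_of_infinite (fun n : ℕ => f (iter a b (n + 1)))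
    rcases lt_or_gt_of_ne hne with h1 | h1
    · exact ⟨k, l, h1, hkl⟩
    · exact ⟨l, k, h1, hkl.symm⟩
  set c : Γ := iter a b (k + 1) with hc
  set d : Γ := iter a b (l + 1) with hd
  set z : Γ := c * d⁻¹ with hz
  have hzK : z ∈ f.ker := by
    rw [MonoidHom.mem_ker, hz, map_mul, map_inv, hfk, mul_inv_cancel]
  have hcn : ‖((π c : unitary (E →L[ℂ] E)) : E →L[ℂ] E) - 1‖ ≤ 1 / 8 := by
    have := hstep k
    have h2 := hsm k
    rw [← hc] at this
    linarith
  have hdn : ‖((π d : unitary (E →L[ℂ] E)) : E →L[ℂ] E) - 1‖ ≤ 1 / 16 := by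
    have h1 := hstep l
    rw [← hd] at h1
    obtain ⟨m, rfl⟩ : ∃ m, l = (k + 1) + m := ⟨l - (k + 1), by omega⟩
    have h2 := hmono (k + 1) m
    rw [← hc] at h2
    linarith
  have hzn : ‖((π z : unitary (E →L[ℂ] E)) : E →L[ℂ] E) - 1‖ < 1 / 4 := by
    have h1 : ‖((π z : unitary (E →L[ℂ] E)) : E →L[ℂ] E) - 1‖ =
        ‖((π c : unitary (E →L[ℂ] E)) : E →L[ℂ] E) - (π d : E →L[ℂ] E)‖ := by
      have h2 : π z = π c * (π d)⁻¹ := by simp [hz]
      have h3 : ((π c : unitary (E →L[ℂ] E)) : E →L[ℂ] E) - (π d : E →L[ℂ] E) =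
          (((π c * (π d)⁻¹ : unitary (E →L[ℂ] E)) : E →L[ℂ] E) - 1) * (π d : E →L[ℂ] E) := by
        rw [sub_mul, one_mul]
        congr 1
        rw [← Submonoid.coe_mul]
        simp
      rw [h3, CStarRing.norm_mul_coe_unitary, h2]
    rw [h1]
    have h4 : ‖((π c : unitary (E →L[ℂ] E)) : E →L[ℂ] E) - (π d : E →L[ℂ] E)‖ ≤
        ‖((π c : unitary (E →L[ℂ] E)) : E →L[ℂ] E) - 1‖ + ‖((π d : unitary (E →L[ℂ] E)) : E →L[ℂ] E) - 1‖ := by
      have := norm_sub_le (((π c : unitary (E →L[ℂ] E)) : E →L[ℂ] E) - 1) ((π d : E →L[ℂ] E) - 1)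
      rwa [sub_sub_sub_cancel_right] at this
    linarith
  have haz : π a * π z = π z * π a := by
    have hzK' : a * z * a⁻¹ ∈ f.ker := Subgroup.Normal.conj_mem inferInstance z hzK a
    have hzn' : ‖((π (a * z * a⁻¹) : unitary (E →L[ℂ] E)) : E →L[ℂ] E) - 1‖ < 1 / 4 := by
      have h2 : π (a * z * a⁻¹) = π a * π z * (π a)⁻¹ := by simp
      rw [h2, norm_conj_sub_one]
      exact hzn
    have h1 := h z hzK _ hzK' hzn hzn'
    have h2 : π z * π a = π a * π z := by
      refine commute_of_near (a := π z) (b := π a) (by linarith) ?_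
      have h3 : π (a * z * a⁻¹) = π a * π z * (π a)⁻¹ := by simp
      rw [h3] at h1
      have h4 : Commute (π z) (π a * π z * (π a)⁻¹) := h1
      exact (h4.symm.mul_left (Commute.refl (π z)).inv_left).eq
    exact h2.symm
  -- the next commutator is trivial
  have hnext : π (iter a b (k + 2)) = 1 := by
    have h1 : π (iter a b (k + 2)) = π z * π (iter a b (l + 2)) * (π z)⁻¹ := by
      have e1 : π (iter a b (k + 2)) = π a * π c * (π a)⁻¹ * (π c)⁻¹ := by
        simp [hc, iter]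
      have e2 : π (iter a b (l + 2)) = π a * π d * (π a)⁻¹ * (π d)⁻¹ := by
        simp [hd, iter]
      have e3 : π c = π z * π d := by simp [hz]
      rw [e1, e2, e3]
      have e4 : π a * (π z * π d) = π z * (π a * π d) := by
        rw [← mul_assoc, haz, mul_assoc]
      rw [e4]
      group
    have h2 : ‖((π (iter a b (k + 2)) : unitary (E →L[ℂ] E)) : E →L[ℂ] E) - 1‖ =
        ‖((π (iter a b (l + 2)) : unitary (E →L[ℂ] E)) : E →L[ℂ] E) - 1‖ := by
      rw [h1, norm_conj_sub_one]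
    have h3 : ‖((π (iter a b (l + 2)) : unitary (E →L[ℂ] E)) : E →L[ℂ] E) - 1‖ ≤
        1 / 2 * ‖((π (iter a b (k + 2)) : unitary (E →L[ℂ] E)) : E →L[ℂ] E) - 1‖ := by
      have h4 := hstep (l + 1)
      obtain ⟨m, rfl⟩ : ∃ m, l = (k + 1) + m := ⟨l - (k + 1), by omega⟩
      have h5 := hmono (k + 2) m
      have h6 : k + 2 + m = k + 1 + m + 1 := by omega
      rw [h6] at h5
      linarith
    have h4 := norm_nonneg ((π (iter a b (k + 2)) : E →L[ℂ] E) - 1)
    have h5 : ‖((π (iter a b (k + 2)) : unitary (E →L[ℂ] E)) : E →L[ℂ] E) - 1‖ = 0 := by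
      linarith
    exact Subtype.ext (sub_eq_zero.1 (norm_eq_zero.1 h5))
  -- descend
  have hdesc : ∀ n, π a * π (iter a b (n + 1)) = π (iter a b (n + 1)) * π a →
      π a * π (iter a b n) = π (iter a b n) * π a := by
    intro n hn
    refine commute_of_near (a := π a) (b := π (iter a b n)) (by have := hsm n; linarith) ?_
    have h5 : π (iter a b n) * π a * (π (iter a b n))⁻¹ * (π a)⁻¹ = (π (iter a b (n + 1)))⁻¹ := by
      have : π (iter a b (n + 1)) = π a * π (iter a b n) * (π a)⁻¹ * (π (iter a b n))⁻¹ := by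
        simp [iter]
      rw [this]; group
    rw [h5]
    have h6 : Commute (π (iter a b (n + 1))) (π a) := hn.symm
    exact h6.inv_left.eq
  have hfin : ∀ n, π a * π (iter a b n) = π (iter a b n) * π a → π a * π b = π b * π a := by
    intro n
    induction n with
    | zero => exact id
    | succ n ih => exact fun hn => ih (hdesc n hn)
  exact hfin (k + 2) (by rw [hnext, mul_one, one_mul])

/-- elementary amenable quotients -/
theorem nc_ea (Q : Type) [Group Q] (hQ : ElementaryAmenable Q) :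
    ∀ (Γ : Type) [Group Γ] (f : Γ →* Q) (π : Γ →* unitary (E →L[ℂ] E)), NC π f.ker → NC π ⊤ := by
  induction hQ with
  | of_finite G => exact fun Γ _ f π h => nc_finite π f h
  | of_comm G hG =>
    intro Γ _ f π h
    refine nc_comm π f.ker (fun a b => ?_) h
    rw [MonoidHom.mem_ker]
    simp only [map_mul, map_inv]
    rw [hG (f a) (f b)]
    group
  | of_extension G K _ _ ih1 ih2 =>
    intro Γ _ f π h
    let q : Γ →* G ⧸ K := (QuotientGroup.mk' K).comp f
    have hq : ∀ x : q.ker, f x ∈ K := by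
      intro x
      have h1 : q x = 1 := x.2
      have h2 : ((f x : G) : G ⧸ K) = 1 := h1
      rwa [QuotientGroup.eq_one_iff] at h2
    let f' : q.ker →* K := (f.comp q.ker.subtype).codRestrict K hq
    have h1 := ih1 q.ker f' (π.comp q.ker.subtype) (by
      intro a ha b hb hna hnb
      refine h a ?_ b ?_ hna hnb
      · have h2 : f' a = 1 := ha
        exact congrArg Subtype.val h2
      · have h2 : f' b = 1 := hb
        exact congrArg Subtype.val h2)
    refine ih2 Γ q π ?_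
    intro a ha b hb hna hnb
    exact h1 ⟨a, ha⟩ trivial ⟨b, hb⟩ trivial hna hnb
  | of_union G ι K hdir htop _ ih =>
    intro Γ _ f π h a _ b _ hna hnb
    obtain ⟨i, hi⟩ := htop (f a)
    obtain ⟨j, hj⟩ := htop (f b)
    obtain ⟨k, hik, hjk⟩ := hdir i j
    let Γ' : Subgroup Γ := (K k).comap f
    let f' : Γ' →* K k := (f.comp Γ'.subtype).codRestrict (K k) (fun x => x.2)
    have h1 := ih k Γ' f' (π.comp Γ'.subtype) (by
      intro a ha b hb hna hnb
      refine h a ?_ b ?_ hna hnb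
      · have h2 : f' a = 1 := ha
        exact congrArg Subtype.val h2
      · have h2 : f' b = 1 := hb
        exact congrArg Subtype.val h2)
    exact h1 ⟨a, hik hi⟩ trivial ⟨b, hjk hj⟩ trivial hna hnb

/-- unitary representations of elementary amenable groups: elements whose images are within `1/4` of `1` have commuting images -/
theorem ea_near_commute {N : Type} [Group N] (hN : ElementaryAmenable N)
    (π : N →* unitary (E →L[ℂ] E)) (a b : N)
    (ha : ‖((π a : unitary (E →L[ℂ] E)) : E →L[ℂ] E) - 1‖ < 1 / 4)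
    (hb : ‖((π b : unitary (E →L[ℂ] E)) : E →L[ℂ] E) - 1‖ < 1 / 4) : π a * π b = π b * π a := by
  refine nc_ea N hN N (MonoidHom.id N) π ?_ a trivial b trivial ha hb
  intro a ha b hb _ _
  have h1 : a = 1 := ha
  have h2 : b = 1 := hb
  rw [h1, h2]

end Pool.Agent.LibCS15
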