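import Pool.Agent.LibCS15.MainB
import Pool.Agent.LibCS15.NearEA
set_option autoImplicit false
namespace Pool.Agent.LibCS15
open Topology Filter

private theorem DepB_pow {H : Type} [Group H] {b : H → ℝ} (hb : ∀ g h, b (g * h) = b g + b h)
    (g : H) (n : ℕ) : b (g ^ n) = n * b g := by
  induction n with
  | zero => rw [pow_zero, add_one hb]; simp
  | succ n ih => rw [pow_succ, hb, ih]; push_cast; ring

/-- homomorphisms to `ℝ` of a finite index subgroup are proportional on elementary amenable subgroups -/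
theorem dependentB {G : Type} [Group G] [Countable G] (hG : CStarStable G) (H : Subgroup G)
    [H.FiniteIndex] (N : Subgroup G) (hN : ElementaryAmenable N)
    (b₁ b₂ : H → ℝ) (hb₁ : ∀ g h, b₁ (g * h) = b₁ g + b₁ h)
    (hb₂ : ∀ g h, b₂ (g * h) = b₂ g + b₂ h) (x y : H) (hx : (x : G) ∈ N) (hy : (y : G) ∈ N) :
    b₁ x * b₂ y = b₁ y * b₂ x := by
  by_contra hne
  have hd : b₁ x * b₂ y - b₁ y * b₂ x ≠ 0 := sub_ne_zero.2 hne
  obtain ⟨p, hp, -, hpc⟩ := Subgroup.exists_pow_mem_of_index_ne_zero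
    (H := H.normalCore) Subgroup.FiniteIndex.index_ne_zero (x : G)
  obtain ⟨q, hq, -, hqc⟩ := Subgroup.exists_pow_mem_of_index_ne_zero
    (H := H.normalCore) Subgroup.FiniteIndex.index_ne_zero (y : G)
  have hp' : (p : ℝ) ≠ 0 := by exact_mod_cast hp.ne'
  have hq' : (q : ℝ) ≠ 0 := by exact_mod_cast hq.ne'
  let inc : H.normalCore →* H := Subgroup.inclusion (Subgroup.normalCore_le H)
  let x' : H.normalCore := ⟨(x : G) ^ p, hpc⟩
  let y' : H.normalCore := ⟨(y : G) ^ q, hqc⟩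
  have hix : inc x' = x ^ p := Subtype.ext rfl
  have hiy : inc y' = y ^ q := Subtype.ext rfl
  refine main_contraB hG H.normalCore x' y' ?_
    (fun h => (b₂ (y ^ q) * b₁ (inc h) - b₁ (y ^ q) * b₂ (inc h)) /
      (p * q * (b₁ x * b₂ y - b₁ y * b₂ x)))
    (fun h => (b₁ (x ^ p) * b₂ (inc h) - b₂ (x ^ p) * b₁ (inc h)) /
      (p * q * (b₁ x * b₂ y - b₁ y * b₂ x))) ?_ ?_ ?_ ?_ ?_ ?_
  · intro π h1 h2
    exact ea_near_commute hN (π.comp N.subtype) ⟨(x : G) ^ p, N.pow_mem hx p⟩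
      ⟨(y : G) ^ q, N.pow_mem hy q⟩ h1 h2
  · intro g h
    simp only [map_mul, hb₁, hb₂]
    ring
  · intro g h
    simp only [map_mul, hb₁, hb₂]
    ring
  · simp only [hix, DepB_pow hb₁, DepB_pow hb₂]
    rw [div_eq_one_iff_eq (mul_ne_zero (mul_ne_zero hp' hq') hd)]
    ring
  · simp only [hix, DepB_pow hb₁, DepB_pow hb₂]
    rw [div_eq_zero_iff]
    left
    ring
  · simp only [hiy, DepB_pow hb₁, DepB_pow hb₂]
    rw [div_eq_zero_iff]
    left
    ring
  · simp only [hiy, DepB_pow hb₁, DepB_pow hb₂]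
    rw [div_eq_one_iff_eq (mul_ne_zero (mul_ne_zero hp' hq') hd)]
    ring

end Pool.Agent.LibCS15
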