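import Mathlib
set_option autoImplicit false
namespace Pool.Agent.LibCS15
open Topology Filter

/-- the homomorphism from the circle to the unitary group of `ℂ` -/
noncomputable def FinQuot_circ : Circle →* unitary ℂ where
  toFun w := ⟨(w : ℂ), by
    have h : star (w : ℂ) * (w : ℂ) = 1 := by
      have h1 : (Complex.normSq (w : ℂ) : ℂ) = 1 := by simp
      rw [← h1, Complex.normSq_eq_conj_mul_self]
      rfl
    rw [Unitary.mem_iff]
    exact ⟨h, by rw [mul_comm]; exact h⟩⟩
  map_one' := by
    apply Subtype.ext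
    simp
  map_mul' a b := by
    apply Subtype.ext
    simp

theorem FinQuot_circ_inj : Function.Injective FinQuot_circ := by
  intro a b h
  have h1 := congrArg (fun t : unitary ℂ => (t : ℂ)) h
  exact Circle.ext h1

/-- the map of the circles -/
noncomputable def FinQuot_add : AddCircle (1 : ℚ) →+ AddCircle (1 : ℝ) :=
  QuotientAddGroup.map _ _ (Rat.castHom ℝ).toAddMonoidHom (by
    intro x hx
    rw [AddSubgroup.mem_zmultiples_iff] at hx
    obtain ⟨k, rfl⟩ := hx
    rw [AddSubgroup.mem_comap, AddSubgroup.mem_zmultiples_iff]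
    exact ⟨k, by simp⟩)

theorem FinQuot_add_inj : Function.Injective FinQuot_add := by
  rw [injective_iff_map_eq_zero]
  intro x hx
  induction x using QuotientAddGroup.induction_on with
  | H z =>
    have h1 : ((((z : ℚ) : ℝ)) : AddCircle (1 : ℝ)) = 0 := hx
    rw [QuotientAddGroup.eq_zero_iff, AddSubgroup.mem_zmultiples_iff] at h1
    obtain ⟨k, hk⟩ := h1
    rw [QuotientAddGroup.eq_zero_iff, AddSubgroup.mem_zmultiples_iff]
    refine ⟨k, ?_⟩
    have h2 : ((k : ℚ) : ℝ) = (z : ℝ) := by simpa using hk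
    have h3 : (k : ℚ) = z := by exact_mod_cast h2
    simpa using h3

/-- the characters of an abelian group separate its points (`CharacterModule.exists_character_apply_ne_zero_of_ne_zero`) -/
theorem exists_char_ne {A : Type} [CommGroup A] {a : A} (ha : a ≠ 1) :
    ∃ χ : A →* unitary ℂ, χ a ≠ 1 := by
  have ha' : (Additive.ofMul a) ≠ 0 := fun h => ha h
  obtain ⟨c, hc⟩ := CharacterModule.exists_character_apply_ne_zero_of_ne_zero ha'
  let T : AddCircle (1 : ℝ) → Circle := AddCircle.toCircle
  have hT0 : T 0 = 1 := AddCircle.toCircle_zero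
  have hTadd : ∀ x y, T (x + y) = T x * T y := AddCircle.toCircle_add
  have hTinj : Function.Injective T := AddCircle.injective_toCircle one_ne_zero
  let ψ : A →* Circle :=
    { toFun := fun x => T (FinQuot_add (c (Additive.ofMul x)))
      map_one' := by
        rw [ofMul_one, map_zero, map_zero, hT0]
      map_mul' := fun x y => by
        rw [ofMul_mul, map_add, map_add, hTadd] }
  refine ⟨FinQuot_circ.comp ψ, ?_⟩
  intro h
  apply hc
  have h1 : ψ a = 1 := FinQuot_circ_inj (by rw [map_one]; exact h)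
  have h2 : T (FinQuot_add (c (Additive.ofMul a))) = T 0 := by
    rw [hT0]
    exact h1
  have h3 := hTinj h2
  exact FinQuot_add_inj (by rw [map_zero]; exact h3)

/-- an infinite abelian group has infinitely many characters: if there are only finitely many, say `n`, then `χ ^ n = 1` for all `χ`, so
`a ^ n = 1` for all `a` and `A` embeds in the finite set of functions from the set of characters to the set of `n`-th roots of unity -/
theorem infinite_chars {A : Type} [CommGroup A] [Infinite A] : Infinite (A →* unitary ℂ) := by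
  by_contra hfin
  rw [not_infinite_iff_finite] at hfin
  set n := Nat.card (A →* unitary ℂ) with hn
  have hn0 : 0 < n := Nat.card_pos
  have hpow : ∀ (χ : A →* unitary ℂ) (a : A), (χ a) ^ n = 1 := by
    intro χ a
    have h1 : χ ^ n = 1 := by
      rw [hn]
      exact pow_card_eq_one' (x := χ)
    have h2 := congrArg (fun f : A →* unitary ℂ => f a) h1
    simpa using h2
  let S : Set ℂ := {z | z ^ n = 1}
  have hS : S.Finite := by
    have h1 : S ⊆ ((Polynomial.nthRoots n (1 : ℂ)).toFinset : Set ℂ) := by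
      intro z hz
      rw [Finset.mem_coe, Multiset.mem_toFinset, Polynomial.mem_nthRoots hn0]
      exact hz
    exact (Finset.finite_toSet _).subset h1
  have hfS : Finite S := hS
  let f : A → ((A →* unitary ℂ) → S) := fun a χ => ⟨(χ a : ℂ), by
    have h1 := congrArg (fun t : unitary ℂ => (t : ℂ)) (hpow χ a)
    change (χ a : ℂ) ^ n = 1
    simpa using h1⟩
  have hf : Function.Injective f := by
    intro a b hab
    by_contra hne
    have h1 : a * b⁻¹ ≠ 1 := fun h => hne (mul_inv_eq_one.1 h)
    obtain ⟨χ, hχ⟩ := exists_char_ne h1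
    apply hχ
    have h2 : (χ a : ℂ) = χ b := by
      have h4 := congrArg (fun t : S => (t : ℂ)) (congrFun hab χ)
      exact h4
    have h3 : χ a = χ b := Subtype.ext h2
    rw [map_mul, map_inv, h3, mul_inv_cancel]
  have : Finite A := Finite.of_injective f hf
  exact not_finite A

/-- small characters -/
theorem FinQuot_small {A : Type} [CommGroup A] [Infinite A] (F : Finset A) (ε : ℝ) (hε : 0 < ε) :
    ∃ χ : A →* unitary ℂ, χ ≠ 1 ∧ ∀ a ∈ F, ‖(χ a : ℂ) - 1‖ < ε := by
  classical
  have hinf : Infinite (A →* unitary ℂ) := infinite_chars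
  have hK : IsCompact (Metric.closedBall (0 : F → ℂ) 1) := isCompact_closedBall _ _
  obtain ⟨t, -, ht, hcov⟩ := hK.finite_cover_balls (half_pos hε)
  have hft : Finite t := ht
  let v : (A →* unitary ℂ) → (F → ℂ) := fun χ a => (χ a : ℂ)
  have hv : ∀ χ, v χ ∈ Metric.closedBall (0 : F → ℂ) 1 := by
    intro χ
    rw [mem_closedBall_zero_iff, pi_norm_le_iff_of_nonneg zero_le_one]
    intro a
    exact (CStarRing.norm_coe_unitary (χ a)).le
  have hex : ∀ χ, ∃ y : t, dist (v χ) y < ε / 2 := by
    intro χ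
    have h1 := hcov (hv χ)
    rw [Set.mem_iUnion₂] at h1
    obtain ⟨y, hy, hy'⟩ := h1
    exact ⟨⟨y, hy⟩, hy'⟩
  choose g hg using hex
  obtain ⟨χ₁, χ₂, hne, he⟩ := Finite.exists_ne_map_eq_of_infinite g
  refine ⟨χ₁ * χ₂⁻¹, fun h => hne (mul_inv_eq_one.1 h), ?_⟩
  intro a ha
  have h1 : dist (v χ₁) (v χ₂) < ε := by
    calc dist (v χ₁) (v χ₂) ≤ dist (v χ₁) (g χ₁) + dist (v χ₂) (g χ₁) := dist_triangle_right _ _ _
      _ < ε / 2 + ε / 2 := by
          refine add_lt_add (hg χ₁) ?_
          rw [he]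
          exact hg χ₂
      _ = ε := add_halves ε
  have h2 : ‖(χ₁ a : ℂ) - χ₂ a‖ < ε := by
    have h3 := dist_le_pi_dist (v χ₁) (v χ₂) ⟨a, ha⟩
    rw [dist_eq_norm] at h3
    exact lt_of_le_of_lt h3 h1
  have h4 : (((χ₁ * χ₂⁻¹) a : unitary ℂ) : ℂ) - 1 =
      ((χ₁ a : ℂ) - χ₂ a) * (((χ₂ a)⁻¹ : unitary ℂ) : ℂ) := by
    have h5 : (χ₂ a : ℂ) * (((χ₂ a)⁻¹ : unitary ℂ) : ℂ) = 1 := by
      have h6 := congrArg (fun t : unitary ℂ => (t : ℂ)) (mul_inv_cancel (χ₂ a))
      exact h6
    rw [sub_mul, h5]
    rfl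
  rw [h4, norm_mul, CStarRing.norm_coe_unitary, mul_one]
  exact h2

/-- A countable abelian group without small characters is finite.  If `A` is infinite then for every finite `F ⊆ A` and `ε > 0` there is `χ ≠ 1` with
`‖χ a - 1‖ < ε` on `F`: by total boundedness of `unitary ℂ ^ F` and `infinite_chars` there are two different
characters `ε`-close on `F`; take the quotient.  With an exhaustion of `A` by finite sets this gives a sequence. -/
theorem finite_of_chars {A : Type} [CommGroup A] [Countable A]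
    (h : ∀ χ : ℕ → A →* unitary ℂ, (∀ a, Tendsto (fun m => (χ m a : ℂ)) atTop (𝓝 1)) →
      ∃ m₀, ∀ m, m₀ ≤ m → χ m = 1) : Finite A := by
  classical
  by_contra hinf
  rw [not_finite_iff_infinite] at hinf
  obtain ⟨e, he⟩ := exists_surjective_nat A
  have hex : ∀ m : ℕ, ∃ χ : A →* unitary ℂ, χ ≠ 1 ∧
      ∀ a ∈ (Finset.range (m + 1)).image e, ‖(χ a : ℂ) - 1‖ < 1 / ((m : ℝ) + 1) :=
    fun m => FinQuot_small _ _ (by positivity)
  choose χ hχ1 hχ2 using hex
  obtain ⟨m₀, hm₀⟩ := h χ (by
    intro a
    obtain ⟨k, rfl⟩ := he a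
    rw [tendsto_iff_norm_sub_tendsto_zero]
    refine squeeze_zero' (Eventually.of_forall fun m => norm_nonneg _) ?_
      tendsto_one_div_add_atTop_nhds_zero_nat
    filter_upwards [eventually_ge_atTop k] with m hm
    exact (hχ2 m (e k) (Finset.mem_image_of_mem e (Finset.mem_range.2 (by omega)))).le)
  exact hχ1 m₀ (hm₀ m₀ le_rfl)

end Pool.Agent.LibCS15
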