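import Pool.Agent.LibCS15.Defs
set_option autoImplicit false
namespace Pool.Agent.LibCS15
open Topology Filter

/-- a frame: isometries `ι a` with orthogonal ranges summing up to `1` (so that `D` is the algebra of `n × n` matrices over
the algebra `D`) -/
structure IsFrame {n : Type} [Fintype n] {D : Type} [CStarAlgebra D] (ι : n → D) : Prop where
  same : ∀ a, star (ι a) * ι a = 1
  diff : ∀ a b, a ≠ b → star (ι a) * ι b = 0
  sum : ∑ a, ι a * star (ι a) = 1

/-- block diagonal elements -/
noncomputable def blk {n : Type} [Fintype n] {D : Type} [CStarAlgebra D] (ι f : n → D) : D :=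
  ∑ a, ι a * f a * star (ι a)

section
variable {n : Type} [Fintype n] {D : Type} [CStarAlgebra D] {ι : n → D} (hι : IsFrame ι)
include hι

theorem blk_mul (f g : n → D) : blk ι f * blk ι g = blk ι (fun a => f a * g a) := by
  unfold blk
  rw [Finset.sum_mul]
  refine Finset.sum_congr rfl fun a _ => ?_
  rw [Finset.mul_sum, Finset.sum_eq_single a]
  · calc ι a * f a * star (ι a) * (ι a * g a * star (ι a))
        = ι a * f a * (star (ι a) * ι a) * g a * star (ι a) := by simp only [mul_assoc]
      _ = ι a * (f a * g a) * star (ι a) := by rw [hι.same, mul_one]; simp only [mul_assoc]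
  · intro b _ hb
    calc ι a * f a * star (ι a) * (ι b * g b * star (ι b))
        = ι a * f a * (star (ι a) * ι b) * g b * star (ι b) := by simp only [mul_assoc]
      _ = 0 := by rw [hι.diff a b (Ne.symm hb), mul_zero, zero_mul, zero_mul]
  · intro h
    exact absurd (Finset.mem_univ _) h

theorem blk_one : blk ι (fun _ => (1 : D)) = 1 := by
  unfold blk
  simp only [mul_one]
  exact hι.sum

theorem star_blk (f : n → D) : star (blk ι f) = blk ι (fun a => star (f a)) := by
  unfold blk
  rw [star_sum]
  refine Finset.sum_congr rfl fun a _ => ?_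
  rw [star_mul, star_mul, star_star, mul_assoc]

theorem blk_add (f g : n → D) : blk ι f + blk ι g = blk ι (fun a => f a + g a) := by
  unfold blk
  rw [← Finset.sum_add_distrib]
  refine Finset.sum_congr rfl fun a _ => ?_
  rw [mul_add, add_mul]

theorem blk_smul (c : ℂ) (f : n → D) : c • blk ι f = blk ι (fun a => c • f a) := by
  unfold blk
  rw [Finset.smul_sum]
  refine Finset.sum_congr rfl fun a _ => ?_
  rw [mul_smul_comm, smul_mul_assoc]

theorem frame_compress (f : n → D) (a : n) : star (ι a) * blk ι f * ι a = f a := by
  unfold blk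
  rw [Finset.mul_sum, Finset.sum_mul, Finset.sum_eq_single a]
  · calc star (ι a) * (ι a * f a * star (ι a)) * ι a
        = (star (ι a) * ι a) * f a * (star (ι a) * ι a) := by simp only [mul_assoc]
      _ = f a := by rw [hι.same, one_mul, mul_one]
  · intro b _ hb
    calc star (ι a) * (ι b * f b * star (ι b)) * ι a
        = (star (ι a) * ι b) * f b * (star (ι b) * ι a) := by simp only [mul_assoc]
      _ = 0 := by rw [hι.diff a b (Ne.symm hb), zero_mul, zero_mul]
  · intro h
    exact absurd (Finset.mem_univ _) h

theorem blk_injective {f g : n → D} (h : blk ι f = blk ι g) (a : n) : f a = g a := by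
  rw [← frame_compress hι f a, h, frame_compress hι g a]

/-- block diagonal elements with invertible blocks are invertible -/
theorem blk_isUnit {f : n → D} (h : ∀ a, IsUnit (f a)) : IsUnit (blk ι f) := by
  choose u hu using h
  refine ⟨⟨blk ι f, blk ι (fun a => (↑(u a)⁻¹ : D)), ?_, ?_⟩, rfl⟩
  · rw [blk_mul hι]
    rw [show (fun a => f a * (↑(u a)⁻¹ : D)) = fun _ => (1 : D) from
      funext fun a => by rw [← hu a, Units.mul_inv]]
    exact blk_one hι
  · rw [blk_mul hι]
    rw [show (fun a => (↑(u a)⁻¹ : D) * f a) = fun _ => (1 : D) from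
      funext fun a => by rw [← hu a, Units.inv_mul]]
    exact blk_one hι

end

end Pool.Agent.LibCS15
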