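import Pool.Agent.LibCS15.Compact
set_option autoImplicit false
namespace Pool.Agent.LibCS15
open Topology Filter

variable {E : Type} [NormedAddCommGroup E] [InnerProductSpace ℂ E] [CompleteSpace E]

/-- Fredholm alternative (`hasEigenvalue_or_mem_resolventSet` for `-k` and `μ = 1`) -/
theorem isUnit_one_add_compact {k : E →L[ℂ] E} (hk : IsCompactOperator k)
    (hinj : ∀ ξ, ξ + k ξ = 0 → ξ = 0) : IsUnit (1 + k) := by
  have hk' : IsCompactOperator (-k : E →L[ℂ] E) := hk.neg
  rcases hk'.hasEigenvalue_or_mem_resolventSet (μ := (1 : ℂ)) one_ne_zero with h | h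
  · exfalso
    obtain ⟨v, hv⟩ := h.exists_hasEigenvector
    have h1 : (-k : E →L[ℂ] E) v = (1 : ℂ) • v := hv.apply_eq_smul
    refine hv.2 (hinj v ?_)
    rw [one_smul, neg_apply] at h1
    have h2 : k v = -v := by rw [← neg_eq_iff_eq_neg, h1]
    rw [h2, add_neg_cancel]
  · rw [spectrum.mem_resolventSet_iff, map_one, sub_neg_eq_add] at h
    exact h

/-- the kernel of `1 + k` is finite-dimensional -/
theorem finiteDimensional_ker_one_add {k : E →L[ℂ] E} (hk : IsCompactOperator k) :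
    FiniteDimensional ℂ (LinearMap.ker ((1 + k : E →L[ℂ] E) : E →ₗ[ℂ] E)) := by
  set F := LinearMap.ker ((1 + k : E →L[ℂ] E) : E →ₗ[ℂ] E) with hF
  have hmem : ∀ ξ, ξ ∈ F ↔ ξ + k ξ = 0 := by
    intro ξ
    rw [hF, LinearMap.mem_ker]
    simp
  have hneg : ∀ ξ ∈ F, k ξ = -ξ := fun ξ hξ => eq_neg_of_add_eq_zero_right ((hmem ξ).1 hξ)
  have hcl : IsClosed (F : Set E) := (1 + k : E →L[ℂ] E).isClosed_ker
  have hV : ∀ v ∈ F, (k : E →ₗ[ℂ] E) v ∈ F := by
    intro v hv
    have h1 : (k : E →ₗ[ℂ] E) v = -v := hneg v hv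
    rw [h1]
    exact F.neg_mem hv
  have h1 : IsCompactOperator ((k : E →ₗ[ℂ] E).restrict hV) :=
    IsCompactOperator.restrict (f := (k : E →ₗ[ℂ] E)) hk hV hcl
  have h2 : IsCompactOperator (_root_.id : F → F) := by
    have h3 := h1.neg
    have h4 : -(((k : E →ₗ[ℂ] E).restrict hV : F →ₗ[ℂ] F) : F → F) = _root_.id := by
      funext v
      apply Subtype.ext
      have h5 : k (v : E) = -(v : E) := hneg v v.2
      simp only [Pi.neg_apply, Submodule.coe_neg, LinearMap.coe_restrict_apply,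
        ContinuousLinearMap.coe_coe, h5, neg_neg, id_eq]
    rw [h4] at h3
    exact h3
  exact FiniteDimensional.of_isCompactOperator_id h2

/-- the eigenspaces of `1 + k` for eigenvalues `≠ 1` are finite-dimensional -/
theorem finiteDimensional_eigen {z : E →L[ℂ] E} (hz : IsCompactOperator (z - 1 : E →L[ℂ] E))
    {l : ℂ} (hl : l ≠ 1) (M : Submodule ℂ E) (hM : ∀ ξ ∈ M, z ξ = l • ξ) :
    FiniteDimensional ℂ M := by
  have hl' : l - 1 ≠ 0 := sub_ne_zero.2 hl
  have hk : IsCompactOperator ((-(l - 1)⁻¹) • (z - 1) : E →L[ℂ] E) := hz.smul (-(l - 1)⁻¹)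
  have hfin := finiteDimensional_ker_one_add hk
  refine Submodule.finiteDimensional_of_le
    (S₂ := LinearMap.ker ((1 + (-(l - 1)⁻¹) • (z - 1) : E →L[ℂ] E) : E →ₗ[ℂ] E)) ?_
  intro ξ hξ
  rw [LinearMap.mem_ker]
  simp only [ContinuousLinearMap.coe_coe, add_apply,
    smul_apply, sub_apply, one_apply_eq_self,
    hM ξ hξ]
  have h1 : l • ξ - ξ = (l - 1) • ξ := by rw [sub_smul, one_smul]
  rw [h1, smul_smul, neg_mul, inv_mul_cancel₀ hl', neg_smul, one_smul, add_neg_cancel]

/-- A unitary `z ≠ 1` with `z - 1` compact has an eigenvalue `≠ 1`: `z - 1` is normal and non-zero, so its spectral radius is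
its norm (`IsStarNormal.spectralRadius_eq_nnnorm`), and the non-zero elements of the spectrum are eigenvalues by the Fredholm alternative
(`hasEigenvalue_or_mem_resolventSet`) -/
theorem exists_eigen {z : E →L[ℂ] E} (hz : star z * z = 1) (hz' : z * star z = 1)
    (hc : IsCompactOperator (z - 1 : E →L[ℂ] E)) (h1 : z ≠ 1) :
    ∃ (l : ℂ) (ξ : E), l ≠ 1 ∧ ξ ≠ 0 ∧ z ξ = l • ξ := by
  have ht : z - 1 ≠ 0 := sub_ne_zero.2 h1
  have hnt : Nontrivial (E →L[ℂ] E) := ⟨⟨z, 1, h1⟩⟩
  have hnorm : IsStarNormal (z - 1) := by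
    constructor
    rw [commute_iff_eq, star_sub, star_one]
    simp only [sub_mul, mul_sub, hz, hz', one_mul, mul_one]
    abel
  obtain ⟨w, hw, hw'⟩ := spectrum.exists_nnnorm_eq_spectralRadius (z - 1)
  have hw0 : w ≠ 0 := by
    rintro rfl
    rw [IsStarNormal.spectralRadius_eq_nnnorm, nnnorm_zero, ENNReal.coe_zero, eq_comm,
      ENNReal.coe_eq_zero, nnnorm_eq_zero] at hw'
    exact ht hw'
  have he := (hc.hasEigenvalue_iff_mem_spectrum hw0).2 hw
  obtain ⟨v, hv⟩ := he.exists_hasEigenvector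
  have h2 : (z - 1 : E →L[ℂ] E) v = w • v := hv.apply_eq_smul
  refine ⟨w + 1, v, fun h => hw0 (by simpa using h), hv.2, ?_⟩
  rw [sub_apply, one_apply_eq_self, sub_eq_iff_eq_add] at h2
  rw [h2, add_smul, one_smul]

/-- the same inside an invariant closed subspace `Q` (apply `exists_eigen` to `z * q + (1 - q)`, `q` the projection on `Q`) -/
theorem exists_eigen_sub {z : E →L[ℂ] E} (hz : star z * z = 1) (hz' : z * star z = 1)
    (hc : IsCompactOperator (z - 1 : E →L[ℂ] E)) (Q : Submodule ℂ E) (hQ : IsClosed (Q : Set E))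
    (hzQ : ∀ ξ ∈ Q, z ξ ∈ Q) (hzQ' : ∀ ξ ∈ Q, (star z : E →L[ℂ] E) ξ ∈ Q) (h1 : ∃ ξ ∈ Q, z ξ ≠ ξ) :
    ∃ (l : ℂ) (ξ : E), l ≠ 1 ∧ ξ ≠ 0 ∧ ξ ∈ Q ∧ z ξ = l • ξ := by
  have hcs : CompleteSpace Q := hQ.completeSpace_coe
  set q : E →L[ℂ] E := Q.starProjection with hq
  have hqs : star q = q := (isSelfAdjoint_starProjection Q).star_eq
  have hqq : q * q = q := Q.isIdempotentElem_starProjection
  have hqmem : ∀ ξ, q ξ ∈ Q := fun ξ => Q.starProjection_apply_mem ξ
  have hqid : ∀ ξ ∈ Q, q ξ = ξ := fun ξ hξ => Submodule.starProjection_eq_self_iff.2 hξ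
  have e1 : q * z * q = z * q := by
    ext ξ
    exact hqid _ (hzQ _ (hqmem ξ))
  have e2 : q * star z * q = star z * q := by
    ext ξ
    exact hqid _ (hzQ' _ (hqmem ξ))
  have e3 : q * z * q = q * z := by
    have h2 := congrArg star e2
    simpa [hqs, mul_assoc] using h2
  have e4 : q * z = z * q := e3.symm.trans e1
  have e5 : q * star z = star z * q := by
    have h2 := congrArg star e4
    simpa [hqs] using h2.symm
  have hst : star (z * q + (1 - q)) = star z * q + (1 - q) := by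
    simp only [star_add, star_mul, star_sub, star_one, hqs, e5]
  have u1 : star (z * q + (1 - q)) * (z * q + (1 - q)) = 1 := by
    rw [hst]
    have a1 : star z * q * (z * q) = q := by
      rw [mul_assoc, ← mul_assoc q z q, e1, ← mul_assoc, hz, one_mul]
    have a2 : star z * q * (1 - q) = 0 := by
      rw [mul_assoc, mul_sub, mul_one, hqq, sub_self, mul_zero]
    have a3 : (1 - q) * (z * q) = 0 := by
      rw [sub_mul, one_mul, ← mul_assoc, e1, sub_self]
    have a4 : (1 - q) * (1 - q) = 1 - q := by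
      simp only [mul_sub, sub_mul, mul_one, one_mul, hqq, sub_self, sub_zero]
    rw [add_mul, mul_add, mul_add, a1, a2, a3, a4]
    abel
  have u2 : (z * q + (1 - q)) * star (z * q + (1 - q)) = 1 := by
    rw [hst]
    have a1 : z * q * (star z * q) = q := by
      rw [mul_assoc, ← mul_assoc q (star z) q, e2, ← mul_assoc, hz', one_mul]
    have a2 : z * q * (1 - q) = 0 := by
      rw [mul_assoc, mul_sub, mul_one, hqq, sub_self, mul_zero]
    have a3 : (1 - q) * (star z * q) = 0 := by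
      rw [sub_mul, one_mul, ← mul_assoc, e2, sub_self]
    have a4 : (1 - q) * (1 - q) = 1 - q := by
      simp only [mul_sub, sub_mul, mul_one, one_mul, hqq, sub_self, sub_zero]
    rw [add_mul, mul_add, mul_add, a1, a2, a3, a4]
    abel
  have hc' : IsCompactOperator ((z * q + (1 - q)) - 1 : E →L[ℂ] E) := by
    have e6 : (z * q + (1 - q)) - 1 = (z - 1) * q := by
      rw [sub_mul, one_mul]
      abel
    rw [e6]
    exact hc.comp_clm q
  have hne : z * q + (1 - q) ≠ 1 := by
    obtain ⟨ξ, hξ, hne⟩ := h1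
    intro h
    apply hne
    have h2 := congrArg (fun T : E →L[ℂ] E => T ξ) h
    simp only [add_apply, mul_apply_eq_comp,
      sub_apply, one_apply_eq_self, hqid ξ hξ, sub_self,
      add_zero] at h2
    exact h2
  obtain ⟨l, ξ, hl, hξ, he⟩ := exists_eigen u1 u2 hc' hne
  simp only [add_apply, mul_apply_eq_comp,
      sub_apply, one_apply_eq_self] at he
  have h3 : z (q ξ) = l • q ξ := by
    have h4 := congrArg q he
    rw [map_add, map_sub, map_smul, hqid _ (hzQ _ (hqmem ξ)), hqid _ (hqmem ξ), sub_self,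
      add_zero] at h4
    exact h4
  have h5 : ξ - q ξ = l • (ξ - q ξ) := by
    rw [smul_sub, ← he, h3]
    abel
  have h6 : ξ - q ξ = 0 := by
    have h7 : (l - 1) • (ξ - q ξ) = 0 := by
      rw [sub_smul, one_smul, ← h5, sub_self]
    rcases smul_eq_zero.1 h7 with h | h
    · exact absurd (sub_eq_zero.1 h) hl
    · exact h
  have h8 : q ξ = ξ := (sub_eq_zero.1 h6).symm
  rw [h8] at h3
  exact ⟨l, ξ, hl, hξ, h8 ▸ hqmem ξ, h3⟩

/-- the orthogonal projection onto a finite-dimensional subspace, as a compact operator -/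
theorem exists_proj (F : Submodule ℂ E) [FiniteDimensional ℂ F] :
    ∃ P : E →L[ℂ] E, IsCompactOperator P ∧ star P = P ∧ P * P = P ∧
      (∀ ξ, P ξ = 0 ↔ ξ ∈ Fᗮ) ∧ (∀ ξ, P ξ = ξ ↔ ξ ∈ F) ∧ (∀ ξ, P ξ ∈ F) := by
  have hloc : LocallyCompactSpace F := .of_finiteDimensional_of_complete ℂ F
  refine ⟨F.starProjection, ?_, (isSelfAdjoint_starProjection F).star_eq,
    F.isIdempotentElem_starProjection, fun ξ => F.starProjection_apply_eq_zero_iff,
    fun ξ => F.starProjection_eq_self_iff, fun ξ => F.starProjection_apply_mem ξ⟩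
  have h1 : IsCompactOperator F.subtypeL := isCompactOperator_of_locallyCompactSpace_rng F.subtypeL
  exact h1.comp_clm F.orthogonalProjectionOnto

end Pool.Agent.LibCS15
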