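import Pool.Agent.LibCS15.Defs
set_option autoImplicit false
namespace Pool.Agent.LibCS15
open Topology Filter

/-- `Im (conj u * T)` -/
noncomputable def imp {D : Type} [CStarAlgebra D] (u : ℂ) (T : D) : D :=
  (1 / (2 * Complex.I)) • ((starRingEnd ℂ u) • T - u • star T)

end Pool.Agent.LibCS15
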