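import Pool.Agent.LibCS15.Index
import Pool.Agent.LibCS15.Imp
set_option autoImplicit false
namespace Pool.Agent.LibCS15
open Topology Filter

variable {E : Type} [NormedAddCommGroup E] [InnerProductSpace ℂ E] [CompleteSpace E]

theorem star_apply_inner (T : E →L[ℂ] E) (ξ η : E) : inner ℂ ((star T) ξ) η = (inner ℂ ξ (T η) : ℂ) := by
  change inner ℂ ((ContinuousLinearMap.adjoint T) ξ) η = _
  rw [ContinuousLinearMap.adjoint_inner_left]

/-- `T* T ξ = 0` implies `T ξ = 0` -/
theorem eq_zero_of_star_mul (T : E →L[ℂ] E) (ξ : E) (h : (star T) (T ξ) = 0) : T ξ = 0 := by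
  have h1 := star_apply_inner T (T ξ) ξ
  rw [h, inner_zero_left] at h1
  exact inner_self_eq_zero.1 h1.symm

/-- a normal operator is not a compact perturbation of an invertible operator times a proper isometry -/
theorem normal_contra {W V K T : E →L[ℂ] E} (hW : star W * W = 1) (hW' : W * star W ≠ 1)
    (hV : IsUnit V) (hK : IsCompactOperator K) (hT : T = V * W + K) (hn : star T * T = T * star T) :
    False := by
  have := finiteDimensional_ker_semi hW hV hK hT
  obtain ⟨P, hPc, hPs, hPP, -, hP1, hP2⟩ := exists_proj (LinearMap.ker (T : E →ₗ[ℂ] E))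
  have hn' : ∀ ξ, (star T) (T ξ) = T ((star T) ξ) := fun ξ =>
    congrArg (fun S : E →L[ℂ] E => S ξ) hn
  have hk1 : ∀ ξ, T ξ = 0 → (star T) ξ = 0 := by
    intro ξ h
    refine eq_zero_of_star_mul (star T) ξ ?_
    rw [star_star, ← hn', h, map_zero]
  have hTP : ∀ ξ, T (P ξ) = 0 := fun ξ => hP2 ξ
  have hker : ∀ ξ, T ξ = 0 → P ξ = ξ := fun ξ h => (hP1 ξ).2 h
  refine index_contra hW hW' hV (K := K + P) (T := T + P) (hK.add hPc) (by rw [hT]; abel) ?_ ?_
  · intro ξ h
    have h1 : T ξ + P ξ = 0 := h
    have h2 : T ξ = -(P ξ) := eq_neg_of_add_eq_zero_left h1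
    have h3 : T ξ = 0 := by
      refine eq_zero_of_star_mul T ξ ?_
      rw [h2, map_neg, hk1 _ (hTP ξ), neg_zero]
    rw [h3, zero_add] at h1
    rw [← hker ξ h3, h1]
  · intro ξ h
    have h0 : star (T + P) = star T + P := by rw [star_add, hPs]
    rw [h0] at h
    have h1 : (star T) ξ + P ξ = 0 := h
    have h2 : (star T) ξ = -(P ξ) := eq_neg_of_add_eq_zero_left h1
    have h3 : (star T) ξ = 0 := by
      refine eq_zero_of_star_mul (star T) ξ ?_
      rw [star_star, h2, map_neg, hTP, neg_zero]
    have h4 : T ξ = 0 := by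
      refine eq_zero_of_star_mul T ξ ?_
      rw [hn', h3, map_zero]
    rw [h3, zero_add] at h1
    rw [← hker ξ h4, h1]

/-- `imp u₁ A + i imp u₂ B` is normal for commuting unitaries `A`, `B` -/
theorem normal_imp {D : Type} [CStarAlgebra D] (u₁ u₂ : ℂ) (A B : unitary D) (h : A * B = B * A) :
    star (imp u₁ (A : D) + Complex.I • imp u₂ (B : D)) * (imp u₁ (A : D) + Complex.I • imp u₂ (B : D)) =
      (imp u₁ (A : D) + Complex.I • imp u₂ (B : D)) * star (imp u₁ (A : D) + Complex.I • imp u₂ (B : D)) := by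
  have hAB : Commute (A : D) (B : D) := congrArg Subtype.val h
  have hAB' : Commute (A : D) (star (B : D)) := by
    have h1 : A * B⁻¹ = B⁻¹ * A := (show Commute A B from h).inv_right.eq
    exact congrArg Subtype.val h1
  have hA'B : Commute (star (A : D)) (B : D) := by
    have h1 : A⁻¹ * B = B * A⁻¹ := (show Commute A B from h).inv_left.eq
    exact congrArg Subtype.val h1
  have hA'B' : Commute (star (A : D)) (star (B : D)) := by
    have h1 : A⁻¹ * B⁻¹ = B⁻¹ * A⁻¹ := (show Commute A B from h).inv_inv.eq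
    exact congrArg Subtype.val h1
  have hc : Commute (imp u₁ (A : D)) (imp u₂ (B : D)) := by
    unfold imp
    refine ((Commute.sub_left ?_ ?_).smul_left _).smul_right _ <;>
      refine Commute.sub_right ?_ ?_
    · exact (hAB.smul_left _).smul_right _
    · exact (hAB'.smul_left _).smul_right _
    · exact (hA'B.smul_left _).smul_right _
    · exact (hA'B'.smul_left _).smul_right _
  have hs : ∀ (u : ℂ) (S : D), star (imp u S) = imp u S := by
    intro u S
    unfold imp
    rw [star_smul, star_sub, star_smul, star_smul, star_star]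
    have h1 : star (1 / (2 * Complex.I)) = -(1 / (2 * Complex.I)) := by
      simp
    have h2 : star ((starRingEnd ℂ) u) = u := by
      rw [Complex.star_def, Complex.conj_conj]
    have h3 : star u = (starRingEnd ℂ) u := rfl
    rw [h1, h2, h3, neg_smul, ← smul_neg, neg_sub]
  set X := imp u₁ (A : D) with hX
  set Y := imp u₂ (B : D) with hY
  have hXY : X * Y = Y * X := hc
  rw [star_add, star_smul, hs, hs, ← hX, ← hY]
  have hI : star Complex.I = -Complex.I := Complex.conj_I
  rw [hI]
  simp only [add_mul, mul_add, smul_mul_assoc, mul_smul_comm, neg_smul, neg_mul, mul_neg, hXY, smul_add,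
    smul_neg]
  abel

end Pool.Agent.LibCS15
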