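import Pool.Agent.LibCS15.Main
import Pool.Agent.LibCS15.NormalContra
set_option autoImplicit false
namespace Pool.Agent.LibCS15
open Topology Filter

private theorem gs_tendsto (c d : ℝ) :
    Tendsto (fun ε : ℝ => c * ε + d * ε ^ 2) (𝓝[>] 0) (𝓝 0) := by
  have h : ContinuousAt (fun ε : ℝ => c * ε + d * ε ^ 2) 0 := by fun_prop
  have h2 := h.tendsto
  simp only [mul_zero, ne_eq, OfNat.ofNat_ne_zero, not_false_eq_true, zero_pow, add_zero] at h2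
  exact h2.mono_left nhdsWithin_le_nhds

private theorem gs_ne (c d : ℝ) (h : ¬ (c = 0 ∧ d = 0)) :
    ∀ᶠ ε : ℝ in 𝓝[>] 0, c * ε + d * ε ^ 2 ≠ 0 := by
  have hpos : ∀ᶠ ε : ℝ in 𝓝[>] 0, 0 < ε := eventually_mem_nhdsWithin
  by_cases hc : c = 0
  · have hd : d ≠ 0 := fun hd => h ⟨hc, hd⟩
    filter_upwards [hpos] with ε hε
    rw [hc, zero_mul, zero_add]
    exact mul_ne_zero hd (pow_ne_zero 2 hε.ne')
  · have h1 : Tendsto (fun ε : ℝ => c + d * ε) (𝓝[>] 0) (𝓝 c) := by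
      have h : ContinuousAt (fun ε : ℝ => c + d * ε) 0 := by fun_prop
      have h2 := h.tendsto
      simp only [mul_zero, add_zero] at h2
      exact h2.mono_left nhdsWithin_le_nhds
    filter_upwards [hpos, h1.eventually_ne hc] with ε hε h2
    have : c * ε + d * ε ^ 2 = ε * (c + d * ε) := by ring
    rw [this]
    exact mul_ne_zero hε.ne' h2

private theorem gs_sin (c d : ℝ) (h : ¬ (c = 0 ∧ d = 0)) :
    ∀ᶠ ε : ℝ in 𝓝[>] 0, Real.sin (c * ε + d * ε ^ 2) ≠ 0 := by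
  have h1 := gs_ne c d h
  have h2 : ∀ᶠ ε : ℝ in 𝓝[>] 0, -Real.pi < c * ε + d * ε ^ 2 :=
    (gs_tendsto c d).eventually (lt_mem_nhds (by linarith [Real.pi_pos]))
  have h3 : ∀ᶠ ε : ℝ in 𝓝[>] 0, c * ε + d * ε ^ 2 < Real.pi :=
    (gs_tendsto c d).eventually (gt_mem_nhds Real.pi_pos)
  filter_upwards [h1, h2, h3] with ε e1 e2 e3
  rw [Ne, Real.sin_eq_zero_iff_of_lt_of_lt e2 e3]
  exact e1

private theorem gs_sum {n : Type} [Fintype n] (p₁ p₂ : n → ℝ) :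
    ∀ᶠ ε : ℝ in 𝓝[>] 0, ∑ a, |p₁ a * ε + p₂ a * ε ^ 2| < 1 / 8 := by
  have h1 : Tendsto (fun ε : ℝ => ∑ a, |p₁ a * ε + p₂ a * ε ^ 2|) (𝓝[>] 0) (𝓝 (∑ _a : n, (0 : ℝ))) := by
    refine tendsto_finsetSum _ fun a _ => ?_
    have := (gs_tendsto (p₁ a) (p₂ a)).abs
    rwa [abs_zero] at this
  rw [Finset.sum_const_zero] at h1
  exact h1.eventually (gt_mem_nhds (by norm_num))

/-- `generic`, with the additional requirement that the numbers are small -/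
theorem generic_small {n : Type} [Fintype n] (p₁ p₂ q₁ q₂ : n → ℝ) :
    ∃ s₁ s₂ : ℝ, (∑ a, |p₁ a * s₁ + p₂ a * s₂| < 1 / 8) ∧ (∑ a, |q₁ a * s₁ + q₂ a * s₂| < 1 / 8) ∧
      ∀ a, (((p₁ a = 1 ∧ p₂ a = 0) ∧ (q₁ a = 0 ∧ q₂ a = 1)) ∨
      Real.sin (p₁ a * s₁ + p₂ a * s₂ - s₁) ≠ 0 ∨ Real.sin (q₁ a * s₁ + q₂ a * s₂ - s₂) ≠ 0) := by
  have key : ∀ᶠ ε : ℝ in 𝓝[>] 0, ∀ a,
      (((p₁ a = 1 ∧ p₂ a = 0) ∧ (q₁ a = 0 ∧ q₂ a = 1)) ∨
      Real.sin (p₁ a * ε + p₂ a * ε ^ 2 - ε) ≠ 0 ∨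
      Real.sin (q₁ a * ε + q₂ a * ε ^ 2 - ε ^ 2) ≠ 0) := by
    rw [eventually_all]
    intro a
    by_cases hp : p₁ a = 1 ∧ p₂ a = 0
    · by_cases hq : q₁ a = 0 ∧ q₂ a = 1
      · exact Eventually.of_forall fun _ => Or.inl ⟨hp, hq⟩
      · have h := gs_sin (q₁ a) (q₂ a - 1) (fun h => hq ⟨h.1, by linarith [h.2]⟩)
        filter_upwards [h] with ε hε
        right; right
        have e : q₁ a * ε + q₂ a * ε ^ 2 - ε ^ 2 = q₁ a * ε + (q₂ a - 1) * ε ^ 2 := by ring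
        rw [e]
        exact hε
    · have h := gs_sin (p₁ a - 1) (p₂ a) (fun h => hp ⟨by linarith [h.1], h.2⟩)
      filter_upwards [h] with ε hε
      right; left
      have e : p₁ a * ε + p₂ a * ε ^ 2 - ε = (p₁ a - 1) * ε + p₂ a * ε ^ 2 := by ring
      rw [e]
      exact hε
  obtain ⟨ε, h1, h2, h3⟩ := ((gs_sum p₁ p₂).and ((gs_sum q₁ q₂).and key)).exists
  exact ⟨ε, ε ^ 2, h1, h2, h3⟩

/-- block diagonal elements with small scalar blocks -/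
theorem norm_blk_exp_sub_one {n : Type} [Fintype n] {D : Type} [CStarAlgebra D] {ι : n → D}
    (hι : IsFrame ι) (θ : n → ℝ) :
    ‖blk ι (fun a => Complex.exp (Complex.I * (θ a : ℂ)) • (1 : D)) - 1‖ ≤ ∑ a, |θ a| := by
  have hιn : ∀ a, ‖ι a‖ ≤ 1 := fun a => norm_le_one_of_star (hι.same a)
  have h1 : blk ι (fun a => Complex.exp (Complex.I * (θ a : ℂ)) • (1 : D)) - 1 =
      ∑ a, (Complex.exp (Complex.I * (θ a : ℂ)) - 1) • (ι a * star (ι a)) := by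
    have h0 : blk ι (fun a => Complex.exp (Complex.I * (θ a : ℂ)) • (1 : D)) - 1 =
        blk ι (fun a => Complex.exp (Complex.I * (θ a : ℂ)) • (1 : D)) - ∑ a, ι a * star (ι a) := by
      rw [hι.sum]
    rw [h0]
    unfold blk
    rw [← Finset.sum_sub_distrib]
    refine Finset.sum_congr rfl fun a _ => ?_
    rw [mul_smul_comm, mul_one, smul_mul_assoc, sub_smul, one_smul]
  rw [h1]
  refine (norm_sum_le _ _).trans (Finset.sum_le_sum fun a _ => ?_)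
  rw [norm_smul]
  have h2 : ‖Complex.exp (Complex.I * (θ a : ℂ)) - 1‖ ≤ |θ a| := by
    have := @Real.norm_exp_I_mul_ofReal_sub_one_le (θ a)
    rwa [Real.norm_eq_abs] at this
  have h3 : ‖ι a * star (ι a)‖ ≤ 1 := by
    refine (norm_mul_le _ _).trans ?_
    rw [norm_star]
    have := hιn a
    have h0 := norm_nonneg (ι a)
    nlinarith
  calc ‖Complex.exp (Complex.I * (θ a : ℂ)) - 1‖ * ‖ι a * star (ι a)‖ ≤ |θ a| * 1 := by
        gcongr
    _ = |θ a| := mul_one _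

/-- `blk` is continuous -/
theorem tendsto_blk {n : Type} [Fintype n] {D : Type} [CStarAlgebra D] (ι : n → D)
    {f : ℕ → n → D} {g : n → D} (h : ∀ a, Tendsto (fun m => f m a) atTop (𝓝 (g a))) :
    Tendsto (fun m => blk ι (f m)) atTop (𝓝 (blk ι g)) := by
  unfold blk
  exact tendsto_finsetSum _ fun a _ => ((h a).const_mul _).mul_const _

end Pool.Agent.LibCS15
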