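import Mathlib
set_option autoImplicit false
namespace Pool.Agent.LibCS15

/-- If any two homomorphisms `H → ℝ` are proportional then any two elements of `H` satisfy a non-trivial relation modulo the derived subgroup.
Proof: otherwise `ℤ² → Additive (Abelianization H)`, `(p, q) ↦ p x + q y` is injective, and since `ℝ` is a divisible
group, hence injective (`Module.Baer.of_divisible`, `Module.Baer.extension_property`), the two coordinates extend to `b₁, b₂ : H → ℝ` with `b₁ x * b₂ y = 1`, `b₁ y * b₂ x = 0`. -/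
theorem exists_relation {H : Type} [Group H]
    (h : ∀ b₁ b₂ : H → ℝ, (∀ x y, b₁ (x * y) = b₁ x + b₁ y) → (∀ x y, b₂ (x * y) = b₂ x + b₂ y) →
      ∀ x y, b₁ x * b₂ y = b₁ y * b₂ x) (x y : H) :
    ∃ p q : ℤ, (p ≠ 0 ∨ q ≠ 0) ∧ x ^ p * y ^ q ∈ commutator H := by
  by_contra hcon
  push Not at hcon
  let a : H → Additive (Abelianization H) := fun z => Additive.ofMul (Abelianization.of z)
  have ha : ∀ z w, a (z * w) = a z + a w := by
    intro z w
    simp only [a, map_mul]
    rfl
  let f : ℤ × ℤ →+ Additive (Abelianization H) :=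
    AddMonoidHom.coprod (zmultiplesHom _ (a x)) (zmultiplesHom _ (a y))
  have hf : ∀ p q : ℤ, f (p, q) = p • a x + q • a y := by
    intro p q
    simp [f]
  have hf' : ∀ p q : ℤ, f (p, q) = a (x ^ p * y ^ q) := by
    intro p q
    rw [hf, ha]
    simp only [a, map_zpow]
    rfl
  have hinj : Function.Injective f := by
    rw [injective_iff_map_eq_zero]
    rintro ⟨p, q⟩ h0
    rw [hf'] at h0
    have h1 : Abelianization.of (x ^ p * y ^ q) = 1 := h0
    have h2 : x ^ p * y ^ q ∈ commutator H := by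
      rw [← Abelianization.ker_of]
      exact h1
    by_contra hne
    refine hcon p q ?_ h2
    by_contra h3
    push Not at h3
    exact hne (Prod.ext h3.1 h3.2)
  have hB : Module.Baer ℤ ℝ := Module.Baer.of_divisible ℝ
  let g₁ : ℤ × ℤ →+ ℝ := (Int.castAddHom ℝ).comp (AddMonoidHom.fst ℤ ℤ)
  let g₂ : ℤ × ℤ →+ ℝ := (Int.castAddHom ℝ).comp (AddMonoidHom.snd ℤ ℤ)
  obtain ⟨e₁, he₁⟩ := hB.extension_property_addMonoidHom f hinj g₁
  obtain ⟨e₂, he₂⟩ := hB.extension_property_addMonoidHom f hinj g₂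
  have hx : f (1, 0) = a x := by rw [hf]; simp
  have hy : f (0, 1) = a y := by rw [hf]; simp
  have h1x : e₁ (a x) = 1 := by
    rw [← hx, ← AddMonoidHom.comp_apply, he₁]; simp [g₁]
  have h1y : e₁ (a y) = 0 := by
    rw [← hy, ← AddMonoidHom.comp_apply, he₁]; simp [g₁]
  have h2x : e₂ (a x) = 0 := by
    rw [← hx, ← AddMonoidHom.comp_apply, he₂]; simp [g₂]
  have h2y : e₂ (a y) = 1 := by
    rw [← hy, ← AddMonoidHom.comp_apply, he₂]; simp [g₂]
  have hmain := h (fun z => e₁ (a z)) (fun z => e₂ (a z))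
    (fun z w => by simp only [ha, map_add]) (fun z w => by simp only [ha, map_add]) x y
  simp only [h1x, h1y, h2x, h2y] at hmain
  norm_num at hmain

end Pool.Agent.LibCS15
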