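import Mathlib
set_option autoImplicit false
namespace Pool.Agent.LibCS15

private theorem abelian_virt_cyclic_aux {A : Type} [CommGroup A] [Group.FG A]
    (h : ∀ b₁ b₂ : A → ℝ, (∀ x y, b₁ (x * y) = b₁ x + b₁ y) → (∀ x y, b₂ (x * y) = b₂ x + b₂ y) →
      ∀ x y, b₁ x * b₂ y = b₁ y * b₂ x) :
    Finite A ∨ ∃ Z : Subgroup A, Z.FiniteIndex ∧ Nonempty (Z ≃* Multiplicative ℤ) := by
  classical
  obtain ⟨ι, j, hι, hj, p, hp, e, ⟨f⟩⟩ := CommGroup.equiv_free_prod_prod_multiplicative_zmod A
  have hT : Finite ((i : ι) → Multiplicative (ZMod (p i ^ e i))) := by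
    have : ∀ i, Finite (Multiplicative (ZMod (p i ^ e i))) := by
      intro i
      have : NeZero (p i ^ e i) := ⟨pow_ne_zero _ (hp i).ne_zero⟩
      exact (inferInstance : Finite (ZMod (p i ^ e i)))
    exact Pi.finite
  have hsub : Subsingleton j := by
    refine ⟨fun i₁ i₂ => ?_⟩
    by_contra hne
    have h1 := h (fun a => ((Multiplicative.toAdd ((f a).1 i₁) : ℤ) : ℝ))
      (fun a => ((Multiplicative.toAdd ((f a).1 i₂) : ℤ) : ℝ))
      (by intro x y; simp) (by intro x y; simp)
      (f.symm (Pi.mulSingle i₁ (Multiplicative.ofAdd 1), 1))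
      (f.symm (Pi.mulSingle i₂ (Multiplicative.ofAdd 1), 1))
    simp [Pi.mulSingle_apply, hne] at h1
  rcases isEmpty_or_nonempty j with hje | hjn
  · left
    have : Finite (j → Multiplicative ℤ) := inferInstance
    exact Finite.of_equiv _ f.symm.toEquiv
  · right
    obtain ⟨i₀⟩ := hjn
    let g : Multiplicative ℤ →* A :=
      { toFun := fun z => f.symm (fun _ => z, 1)
        map_one' := by
          have : ((fun _ => 1, 1) : (j → Multiplicative ℤ) ×
            ((i : ι) → Multiplicative (ZMod (p i ^ e i)))) = 1 := rfl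
          rw [this, map_one]
        map_mul' := by
          intro x y
          rw [← map_mul]
          congr 1
          ext
          · rfl
          · simp }
    have hg : Function.Injective g := by
      intro x y hxy
      have h1 : f.symm (fun _ => x, 1) = f.symm (fun _ => y, 1) := hxy
      have h2 := f.symm.injective h1
      have h3 := congrArg Prod.fst h2
      exact congrFun h3 i₀
    let q : A →* ((i : ι) → Multiplicative (ZMod (p i ^ e i))) :=
      (MonoidHom.snd _ _).comp f.toMonoidHom
    have hker : g.range = q.ker := by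
      ext a
      rw [MonoidHom.mem_range, MonoidHom.mem_ker]
      constructor
      · rintro ⟨z, rfl⟩
        change (f (f.symm (fun _ => z, 1))).2 = 1
        rw [MulEquiv.apply_symm_apply]
      · intro ha
        refine ⟨(f a).1 i₀, ?_⟩
        change f.symm (fun _ => (f a).1 i₀, 1) = a
        rw [MulEquiv.symm_apply_eq]
        have ha' : (f a).2 = 1 := ha
        refine Prod.ext ?_ ha'.symm
        funext i
        rw [Subsingleton.elim i i₀]
    refine ⟨g.range, ?_, ⟨(MonoidHom.ofInjective hg).symm⟩⟩
    rw [hker]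
    infer_instance

/-- A finitely generated abelian group on which any two homomorphisms to `ℝ` are proportional is finite or has an infinite cyclic subgroup of finite index (structure theorem
`CommGroup.equiv_free_prod_prod_multiplicative_zmod` or `AddCommGroup.equiv_free_prod_directSum_zmod`) -/
theorem abelian_virt_cyclic {A : Type} [Group A] [Group.FG A] (hcomm : ∀ x y : A, x * y = y * x)
    (h : ∀ b₁ b₂ : A → ℝ, (∀ x y, b₁ (x * y) = b₁ x + b₁ y) → (∀ x y, b₂ (x * y) = b₂ x + b₂ y) →
      ∀ x y, b₁ x * b₂ y = b₁ y * b₂ x) :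
    Finite A ∨ ∃ Z : Subgroup A, Z.FiniteIndex ∧ Nonempty (Z ≃* Multiplicative ℤ) := by
  letI : CommGroup A := { (inferInstance : Group A) with mul_comm := hcomm }
  exact abelian_virt_cyclic_aux h

end Pool.Agent.LibCS15
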