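import Mathlib
set_option autoImplicit false
namespace Pool.Agent.LibCS15

open scoped commutatorElement

private theorem GrpB_pow {Q : Type} [Group Q] (g y : Q) (h : Commute ⁅g, y⁆ g) (n : ℕ) :
    ⁅g ^ n, y⁆ = ⁅g, y⁆ ^ n := by
  induction n with
  | zero => simp
  | succ n ih =>
    have h1 : ⁅g ^ (n + 1), y⁆ = g * ⁅g ^ n, y⁆ * g⁻¹ * ⁅g, y⁆ := by
      rw [pow_succ', commutatorElement_def, commutatorElement_def, commutatorElement_def]
      group
    have h2 : g * ⁅g, y⁆ ^ n * g⁻¹ = ⁅g, y⁆ ^ n := by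
      rw [mul_inv_eq_iff_eq_mul]
      exact ((h.pow_left n).eq).symm
    rw [h1, ih, h2, pow_succ]

private theorem GrpB_zpow {Q : Type} [Group Q] (g y : Q) (h : Commute ⁅g, y⁆ g) (p : ℤ) :
    ⁅g ^ p, y⁆ = ⁅g, y⁆ ^ p := by
  obtain ⟨n, rfl | rfl⟩ := p.eq_nat_or_neg
  · rw [zpow_natCast, zpow_natCast, GrpB_pow g y h]
  · have h1 : ⁅g⁻¹, y⁆ = ⁅g, y⁆⁻¹ := by
      have h2 : ⁅g⁻¹, y⁆ = g⁻¹ * ⁅g, y⁆⁻¹ * g := by
        rw [commutatorElement_def, commutatorElement_def]
        group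
      rw [h2, mul_assoc, inv_mul_eq_iff_eq_mul]
      exact h.inv_left.eq
    have h3 : Commute ⁅g⁻¹, y⁆ g⁻¹ := by
      rw [h1]
      exact h.inv_left.inv_right
    rw [zpow_neg, zpow_neg, zpow_natCast, zpow_natCast, ← inv_pow, ← inv_pow,
      GrpB_pow g⁻¹ y h3, h1]

/-- elements of `γ k` are central modulo `γ (k + 1)` -/
private theorem GrpB_central {H : Type} [Group H] (k : ℕ) {g : H}
    (hg : g ∈ (⊤ : Subgroup H).lowerCentralSeries k) (y : H) :
    Commute (QuotientGroup.mk g : H ⧸ (⊤ : Subgroup H).lowerCentralSeries (k + 1))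
      (QuotientGroup.mk y) := by
  rw [← commutatorElement_eq_one_iff_commute]
  have h1 : ⁅g, y⁆ ∈ (⊤ : Subgroup H).lowerCentralSeries (k + 1) := by
    rw [Subgroup.lowerCentralSeries_succ]
    exact Subgroup.commutator_mem_commutator hg (Subgroup.mem_top y)
  exact (QuotientGroup.eq_one_iff (N := (⊤ : Subgroup H).lowerCentralSeries (k + 1)) ⁅g, y⁆).2 h1

private theorem GrpB_gen {H : Type} [Group H] (k : ℕ)
    (h : ∀ g ∈ (⊤ : Subgroup H).lowerCentralSeries k, ∀ y : H, IsOfFinOrder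
      (⁅(QuotientGroup.mk g : H ⧸ (⊤ : Subgroup H).lowerCentralSeries (k + 2)),
        (QuotientGroup.mk y : H ⧸ (⊤ : Subgroup H).lowerCentralSeries (k + 2))⁆)) :
    ∀ z ∈ (⊤ : Subgroup H).lowerCentralSeries (k + 1), IsOfFinOrder
      (QuotientGroup.mk z : H ⧸ (⊤ : Subgroup H).lowerCentralSeries (k + 2)) := by
  intro z hz
  have hz' := hz
  rw [Subgroup.mem_lowerCentralSeries_succ_iff] at hz
  induction hz using Subgroup.closure_induction with
  | mem x hx =>
    obtain ⟨p, hp, q, -, rfl⟩ := hx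
    exact h p hp q
  | one =>
    exact IsOfFinOrder.one
  | mul x y hx hy h1 h2 =>
    have hx' : x ∈ (⊤ : Subgroup H).lowerCentralSeries (k + 1) :=
      (Subgroup.mem_lowerCentralSeries_succ_iff _ _ _).2 hx
    have hy' : y ∈ (⊤ : Subgroup H).lowerCentralSeries (k + 1) :=
      (Subgroup.mem_lowerCentralSeries_succ_iff _ _ _).2 hy
    exact (GrpB_central (k + 1) hx' y).isOfFinOrder_mul (h1 hx') (h2 hy')
  | inv x hx h1 =>
    have hx' : x ∈ (⊤ : Subgroup H).lowerCentralSeries (k + 1) :=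
      (Subgroup.mem_lowerCentralSeries_succ_iff _ _ _).2 hx
    exact (isOfFinOrder_inv_iff (x := (QuotientGroup.mk x :
      H ⧸ (⊤ : Subgroup H).lowerCentralSeries (k + 2)))).2 (h1 hx')

private theorem GrpB_torsion {H : Type} [Group H]
    (h : ∀ x y : H, ∃ p q : ℤ, (p ≠ 0 ∨ q ≠ 0) ∧ x ^ p * y ^ q ∈ commutator H) (k : ℕ) :
    ∀ z ∈ (⊤ : Subgroup H).lowerCentralSeries (k + 1), IsOfFinOrder
      (QuotientGroup.mk z : H ⧸ (⊤ : Subgroup H).lowerCentralSeries (k + 2)) := by
  induction k with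
  | zero =>
    refine GrpB_gen 0 fun x _ y => ?_
    obtain ⟨p, q, hpq, hc⟩ := h x y
    rw [← Subgroup.top_lowerCentralSeries_one] at hc
    have hcc : ∀ z : H, Commute
        (QuotientGroup.mk (x ^ p * y ^ q) : H ⧸ (⊤ : Subgroup H).lowerCentralSeries (0 + 2))
        (QuotientGroup.mk z) := fun z => GrpB_central 1 hc z
    have hc1 : ∀ a b c : H, Commute
        (⁅(QuotientGroup.mk a : H ⧸ (⊤ : Subgroup H).lowerCentralSeries (0 + 2)),
          (QuotientGroup.mk b : H ⧸ (⊤ : Subgroup H).lowerCentralSeries (0 + 2))⁆)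
        (QuotientGroup.mk c) := by
      intro a b c
      have h1 : ⁅a, b⁆ ∈ (⊤ : Subgroup H).lowerCentralSeries 1 := by
        rw [Subgroup.lowerCentralSeries_succ]
        exact Subgroup.commutator_mem_commutator (Subgroup.mem_top a) (Subgroup.mem_top b)
      exact GrpB_central 1 h1 c
    obtain ⟨X, hX⟩ : ∃ X : H ⧸ (⊤ : Subgroup H).lowerCentralSeries (0 + 2),
      X = QuotientGroup.mk x := ⟨_, rfl⟩
    obtain ⟨Y, hY⟩ : ∃ Y : H ⧸ (⊤ : Subgroup H).lowerCentralSeries (0 + 2),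
      Y = QuotientGroup.mk y := ⟨_, rfl⟩
    have hXY : ∀ z : H, Commute (X ^ p * Y ^ q) (QuotientGroup.mk z) := by
      intro z
      have := hcc z
      rw [hX, hY]
      exact this
    rw [isOfFinOrder_iff_zpow_eq_one, ← hX, ← hY]
    rcases hpq with hp | hq
    · refine ⟨p, hp, ?_⟩
      have e1 : Commute ⁅X, Y⁆ X := by
        rw [hX, hY]
        exact hc1 x y x
      rw [← GrpB_zpow X Y e1 p, commutatorElement_eq_one_iff_commute]
      have e2 : X ^ p = (X ^ p * Y ^ q) * Y ^ (-q) := by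
        rw [zpow_neg, mul_inv_cancel_right]
      rw [e2]
      refine Commute.mul_left ?_ ((Commute.refl Y).zpow_left _)
      have := hXY y
      rw [← hY] at this
      exact this
    · refine ⟨q, hq, ?_⟩
      have e1 : Commute ⁅Y, X⁆ Y := by
        rw [hX, hY]
        exact hc1 y x y
      have e0 : ⁅Y, X⁆ ^ q = 1 := by
        rw [← GrpB_zpow Y X e1 q, commutatorElement_eq_one_iff_commute]
        have e2 : Y ^ q = X ^ (-p) * (X ^ p * Y ^ q) := by
          rw [zpow_neg, inv_mul_cancel_left]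
        rw [e2]
        refine Commute.mul_left ((Commute.refl X).zpow_left _) ?_
        have := hXY x
        rw [← hX] at this
        exact this
      rw [← commutatorElement_inv, inv_zpow, e0, inv_one]
  | succ k ih =>
    refine GrpB_gen (k + 1) fun g hg y => ?_
    obtain ⟨n, hn, h1⟩ := (isOfFinOrder_iff_pow_eq_one (x := (QuotientGroup.mk g :
      H ⧸ (⊤ : Subgroup H).lowerCentralSeries (k + 2)))).1 (ih g hg)
    have h2 : g ^ n ∈ (⊤ : Subgroup H).lowerCentralSeries (k + 2) :=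
      (QuotientGroup.eq_one_iff (N := (⊤ : Subgroup H).lowerCentralSeries (k + 2)) (g ^ n)).1 h1
    rw [isOfFinOrder_iff_pow_eq_one]
    refine ⟨n, hn, ?_⟩
    have h3 : ⁅g, y⁆ ∈ (⊤ : Subgroup H).lowerCentralSeries (k + 2) := by
      rw [Subgroup.lowerCentralSeries_succ]
      exact Subgroup.commutator_mem_commutator hg (Subgroup.mem_top y)
    have h4 : Commute (⁅(QuotientGroup.mk g :
        H ⧸ (⊤ : Subgroup H).lowerCentralSeries (k + 1 + 2)),
        (QuotientGroup.mk y : H ⧸ (⊤ : Subgroup H).lowerCentralSeries (k + 1 + 2))⁆)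
        (QuotientGroup.mk g) := GrpB_central (k + 2) h3 g
    rw [← GrpB_pow _ _ h4, commutatorElement_eq_one_iff_commute]
    exact GrpB_central (k + 2) h2 y

/-- In a nilpotent group in which any two elements satisfy a relation modulo the derived subgroup the elements of the derived subgroup have finite order.
Proof: let `γ 1 = H`, `γ (k+1) = ⁅γ k, H⁆` (`lowerCentralSeries`, shifted by one).  `γ 2 / γ 3` is central in `H / γ 3`, commutators are bimultiplicative modulo `γ 3`;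
from `x ^ p * y ^ q = c ∈ γ 2`, say with `p ≠ 0`: `[x, y] ^ p = [x ^ p, y] = [c * y ^ (-q), y] = 1` modulo `γ 3`: so `γ 2 / γ 3` is generated by elements of finite
order and is abelian, hence torsion.  If `γ k / γ (k+1)` is torsion (`k ≥ 2`) then so is `γ (k+1) / γ (k+2)`: it is abelian and generated by the `[g, y]`, `g ∈ γ k`, and
`[g, y] ^ n = [g ^ n, y] = 1` modulo `γ (k+2)` if `g ^ n ∈ γ (k+1)`.  Finally `γ (c+1) = 1`. -/
theorem torsion_commutator {H : Type} [Group H] [Group.IsNilpotent H]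
    (h : ∀ x y : H, ∃ p q : ℤ, (p ≠ 0 ∨ q ≠ 0) ∧ x ^ p * y ^ q ∈ commutator H) :
    ∀ z ∈ commutator H, IsOfFinOrder z := by
  obtain ⟨c, hc⟩ := Subgroup.nilpotent_iff_lowerCentralSeries.1 (inferInstance :
    Group.IsNilpotent H)
  have key : ∀ d : ℕ, ∀ k : ℕ, c ≤ k + 1 + d →
      ∀ z ∈ (⊤ : Subgroup H).lowerCentralSeries (k + 1), IsOfFinOrder z := by
    intro d
    induction d with
    | zero =>
      intro k hk z hz
      have h1 : z ∈ (⊤ : Subgroup H).lowerCentralSeries c :=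
        (⊤ : Subgroup H).lowerCentralSeries_antitone hk hz
      rw [hc, Subgroup.mem_bot] at h1
      rw [h1]
      exact IsOfFinOrder.one
    | succ d ih =>
      intro k hk z hz
      obtain ⟨n, hn, h1⟩ := (isOfFinOrder_iff_pow_eq_one (x := (QuotientGroup.mk z :
        H ⧸ (⊤ : Subgroup H).lowerCentralSeries (k + 2)))).1 (GrpB_torsion h k z hz)
      have h2 : z ^ n ∈ (⊤ : Subgroup H).lowerCentralSeries (k + 2) :=
        (QuotientGroup.eq_one_iff (N := (⊤ : Subgroup H).lowerCentralSeries (k + 2)) (z ^ n)).1 h1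
      have h3 : IsOfFinOrder (z ^ n) := ih (k + 1) (by omega) _ h2
      obtain ⟨m, hm, h4⟩ := isOfFinOrder_iff_pow_eq_one.1 h3
      rw [isOfFinOrder_iff_pow_eq_one]
      exact ⟨n * m, Nat.mul_pos hn hm, by rw [pow_mul, h4]⟩
  intro z hz
  rw [← Subgroup.top_lowerCentralSeries_one] at hz
  exact key c 0 (by omega) z hz

/-- rank one: take `x₁` of infinite order if there is such an element, otherwise `x₁ = 1` -/
theorem exists_rank_one {H : Type} [Group H]
    (h : ∀ x y : H, ∃ p q : ℤ, (p ≠ 0 ∨ q ≠ 0) ∧ x ^ p * y ^ q ∈ commutator H)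
    (ht : ∀ z ∈ commutator H, IsOfFinOrder z) :
    ∃ x₁ : H, ∀ x : H, ∃ (N : ℕ) (M : ℤ), 0 < N ∧ IsOfFinOrder (x ^ N * (x₁ ^ M)⁻¹) := by
  by_cases hx : ∃ x₁ : H, ¬ IsOfFinOrder x₁
  · obtain ⟨x₁, hx₁⟩ := hx
    refine ⟨x₁, fun x => ?_⟩
    obtain ⟨p, q, hpq, hc⟩ := h x x₁
    have hp : p ≠ 0 := by
      intro hp
      rcases hpq with h1 | h1
      · exact h1 hp
      · rw [hp, zpow_zero, one_mul] at hc
        obtain ⟨n, hn, h2⟩ := isOfFinOrder_iff_zpow_eq_one.1 (ht _ hc)
        rw [← zpow_mul] at h2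
        exact hx₁ (isOfFinOrder_iff_zpow_eq_one.2 ⟨q * n, mul_ne_zero h1 hn, h2⟩)
    rcases lt_or_gt_of_ne hp with hp | hp
    · refine ⟨(-p).toNat, q, by omega, ?_⟩
      have e1 : x ^ (-p).toNat = x ^ (-p) := by
        rw [← zpow_natCast, Int.toNat_of_nonneg (by omega)]
      rw [e1]
      refine ht _ ?_
      have e2 : (x₁ ^ q)⁻¹ * x ^ (-p) ∈ commutator H := by
        have := (commutator H).inv_mem hc
        rw [mul_inv_rev, ← zpow_neg x] at this
        exact this
      exact (Subgroup.Normal.mem_comm_iff inferInstance).1 e2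
    · refine ⟨p.toNat, -q, by omega, ?_⟩
      have e1 : x ^ p.toNat = x ^ p := by
        rw [← zpow_natCast, Int.toNat_of_nonneg (by omega)]
      rw [e1, ← zpow_neg, neg_neg]
      exact ht _ hc
  · push Not at hx
    refine ⟨1, fun x => ⟨1, 0, one_pos, ?_⟩⟩
    exact hx _

end Pool.Agent.LibCS15
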