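import Mathlib
set_option autoImplicit false
namespace Pool.Agent.LibCS15
open scoped commutatorElement

/-- A subgroup `L` of a nilpotent group with `L ⊔ commutator H = ⊤` is everything.  Proof: let `Z i` be the upper central series
and suppose `L ≠ ⊤`; let `i` be maximal with `K = L ⊔ Z i ≠ ⊤`.  Then `L ⊔ Z (i+1) = ⊤`, `K` is normal and `H ⧸ K` is abelian (generated by the image of `Z (i+1)`, which is central), so
`commutator H ≤ K` and `⊤ = L ⊔ commutator H ≤ K`. -/
theorem eq_top_of_sup_commutator {H : Type} [Group H] [Group.IsNilpotent H] (L : Subgroup H)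
    (hL : L ⊔ commutator H = ⊤) : L = ⊤ := by
  classical
  have hstep : ∀ j : ℕ, L ⊔ Subgroup.upperCentralSeries H (j + 1) = ⊤ →
      L ⊔ Subgroup.upperCentralSeries H j = ⊤ := by
    intro j hj
    rw [eq_top_iff, ← hL]
    refine sup_le le_sup_left ?_
    rw [commutator_eq_closure, Subgroup.closure_le]
    rintro _ ⟨g, h, rfl⟩
    have hg : g ∈ L ⊔ Subgroup.upperCentralSeries H (j + 1) := by rw [hj]; exact Subgroup.mem_top g
    have hh : h ∈ L ⊔ Subgroup.upperCentralSeries H (j + 1) := by rw [hj]; exact Subgroup.mem_top h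
    obtain ⟨l, hl, z, hz, rfl⟩ := Subgroup.mem_sup_of_normal_right.1 hg
    obtain ⟨l', hl', z', hz', rfl⟩ := Subgroup.mem_sup_of_normal_right.1 hh
    have hc : ∀ w ∈ Subgroup.upperCentralSeries H (j + 1), ∀ x : H,
        (w : H ⧸ Subgroup.upperCentralSeries H j) * (x : H ⧸ Subgroup.upperCentralSeries H j) =
        (x : H ⧸ Subgroup.upperCentralSeries H j) * (w : H ⧸ Subgroup.upperCentralSeries H j) := by
      intro w hw x
      have h1 := Subgroup.mem_upperCentralSeries_succ_iff.1 hw x
      rw [← QuotientGroup.eq_one_iff, commutatorElement_def] at h1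
      simp only [QuotientGroup.mk_mul, QuotientGroup.mk_inv] at h1
      rw [mul_inv_eq_one, mul_inv_eq_iff_eq_mul] at h1
      exact h1
    have hk : ⁅l * z, l' * z'⁆ * ⁅l, l'⁆⁻¹ ∈ Subgroup.upperCentralSeries H j := by
      rw [← QuotientGroup.eq_one_iff]
      have e1 : ⁅l * z, l' * z'⁆ = ((l * z) * (l' * z')) * ((l' * z') * (l * z))⁻¹ := by
        rw [commutatorElement_def]; group
      have e2 : ⁅l, l'⁆ = (l * l') * (l' * l)⁻¹ := by
        rw [commutatorElement_def]; group
      rw [e1, e2]
      simp only [QuotientGroup.mk_mul, QuotientGroup.mk_inv]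
      generalize ha : (l : H ⧸ Subgroup.upperCentralSeries H j) = a
      generalize hb : (l' : H ⧸ Subgroup.upperCentralSeries H j) = b
      have c1 := hc z hz l'
      have c2 := hc z' hz' l
      have c3 := hc z hz z'
      generalize hu : (z : H ⧸ Subgroup.upperCentralSeries H j) = u at c1 c2 c3 ⊢
      generalize hv : (z' : H ⧸ Subgroup.upperCentralSeries H j) = v at c1 c2 c3 ⊢
      rw [ha] at c2
      rw [hb] at c1
      have d1 : a * u * (b * v) = a * b * (u * v) := by
        calc a * u * (b * v) = a * (u * b) * v := by group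
          _ = a * (b * u) * v := by rw [c1]
          _ = a * b * (u * v) := by group
      have d2 : b * v * (a * u) = b * a * (u * v) := by
        calc b * v * (a * u) = b * (v * a) * u := by group
          _ = b * (a * v) * u := by rw [c2]
          _ = b * a * (v * u) := by group
          _ = b * a * (u * v) := by rw [c3]
      rw [d1, d2]
      group
    have hfin := mul_mem (Subgroup.mem_sup_right hk :
        ⁅l * z, l' * z'⁆ * ⁅l, l'⁆⁻¹ ∈ L ⊔ Subgroup.upperCentralSeries H j)
      (Subgroup.mem_sup_left (by
        rw [commutatorElement_def]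
        exact mul_mem (mul_mem (mul_mem hl hl') (inv_mem hl)) (inv_mem hl')) :
        ⁅l, l'⁆ ∈ L ⊔ Subgroup.upperCentralSeries H j)
    rwa [inv_mul_cancel_right] at hfin
  obtain ⟨n, hn⟩ := Group.IsNilpotent.nilpotent H
  have hall : ∀ n : ℕ, L ⊔ Subgroup.upperCentralSeries H n = ⊤ → L = ⊤ := by
    intro n
    induction n with
    | zero =>
      intro h
      rwa [Subgroup.upperCentralSeries_zero, sup_bot_eq] at h
    | succ n ih => exact fun h => ih (hstep n h)
  exact hall n (by rw [hn]; simp)

/-- hence a nilpotent group whose abelianization is generated by a finite set and a finite set of representatives is finitely generated -/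
theorem fg_of_quot {H : Type} [Group H] [Group.IsNilpotent H] (X : Set H) (hX : X.Finite)
    (hfin : Finite (Abelianization H ⧸ Subgroup.closure (Abelianization.of '' X))) :
    Group.FG H := by
  classical
  set C : Subgroup (Abelianization H) := Subgroup.closure (Abelianization.of '' X) with hC
  have hsurj : Function.Surjective (fun h : H => ((Abelianization.of h : Abelianization H) :
      Abelianization H ⧸ C)) :=
    (QuotientGroup.mk_surjective).comp (QuotientGroup.mk_surjective)
  choose r hr using hsurj
  rw [Group.fg_iff]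
  refine ⟨X ∪ Set.range r, ?_, hX.union (Set.finite_range r)⟩
  apply eq_top_of_sup_commutator
  rw [eq_top_iff]
  intro h _
  set y : H := r ((Abelianization.of h : Abelianization H) : Abelianization H ⧸ C) with hy
  have hyL : y ∈ Subgroup.closure (X ∪ Set.range r) :=
    Subgroup.subset_closure (Or.inr ⟨_, rfl⟩)
  have h1 : (Abelianization.of y)⁻¹ * Abelianization.of h ∈ C := by
    rw [← QuotientGroup.eq]
    exact hr _
  have h2 : C = (Subgroup.closure X).map Abelianization.of := by
    rw [MonoidHom.map_closure]
  rw [h2] at h1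
  obtain ⟨l, hl, hle⟩ := h1
  have hlL : l ∈ Subgroup.closure (X ∪ Set.range r) :=
    Subgroup.closure_mono Set.subset_union_left hl
  have h3 : l⁻¹ * (y⁻¹ * h) ∈ commutator H := by
    rw [← Abelianization.ker_of, MonoidHom.mem_ker, map_mul, map_inv, hle, map_mul, map_inv]
    group
  have h4 : h = (y * l) * (l⁻¹ * (y⁻¹ * h)) := by group
  rw [h4]
  exact mul_mem (Subgroup.mem_sup_left (mul_mem hyL hlL)) (Subgroup.mem_sup_right h3)

end Pool.Agent.LibCS15
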