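import Mathlib
set_option autoImplicit false
namespace Pool.Agent.LibCS15
open scoped commutatorElement

private theorem GrpC2_map_le {H : Type} [Group H] (n : ℕ) :
    (derivedSeries (commutator H) n).map (commutator H).subtype ≤ derivedSeries H (n + 1) := by
  induction n with
  | zero =>
    rw [derivedSeries_zero, ← MonoidHom.range_eq_map, Subgroup.range_subtype]
    exact le_of_eq (derivedSeries_one H).symm
  | succ n ih =>
    rw [derivedSeries_succ, Subgroup.map_commutator, derivedSeries_succ H (n + 1)]
    exact Subgroup.commutator_mono ih ih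

private theorem GrpC2_fin (n : ℕ) : ∀ (H : Type) [Group H] [Group.FG H],
    derivedSeries H n = ⊥ → (∀ x : H, IsOfFinOrder x) → Finite H := by
  induction n with
  | zero =>
    intro H _ _ h0 _
    have h1 : (⊤ : Subgroup H) = ⊥ := h0
    have : Subsingleton H := by
      refine ⟨fun a b => ?_⟩
      have ha : a ∈ (⊥ : Subgroup H) := h1 ▸ Subgroup.mem_top a
      have hb : b ∈ (⊥ : Subgroup H) := h1 ▸ Subgroup.mem_top b
      rw [Subgroup.mem_bot.mp ha, Subgroup.mem_bot.mp hb]
    infer_instance
  | succ n ih =>
    intro H _ _ h0 ht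
    have hfa : Finite (Abelianization H) := by
      have : Group.FG (Abelianization H) := by
        unfold Abelianization
        infer_instance
      apply CommGroup.finite_of_fg_isMulTorsion
      intro x
      obtain ⟨y, rfl⟩ : ∃ y, Abelianization.of y = x := QuotientGroup.mk_surjective x
      exact MonoidHom.isOfFinOrder _ (ht y)
    have hfi : (commutator H).FiniteIndex := by
      have : Finite (H ⧸ commutator H) := hfa
      exact Subgroup.finiteIndex_of_finite_quotient
    have hfg : Group.FG (commutator H) := inferInstance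
    have h1 : derivedSeries (commutator H) n = ⊥ := by
      have h2 := GrpC2_map_le (H := H) n
      rw [h0, le_bot_iff, Subgroup.map_eq_bot_iff_of_injective _ (Subgroup.subtype_injective _)] at h2
      exact h2
    have hf : Finite (commutator H) := ih (commutator H) h1 (by
      intro x
      have := ht (x : H)
      rwa [Submonoid.isOfFinOrder_coe] at this)
    have hq : Finite (H ⧸ commutator H) := hfa
    exact Finite.of_equiv _ (Subgroup.groupEquivQuotientProdSubgroup (s := commutator H)).symm

/-- a finitely generated solvable torsion group is finite: induction on the derived length; `Subgroup.fg_of_index_ne_zero` (Schreier) -/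
theorem finite_of_torsion {H : Type} [Group H] [Group.IsSolvable H] [Group.FG H]
    (h : ∀ x : H, IsOfFinOrder x) : Finite H := by
  obtain ⟨n, hn⟩ := (Group.isSolvable_def H).mp inferInstance
  exact GrpC2_fin n H hn h

private theorem GrpC2_pow {H : Type} [Group H] (z y c : H) (hc : ∀ w, c * w = w * c)
    (h : z * y = c * y * z) (l : ℕ) : z ^ l * y = c ^ l * y * z ^ l := by
  induction l with
  | zero => simp
  | succ l ih =>
    have hcl : z * c ^ l = c ^ l * z := ((show Commute c z from hc z).pow_left l).symm.eq
    calc z ^ (l + 1) * y = z * (z ^ l * y) := by rw [pow_succ', mul_assoc]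
      _ = z * c ^ l * y * z ^ l := by rw [ih]; simp only [mul_assoc]
      _ = c ^ l * (z * y) * z ^ l := by rw [hcl]; simp only [mul_assoc]
      _ = c ^ (l + 1) * y * z ^ (l + 1) := by rw [h, pow_succ, pow_succ']; simp only [mul_assoc]

private theorem GrpC2_center (H : Type) [Group H] [Group.IsNilpotent H] :
    Group.FG H → (∀ z ∈ commutator H, IsOfFinOrder z) →
      ∀ x : H, ∃ k : ℕ, 0 < k ∧ x ^ k ∈ Subgroup.center H := by
  apply Group.nilpotent_center_quotient_ind (P := fun H _ _ => Group.FG H →
    (∀ z ∈ commutator H, IsOfFinOrder z) → ∀ x : H, ∃ k : ℕ, 0 < k ∧ x ^ k ∈ Subgroup.center H) H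
  · intro G _ _ _ _ x
    exact ⟨1, one_pos, by rw [Subsingleton.elim (x ^ 1) 1]; exact one_mem _⟩
  · intro G _ _ ih hfg ht x
    obtain ⟨k, hk, hkx⟩ := ih inferInstance (by
      intro z hz
      have h1 : commutator (G ⧸ Subgroup.center G) =
          (commutator G).map (QuotientGroup.mk' (Subgroup.center G)) := by
        rw [commutator_def, commutator_def, Subgroup.map_commutator,
          Subgroup.map_top_of_surjective _ (QuotientGroup.mk'_surjective _)]
      rw [h1] at hz
      obtain ⟨w, hw, rfl⟩ := hz
      exact MonoidHom.isOfFinOrder _ (ht w hw)) (QuotientGroup.mk x)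
    rw [← QuotientGroup.mk_pow] at hkx
    set z : G := x ^ k with hz
    have hcen : ∀ y : G, ⁅z, y⁆ ∈ Subgroup.center G := by
      intro y
      rw [← QuotientGroup.eq_one_iff]
      have h1 := Subgroup.mem_center_iff.mp hkx (QuotientGroup.mk y)
      change QuotientGroup.mk' (Subgroup.center G) ⁅z, y⁆ = 1
      rw [map_commutatorElement, commutatorElement_eq_one_iff_mul_comm]
      exact h1.symm
    have hfin : ∀ y : G, IsOfFinOrder ⁅z, y⁆ := fun y =>
      ht _ (Subgroup.commutator_mem_commutator (Subgroup.mem_top z) (Subgroup.mem_top y))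
    obtain ⟨S, hS⟩ := Group.fg_def.mp hfg
    set l : ℕ := ∏ y ∈ S, orderOf ⁅z, y⁆ with hl
    have hl0 : 0 < l := Finset.prod_pos (fun y _ => (hfin y).orderOf_pos)
    refine ⟨k * l, Nat.mul_pos hk hl0, ?_⟩
    rw [pow_mul, ← hz]
    have hcent : (⊤ : Subgroup G) ≤ Subgroup.centralizer {z ^ l} := by
      rw [← hS, Subgroup.closure_le]
      intro y hy
      rw [SetLike.mem_coe, Subgroup.mem_centralizer_singleton_iff]
      have h1 : ⁅z, y⁆ ^ l = 1 := by
        rw [← orderOf_dvd_iff_pow_eq_one]
        exact Finset.dvd_prod_of_mem (fun y => orderOf ⁅z, y⁆) hy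
      have h2 := GrpC2_pow z y ⁅z, y⁆ (fun w => (Subgroup.mem_center_iff.mp (hcen y) w).symm)
        (by simp [commutatorElement_def]) l
      rw [h1, one_mul] at h2
      exact h2.symm
    rw [Subgroup.mem_center_iff]
    intro g
    exact Subgroup.mem_centralizer_singleton_iff.mp (hcent (Subgroup.mem_top g))

/-- In a finitely generated nilpotent group all of whose commutators have finite order the centre has finite index.  Proof: some power of every element is central: let `x ^ k ∈ Z (j+1)` (upper
central series), `k > 0`; for a generator `y`, `[x ^ k, y] ∈ Z j` has finite order `l`, and `[x ^ (k * l), y] = [x ^ k, y] ^ l = 1` modulo `Z (j-1)`... precisely: for `z ∈ Z (j+1)` the map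
`y ↦ [z, y]` modulo `Z (j-1)` and the map `z ↦ [z, y]` modulo `Z (j-1)` are homomorphisms, so with `l` a common multiple of the orders for all generators, `[x ^ (k * l), y] ∈ Z (j-1)` for all `y`, i.e.
`x ^ (k * l) ∈ Z j`.  So `H ⧸ center H` is a finitely generated nilpotent torsion group, hence finite (`finite_of_torsion`). -/
theorem center_finiteIndex {H : Type} [Group H] [Group.IsNilpotent H] [Group.FG H]
    (h : ∀ z ∈ commutator H, IsOfFinOrder z) : (Subgroup.center H).FiniteIndex := by
  have hf : Finite (H ⧸ Subgroup.center H) := by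
    apply finite_of_torsion
    intro x
    obtain ⟨y, rfl⟩ := QuotientGroup.mk_surjective x
    obtain ⟨k, hk, hky⟩ := GrpC2_center H inferInstance h y
    rw [isOfFinOrder_iff_pow_eq_one]
    exact ⟨k, hk, by rw [← QuotientGroup.mk_pow, QuotientGroup.eq_one_iff]; exact hky⟩
  exact Subgroup.finiteIndex_of_finite_quotient

end Pool.Agent.LibCS15
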