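import Pool.Agent.LibCS15.Quot
set_option autoImplicit false
namespace Pool.Agent.LibCS15
open Topology Filter

/-- universal property modulo an ideal: `exists_quotient`, the universal property for `D = B / J` and
`g ↦ q (v g)`, and a choice of representatives -/
theorem hom_of_rep {G : Type} [Group G] {A : Type} [CStarAlgebra A] {u : G →* unitary A}
    (hA : IsFullGroupCStarAlgebra G A u) {B : Type} [CStarAlgebra B] {J : Set B}
    (hJ : IsClosedIdeal J) (v : G → B) (h1 : v 1 - 1 ∈ J)
    (hmul : ∀ g h, v (g * h) - v g * v h ∈ J) (hstar : ∀ g, v g⁻¹ - star (v g) ∈ J) :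
    ∃ φ : A → B, IsHomMod J φ ∧ (∀ g, φ (u g : A) - v g ∈ J) ∧ φ 1 - 1 ∈ J := by
  obtain ⟨D, instD, q, hqs, hq0⟩ := exists_quotient hJ
  have e1 : q (v 1) = 1 := by
    have h := (hq0 _).2 h1
    rw [map_sub, map_one, sub_eq_zero] at h
    exact h
  have emul : ∀ g h, q (v (g * h)) = q (v g) * q (v h) := by
    intro g h
    have h' := (hq0 _).2 (hmul g h)
    rw [map_sub, map_mul, sub_eq_zero] at h'
    exact h'
  have estar : ∀ g, q (v g⁻¹) = star (q (v g)) := by
    intro g
    have h' := (hq0 _).2 (hstar g)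
    rw [map_sub, map_star, sub_eq_zero] at h'
    exact h'
  have hun : ∀ g, q (v g) ∈ unitary D := by
    intro g
    rw [Unitary.mem_iff]
    constructor
    · rw [← estar, ← emul, inv_mul_cancel, e1]
    · rw [← estar, ← emul, mul_inv_cancel, e1]
  let w : G →* unitary D :=
    { toFun := fun g => ⟨q (v g), hun g⟩
      map_one' := Subtype.ext e1
      map_mul' := fun g h => Subtype.ext (emul g h) }
  obtain ⟨Φ, hΦ, -⟩ := hA D w
  obtain ⟨φ, hφ⟩ : ∃ φ : A → B, ∀ x, q (φ x) = Φ x :=
    ⟨fun x => Function.surjInv hqs (Φ x), fun x => Function.surjInv_eq hqs (Φ x)⟩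
  refine ⟨φ, ⟨?_, ?_, ?_, ?_⟩, ?_, ?_⟩
  · intro x y
    rw [← hq0, map_sub, map_add, hφ, hφ, hφ, map_add, sub_self]
  · intro c x
    rw [← hq0, map_sub, map_smul, hφ, hφ, map_smul, sub_self]
  · intro x y
    rw [← hq0, map_sub, map_mul, hφ, hφ, hφ, map_mul, sub_self]
  · intro x
    rw [← hq0, map_sub, map_star, hφ, hφ, map_star, sub_self]
  · intro g
    rw [← hq0, map_sub, hφ, hΦ]
    exact sub_self _
  · rw [← hq0, map_sub, hφ, map_one, map_one, sub_self]

end Pool.Agent.LibCS15
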