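import Pool.Agent.LibCS15.Defs
set_option autoImplicit false
namespace Pool.Agent.LibCS15
open Topology Filter

/-- closure of an increasing union of ideals -/
theorem isClosedIdeal_closure {B : Type} [NonUnitalCStarAlgebra B] {J : ℕ → Set B}
    (hJ : ∀ n, IsClosedIdeal (J n)) (hmono : Monotone J) : IsClosedIdeal (closure (⋃ n, J n)) := by
  refine ⟨isClosed_closure, ?_, ?_, ?_, ?_, ?_, ?_⟩
  · exact subset_closure (Set.mem_iUnion.2 ⟨0, (hJ 0).zero_mem⟩)
  · intro x hx y hy
    refine map_mem_closure₂ (f := fun a b : B => a + b) continuous_add hx hy ?_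
    intro a ha b hb
    obtain ⟨k, hk⟩ := Set.mem_iUnion.1 ha
    obtain ⟨l, hl⟩ := Set.mem_iUnion.1 hb
    exact Set.mem_iUnion.2 ⟨max k l, (hJ _).add_mem _ (hmono (le_max_left k l) hk) _
      (hmono (le_max_right k l) hl)⟩
  · intro c x hx
    refine map_mem_closure (f := fun a : B => c • a) (continuous_const_smul c) hx ?_
    intro a ha
    obtain ⟨k, hk⟩ := Set.mem_iUnion.1 ha
    exact Set.mem_iUnion.2 ⟨k, (hJ _).smul_mem c _ hk⟩
  · intro b x hx
    refine map_mem_closure (f := fun a : B => b * a) (continuous_const.mul continuous_id) hx ?_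
    intro a ha
    obtain ⟨k, hk⟩ := Set.mem_iUnion.1 ha
    exact Set.mem_iUnion.2 ⟨k, (hJ _).mul_mem_left b _ hk⟩
  · intro b x hx
    refine map_mem_closure (f := fun a : B => a * b) (continuous_id.mul continuous_const) hx ?_
    intro a ha
    obtain ⟨k, hk⟩ := Set.mem_iUnion.1 ha
    exact Set.mem_iUnion.2 ⟨k, (hJ _).mul_mem_right b _ hk⟩
  · intro x hx
    refine map_mem_closure (f := fun a : B => star a) continuous_star hx ?_
    intro a ha
    obtain ⟨k, hk⟩ := Set.mem_iUnion.1 ha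
    exact Set.mem_iUnion.2 ⟨k, (hJ _).star_mem _ hk⟩

/-- Choose `m ≥ n` and `j ∈ J m` with `‖e - j‖ < 1`, `r = e - j`; then `r (1 - r) ∈ J m` and `1 - r` is
invertible, so `r ∈ J m` and `e ∈ J m`. -/
theorem mem_of_idempotent {B : Type} [CStarAlgebra B] {J : ℕ → Set B}
    (hJ : ∀ n, IsClosedIdeal (J n)) (hmono : Monotone J) {e : B} (he : e ∈ closure (⋃ n, J n))
    {n : ℕ} (hidem : e - e * e ∈ J n) : ∃ m, n ≤ m ∧ e ∈ J m := by
  obtain ⟨j, hj, hej⟩ := Metric.mem_closure_iff.1 he 1 one_pos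
  obtain ⟨k, hk⟩ := Set.mem_iUnion.1 hj
  refine ⟨max n k, le_max_left _ _, ?_⟩
  have h1 : e - e * e ∈ J (max n k) := hmono (le_max_left n k) hidem
  have h2 : j ∈ J (max n k) := hmono (le_max_right n k) hk
  have hI := hJ (max n k)
  have hneg : ∀ x ∈ J (max n k), -x ∈ J (max n k) := fun x hx => by
    have := hI.smul_mem (-1) x hx
    rwa [neg_smul, one_smul] at this
  have h3 : ‖e - j‖ < 1 := by rwa [← dist_eq_norm]
  have h4 : (e - j) * (1 - (e - j)) ∈ J (max n k) := by
    have h5 : (e - j) * (1 - (e - j)) =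
        (e - e * e) + (-j + (e * j + (j * e + -(j * j)))) := by
      noncomm_ring
    rw [h5]
    exact hI.add_mem _ h1 _ (hI.add_mem _ (hneg _ h2) _ (hI.add_mem _ (hI.mul_mem_left e _ h2) _
      (hI.add_mem _ (hI.mul_mem_right e _ h2) _ (hneg _ (hI.mul_mem_left j _ h2)))))
  let u : Bˣ := Units.oneSub (e - j) h3
  have hu : (u : B) = 1 - (e - j) := rfl
  have h6 : e - j ∈ J (max n k) := by
    have h7 := hI.mul_mem_right (↑u⁻¹ : B) _ h4
    rwa [← hu, mul_assoc, Units.mul_inv, mul_one] at h7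
  have h8 := hI.add_mem _ h6 _ h2
  rwa [sub_add_cancel] at h8

end Pool.Agent.LibCS15
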