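import Mathlib
set_option autoImplicit false
namespace Pool.Agent.LibCS15
open Topology Filter

section
variable {D : Type} [NormedRing D] [NormedAlgebra ℂ D] [CompleteSpace D]

private theorem norm_pow_mul_le (x k : D) (n : ℕ) : ‖x ^ n * k‖ ≤ ‖x‖ ^ n * ‖k‖ := by
  induction n with
  | zero => simp
  | succ n ih =>
    rw [pow_succ', mul_assoc, pow_succ']
    calc ‖x * (x ^ n * k)‖ ≤ ‖x‖ * ‖x ^ n * k‖ := norm_mul_le _ _
      _ ≤ ‖x‖ * (‖x‖ ^ n * ‖k‖) := by gcongr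
      _ = ‖x‖ * ‖x‖ ^ n * ‖k‖ := by ring

private theorem hasDerivAt_pow_aux (x0 k : D) (n : ℕ) (z : ℂ) :
    HasDerivAt (fun z : ℂ => (x0 + z • k) ^ (n + 1))
      (∑ i ∈ Finset.range (n + 1), (x0 + z • k) ^ i * k * (x0 + z • k) ^ (n - i)) z := by
  have h1 : HasDerivAt (fun z : ℂ => x0 + z • k) k z := by
    have := ((hasDerivAt_id z).smul_const k).const_add x0
    simpa using this
  induction n with
  | zero => simpa using h1
  | succ n ih =>
    have h2 := ih.mul h1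
    have h3 : (fun z : ℂ => (x0 + z • k) ^ (n + 1 + 1)) =
        (fun z : ℂ => (x0 + z • k) ^ (n + 1)) * fun z : ℂ => x0 + z • k := by
      funext y
      rw [Pi.mul_apply, pow_succ]
    rw [h3]
    refine h2.congr_deriv ?_
    rw [Finset.sum_range_succ _ (n + 1), Finset.sum_mul, Nat.sub_self, pow_zero, mul_one]
    congr 1
    refine Finset.sum_congr rfl fun i hi => ?_
    have hi' : i ≤ n := Nat.lt_succ_iff.1 (Finset.mem_range.1 hi)
    rw [mul_assoc, ← pow_succ, Nat.succ_sub hi']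

variable (τ : D →L[ℂ] ℂ) (hτ : ∀ a b, τ (a * b) = τ (b * a))

private noncomputable def L0 (x : D) : ℂ := ∑' n : ℕ, τ (x ^ (n + 1)) / ((n : ℂ) + 1)

include hτ in
private theorem hasDerivAt_term (x0 k : D) (n : ℕ) (z : ℂ) :
    HasDerivAt (fun z : ℂ => τ ((x0 + z • k) ^ (n + 1)) / ((n : ℂ) + 1))
      (τ ((x0 + z • k) ^ n * k)) z := by
  have h1 := (τ.hasFDerivAt.comp_hasDerivAt z (hasDerivAt_pow_aux x0 k n z)).div_const
    ((n : ℂ) + 1)
  refine h1.congr_deriv ?_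
  have hn : ((n : ℂ) + 1) ≠ 0 := by exact_mod_cast Nat.succ_ne_zero n
  rw [map_sum]
  have h2 : ∀ i ∈ Finset.range (n + 1), τ ((x0 + z • k) ^ i * k * (x0 + z • k) ^ (n - i)) =
      τ ((x0 + z • k) ^ n * k) := by
    intro i hi
    have hi' : i ≤ n := Nat.lt_succ_iff.1 (Finset.mem_range.1 hi)
    rw [hτ, ← mul_assoc, ← pow_add, Nat.sub_add_cancel hi']
  rw [Finset.sum_congr rfl h2, Finset.sum_const, Finset.card_range, nsmul_eq_mul]
  push_cast
  field_simp

private theorem norm_term_le (x : D) (n : ℕ) :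
    ‖τ (x ^ (n + 1)) / ((n : ℂ) + 1)‖ ≤ ‖τ‖ * ‖x‖ * ‖x‖ ^ n := by
  rw [norm_div]
  have h1 : (1 : ℝ) ≤ ‖((n : ℂ) + 1)‖ := by
    have : ‖((n : ℂ) + 1)‖ = (n : ℝ) + 1 := by
      rw [← Nat.cast_succ, Complex.norm_natCast]; push_cast; ring
    rw [this]
    have := Nat.cast_nonneg (α := ℝ) n
    linarith
  have h2 : ‖τ (x ^ (n + 1))‖ ≤ ‖τ‖ * ‖x‖ * ‖x‖ ^ n := by
    calc ‖τ (x ^ (n + 1))‖ ≤ ‖τ‖ * ‖x ^ (n + 1)‖ := τ.le_opNorm _
      _ ≤ ‖τ‖ * (‖x‖ ^ n * ‖x‖) := by
        gcongr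
        rw [pow_succ]
        exact norm_pow_mul_le x x n
      _ = ‖τ‖ * ‖x‖ * ‖x‖ ^ n := by ring
  exact (div_le_self (norm_nonneg _) h1).trans h2

private theorem summable_term {x : D} (hx : ‖x‖ < 1) :
    Summable fun n : ℕ => τ (x ^ (n + 1)) / ((n : ℂ) + 1) :=
  Summable.of_norm_bounded ((summable_geometric_of_lt_one (norm_nonneg x) hx).mul_left _)
    (norm_term_le τ x)

include hτ in
private theorem hasDerivAt_L0 (x0 k : D) {z : ℂ} (hz : ‖x0 + z • k‖ < 1) :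
    HasDerivAt (fun z : ℂ => L0 τ (x0 + z • k)) (τ ((∑' n : ℕ, (x0 + z • k) ^ n) * k)) z := by
  obtain ⟨r, hr1, hr2⟩ := exists_between hz
  have hr0 : 0 ≤ r := (norm_nonneg _).trans hr1.le
  set s : Set ℂ := {y : ℂ | ‖x0 + y • k‖ < r} with hs
  have hopen : IsOpen s := isOpen_lt (by fun_prop) continuous_const
  have hconv : Convex ℝ s := by
    have h1 : s = (fun y : ℂ => x0 + y • k) ⁻¹' Metric.ball (0 : D) r := by
      ext y; simp [hs]
    intro y hy y' hy' a b ha hb hab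
    change ‖x0 + y • k‖ < r at hy
    change ‖x0 + y' • k‖ < r at hy'
    show ‖x0 + (a • y + b • y') • k‖ < r
    have e : x0 + (a • y + b • y') • k = (a : ℂ) • (x0 + y • k) + (b : ℂ) • (x0 + y' • k) := by
      have hab' : (a : ℂ) + b = 1 := by exact_mod_cast hab
      have : x0 = ((a : ℂ) + b) • x0 := by rw [hab', one_smul]
      conv_lhs => rw [this]
      rw [smul_add, smul_add, add_smul, add_smul, smul_smul, smul_smul]
      simp only [Complex.real_smul]
      abel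
    rw [e]
    calc ‖(a : ℂ) • (x0 + y • k) + (b : ℂ) • (x0 + y' • k)‖
        ≤ ‖(a : ℂ) • (x0 + y • k)‖ + ‖(b : ℂ) • (x0 + y' • k)‖ := norm_add_le _ _
      _ = a * ‖x0 + y • k‖ + b * ‖x0 + y' • k‖ := by
        rw [norm_smul, norm_smul, Complex.norm_real, Complex.norm_real, Real.norm_of_nonneg ha,
          Real.norm_of_nonneg hb]
      _ < r := by
        rcases ha.eq_or_lt with h | h
        · subst h
          have hb1 : b = 1 := by linarith
          rw [hb1]; linarith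
        · calc a * ‖x0 + y • k‖ + b * ‖x0 + y' • k‖ < a * r + b * r :=
              add_lt_add_of_lt_of_le (by gcongr) (by gcongr)
            _ = r := by rw [← add_mul, hab, one_mul]
  have hpre : IsPreconnected s := hconv.isPreconnected
  have hu : Summable fun n : ℕ => ‖τ‖ * ‖k‖ * r ^ n :=
    (summable_geometric_of_lt_one hr0 hr2).mul_left _
  have key := hasDerivAt_tsum_of_isPreconnected (g := fun (n : ℕ) (y : ℂ) =>
      τ ((x0 + y • k) ^ (n + 1)) / ((n : ℂ) + 1)) (g' := fun (n : ℕ) (y : ℂ) =>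
      τ ((x0 + y • k) ^ n * k)) hu hopen hpre (fun n y _ => hasDerivAt_term τ hτ x0 k n y)
      (fun n y hy => ?_) (y₀ := z) hr1 (summable_term τ hz) hr1
  · refine key.congr_deriv ?_
    have hsum : Summable fun n : ℕ => (x0 + z • k) ^ n :=
      summable_geometric_of_norm_lt_one hz
    have h1 : Summable fun n : ℕ => (x0 + z • k) ^ n * k := hsum.mul_right k
    rw [← hsum.tsum_mul_right k, τ.map_tsum h1]
  · calc ‖τ ((x0 + y • k) ^ n * k)‖ ≤ ‖τ‖ * ‖(x0 + y • k) ^ n * k‖ := τ.le_opNorm _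
      _ ≤ ‖τ‖ * (‖x0 + y • k‖ ^ n * ‖k‖) := by gcongr; exact norm_pow_mul_le _ _ _
      _ ≤ ‖τ‖ * (r ^ n * ‖k‖) := by
        have : ‖x0 + y • k‖ ≤ r := le_of_lt hy
        gcongr
      _ = ‖τ‖ * ‖k‖ * r ^ n := by ring

include hτ in
private theorem L0_mul {a b : D} (ha : ‖a - 1‖ < 1 / 4) (hb : ‖b - 1‖ < 1 / 4) :
    L0 τ (1 - a * b) = L0 τ (1 - a) + L0 τ (1 - b) := by
  set s : Set ℂ := Metric.ball (0 : ℂ) (3 / 2) with hs
  have hX1 : ∀ z ∈ s, ‖(0 : D) + z • (1 - a)‖ < 1 := by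
    intro z hz
    have hz' : ‖z‖ < 3 / 2 := by simpa [hs] using hz
    rw [zero_add, norm_smul, norm_sub_rev]
    nlinarith [norm_nonneg z, norm_nonneg (a - 1)]
  have hX2 : ∀ z ∈ s, ‖(1 - b) + z • ((1 - a) * b)‖ < 1 := by
    intro z hz
    have hz' : ‖z‖ < 3 / 2 := by simpa [hs] using hz
    have h1 : ‖(1 - a) * b‖ ≤ 1 / 4 * (1 / 4) + 1 / 4 := by
      have : (1 - a) * b = (1 - a) * (b - 1) + (1 - a) := by noncomm_ring
      rw [this]
      calc ‖(1 - a) * (b - 1) + (1 - a)‖ ≤ ‖(1 - a) * (b - 1)‖ + ‖1 - a‖ := norm_add_le _ _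
        _ ≤ ‖1 - a‖ * ‖b - 1‖ + ‖1 - a‖ := by gcongr; exact norm_mul_le _ _
        _ ≤ 1 / 4 * (1 / 4) + 1 / 4 := by
          rw [norm_sub_rev 1 a]
          gcongr
    calc ‖(1 - b) + z • ((1 - a) * b)‖ ≤ ‖1 - b‖ + ‖z • ((1 - a) * b)‖ := norm_add_le _ _
      _ = ‖b - 1‖ + ‖z‖ * ‖(1 - a) * b‖ := by rw [norm_smul, norm_sub_rev]
      _ < 1 := by nlinarith [norm_nonneg z, norm_nonneg ((1 - a) * b)]
  have hd : ∀ z ∈ s, HasDerivAt (fun z : ℂ => L0 τ ((1 - b) + z • ((1 - a) * b)) -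
      L0 τ ((0 : D) + z • (1 - a))) 0 z := by
    intro z hz
    have h1 := hasDerivAt_L0 τ hτ 0 (1 - a) (hX1 z hz)
    have h2 := hasDerivAt_L0 τ hτ (1 - b) ((1 - a) * b) (hX2 z hz)
    refine (h2.sub h1).congr_deriv ?_
    set R1 : D := ∑' n : ℕ, ((0 : D) + z • (1 - a)) ^ n with hR1
    set R2 : D := ∑' n : ℕ, ((1 - b) + z • ((1 - a) * b)) ^ n with hR2
    set c : D := 1 - ((0 : D) + z • (1 - a)) with hc
    have e1 : R1 * c = 1 := geom_series_mul_neg _ (hX1 z hz)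
    have e2 : (1 - ((1 - b) + z • ((1 - a) * b))) * R2 = 1 := mul_neg_geom_series _ (hX2 z hz)
    have e3 : 1 - ((1 - b) + z • ((1 - a) * b)) = c * b := by
      rw [hc, zero_add, sub_mul 1 (z • (1 - a)) b, one_mul, smul_mul_assoc]; abel
    rw [e3] at e2
    have e4 : b * R2 = R1 := by
      calc b * R2 = R1 * c * (b * R2) := by rw [e1, one_mul]
        _ = R1 * (c * b * R2) := by simp only [mul_assoc]
        _ = R1 := by rw [e2, mul_one]
    have e5 : τ (R2 * ((1 - a) * b)) = τ (R1 * (1 - a)) := by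
      rw [← mul_assoc, hτ, ← mul_assoc, e4]
    rw [e5, sub_self]
  have hopen : IsOpen s := Metric.isOpen_ball
  have hpre : IsPreconnected s := (convex_ball (0 : ℂ) (3 / 2)).isPreconnected
  have h0 : (0 : ℂ) ∈ s := by simp [hs]
  have h1 : (1 : ℂ) ∈ s := by simp [hs]; norm_num
  have key := hopen.is_const_of_deriv_eq_zero hpre
    (fun z hz => (hd z hz).differentiableAt.differentiableWithinAt)
    (fun z hz => (hd z hz).deriv) h0 h1
  simp only [zero_smul, add_zero, one_smul, zero_add] at key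
  have e0 : L0 τ (0 : D) = 0 := by simp [L0]
  have e6 : (1 - b) + (1 - a) * b = 1 - a * b := by noncomm_ring
  rw [e0, sub_zero, e6] at key
  rw [key]; ring

end

/-- A logarithm of a determinant.  `L a = - ∑ τ ((1 - a) ^ (n+1)) / (n+1)` for `‖a - 1‖ < 1`.  Additivity: by traciality the derivative of `L` at `c` (`‖c - 1‖ < 1`) in the direction `h` is
`τ (c⁻¹ * h)`; for `a t = 1 + t (a - 1)`, `0 ≤ t ≤ 1`, the derivative of `L (a t * b) - L (a t)` is `τ ((a t * b)⁻¹ * (a - 1) * b) - τ ((a t)⁻¹ * (a - 1)) = 0`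
by traciality, so `L (a * b) - L a = L (1 * b) - L 1 = L b`. -/
theorem exists_log_trace : ∃ ε : ℝ, 0 < ε ∧ ∀ (D : Type) [NormedRing D] [NormedAlgebra ℂ D]
    [CompleteSpace D] (τ : D →L[ℂ] ℂ), (∀ a b, τ (a * b) = τ (b * a)) →
    ∃ L : D → ℂ, (∀ a b, ‖a - 1‖ < ε → ‖b - 1‖ < ε → L (a * b) = L a + L b) ∧
      (∀ z : ℂ, ‖z‖ < ε → L (Complex.exp z • (1 : D)) = z * τ 1) ∧
      (∀ u v a, u * v = 1 → v * u = 1 → L (u * a * v) = L a) := by
  refine ⟨1 / 4, by norm_num, ?_⟩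
  intro D _ _ _ τ hτ
  refine ⟨fun a => - L0 τ (1 - a), ?_, ?_, ?_⟩
  · intro a b ha hb
    show - L0 τ (1 - a * b) = - L0 τ (1 - a) + - L0 τ (1 - b)
    rw [L0_mul τ hτ ha hb]; ring
  · intro z hz
    show - L0 τ (1 - Complex.exp z • (1 : D)) = z * τ 1
    have h1 : ‖1 - Complex.exp z‖ < 1 := by
      have h := Complex.norm_exp_sub_one_le (x := z) (by linarith)
      rw [norm_sub_rev]
      linarith
    have h2 := Complex.hasSum_taylorSeries_neg_log h1
    rw [sub_sub_cancel] at h2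
    have hz1 : ‖z‖ < 1 := by linarith
    have him : |z.im| < Real.pi :=
      (Complex.abs_im_le_norm z).trans_lt (by linarith [Real.pi_gt_three])
    rw [Complex.log_exp (abs_lt.1 him).1 (abs_lt.1 him).2.le] at h2
    have h3 : HasSum (fun n : ℕ => (1 - Complex.exp z) ^ (n + 1) / ((n : ℂ) + 1)) (-z) := by
      have := (hasSum_nat_add_iff' 1).2 h2
      simpa using this
    have h4 : ∀ n : ℕ, τ ((1 - Complex.exp z • (1 : D)) ^ (n + 1)) / ((n : ℂ) + 1) =
        (1 - Complex.exp z) ^ (n + 1) / ((n : ℂ) + 1) * τ 1 := by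
      intro n
      have e : (1 : D) - Complex.exp z • (1 : D) = (1 - Complex.exp z) • (1 : D) := by
        rw [sub_smul, one_smul]
      rw [e, smul_pow, one_pow, map_smul, smul_eq_mul]
      ring
    simp only [L0, h4]
    rw [(h3.mul_right (τ 1)).tsum_eq]
    ring
  · intro u v a huv hvu
    show - L0 τ (1 - u * a * v) = - L0 τ (1 - a)
    have h1 : ∀ n : ℕ, (1 - u * a * v) ^ n = u * (1 - a) ^ n * v := by
      intro n
      induction n with
      | zero => rw [pow_zero, pow_zero, mul_one, huv]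
      | succ n ih =>
        have e : (1 : D) - u * a * v = u * (1 - a) * v := by
          rw [mul_sub, sub_mul, mul_one, huv]
        rw [pow_succ, ih, e, pow_succ]
        calc u * (1 - a) ^ n * v * (u * (1 - a) * v) = u * (1 - a) ^ n * (v * u) * (1 - a) * v := by
              simp only [mul_assoc]
          _ = u * ((1 - a) ^ n * (1 - a)) * v := by rw [hvu, mul_one]; simp only [mul_assoc]
    have h2 : ∀ n : ℕ, τ ((1 - u * a * v) ^ n) = τ ((1 - a) ^ n) := by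
      intro n
      rw [h1, hτ, ← mul_assoc, hvu, one_mul]
    simp only [L0, h2]

end Pool.Agent.LibCS15
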