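import Pool.Agent.LibCS15.Twisted
set_option autoImplicit false
namespace Pool.Agent.LibCS15
open Topology Filter

/-- The vector state is a trace on the closed subalgebra generated by the `U g`: `w g g⁻¹ = w g⁻¹ g` for a normalised cocycle (cocycle identity for `g, g⁻¹, g`), so
`τ (U g * U h) = τ (U h * U g)`; `star (U g)` is a multiple of `U g⁻¹`, so the span of the `U g` is a star subalgebra, equal to the `StarAlgebra.adjoin`; then take closures -/
theorem trace_comm {G : Type} [Group G] {w : G → G → ℝ} (hw : IsCocycle w) (θ : ℝ) {D : Type}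
    [CStarAlgebra D] (τ : D →L[ℂ] ℂ) (U : G → unitary D)
    (hU : ∀ g h : G, (U g : D) * (U h : D) =
      Complex.exp (Complex.I * ((θ * w g h : ℝ) : ℂ)) • (U (g * h) : D))
    (h1 : τ (U 1 : D) = 1) (hτ : ∀ g : G, g ≠ 1 → τ (U g : D) = 0) :
    ∀ a ∈ (StarAlgebra.adjoin ℂ (Set.range fun g => (U g : D))).topologicalClosure,
    ∀ b ∈ (StarAlgebra.adjoin ℂ (Set.range fun g => (U g : D))).topologicalClosure,
      τ (a * b) = τ (b * a) := by
  set S : Submodule ℂ D := Submodule.span ℂ (Set.range fun g => (U g : D)) with hS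
  have hgen : ∀ g, (U g : D) ∈ S := fun g => Submodule.subset_span ⟨g, rfl⟩
  have hU1 : (U 1 : D) = 1 := by
    have h := hU 1 1
    rw [hw.one_left, mul_zero, Complex.ofReal_zero, mul_zero, Complex.exp_zero, one_smul,
      mul_one] at h
    have h2 : star (U 1 : D) * ((U 1 : D) * (U 1 : D)) = star (U 1 : D) * (U 1 : D) := by rw [h]
    rw [← mul_assoc, Unitary.coe_star_mul_self, one_mul] at h2
    exact h2
  have hsym : ∀ g, w g g⁻¹ = w g⁻¹ g := by
    intro g
    have h := hw.cocycle g g⁻¹ g
    rw [mul_inv_cancel, inv_mul_cancel, hw.one_left, hw.one_right, add_zero, add_zero] at h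
    exact h
  have hstar : ∀ g, star (U g : D) ∈ S := by
    intro g
    have h := hU g g⁻¹
    rw [mul_inv_cancel, hU1] at h
    have h2 : star (U g : D) * ((U g : D) * (U g⁻¹ : D)) =
        star (U g : D) * (Complex.exp (Complex.I * ((θ * w g g⁻¹ : ℝ) : ℂ)) • (1 : D)) := by rw [h]
    rw [← mul_assoc, Unitary.coe_star_mul_self, one_mul, mul_smul_comm, mul_one] at h2
    have h3 : star (U g : D) = (Complex.exp (Complex.I * ((θ * w g g⁻¹ : ℝ) : ℂ)))⁻¹ •
        (U g⁻¹ : D) := by
      rw [h2, smul_smul, inv_mul_cancel₀ (Complex.exp_ne_zero _), one_smul]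
    rw [h3]
    exact S.smul_mem _ (hgen _)
  have hmulg : ∀ g, ∀ y ∈ S, (U g : D) * y ∈ S := by
    intro g y hy
    induction hy using Submodule.span_induction with
    | mem x hx =>
      obtain ⟨h, rfl⟩ := hx
      show (U g : D) * (U h : D) ∈ S
      rw [hU]
      exact S.smul_mem _ (hgen _)
    | zero => rw [mul_zero]; exact S.zero_mem
    | add x y _ _ hx hy => rw [mul_add]; exact S.add_mem hx hy
    | smul c x _ hx => rw [mul_smul_comm]; exact S.smul_mem _ hx
  have hmul : ∀ x ∈ S, ∀ y ∈ S, x * y ∈ S := by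
    intro x hx y hy
    induction hx using Submodule.span_induction with
    | mem x hx =>
      obtain ⟨h, rfl⟩ := hx
      exact hmulg h y hy
    | zero => rw [zero_mul]; exact S.zero_mem
    | add x y _ _ hx hy => rw [add_mul]; exact S.add_mem hx hy
    | smul c x _ hx => rw [smul_mul_assoc]; exact S.smul_mem _ hx
  have hstarS : ∀ x ∈ S, star x ∈ S := by
    intro x hx
    induction hx using Submodule.span_induction with
    | mem x hx =>
      obtain ⟨h, rfl⟩ := hx
      exact hstar h
    | zero => rw [star_zero]; exact S.zero_mem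
    | add x y _ _ hx hy => rw [star_add]; exact S.add_mem hx hy
    | smul c x _ hx => rw [star_smul]; exact S.smul_mem _ hx
  have hadj : ∀ x ∈ StarAlgebra.adjoin ℂ (Set.range fun g => (U g : D)), x ∈ S := by
    intro x hx
    induction hx using StarAlgebra.adjoin_induction with
    | mem x hx => exact Submodule.subset_span hx
    | algebraMap r =>
      rw [Algebra.algebraMap_eq_smul_one, ← hU1]
      exact S.smul_mem _ (hgen 1)
    | add x y _ _ hx hy => exact S.add_mem hx hy
    | mul x y _ _ hx hy => exact hmul x hx y hy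
    | star x _ hx => exact hstarS x hx
  have hτg : ∀ g h, τ ((U g : D) * (U h : D)) = τ ((U h : D) * (U g : D)) := by
    intro g h
    rw [hU, hU, map_smul, map_smul]
    by_cases hgh : g * h = 1
    · have hh : h = g⁻¹ := eq_inv_of_mul_eq_one_right hgh
      subst hh
      rw [mul_inv_cancel, inv_mul_cancel, hsym]
    · have hhg : h * g ≠ 1 := fun h' => hgh (by
        have : h = g⁻¹ := eq_inv_of_mul_eq_one_left h'
        rw [this, mul_inv_cancel])
      rw [hτ _ hgh, hτ _ hhg, smul_zero, smul_zero]
  have hτS : ∀ x ∈ S, ∀ y ∈ S, τ (x * y) = τ (y * x) := by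
    intro x hx y hy
    induction hx using Submodule.span_induction with
    | mem x hx =>
      obtain ⟨g, rfl⟩ := hx
      induction hy using Submodule.span_induction with
      | mem y hy =>
        obtain ⟨h, rfl⟩ := hy
        exact hτg g h
      | zero => rw [zero_mul, mul_zero]
      | add x y _ _ hx hy => rw [mul_add, add_mul, map_add, map_add, hx, hy]
      | smul c x _ hx => rw [mul_smul_comm, smul_mul_assoc, map_smul, map_smul, hx]
    | zero => rw [zero_mul, mul_zero]
    | add x y _ _ hx hy => rw [mul_add, add_mul, map_add, map_add, hx, hy]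
    | smul c x _ hx => rw [mul_smul_comm, smul_mul_assoc, map_smul, map_smul, hx]
  intro a ha b hb
  have ha' : a ∈ closure (StarAlgebra.adjoin ℂ (Set.range fun g => (U g : D)) : Set D) := ha
  have hb' : b ∈ closure (StarAlgebra.adjoin ℂ (Set.range fun g => (U g : D)) : Set D) := hb
  have hab : (a, b) ∈ closure ((StarAlgebra.adjoin ℂ (Set.range fun g => (U g : D)) : Set D) ×ˢ
      (StarAlgebra.adjoin ℂ (Set.range fun g => (U g : D)) : Set D)) := by
    rw [closure_prod_eq]; exact ⟨ha', hb'⟩
  have hcl : IsClosed {p : D × D | τ (p.1 * p.2) = τ (p.2 * p.1)} :=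
    isClosed_eq (by fun_prop) (by fun_prop)
  have hsub : (StarAlgebra.adjoin ℂ (Set.range fun g => (U g : D)) : Set D) ×ˢ
      (StarAlgebra.adjoin ℂ (Set.range fun g => (U g : D)) : Set D) ⊆
      {p : D × D | τ (p.1 * p.2) = τ (p.2 * p.1)} :=
    fun p hp => hτS p.1 (hadj _ hp.1) p.2 (hadj _ hp.2)
  exact closure_minimal hsub hcl hab

end Pool.Agent.LibCS15
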