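import Pool.Agent.LibCS15.Lifting
import Pool.Agent.LibCS15.LogTrace
import Pool.Agent.LibCS15.TrComm
import Pool.Agent.LibCS15.CobFin
set_option autoImplicit false
namespace Pool.Agent.LibCS15
open Topology Filter

theorem isClosedIdeal_univ {D : Type} [NonUnitalCStarAlgebra D] : IsClosedIdeal (Set.univ : Set D) :=
  ⟨isClosed_univ, trivial, fun _ _ _ _ => trivial, fun _ _ _ => trivial, fun _ _ _ => trivial,
    fun _ _ _ => trivial, fun _ _ => trivial⟩

theorem norm_unitary_le {D : Type} [CStarAlgebra D] (u : unitary D) : ‖(u : D)‖ ≤ 1 := by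
  have h1 : ‖(u : D)‖ * ‖(u : D)‖ = ‖(1 : D)‖ := by
    rw [← CStarRing.norm_star_mul_self, Unitary.coe_star_mul_self]
  have := norm_one_le' (D := D)
  nlinarith [norm_nonneg (u : D)]

theorem mul_near {D : Type} [NormedRing D] {a b : D} {ε : ℝ} (hε1 : ε ≤ 1)
    (ha : ‖a - 1‖ < ε / 4) (hb : ‖b - 1‖ < ε / 4) : ‖a * b - 1‖ < ε := by
  have e1 : a * b - 1 = (a - 1) * (b - 1) + (a - 1) + (b - 1) := by noncomm_ring
  have e2 : ‖(a - 1) * (b - 1)‖ ≤ ‖a - 1‖ * ‖b - 1‖ := norm_mul_le _ _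
  have e3 : ‖(a - 1) * (b - 1) + (a - 1) + (b - 1)‖ ≤ ‖(a - 1) * (b - 1)‖ + ‖a - 1‖ + ‖b - 1‖ :=
    norm_add₃_le
  rw [e1]
  nlinarith [norm_nonneg (a - 1), norm_nonneg (b - 1)]

theorem H2_finite {G : Type} [Group G] [Countable G] (hG : CStarStable G) {w : G → G → ℝ}
    (hw : IsCocycle w) (F : Finset G) : ∃ c : G → ℝ, ∀ g ∈ F, ∀ h ∈ F, g * h ∈ F →
      w g h = c g + c h - c (g * h) := by
  classical
  obtain ⟨D, instD, τ, U, hU, hτ1, hτ⟩ := exists_twisted hw
  obtain ⟨ε₀, hε₀, hlog⟩ := exists_log_trace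
  set ε : ℝ := min ε₀ 1 with hε
  have hεpos : 0 < ε := lt_min hε₀ one_pos
  have hε1 : ε ≤ 1 := min_le_right _ _
  have hεε₀ : ε ≤ ε₀ := min_le_left _ _
  let θ : ℕ → ℝ := fun m => 1 / ((m : ℝ) + 1)
  have hθ : Tendsto θ atTop (𝓝 0) := tendsto_one_div_add_atTop_nhds_zero_nat
  have hθpos : ∀ m, 0 < θ m := fun m => by positivity
  let v : ℕ → G → D := fun m g => (U (θ m) g : D)
  have hU1 : ∀ t, (U t 1 : D) = 1 := by
    intro t
    have e1 := hU t 1 1
    rw [hw.one_left, mul_zero, Complex.ofReal_zero, mul_zero, Complex.exp_zero, one_smul,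
      mul_one] at e1
    have e2 : star (U t 1 : D) * ((U t 1 : D) * (U t 1 : D)) = star (U t 1 : D) * (U t 1 : D) := by
      rw [e1]
    rwa [← mul_assoc, Unitary.coe_star_mul_self, one_mul] at e2
  have hUinv : ∀ t g, (U t g⁻¹ : D) =
      Complex.exp (Complex.I * ((t * w g g⁻¹ : ℝ) : ℂ)) • star (U t g : D) := by
    intro t g
    have e1 := hU t g g⁻¹
    rw [mul_inv_cancel, hU1] at e1
    have e2 : star (U t g : D) * ((U t g : D) * (U t g⁻¹ : D)) =
        star (U t g : D) * (Complex.exp (Complex.I * ((t * w g g⁻¹ : ℝ) : ℂ)) • (1 : D)) := by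
      rw [e1]
    rwa [← mul_assoc, Unitary.coe_star_mul_self, one_mul, mul_smul_comm, mul_one] at e2
  have hexp : ∀ r : ℝ, Tendsto (fun m => Complex.exp (Complex.I * ((θ m * r : ℝ) : ℂ))) atTop
      (𝓝 1) := by
    intro r
    have e1 : Tendsto (fun m => Complex.I * ((θ m * r : ℝ) : ℂ)) atTop (𝓝 (Complex.I * ((0 * r : ℝ) : ℂ))) :=
      ((Complex.continuous_ofReal.tendsto _).comp (hθ.mul_const r)).const_mul Complex.I
    have e2 := (Complex.continuous_exp.tendsto _).comp e1
    simpa [Function.comp_def] using e2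
  have hbd : ∀ m g, ‖v m g‖ ≤ 1 := fun m g => norm_unitary_le _
  have hsm : ∀ (z : ℕ → ℂ) (x : ℕ → D), Tendsto z atTop (𝓝 0) → (∀ m, ‖x m‖ ≤ 1) →
      Tendsto (fun m => z m • x m) atTop (𝓝 0) := by
    intro z x hz hx
    refine squeeze_zero_norm (a := fun m => ‖z m‖) (fun m => ?_) (by simpa using hz.norm)
    rw [norm_smul]
    exact mul_le_of_le_one_right (norm_nonneg _) (hx m)
  obtain ⟨m₀, π, -, hπ, hπA⟩ := lifting hG isClosedIdeal_univ v (fun g => ⟨1, fun m => hbd m g⟩)
    (fun _ => trivial) (by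
      have : (fun m => v m 1 - 1) = fun _ => (0 : D) := by
        funext m
        show (U (θ m) 1 : D) - 1 = 0
        rw [hU1, sub_self]
      rw [this]
      exact tendsto_const_nhds)
    (fun _ _ _ => trivial) (by
      intro g h
      have e1 : (fun m => v m (g * h) - v m g * v m h) =
          fun m => (1 - Complex.exp (Complex.I * ((θ m * w g h : ℝ) : ℂ))) • v m (g * h) := by
        funext m
        show (U (θ m) (g * h) : D) - (U (θ m) g : D) * (U (θ m) h : D) = _
        rw [hU, sub_smul, one_smul]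
      rw [e1]
      exact hsm _ _ (by simpa using (tendsto_const_nhds (x := (1 : ℂ))).sub (hexp (w g h)))
        (fun m => hbd m _))
    (fun _ _ => trivial) (by
      intro g
      have e1 : (fun m => v m g⁻¹ - star (v m g)) =
          fun m => (Complex.exp (Complex.I * ((θ m * w g g⁻¹ : ℝ) : ℂ)) - 1) • star (v m g) := by
        funext m
        show (U (θ m) g⁻¹ : D) - star (U (θ m) g : D) = _
        rw [hUinv, sub_smul, one_smul]
      rw [e1]
      exact hsm _ _ (by simpa using (hexp (w g g⁻¹)).sub (tendsto_const_nhds (x := (1 : ℂ))))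
        (fun m => by rw [norm_star]; exact hbd m _))
  -- choose `m`
  have hev1 : ∀ g, ∀ᶠ m in atTop, ‖(π m g : D) - v m g‖ < ε / 4 := by
    intro g
    have := (Metric.tendsto_nhds.1 (hπ g)) (ε / 4) (by positivity)
    simpa [dist_zero_right] using this
  have hev2 : ∀ g h, ∀ᶠ m in atTop,
      ‖Complex.exp (Complex.I * ((θ m * w g h : ℝ) : ℂ)) - 1‖ < ε ∧ |θ m * w g h| < ε := by
    intro g h
    have e1 := (Metric.tendsto_nhds.1 (hexp (w g h))) ε hεpos
    have e2 := (Metric.tendsto_nhds.1 (hθ.mul_const (w g h))) ε hεpos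
    filter_upwards [e1, e2] with m h1 h2
    refine ⟨by rwa [← dist_eq_norm], ?_⟩
    rw [zero_mul, Real.dist_eq, sub_zero] at h2
    exact h2
  have hev3 : ∀ᶠ m in atTop, ∀ g ∈ F, ‖(π m g : D) - v m g‖ < ε / 4 :=
    (Filter.eventually_all_finset F).2 fun g _ => hev1 g
  have hev4 : ∀ᶠ m in atTop, ∀ g ∈ F, ∀ h ∈ F,
      ‖Complex.exp (Complex.I * ((θ m * w g h : ℝ) : ℂ)) - 1‖ < ε ∧ |θ m * w g h| < ε :=
    (Filter.eventually_all_finset F).2 fun g _ =>
      (Filter.eventually_all_finset F).2 fun h _ => hev2 g h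
  obtain ⟨m, hm3, hm4, hm0⟩ := (hev3.and (hev4.and (eventually_ge_atTop m₀))).exists
  -- the algebra
  let B : StarSubalgebra ℂ D := (StarAlgebra.adjoin ℂ (Set.range (v m))).topologicalClosure
  have hBcl : IsClosed (B : Set D) := StarSubalgebra.isClosed_topologicalClosure _
  let instB : CStarAlgebra B := StarSubalgebra.cstarAlgebra B (h_closed := hBcl)
  have hvB : ∀ g, v m g ∈ B := fun g =>
    StarSubalgebra.le_topologicalClosure _ (StarAlgebra.subset_adjoin ℂ _ ⟨g, rfl⟩)
  have hπB : ∀ g, (π m g : D) ∈ B := fun g => hπA m hm0 g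
  let τ' : B →L[ℂ] ℂ := LinearMap.mkContinuous
    { toFun := fun b => τ (b : D)
      map_add' := fun a b => by
        show τ ((a : D) + (b : D)) = _
        rw [map_add]
      map_smul' := fun c a => by
        show τ (c • (a : D)) = _
        rw [map_smul]; rfl } ‖τ‖ (fun b => τ.le_opNorm _)
  have hτ' : ∀ b : B, τ' b = τ (b : D) := fun b => rfl
  obtain ⟨L, hL1, hL2, hL3⟩ := hlog B τ' (fun a b => trace_comm hw (θ m) τ (U (θ m)) (hU (θ m))
    (hτ1 _) (hτ _) a a.2 b b.2)
  let Ub : G → B := fun g => ⟨v m g, hvB g⟩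
  let Pb : G → B := fun g => ⟨(π m g : D), hπB g⟩
  let a : G → B := fun g => Pb g * star (Ub g)
  have hUb : ∀ g, star (Ub g) * Ub g = 1 := fun g => Subtype.ext (Unitary.coe_star_mul_self _)
  have hUb' : ∀ g, Ub g * star (Ub g) = 1 := fun g => Subtype.ext (Unitary.coe_mul_star_self _)
  have hUm : ∀ g h, Ub g * Ub h = Complex.exp (Complex.I * ((θ m * w g h : ℝ) : ℂ)) • Ub (g * h) :=
    fun g h => Subtype.ext (hU (θ m) g h)
  have hPm : ∀ g h, Pb (g * h) = Pb g * Pb h := by
    intro g h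
    apply Subtype.ext
    show (π m (g * h) : D) = (π m g : D) * (π m h : D)
    rw [map_mul]; rfl
  have hnear : ∀ g ∈ F, ‖a g - 1‖ < ε / 4 := by
    intro g hg
    have e1 : a g - 1 = (Pb g - Ub g) * star (Ub g) := by
      rw [sub_mul, hUb']
    rw [e1]
    refine lt_of_le_of_lt (norm_mul_le _ _) ?_
    have e2 : ‖star (Ub g)‖ ≤ 1 := by
      rw [norm_star]
      exact hbd m g
    have e3 : ‖Pb g - Ub g‖ < ε / 4 := hm3 g hg
    calc ‖Pb g - Ub g‖ * ‖star (Ub g)‖ ≤ ‖Pb g - Ub g‖ * 1 :=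
          mul_le_mul_of_nonneg_left e2 (norm_nonneg _)
      _ < ε / 4 := by rwa [mul_one]
  have hkey : ∀ g h, a (g * h) = (Complex.exp (Complex.I * ((θ m * w g h : ℝ) : ℂ)) • (1 : B)) *
      (a g * (Ub g * a h * star (Ub g))) := by
    intro g h
    set z : ℂ := Complex.exp (Complex.I * ((θ m * w g h : ℝ) : ℂ)) with hz
    have hzz : z * (starRingEnd ℂ) z = 1 := by
      rw [Complex.mul_conj, Complex.normSq_eq_norm_sq, hz, mul_comm Complex.I,
        Complex.norm_exp_ofReal_mul_I]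
      simp
    have e1 : star (Ub (g * h)) = z • (star (Ub h) * star (Ub g)) := by
      have e2 : Ub (g * h) = (starRingEnd ℂ) z • (Ub g * Ub h) := by
        rw [hUm, smul_smul, mul_comm, hzz, one_smul]
      rw [e2, star_smul, star_mul]
      congr 1
      simp
    show Pb (g * h) * star (Ub (g * h)) = z • (1 : B) * (Pb g * star (Ub g) *
      (Ub g * (Pb h * star (Ub h)) * star (Ub g)))
    rw [e1, hPm, mul_smul_comm, smul_mul_assoc, one_mul]
    congr 1
    have e3 : Pb g * star (Ub g) * (Ub g * (Pb h * star (Ub h)) * star (Ub g)) =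
        Pb g * (star (Ub g) * Ub g) * (Pb h * star (Ub h)) * star (Ub g) := by noncomm_ring
    rw [e3, hUb, mul_one]
    noncomm_ring
  refine ⟨fun g => - (L (a g)).im / θ m, fun g hg h hh hgh => ?_⟩
  have hconj : ‖Ub g * a h * star (Ub g) - 1‖ < ε / 4 := by
    have e1 : Ub g * a h * star (Ub g) - 1 = Ub g * (a h - 1) * star (Ub g) := by
      rw [mul_sub, sub_mul, mul_one, hUb']
    rw [e1]
    have e2 : ‖star (Ub g)‖ ≤ 1 := by
      rw [norm_star]
      exact hbd m g
    have e3 : ‖Ub g‖ ≤ 1 := hbd m g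
    calc ‖Ub g * (a h - 1) * star (Ub g)‖ ≤ ‖Ub g * (a h - 1)‖ * ‖star (Ub g)‖ := norm_mul_le _ _
      _ ≤ (‖Ub g‖ * ‖a h - 1‖) * 1 :=
          mul_le_mul (norm_mul_le _ _) e2 (norm_nonneg _) (by positivity)
      _ ≤ (1 * ‖a h - 1‖) * 1 := by
          gcongr
      _ < ε / 4 := by rw [one_mul, mul_one]; exact hnear h hh
  have hLsum : L (a (g * h)) = Complex.I * ((θ m * w g h : ℝ) : ℂ) + (L (a g) + L (a h)) := by
    have hε4 : ε / 4 < ε₀ := lt_of_lt_of_le (by linarith) hεε₀
    rw [hkey, hL1 _ _ ?_ ?_, hL1 _ _ ((hnear g hg).trans hε4) (hconj.trans hε4),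
      hL3 _ _ _ (hUb' g) (hUb g), hL2 _ ?_]
    · congr 1
      rw [hτ']
      have : τ ((1 : B) : D) = 1 := by
        show τ (1 : D) = 1
        rw [← hU1 (θ m), hτ1]
      rw [this, mul_one]
    · rw [norm_mul, Complex.norm_I, one_mul, Complex.norm_real, Real.norm_eq_abs]
      exact (hm4 g hg h hh).2.trans_le hεε₀
    · have e1 : (Complex.exp (Complex.I * ((θ m * w g h : ℝ) : ℂ)) • (1 : B)) - 1 =
          (Complex.exp (Complex.I * ((θ m * w g h : ℝ) : ℂ)) - 1) • (1 : B) := by
        rw [sub_smul, one_smul]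
      rw [e1, norm_smul]
      refine lt_of_le_of_lt (mul_le_of_le_one_right (norm_nonneg _) norm_one_le') ?_
      exact (hm4 g hg h hh).1.trans_le hεε₀
    · exact (mul_near hε1 (hnear g hg) hconj).trans_le hεε₀
  have him := congrArg Complex.im hLsum
  rw [Complex.add_im, Complex.add_im, Complex.mul_im, Complex.I_re, Complex.I_im, zero_mul,
    one_mul, zero_add, Complex.ofReal_re] at him
  show w g h = - (L (a g)).im / θ m + - (L (a h)).im / θ m - - (L (a (g * h))).im / θ m
  rw [him]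
  have := (hθpos m).ne'
  field_simp
  ring

/-- for a countable `C*`-stable group every real 2-cocycle is a coboundary: `H²(G, ℝ) = 0` -/
theorem H2_real {G : Type} [Group G] [Countable G] (hG : CStarStable G) (w : G → G → ℝ)
    (hw : ∀ g h k, w g h + w (g * h) k = w h k + w g (h * k)) :
    ∃ c : G → ℝ, ∀ g h, w g h = c g + c h - c (g * h) := by
  have hw' : IsCocycle (fun g h => w g h - w 1 1) := by
    constructor
    · intro g
      have := hw 1 1 g
      simp only [one_mul] at this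
      linarith
    · intro g
      have := hw g 1 1
      simp only [mul_one] at this
      linarith
    · intro g h k
      have := hw g h k
      linarith
  obtain ⟨c, hc⟩ := coboundary_of_finite _ (H2_finite hG hw')
  refine ⟨fun g => c g + w 1 1, fun g h => ?_⟩
  have := hc g h
  linarith

end Pool.Agent.LibCS15
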