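import Pool.Agent.LibCS15.Hom1
import Pool.Agent.LibCS15.Hom2
set_option autoImplicit false
namespace Pool.Agent.LibCS15
open Topology Filter

theorem countable_closure {M : Type} [Monoid M] {S : Set M} (hS : S.Countable) :
    ((Submonoid.closure S : Submonoid M) : Set M).Countable := by
  rw [Submonoid.closure_eq_mrange]
  have : Countable S := hS
  have : Countable (FreeMonoid S) := inferInstanceAs (Countable (List S))
  exact Set.countable_range _

theorem isSeparable_adjoin {X : Type} [CStarAlgebra X] {S : Set X} (hS : S.Countable) :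
    TopologicalSpace.IsSeparable ((StarAlgebra.adjoin ℂ S).topologicalClosure : Set X) := by
  rw [StarSubalgebra.topologicalClosure_coe]
  apply TopologicalSpace.IsSeparable.closure
  have h1 : ((StarAlgebra.adjoin ℂ S : StarSubalgebra ℂ X) : Set X) =
      (Submodule.span ℂ ((Submonoid.closure (S ∪ star S) : Submonoid X) : Set X) : Set X) := by
    rw [← Algebra.adjoin_eq_span]
    rfl
  rw [h1]
  have h2 : (S ∪ star S).Countable := hS.union (by
    rw [← Set.image_star]; exact hS.image _)
  exact (countable_closure h2).isSeparable.span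

section
variable {D : Type} [CStarAlgebra D]

theorem norm_one_le' : ‖(1 : D)‖ ≤ 1 := by
  rcases subsingleton_or_nontrivial D with hD | hD
  · rw [Subsingleton.elim (1 : D) 0]; simp
  · rw [CStarRing.norm_one]

/-- the truncation projections in the algebra of bounded sequences -/
noncomputable def trunc (D : Type) [CStarAlgebra D] (n : ℕ) : BoundedContinuousFunction ℕ D :=
  BoundedContinuousFunction.ofNormedAddCommGroupDiscrete (fun m => if m < n then (1 : D) else 0) 1
    (by
      intro m
      split_ifs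
      · exact norm_one_le'
      · simp)

theorem trunc_apply (n m : ℕ) : trunc D n m = if m < n then (1 : D) else 0 := rfl

/-- evaluation at `m` on bounded sequences -/
noncomputable def evalAt (m : ℕ) : BoundedContinuousFunction ℕ D →⋆ₐ[ℂ] D where
  toFun f := f m
  map_one' := rfl
  map_mul' _ _ := rfl
  map_zero' := rfl
  map_add' _ _ := rfl
  commutes' _ := rfl
  map_star' _ := rfl

theorem evalAt_apply (m : ℕ) (f : BoundedContinuousFunction ℕ D) : evalAt m f = f m := rfl

theorem continuous_evalAt (m : ℕ) :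
    Continuous (evalAt m : BoundedContinuousFunction ℕ D → D) := by
  show Continuous (fun f : BoundedContinuousFunction ℕ D => f m)
  exact (BoundedContinuousFunction.lipschitz_eval_const m).continuous

end

/-- the lifting lemma -/
theorem lifting {G : Type} [Group G] [Countable G] (hG : CStarStable G) {D : Type}
    [CStarAlgebra D] {K : Set D} (hK : IsClosedIdeal K) (v : ℕ → G → D)
    (hb : ∀ g, ∃ C : ℝ, ∀ m, ‖v m g‖ ≤ C)
    (h1 : ∀ m, v m 1 - 1 ∈ K) (h1' : Tendsto (fun m => v m 1 - 1) atTop (𝓝 0))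
    (hmul : ∀ m g h, v m (g * h) - v m g * v m h ∈ K)
    (hmul' : ∀ g h, Tendsto (fun m => v m (g * h) - v m g * v m h) atTop (𝓝 0))
    (hstar : ∀ m g, v m g⁻¹ - star (v m g) ∈ K)
    (hstar' : ∀ g, Tendsto (fun m => v m g⁻¹ - star (v m g)) atTop (𝓝 0)) :
    ∃ (m₀ : ℕ) (π : ℕ → G →* unitary D),
      (∀ m, m₀ ≤ m → ∀ g, (π m g : D) - v m g ∈ K) ∧
      (∀ g, Tendsto (fun m => (π m g : D) - v m g) atTop (𝓝 0)) ∧
      (∀ m, m₀ ≤ m → ∀ g, (π m g : D) ∈
        closure ((StarAlgebra.adjoin ℂ (Set.range (v m)) : StarSubalgebra ℂ D) : Set D)) := by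
  classical
  obtain ⟨A, instA, u, hA, hsemi⟩ := hG
  choose C hC using hb
  let X : Type := BoundedContinuousFunction ℕ D
  let U : G → X := fun g => BoundedContinuousFunction.ofNormedAddCommGroupDiscrete
    (fun m => v m g) (C g) (hC g)
  have hU : ∀ g m, U g m = v m g := fun g m => rfl
  let S : Set X := Set.range U ∪ Set.range (trunc D)
  have hS : S.Countable := (Set.countable_range _).union (Set.countable_range _)
  let B : StarSubalgebra ℂ X := (StarAlgebra.adjoin ℂ S).topologicalClosure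
  have hBcl : IsClosed (B : Set X) := StarSubalgebra.isClosed_topologicalClosure _
  let instB : CStarAlgebra B := StarSubalgebra.cstarAlgebra B (h_closed := hBcl)
  have hSB : ∀ x ∈ S, x ∈ B := fun x hx =>
    StarSubalgebra.le_topologicalClosure _ (StarAlgebra.subset_adjoin ℂ S hx)
  have instSep : TopologicalSpace.SeparableSpace B := by
    exact (isSeparable_adjoin hS).separableSpace
  -- evaluation
  let ev : ℕ → B → D := fun m b => (b : X) m
  have hev : ∀ m, Continuous (ev m) := fun m => (continuous_evalAt m).comp continuous_subtype_val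
  have hnorm : ∀ (b : B) m, ‖ev m b‖ ≤ ‖b‖ := fun b m => BoundedContinuousFunction.norm_coe_le_norm _ _
  let J : ℕ → Set B := fun n => {b | (∀ m, ev m b ∈ K) ∧ ∀ m, n ≤ m → ev m b = 0}
  have hJ : ∀ n, IsClosedIdeal (J n) := by
    intro n
    constructor
    · have e1 : J n = (⋂ m, ev m ⁻¹' K) ∩ ⋂ m, ⋂ (_ : n ≤ m), ev m ⁻¹' {0} := by
        ext b; simp [J]
      rw [e1]
      exact (isClosed_iInter fun m => hK.isClosed.preimage (hev m)).inter
        (isClosed_iInter fun m => isClosed_iInter fun _ => isClosed_singleton.preimage (hev m))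
    · exact ⟨fun m => hK.zero_mem, fun m _ => rfl⟩
    · rintro x ⟨hx1, hx2⟩ y ⟨hy1, hy2⟩
      refine ⟨fun m => hK.add_mem _ (hx1 m) _ (hy1 m), fun m hm => ?_⟩
      show ev m x + ev m y = 0
      rw [hx2 m hm, hy2 m hm, add_zero]
    · rintro c x ⟨hx1, hx2⟩
      refine ⟨fun m => hK.smul_mem c _ (hx1 m), fun m hm => ?_⟩
      show c • ev m x = 0
      rw [hx2 m hm, smul_zero]
    · rintro b x ⟨hx1, hx2⟩
      refine ⟨fun m => hK.mul_mem_left _ _ (hx1 m), fun m hm => ?_⟩
      show ev m b * ev m x = 0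
      rw [hx2 m hm, mul_zero]
    · rintro b x ⟨hx1, hx2⟩
      refine ⟨fun m => hK.mul_mem_right _ _ (hx1 m), fun m hm => ?_⟩
      show ev m x * ev m b = 0
      rw [hx2 m hm, zero_mul]
    · rintro x ⟨hx1, hx2⟩
      refine ⟨fun m => hK.star_mem _ (hx1 m), fun m hm => ?_⟩
      show star (ev m x) = 0
      rw [hx2 m hm, star_zero]
  have hmono : Monotone J := by
    intro n n' hn b hb
    exact ⟨hb.1, fun m hm => hb.2 m (hn.trans hm)⟩
  have hJ1 : ∀ b : B, b ∈ closure (⋃ n, J n) → (∀ m, ev m b ∈ K) ∧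
      Tendsto (fun m => ev m b) atTop (𝓝 0) := by
    intro b hb
    constructor
    · intro m
      have e1 : closure (⋃ n, J n) ⊆ ev m ⁻¹' K := by
        apply closure_minimal _ (hK.isClosed.preimage (hev m))
        intro c hc
        obtain ⟨n, hn⟩ := Set.mem_iUnion.1 hc
        exact hn.1 m
      exact e1 hb
    · rw [Metric.tendsto_atTop]
      intro ε hε
      obtain ⟨c, hc, hbc⟩ := Metric.mem_closure_iff.1 hb ε hε
      obtain ⟨n, hn⟩ := Set.mem_iUnion.1 hc
      refine ⟨n, fun m hm => ?_⟩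
      rw [dist_zero_right]
      have e2 : ev m b = ev m (b - c) := by
        show ev m b = ev m b - ev m c
        rw [hn.2 m hm, sub_zero]
      rw [e2]
      exact (hnorm _ m).trans_lt (by rwa [← dist_eq_norm])
  have hJ2 : ∀ b : B, (∀ m, ev m b ∈ K) → Tendsto (fun m => ev m b) atTop (𝓝 0) →
      b ∈ closure (⋃ n, J n) := by
    intro b hb1 hb2
    rw [Metric.mem_closure_iff]
    intro ε hε
    obtain ⟨n, hn⟩ := (Metric.tendsto_atTop.1 hb2) (ε / 2) (half_pos hε)
    let t : B := ⟨trunc D n, hSB _ (Or.inr ⟨n, rfl⟩)⟩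
    refine ⟨t * b, Set.mem_iUnion.2 ⟨n, fun m => hK.mul_mem_left _ _ (hb1 m), fun m hm => ?_⟩, ?_⟩
    · show trunc D n m * ev m b = 0
      rw [trunc_apply, if_neg (not_lt.2 hm), zero_mul]
    · rw [dist_eq_norm]
      refine lt_of_le_of_lt ?_ (half_lt_self hε)
      show ‖((b - t * b : B) : X)‖ ≤ ε / 2
      rw [BoundedContinuousFunction.norm_le (half_pos hε).le]
      intro m
      show ‖ev m b - trunc D n m * ev m b‖ ≤ ε / 2
      rw [trunc_apply]
      split_ifs with hm
      · rw [one_mul, sub_self, norm_zero]; exact (half_pos hε).le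
      · rw [zero_mul, sub_zero]
        have := hn m (not_lt.1 hm)
        rw [dist_zero_right] at this
        exact this.le
  -- the map modulo `J`
  let V : G → B := fun g => ⟨U g, hSB _ (Or.inl ⟨g, rfl⟩)⟩
  have hV : ∀ g m, ev m (V g) = v m g := fun g m => rfl
  obtain ⟨φ, hφ, hφu, hφ1⟩ := hom_of_rep hA (isClosedIdeal_closure hJ hmono) V
    (hJ2 _ (fun m => h1 m) h1') (fun g h => hJ2 _ (fun m => hmul m g h) (hmul' g h))
    (fun g => hJ2 _ (fun m => hstar m g) (hstar' g))
  obtain ⟨n, ψ, hψ, hψφ⟩ := hsemi B J hJ hmono φ hφ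
  -- the unit
  have he : (1 : B) - ψ 1 ∈ closure (⋃ n, J n) := by
    have hI := isClosedIdeal_closure hJ hmono
    have e1 := hI.add_mem _ (hψφ 1) _ hφ1
    have e2 := hI.smul_mem (-1) _ e1
    have e3 : (-1 : ℂ) • (ψ 1 - φ 1 + (φ 1 - 1)) = 1 - ψ 1 := by
      rw [neg_one_smul]; abel
    rwa [e3] at e2
  have hidem : ((1 : B) - ψ 1) - (1 - ψ 1) * (1 - ψ 1) ∈ J n := by
    have e1 := hψ.map_mul 1 1
    rw [mul_one] at e1
    have e3 : ((1 : B) - ψ 1) - (1 - ψ 1) * (1 - ψ 1) = ψ 1 - ψ 1 * ψ 1 := by noncomm_ring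
    rwa [e3]
  obtain ⟨m₀, hm₀, hem₀⟩ := mem_of_idempotent hJ hmono he hidem
  have hone : ∀ m, m₀ ≤ m → ev m (ψ 1) = 1 := by
    intro m hm
    have : ev m 1 - ev m (ψ 1) = 0 := hem₀.2 m hm
    exact (sub_eq_zero.1 this).symm
  have hmulψ : ∀ m, m₀ ≤ m → ∀ a b, ev m (ψ (a * b)) = ev m (ψ a) * ev m (ψ b) := by
    intro m hm a b
    have : ev m (ψ (a * b)) - ev m (ψ a) * ev m (ψ b) = 0 := (hψ.map_mul a b).2 m (hm₀.trans hm)
    exact sub_eq_zero.1 this
  have hstarψ : ∀ m, m₀ ≤ m → ∀ a, ev m (ψ (star a)) = star (ev m (ψ a)) := by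
    intro m hm a
    have : ev m (ψ (star a)) - star (ev m (ψ a)) = 0 := (hψ.map_star a).2 m (hm₀.trans hm)
    exact sub_eq_zero.1 this
  have hex : ∀ m, ∃ ρ : G →* unitary D, m₀ ≤ m → ∀ g, (ρ g : D) = ev m (ψ (u g : A)) := by
    intro m
    by_cases hm : m₀ ≤ m
    · refine ⟨
        { toFun := fun g => ⟨ev m (ψ (u g : A)), ?_⟩
          map_one' := ?_
          map_mul' := ?_ }, fun _ g => rfl⟩
      · rw [Unitary.mem_iff]
        constructor
        · rw [← hstarψ m hm, ← hmulψ m hm, Unitary.star_mul_self_of_mem (u g).2, hone m hm]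
        · rw [← hstarψ m hm, ← hmulψ m hm, Unitary.mul_star_self_of_mem (u g).2, hone m hm]
      · apply Subtype.ext
        show ev m (ψ (u 1 : A)) = 1
        rw [map_one, OneMemClass.coe_one, hone m hm]
      · intro g h
        apply Subtype.ext
        show ev m (ψ (u (g * h) : A)) = ev m (ψ (u g : A)) * ev m (ψ (u h : A))
        rw [map_mul, MulMemClass.coe_mul, hmulψ m hm]
    · exact ⟨1, fun h => absurd h hm⟩
  choose π hπ using hex
  have hdiff : ∀ g, ψ (u g : A) - V g ∈ closure (⋃ n, J n) := by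
    intro g
    have hI := isClosedIdeal_closure hJ hmono
    have e1 := hI.add_mem _ (hψφ (u g : A)) _ (hφu g)
    rwa [sub_add_sub_cancel] at e1
  refine ⟨m₀, π, ?_, ?_, ?_⟩
  · intro m hm g
    rw [hπ m hm g]
    exact (hJ1 _ (hdiff g)).1 m
  · intro g
    refine (hJ1 _ (hdiff g)).2.congr' ?_
    filter_upwards [eventually_ge_atTop m₀] with m hm
    rw [hπ m hm g]
    rfl
  · intro m hm g
    rw [hπ m hm g]
    -- evaluation maps `B` into the closure
    have hle : (StarAlgebra.adjoin ℂ S) ≤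
        (StarAlgebra.adjoin ℂ (Set.range (v m)) : StarSubalgebra ℂ D).topologicalClosure.comap
          (evalAt m) := by
      rw [StarAlgebra.adjoin_le_iff]
      rintro x (⟨g, rfl⟩ | ⟨k, rfl⟩)
      · rw [SetLike.mem_coe, StarSubalgebra.mem_comap]
        exact StarSubalgebra.le_topologicalClosure _ (StarAlgebra.subset_adjoin ℂ _ ⟨g, rfl⟩)
      · rw [SetLike.mem_coe, StarSubalgebra.mem_comap, evalAt_apply, trunc_apply]
        split_ifs
        · exact one_mem _
        · exact zero_mem _
    have hcl : IsClosed ((((StarAlgebra.adjoin ℂ (Set.range (v m)) :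
        StarSubalgebra ℂ D).topologicalClosure.comap (evalAt m)) : StarSubalgebra ℂ X) : Set X) := by
      have : IsClosed ((StarAlgebra.adjoin ℂ (Set.range (v m)) :
        StarSubalgebra ℂ D).topologicalClosure : Set D) := StarSubalgebra.isClosed_topologicalClosure _
      exact this.preimage (continuous_evalAt m)
    have := StarSubalgebra.topologicalClosure_minimal hle hcl
    have h2 := this (ψ (u g : A)).2
    exact h2

end Pool.Agent.LibCS15
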