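import Pool.Agent.LibCS15.IndB
import Pool.Agent.LibCS15.Lifting
set_option autoImplicit false
namespace Pool.Agent.LibCS15
open Topology Filter

variable {G : Type} [Group G] (H : Subgroup G)
variable {D : Type} [CStarAlgebra D] [Fintype (G ⧸ H)]

theorem IsClosedIdeal.sum_mem {D : Type} [NonUnitalCStarAlgebra D] {K : Set D}
    (hK : IsClosedIdeal K) {n : Type} (s : Finset n) (f : n → D) (hf : ∀ a ∈ s, f a ∈ K) :
    ∑ a ∈ s, f a ∈ K := by
  classical
  induction s using Finset.induction_on with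
  | empty => simpa using hK.zero_mem
  | insert a s ha ih =>
    rw [Finset.sum_insert ha]
    exact hK.add_mem _ (hf a (Finset.mem_insert_self _ _)) _
      (ih fun b hb => hf b (Finset.mem_insert_of_mem hb))

/-- the lifting lemma for induced almost representations -/
theorem lifting_ind [Countable G] (hG : CStarStable G) {K : Set D} (hK : IsClosedIdeal K)
    {ι : G ⧸ H → D} (hι : IsFrame ι) (v : ℕ → H → D)
    (hb : ∀ m h, ‖v m h‖ ≤ 1) (h1 : ∀ m, v m 1 = 1) (hstar : ∀ m h, v m h⁻¹ = star (v m h))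
    (hmul : ∀ m g h, v m (g * h) - v m g * v m h ∈ K)
    (hmul' : ∀ g h, Tendsto (fun m => v m (g * h) - v m g * v m h) atTop (𝓝 0)) :
    ∃ (m₀ : ℕ) (π : ℕ → G →* unitary D),
      (∀ m, m₀ ≤ m → ∀ g, (π m g : D) - ind H ι (v m) g ∈ K) ∧
      (∀ g, Tendsto (fun m => (π m g : D) - ind H ι (v m) g) atTop (𝓝 0)) := by
  have hιn : ∀ a, ‖ι a‖ ≤ 1 := by
    intro a
    have h1 : ‖ι a‖ * ‖ι a‖ = ‖(1 : D)‖ := by
      rw [← CStarRing.norm_star_mul_self, hι.same]
    have := norm_one_le' (D := D)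
    nlinarith [norm_nonneg (ι a)]
  have hone : ∀ m, ind H ι (v m) 1 = 1 := fun m => ind_one H hι (h1 m)
  have hst : ∀ m g, ind H ι (v m) g⁻¹ = star (ind H ι (v m) g) := fun m g =>
    ind_star H ι (hstar m) g
  obtain ⟨m₀, π, hπ, hπ', -⟩ := lifting hG hK (fun m g => ind H ι (v m) g)
    (by
      intro g
      refine ⟨∑ _a : G ⧸ H, (1 : ℝ), fun m => ?_⟩
      refine (norm_sum_le _ _).trans (Finset.sum_le_sum fun a _ => ?_)
      have e1 : ‖star (ι a)‖ ≤ 1 := by rw [norm_star]; exact hιn a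
      calc ‖ι (g • a) * v m (cocy H g a) * star (ι a)‖
          ≤ ‖ι (g • a)‖ * ‖v m (cocy H g a)‖ * ‖star (ι a)‖ := norm_mul₃_le
        _ ≤ 1 * 1 * 1 := by
            gcongr
            · exact hιn _
            · exact hb _ _
        _ = 1 := by norm_num)
    (fun m => by
      show ind H ι (v m) 1 - 1 ∈ K
      rw [hone, sub_self]; exact hK.zero_mem)
    (by
      simp only [hone, sub_self]
      exact tendsto_const_nhds)
    (fun m g h => by
      show ind H ι (v m) (g * h) - ind H ι (v m) g * ind H ι (v m) h ∈ K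
      rw [ind_defect H hι]
      exact hK.sum_mem _ _ fun a _ => hK.mul_mem_right _ _ (hK.mul_mem_left _ _ (hmul m _ _)))
    (fun g h => by
      simp only [ind_defect H hι]
      have e1 : (0 : D) = ∑ a : G ⧸ H, ι (g • h • a) * 0 * star (ι a) := by simp
      rw [e1]
      refine tendsto_finsetSum _ fun a _ => ?_
      exact ((hmul' _ _).const_mul _).mul_const _)
    (fun m g => by
      show ind H ι (v m) g⁻¹ - star (ind H ι (v m) g) ∈ K
      rw [hst, sub_self]; exact hK.zero_mem)
    (fun g => by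
      simp only [hst, sub_self]
      exact tendsto_const_nhds)
  exact ⟨m₀, π, hπ, hπ'⟩

end Pool.Agent.LibCS15
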