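import Pool.Agent.LibCS15.Fred
set_option autoImplicit false
namespace Pool.Agent.LibCS15
open Topology Filter

variable {E : Type} [NormedAddCommGroup E] [InnerProductSpace ℂ E] [CompleteSpace E]

/-- `V * W + K` has finite-dimensional kernel (`V` invertible, `W` an isometry, `K` compact): `M = star (V * W) * (V * W)` is
positive and bounded below, hence invertible, `star T * T = M + K₁ = M * (1 + M⁻¹ * K₁)` and `finiteDimensional_ker_one_add` applies -/
theorem finiteDimensional_ker_semi {W V K T : E →L[ℂ] E} (hW : star W * W = 1)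
    (hV : IsUnit V) (hK : IsCompactOperator K) (hT : T = V * W + K) :
    FiniteDimensional ℂ (LinearMap.ker (T : E →ₗ[ℂ] E)) := by
  obtain ⟨u, rfl⟩ := hV
  set U : E →L[ℂ] E := ((u⁻¹ : (E →L[ℂ] E)ˣ) : E →L[ℂ] E) with hU
  have hUV : U * (u : E →L[ℂ] E) = 1 := u.inv_mul
  have h1 : (star W * U) * T = 1 + (star W * U) * K := by
    rw [hT, mul_add, mul_assoc, ← mul_assoc U, hUV, one_mul, hW]
  have hc : IsCompactOperator ((star W * U) * K : E →L[ℂ] E) := hK.clm_comp (star W * U)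
  have hfin := finiteDimensional_ker_one_add hc
  refine Submodule.finiteDimensional_of_le
    (S₂ := LinearMap.ker ((1 + (star W * U) * K : E →L[ℂ] E) : E →ₗ[ℂ] E)) ?_
  intro ξ hξ
  rw [LinearMap.mem_ker] at hξ ⊢
  have hξ' : T ξ = 0 := hξ
  rw [← h1]
  change (star W * U) (T ξ) = 0
  rw [hξ', map_zero]

/-- an operator with a left inverse has an invertible `star A * A` -/
theorem index_aux {A B : E →L[ℂ] E} (h : B * A = 1) : IsUnit (star A * A) := by
  have hb : ∀ ξ : E, ‖ξ‖ ≤ ‖B‖ * ‖A ξ‖ := by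
    intro ξ
    have h1 : B (A ξ) = ξ := by
      have h2 := congrArg (fun S : E →L[ℂ] E => S ξ) h
      exact h2
    calc ‖ξ‖ = ‖B (A ξ)‖ := by rw [h1]
      _ ≤ ‖B‖ * ‖A ξ‖ := B.le_opNorm _
  have hB1 : 0 < ‖B‖ + 1 := by positivity
  refine ContinuousLinearMap.isUnit_of_forall_le_norm_inner_map (𝕜 := ℂ) (star A * A)
    (c := ⟨((‖B‖ + 1) ^ 2)⁻¹, by positivity⟩) (by
      rw [← NNReal.coe_pos]
      change 0 < ((‖B‖ + 1) ^ 2)⁻¹
      positivity) ?_
  intro ξ
  have h3 : inner ℂ ((star A * A) ξ) ξ = ((‖A ξ‖ ^ 2 : ℝ) : ℂ) := by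
    change inner ℂ ((ContinuousLinearMap.adjoint A) (A ξ)) ξ = _
    rw [ContinuousLinearMap.adjoint_inner_left, inner_self_eq_norm_sq_to_K]
    push_cast
    rfl
  rw [h3, Complex.norm_real, Real.norm_of_nonneg (by positivity)]
  change ‖ξ‖ ^ 2 * ((‖B‖ + 1) ^ 2)⁻¹ ≤ ‖A ξ‖ ^ 2
  rw [← div_eq_mul_inv, div_le_iff₀ (by positivity), ← mul_pow]
  refine pow_le_pow_left₀ (norm_nonneg _) ?_ 2
  refine (hb ξ).trans ?_
  nlinarith [norm_nonneg (A ξ)]

/-- The index: a compact perturbation `T` of `V * W` with `V` invertible and `W` a proper isometry cannot be injective with injective adjoint.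
Proof.  As above `star T * T = M * (1 + M⁻¹ * K₁)` is injective, hence invertible (`isUnit_one_add_compact`): `T` is bounded below, so its range is closed;
it is dense since `star T` is injective; so `T` is invertible, and so is `Q = V⁻¹ * T = W + K₂`.
Now `W * Q⁻¹ = 1 - K₂ * Q⁻¹` is injective, hence invertible (Fredholm alternative), so `W` is invertible and `W * star W = 1`. -/
theorem index_contra {W V K T : E →L[ℂ] E} (hW : star W * W = 1) (hW' : W * star W ≠ 1)
    (hV : IsUnit V) (hK : IsCompactOperator K) (hT : T = V * W + K) (h1 : ∀ ξ, T ξ = 0 → ξ = 0)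
    (h2 : ∀ ξ, (star T : E →L[ℂ] E) ξ = 0 → ξ = 0) : False := by
  obtain ⟨u, rfl⟩ := hV
  set U : E →L[ℂ] E := ((u⁻¹ : (E →L[ℂ] E)ˣ) : E →L[ℂ] E) with hU
  have hUV : U * (u : E →L[ℂ] E) = 1 := u.inv_mul
  set A : E →L[ℂ] E := (u : E →L[ℂ] E) * W with hA
  have hBA : (star W * U) * A = 1 := by
    rw [hA, mul_assoc, ← mul_assoc U, hUV, one_mul, hW]
  obtain ⟨M, hM⟩ := index_aux hBA
  -- `star T * T = M + K₁`
  have hKs : IsCompactOperator (star K : E →L[ℂ] E) := compact_star hK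
  set K1 : E →L[ℂ] E := star A * K + star K * A + star K * K with hK1
  have hK1c : IsCompactOperator K1 :=
    ((hK.clm_comp (star A)).add (hKs.comp_clm A)).add (hK.clm_comp (star K))
  have hTT : star T * T = (M : E →L[ℂ] E) * (1 + ((M⁻¹ : (E →L[ℂ] E)ˣ) : E →L[ℂ] E) * K1) := by
    rw [mul_add, mul_one, ← mul_assoc, M.mul_inv, one_mul, hM, hT, hK1, star_add, add_mul,
      mul_add, mul_add]
    abel
  have hTinj : ∀ ξ, (star T * T) ξ = 0 → ξ = 0 := by
    intro ξ hξ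
    apply h1
    have h3 : inner ℂ ((star T * T) ξ) ξ = inner ℂ (T ξ) (T ξ) := by
      change inner ℂ ((ContinuousLinearMap.adjoint T) (T ξ)) ξ = _
      rw [ContinuousLinearMap.adjoint_inner_left]
    rw [hξ, inner_zero_left] at h3
    exact inner_self_eq_zero.1 h3.symm
  have hunit : IsUnit (1 + ((M⁻¹ : (E →L[ℂ] E)ˣ) : E →L[ℂ] E) * K1) := by
    refine isUnit_one_add_compact (hK1c.clm_comp ((M⁻¹ : (E →L[ℂ] E)ˣ) : E →L[ℂ] E)) ?_
    intro ξ hξ
    apply hTinj
    rw [hTT]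
    change (M : E →L[ℂ] E) (ξ + (((M⁻¹ : (E →L[ℂ] E)ˣ) : E →L[ℂ] E) * K1) ξ) = 0
    rw [hξ, map_zero]
  have hTTu : IsUnit (star T * T) := by
    rw [hTT]
    exact M.isUnit.mul hunit
  obtain ⟨N, hN⟩ := hTTu
  set L : E →L[ℂ] E := ((N⁻¹ : (E →L[ℂ] E)ˣ) : E →L[ℂ] E) * star T with hL
  have hLT : L * T = 1 := by
    rw [hL, mul_assoc, ← hN, N.inv_mul]
  have hTL : T * L = 1 := by
    ext ξ
    have h3 : (star T) (ξ - (T * L) ξ) = 0 := by
      have h4 : star T * (1 - T * L) = 0 := by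
        rw [mul_sub, mul_one, ← mul_assoc, ← hN, hL, ← mul_assoc, N.mul_inv, one_mul, sub_self]
      have h5 := congrArg (fun S : E →L[ℂ] E => S ξ) h4
      exact h5
    have h6 := h2 _ h3
    exact (sub_eq_zero.1 h6).symm
  -- `Q = U * T = W + K₂`
  set Q : E →L[ℂ] E := U * T with hQ
  set R : E →L[ℂ] E := L * (u : E →L[ℂ] E) with hR
  have hQR : Q * R = 1 := by
    rw [hQ, hR, mul_assoc, ← mul_assoc T, hTL, one_mul, hUV]
  have hRQ : R * Q = 1 := by
    rw [hQ, hR, mul_assoc, ← mul_assoc _ U, hU, u.mul_inv, one_mul, hLT]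
  have hQW : Q = W + U * K := by
    rw [hQ, hT, mul_add, hA, ← mul_assoc, hUV, one_mul]
  have hWR : W * R = 1 + (-(U * K)) * R := by
    have h3 : W = Q + -(U * K) := by rw [hQW]; abel
    conv_lhs => rw [h3]
    rw [add_mul, hQR]
  have hcomp : IsCompactOperator ((-(U * K)) * R : E →L[ℂ] E) := by
    have h3 : IsCompactOperator (-(U * K) : E →L[ℂ] E) := (hK.clm_comp U).neg
    exact h3.comp_clm R
  have hWRu : IsUnit (W * R) := by
    rw [hWR]
    refine isUnit_one_add_compact hcomp ?_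
    intro ξ hξ
    have h3 : (W * R) ξ = 0 := by
      rw [hWR]
      exact hξ
    have h4 : Q * (star W * (W * R)) = 1 := by
      rw [← mul_assoc (star W), hW, one_mul, hQR]
    have h5 := congrArg (fun S : E →L[ℂ] E => S ξ) h4
    change Q ((star W) ((W * R) ξ)) = ξ at h5
    rw [h3, map_zero, map_zero] at h5
    exact h5.symm
  obtain ⟨c, hc⟩ := hWRu
  -- right inverse of `W`
  have h7 : W * (R * ((c⁻¹ : (E →L[ℂ] E)ˣ) : E →L[ℂ] E)) = 1 := by
    rw [← mul_assoc, ← hc, c.mul_inv]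
  apply hW'
  have h8 : star W = R * ((c⁻¹ : (E →L[ℂ] E)ˣ) : E →L[ℂ] E) := by
    calc star W = star W * (W * (R * ((c⁻¹ : (E →L[ℂ] E)ˣ) : E →L[ℂ] E))) := by
          rw [h7, mul_one]
      _ = R * ((c⁻¹ : (E →L[ℂ] E)ˣ) : E →L[ℂ] E) := by
          rw [← mul_assoc, hW, one_mul]
  rw [h8]
  exact h7

end Pool.Agent.LibCS15
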