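import Pool.Agent.LibCS15.Frame
import Pool.Agent.LibCS15.Compact
set_option autoImplicit false
namespace Pool.Agent.LibCS15
open Topology Filter

variable {E : Type} [NormedAddCommGroup E] [InnerProductSpace ℂ E] [CompleteSpace E]

/-- the real part of `w` is bounded below by `δ > 0` modulo compact operators -/
def HasPos (w : E →L[ℂ] E) : Prop :=
  ∃ (δ : ℝ) (k : E →L[ℂ] E), 0 < δ ∧ IsCompactOperator k ∧
    ∀ ξ, δ * ‖ξ‖ ^ 2 ≤ (inner ℂ ξ (w ξ)).re + ‖k ξ‖ * ‖ξ‖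

/-- an operator with `HasPos` cannot send infinitely many orthonormal vectors to orthogonal ones (`compact_orthonormal`) -/
theorem HasPos.not_orthogonal {w : E →L[ℂ] E} (hw : HasPos w) {v : ℕ → E}
    (hv : Orthonormal ℂ v) (h : ∀ n, inner ℂ (v n) (w (v n)) = 0) : False := by
  obtain ⟨δ, k, hδ, hk, hw⟩ := hw
  have h1 : ∀ n, δ ≤ ‖k (v n)‖ := by
    intro n
    have h2 := hw (v n)
    rw [h n, hv.1 n] at h2
    simpa using h2
  have h3 := (compact_orthonormal hk hv).norm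
  rw [norm_zero] at h3
  have h4 : δ ≤ 0 := ge_of_tendsto h3 (Eventually.of_forall h1)
  exact absurd hδ (not_lt.2 h4)

private theorem Pos_inner {n : Type} [Fintype n] (ι f : n → (E →L[ℂ] E)) (ξ : E) :
    inner ℂ ξ (blk ι f ξ) =
      ∑ a, inner ℂ ((star (ι a) : E →L[ℂ] E) ξ) (f a ((star (ι a) : E →L[ℂ] E) ξ)) := by
  unfold blk
  rw [_root_.sum_apply, inner_sum]
  refine Finset.sum_congr rfl fun a _ => ?_
  rw [ContinuousLinearMap.star_eq_adjoint, ContinuousLinearMap.adjoint_inner_left]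
  rfl

private theorem Pos_norm {n : Type} [Fintype n] {ι : n → (E →L[ℂ] E)} (hι : IsFrame ι) (ξ : E) :
    ∑ a, ‖(star (ι a) : E →L[ℂ] E) ξ‖ ^ 2 = ‖ξ‖ ^ 2 := by
  have h1 := Pos_inner ι (fun _ => (1 : E →L[ℂ] E)) ξ
  have h2 : blk ι (fun _ => (1 : E →L[ℂ] E)) = 1 := by
    unfold blk
    simp only [mul_one]
    exact hι.sum
  rw [h2] at h1
  have h3 := congrArg Complex.re h1
  rw [Complex.re_sum] at h3
  have h4 : ∀ η : E, (inner ℂ η ((1 : E →L[ℂ] E) η)).re = ‖η‖ ^ 2 := by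
    intro η
    have := inner_self_eq_norm_sq (𝕜 := ℂ) η
    exact this
  rw [h4] at h3
  rw [h3]
  exact Finset.sum_congr rfl fun a _ => (h4 _).symm

/-- if all the blocks tend to scalars with positive real part then eventually `HasPos` holds for all compact perturbations
(`inner ξ (blk ι f ξ) = ∑ a, inner (star (ι a) ξ) (f a (star (ι a) ξ))` and `∑ a, ‖star (ι a) ξ‖ ^ 2 = ‖ξ‖ ^ 2`) -/
theorem hasPos_blk {n : Type} [Fintype n] {ι : n → (E →L[ℂ] E)} (hι : IsFrame ι)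
    {f : ℕ → n → (E →L[ℂ] E)} {l : n → ℂ} (hl : ∀ a, 0 < (l a).re)
    (hf : ∀ a, Tendsto (fun m => f m a) atTop (𝓝 (l a • (1 : E →L[ℂ] E)))) :
    ∃ m₀, ∀ m, m₀ ≤ m → ∀ w : E →L[ℂ] E, IsCompactOperator (w - blk ι (f m) : E →L[ℂ] E) →
      HasPos w := by
  obtain ⟨δ, hδ, hδl⟩ : ∃ δ : ℝ, 0 < δ ∧ ∀ a, 2 * δ ≤ (l a).re := by
    rcases isEmpty_or_nonempty n with hn | hn
    · exact ⟨1, one_pos, fun a => (hn.false a).elim⟩
    · obtain ⟨a0, h0⟩ := Finite.exists_min (fun a => (l a).re)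
      exact ⟨(l a0).re / 2, half_pos (hl a0), fun a => by have := h0 a; linarith⟩
  have hev : ∀ᶠ m in atTop, ∀ a, ‖f m a - l a • (1 : E →L[ℂ] E)‖ < δ := by
    rw [eventually_all]
    intro a
    have h1 := (tendsto_iff_norm_sub_tendsto_zero.1 (hf a))
    exact h1.eventually (gt_mem_nhds hδ)
  obtain ⟨m₀, hm₀⟩ := eventually_atTop.1 hev
  refine ⟨m₀, fun m hm w hw => ⟨δ, w - blk ι (f m), hδ, hw, fun ξ => ?_⟩⟩
  have h1 : (inner ℂ ξ (w ξ)).re = (inner ℂ ξ (blk ι (f m) ξ)).re +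
      (inner ℂ ξ ((w - blk ι (f m)) ξ)).re := by
    rw [← Complex.add_re, ← inner_add_right]
    congr 2
    simp
  have h2 : -(‖(w - blk ι (f m)) ξ‖ * ‖ξ‖) ≤ (inner ℂ ξ ((w - blk ι (f m)) ξ)).re := by
    have h3 : |(inner ℂ ξ ((w - blk ι (f m)) ξ)).re| ≤ ‖ξ‖ * ‖(w - blk ι (f m)) ξ‖ :=
      (Complex.abs_re_le_norm _).trans (norm_inner_le_norm _ _)
    have h4 := neg_le_of_abs_le h3
    linarith
  have h5 : δ * ‖ξ‖ ^ 2 ≤ (inner ℂ ξ (blk ι (f m) ξ)).re := by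
    rw [Pos_inner, Complex.re_sum, ← Pos_norm hι ξ, Finset.mul_sum]
    refine Finset.sum_le_sum fun a _ => ?_
    set η : E := (star (ι a) : E →L[ℂ] E) ξ with hη
    have h6 : f m a η = l a • η + (f m a - l a • (1 : E →L[ℂ] E)) η := by
      simp
    rw [h6, inner_add_right, inner_smul_right, Complex.add_re]
    have h7 : (l a * inner ℂ η η).re = (l a).re * ‖η‖ ^ 2 := by
      have h8 : (inner ℂ η η : ℂ) = ((‖η‖ ^ 2 : ℝ) : ℂ) := by
        rw [inner_self_eq_norm_sq_to_K]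
        push_cast
        rfl
      rw [h8, Complex.re_mul_ofReal]
    have h9 : |(inner ℂ η ((f m a - l a • (1 : E →L[ℂ] E)) η)).re| ≤ δ * ‖η‖ ^ 2 := by
      refine (Complex.abs_re_le_norm _).trans ((norm_inner_le_norm _ _).trans ?_)
      have h10 := (f m a - l a • (1 : E →L[ℂ] E)).le_opNorm η
      have h11 := (hm₀ m hm a).le
      have h12 : 0 ≤ ‖η‖ := norm_nonneg _
      calc ‖η‖ * ‖(f m a - l a • (1 : E →L[ℂ] E)) η‖
          ≤ ‖η‖ * (δ * ‖η‖) := mul_le_mul_of_nonneg_left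
            (h10.trans (mul_le_mul_of_nonneg_right h11 h12)) h12
        _ = δ * ‖η‖ ^ 2 := by ring
    have h13 := neg_le_of_abs_le h9
    rw [h7]
    have h14 := mul_le_mul_of_nonneg_right (hδl a) (sq_nonneg ‖η‖)
    linarith
  rw [h1]
  linarith

end Pool.Agent.LibCS15
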