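import Pool.Agent.LibCS15.SolvB
import Pool.Agent.LibCS15.Index
import Pool.Agent.LibCS15.Imp
set_option autoImplicit false
namespace Pool.Agent.LibCS15
open Topology Filter
open scoped commutatorElement

variable {E : Type} [NormedAddCommGroup E] [InnerProductSpace ℂ E] [CompleteSpace E]

private theorem SolvC_adj (T : E →L[ℂ] E) (ξ η : E) :
    inner ℂ ((star T : E →L[ℂ] E) ξ) η = inner ℂ ξ (T η) := by
  rw [ContinuousLinearMap.star_eq_adjoint, ContinuousLinearMap.adjoint_inner_left]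

private theorem SolvC_adj' (T : E →L[ℂ] E) (ξ η : E) :
    inner ℂ ξ ((star T : E →L[ℂ] E) η) = inner ℂ (T ξ) η := by
  rw [ContinuousLinearMap.star_eq_adjoint, ContinuousLinearMap.adjoint_inner_right]

/-- projections on reducing subspaces commute -/
private theorem SolvC_comm {T P : E →L[ℂ] E} {F : Submodule ℂ E} (hPP : P * P = P)
    (h0 : ∀ ξ, P ξ = 0 ↔ ξ ∈ Fᗮ) (h1 : ∀ ξ, P ξ = ξ ↔ ξ ∈ F) (h2 : ∀ ξ, P ξ ∈ F)
    (hT : ∀ ξ ∈ F, T ξ ∈ F) (hT' : ∀ ξ ∈ F, (star T : E →L[ℂ] E) ξ ∈ F) (ξ : E) :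
    P (T ξ) = T (P ξ) := by
  have e1 : P (ξ - P ξ) = 0 := by
    have : P (P ξ) = P ξ := by
      have := congrArg (fun (A : E →L[ℂ] E) => A ξ) hPP
      exact this
    rw [map_sub, this, sub_self]
  have e2 : ξ - P ξ ∈ Fᗮ := (h0 _).1 e1
  have e3 : T (ξ - P ξ) ∈ Fᗮ := by
    rw [Submodule.mem_orthogonal]
    intro η hη
    rw [← SolvC_adj]
    exact (Submodule.mem_orthogonal F _).1 e2 _ (hT' η hη)
  have e4 : P (T (ξ - P ξ)) = 0 := (h0 _).2 e3
  have e5 : P (T (P ξ)) = T (P ξ) := (h1 _).2 (hT _ (h2 ξ))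
  rw [map_sub, map_sub, e5, sub_eq_zero] at e4
  exact e4

private theorem SolvC_star {N : Type} [Group N] (π : N →* unitary (E →L[ℂ] E)) (g : N) :
    star (π g : E →L[ℂ] E) = (π g⁻¹ : E →L[ℂ] E) := by
  rw [map_inv]
  rfl

private theorem SolvC_imp_apply {N : Type} [Group N] (π : N →* unitary (E →L[ℂ] E)) (u : ℂ)
    (g : N) (ξ : E) :
    (imp u (π g : E →L[ℂ] E)) ξ = (1 / (2 * Complex.I)) •
      ((starRingEnd ℂ u) • (π g : E →L[ℂ] E) ξ - u • (π g⁻¹ : E →L[ℂ] E) ξ) := by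
  rw [imp, SolvC_star]
  rfl

private theorem SolvC_imp_star (u : ℂ) (A : E →L[ℂ] E) : star (imp u A) = imp u A := by
  simp only [imp, star_smul, star_sub, star_star, RCLike.star_def, map_div₀, map_one, map_mul,
    Complex.conj_I, Complex.conj_ofNat, Complex.conj_conj, mul_neg, div_neg, neg_smul]
  rw [← smul_neg, neg_sub]

/-- the kernel of `T` on finite-dimensional reducing subspaces orthogonal to `F₀` vanishes -/
private theorem SolvC_orth {N : Type} [Group N] (π : N →* unitary (E →L[ℂ] E))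
    {F : Submodule ℂ E} (hF : ∀ g, ∀ η ∈ F, (π g : E →L[ℂ] E) η ∈ F) :
    ∀ g, ∀ η ∈ Fᗮ, (π g : E →L[ℂ] E) η ∈ Fᗮ := by
  intro g η hη
  rw [Submodule.mem_orthogonal] at hη ⊢
  intro ζ hζ
  rw [← SolvC_adj, SolvC_star]
  exact hη _ (hF _ _ hζ)

private theorem SolvC_inv {N : Type} [Group N] (π : N →* unitary (E →L[ℂ] E)) (x y : N)
    (u₁ u₂ : ℂ) {F : Submodule ℂ E} (hF : ∀ g, ∀ η ∈ F, (π g : E →L[ℂ] E) η ∈ F) :
    ∀ η ∈ F, (imp u₁ (π x : E →L[ℂ] E) + Complex.I • imp u₂ (π y : E →L[ℂ] E) : E →L[ℂ] E) η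
      ∈ F := by
  intro η hη
  rw [ContinuousLinearMap.add_apply, ContinuousLinearMap.smul_apply, SolvC_imp_apply,
    SolvC_imp_apply]
  exact F.add_mem (F.smul_mem _ (F.sub_mem (F.smul_mem _ (hF _ _ hη)) (F.smul_mem _ (hF _ _ hη))))
    (F.smul_mem _ (F.smul_mem _ (F.sub_mem (F.smul_mem _ (hF _ _ hη))
      (F.smul_mem _ (hF _ _ hη)))))

private theorem SolvC_starT (u₁ u₂ : ℂ) (A B : E →L[ℂ] E) :
    star (imp u₁ A + Complex.I • imp u₂ B : E →L[ℂ] E) = imp u₁ A - Complex.I • imp u₂ B := by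
  rw [star_add, star_smul, SolvC_imp_star, SolvC_imp_star, RCLike.star_def, Complex.conj_I,
    neg_smul, sub_eq_add_neg]

private theorem SolvC_inv' {N : Type} [Group N] (π : N →* unitary (E →L[ℂ] E)) (x y : N)
    (u₁ u₂ : ℂ) {F : Submodule ℂ E} (hF : ∀ g, ∀ η ∈ F, (π g : E →L[ℂ] E) η ∈ F) :
    ∀ η ∈ F, (star (imp u₁ (π x : E →L[ℂ] E) + Complex.I • imp u₂ (π y : E →L[ℂ] E) :
      E →L[ℂ] E) : E →L[ℂ] E) η ∈ F := by
  intro η hη
  rw [SolvC_starT, ContinuousLinearMap.sub_apply, ContinuousLinearMap.smul_apply, SolvC_imp_apply,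
    SolvC_imp_apply]
  exact F.sub_mem (F.smul_mem _ (F.sub_mem (F.smul_mem _ (hF _ _ hη)) (F.smul_mem _ (hF _ _ hη))))
    (F.smul_mem _ (F.smul_mem _ (F.sub_mem (F.smul_mem _ (hF _ _ hη))
      (F.smul_mem _ (hF _ _ hη)))))

/-- an operator injective on a finite-dimensional reducing subspace has injective adjoint there -/
private theorem SolvC_kerstar {T : E →L[ℂ] E} {F : Submodule ℂ E} [FiniteDimensional ℂ F]
    (hT : ∀ ξ ∈ F, T ξ ∈ F) (hinj : ∀ ξ ∈ F, T ξ = 0 → ξ = 0) :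
    ∀ ξ ∈ F, (star T : E →L[ℂ] E) ξ = 0 → ξ = 0 := by
  intro ξ hξ h
  let TF : F →ₗ[ℂ] F := (T : E →ₗ[ℂ] E).restrict hT
  have hi : Function.Injective TF := by
    rw [← LinearMap.ker_eq_bot, LinearMap.ker_eq_bot']
    intro m hm
    have : T (m : E) = 0 := congrArg Subtype.val hm
    exact Subtype.ext (hinj _ m.2 this)
  have hs : Function.Surjective TF := LinearMap.injective_iff_surjective.1 hi
  obtain ⟨ζ, hζ⟩ := hs ⟨ξ, hξ⟩
  have hζ' : T (ζ : E) = ξ := congrArg Subtype.val hζ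
  have : inner ℂ ξ ξ = (0 : ℂ) := by
    nth_rewrite 2 [← hζ']
    rw [← SolvC_adj, h, inner_zero_left]
  exact inner_self_eq_zero.1 this

/-- The index obstruction for solvable groups.  Let `T = imp u₁ (π x) + I • imp u₂ (π y)`; every `π N`-invariant subspace is invariant under `T` and `star T`.
`ker T` is finite-dimensional (`finiteDimensional_ker_semi`).  Choose a finite-dimensional invariant `F₀` with `dim (F₀ ⊓ ker T)` maximal.  Then for
finite-dimensional invariant `F ⊥ F₀` one has `F ⊓ ker T = ⊥`, hence `T F = F` and `F ⊓ ker (star T) = ⊥`.  If `ξ ⊥ F₀` and `T ξ = 0` (or `star T ξ = 0`) then `P ξ = 0`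
for the projection `P` on every finite-dimensional invariant `F` (replace `F` by the orthogonal complement of `F₀` in `F ⊔ F₀`; `P` commutes with `T`), so
`ξ` is fixed by the commutators (`solv_trivial`).  On the space `Q` of the vectors orthogonal to the finite-dimensional invariant subspaces `π x` and `π y`, and their
adjoints, commute, so `T` is normal there: `ker T` and `ker (star T)` have the same intersection `F₁` with `Q`, and it is finite-dimensional.  Let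
`P` be the projection on `F₀ ⊔ F₁` (reducing for `T`); `T' = T * (1 - P) + P` is a compact perturbation of `T` to which `index_contra` applies. -/
theorem solv_contra {N : Type} [Group N] [Group.IsSolvable N] (x y : N)
    (hgen : Subgroup.closure {x, y} = ⊤) (π : N →* unitary (E →L[ℂ] E))
    (hc : ∀ g h : N, IsCompactOperator ((π ⁅g, h⁆ : E →L[ℂ] E) - 1 : E →L[ℂ] E))
    (hx : HasPos (π x : E →L[ℂ] E)) (hy : HasPos (π y : E →L[ℂ] E)) (u₁ u₂ : ℂ)
    {W V K : E →L[ℂ] E} (hW : star W * W = 1) (hW' : W * star W ≠ 1) (hV : IsUnit V)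
    (hK : IsCompactOperator K)
    (hT : imp u₁ (π x : E →L[ℂ] E) + Complex.I • imp u₂ (π y : E →L[ℂ] E) = V * W + K) :
    False := by
  obtain ⟨T, hTdef⟩ : ∃ T : E →L[ℂ] E,
    T = imp u₁ (π x : E →L[ℂ] E) + Complex.I • imp u₂ (π y : E →L[ℂ] E) := ⟨_, rfl⟩
  have hTVW : T = V * W + K := hTdef.trans hT
  have hker : FiniteDimensional ℂ (LinearMap.ker (T : E →ₗ[ℂ] E)) :=
    finiteDimensional_ker_semi hW hV hK hTVW
  have hTi : ∀ F : Submodule ℂ E, (∀ g, ∀ η ∈ F, (π g : E →L[ℂ] E) η ∈ F) →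
      ∀ η ∈ F, T η ∈ F := by
    intro F hF
    rw [hTdef]
    exact SolvC_inv π x y u₁ u₂ hF
  have hTi' : ∀ F : Submodule ℂ E, (∀ g, ∀ η ∈ F, (π g : E →L[ℂ] E) η ∈ F) →
      ∀ η ∈ F, (star T : E →L[ℂ] E) η ∈ F := by
    intro F hF
    rw [hTdef]
    exact SolvC_inv' π x y u₁ u₂ hF
  -- choice of `F₀`
  obtain ⟨F₀, hF₀fd, hF₀i, hF₀max⟩ : ∃ F₀ : Submodule ℂ E, FiniteDimensional ℂ F₀ ∧
      (∀ g, ∀ η ∈ F₀, (π g : E →L[ℂ] E) η ∈ F₀) ∧
      ∀ F : Submodule ℂ E, FiniteDimensional ℂ F → (∀ g, ∀ η ∈ F, (π g : E →L[ℂ] E) η ∈ F) →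
        Module.finrank ℂ (F ⊓ LinearMap.ker (T : E →ₗ[ℂ] E) : Submodule ℂ E) ≤
          Module.finrank ℂ (F₀ ⊓ LinearMap.ker (T : E →ₗ[ℂ] E) : Submodule ℂ E) := by
    let S : Set ℕ := {d | ∃ F : Submodule ℂ E, FiniteDimensional ℂ F ∧
      (∀ g, ∀ η ∈ F, (π g : E →L[ℂ] E) η ∈ F) ∧
      Module.finrank ℂ (F ⊓ LinearMap.ker (T : E →ₗ[ℂ] E) : Submodule ℂ E) = d}
    have hne : S.Nonempty := ⟨_, ⊥, inferInstance, fun g η hη => by
      rw [Submodule.mem_bot] at hη ⊢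
      rw [hη, map_zero], rfl⟩
    have hbdd : BddAbove S := by
      refine ⟨Module.finrank ℂ (LinearMap.ker (T : E →ₗ[ℂ] E)), ?_⟩
      rintro d ⟨F, -, -, rfl⟩
      exact Submodule.finrank_mono inf_le_right
    obtain ⟨F₀, h1, h2, h3⟩ := Nat.sSup_mem hne hbdd
    refine ⟨F₀, h1, h2, fun F hF hFi => ?_⟩
    rw [h3]
    exact le_csSup hbdd ⟨F, hF, hFi, rfl⟩
  -- `T` is injective on the finite-dimensional invariant subspaces orthogonal to `F₀`
  have hinj : ∀ F : Submodule ℂ E, FiniteDimensional ℂ F →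
      (∀ g, ∀ η ∈ F, (π g : E →L[ℂ] E) η ∈ F) → F ≤ F₀ᗮ → ∀ ξ ∈ F, T ξ = 0 → ξ = 0 := by
    intro F hF hFi hFo ξ hξ hTξ
    by_contra hne
    have hfd : FiniteDimensional ℂ (F ⊔ F₀ : Submodule ℂ E) := Submodule.finiteDimensional_sup _ _
    have hinv : ∀ g, ∀ η ∈ F ⊔ F₀, (π g : E →L[ℂ] E) η ∈ F ⊔ F₀ := by
      intro g η hη
      obtain ⟨a, ha, b, hb, rfl⟩ := Submodule.mem_sup.1 hη
      rw [map_add]
      exact Submodule.add_mem_sup (hFi g a ha) (hF₀i g b hb)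
    have h1 := hF₀max (F ⊔ F₀) hfd hinv
    have h2 : (F₀ ⊓ LinearMap.ker (T : E →ₗ[ℂ] E) : Submodule ℂ E) <
        (F ⊔ F₀) ⊓ LinearMap.ker (T : E →ₗ[ℂ] E) := by
      refine lt_of_le_of_ne (inf_le_inf_right _ le_sup_right) ?_
      intro h
      have h3 : ξ ∈ (F ⊔ F₀) ⊓ LinearMap.ker (T : E →ₗ[ℂ] E) :=
        ⟨Submodule.mem_sup_left hξ, hTξ⟩
      rw [← h] at h3
      have h4 : inner ℂ ξ ξ = (0 : ℂ) := (Submodule.mem_orthogonal F₀ ξ).1 (hFo hξ) ξ h3.1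
      exact hne (inner_self_eq_zero.1 h4)
    have h3 := Submodule.finrank_lt_finrank_of_lt h2
    omega
  have hinj' : ∀ F : Submodule ℂ E, FiniteDimensional ℂ F →
      (∀ g, ∀ η ∈ F, (π g : E →L[ℂ] E) η ∈ F) → F ≤ F₀ᗮ →
      ∀ ξ ∈ F, (star T : E →L[ℂ] E) ξ = 0 → ξ = 0 := by
    intro F hF hFi hFo
    exact SolvC_kerstar (hTi F hFi) (hinj F hF hFi hFo)
  -- the vectors of the kernel orthogonal to `F₀` are orthogonal to all the `F`
  have hkey : ∀ A : E →L[ℂ] E, (∀ F : Submodule ℂ E, (∀ g, ∀ η ∈ F, (π g : E →L[ℂ] E) η ∈ F) →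
      ∀ η ∈ F, A η ∈ F) → (∀ F : Submodule ℂ E, (∀ g, ∀ η ∈ F, (π g : E →L[ℂ] E) η ∈ F) →
      ∀ η ∈ F, (star A : E →L[ℂ] E) η ∈ F) →
      (∀ F : Submodule ℂ E, FiniteDimensional ℂ F →
      (∀ g, ∀ η ∈ F, (π g : E →L[ℂ] E) η ∈ F) → F ≤ F₀ᗮ → ∀ ξ ∈ F, A ξ = 0 → ξ = 0) →
      ∀ ξ ∈ F₀ᗮ, A ξ = 0 → ∀ F : Submodule ℂ E, FiniteDimensional ℂ F →
      (∀ g, ∀ η ∈ F, (π g : E →L[ℂ] E) η ∈ F) → ∀ η ∈ F, inner ℂ η ξ = 0 := by
    intro A hA1 hA2 hA3 ξ hξ hAξ F hF hFi η hη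
    have hfd : FiniteDimensional ℂ (F₀ ⊔ F : Submodule ℂ E) := Submodule.finiteDimensional_sup _ _
    have hinv : ∀ g, ∀ η ∈ F₀ ⊔ F, (π g : E →L[ℂ] E) η ∈ F₀ ⊔ F := by
      intro g η hη
      obtain ⟨a, ha, b, hb, rfl⟩ := Submodule.mem_sup.1 hη
      rw [map_add]
      exact Submodule.add_mem_sup (hF₀i g a ha) (hFi g b hb)
    let F' : Submodule ℂ E := (F₀ ⊔ F) ⊓ F₀ᗮ
    have hF'fd : FiniteDimensional ℂ F' := Submodule.finiteDimensional_of_le inf_le_left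
    have hF'i : ∀ g, ∀ η ∈ F', (π g : E →L[ℂ] E) η ∈ F' := fun g η hη =>
      ⟨hinv g η hη.1, SolvC_orth π hF₀i g η hη.2⟩
    obtain ⟨P, -, -, hPP, h0, h1, h2⟩ := exists_proj F'
    have e1 : P (A ξ) = A (P ξ) := SolvC_comm hPP h0 h1 h2 (hA1 F' hF'i) (hA2 F' hF'i) ξ
    rw [hAξ, map_zero] at e1
    have e2 : P ξ = 0 := hA3 F' hF'fd hF'i inf_le_right _ (h2 ξ) e1.symm
    have e3 : ξ ∈ F'ᗮ := (h0 ξ).1 e2
    -- decompose `η`
    obtain ⟨P₀, -, -, hPP₀, h0₀, h1₀, h2₀⟩ := exists_proj F₀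
    have e4 : η - P₀ η ∈ F' := by
      refine ⟨Submodule.sub_mem _ (Submodule.mem_sup_right hη)
        (Submodule.mem_sup_left (h2₀ η)), ?_⟩
      rw [SetLike.mem_coe, ← h0₀, map_sub]
      have : P₀ (P₀ η) = P₀ η := congrArg (fun (B : E →L[ℂ] E) => B η) hPP₀
      rw [this, sub_self]
    have e5 : inner ℂ (η - P₀ η) ξ = (0 : ℂ) := (Submodule.mem_orthogonal F' ξ).1 e3 _ e4
    have e6 : inner ℂ (P₀ η) ξ = (0 : ℂ) := (Submodule.mem_orthogonal F₀ ξ).1 hξ _ (h2₀ η)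
    rw [inner_sub_left, e6, sub_zero] at e5
    exact e5
  -- the space `Q`
  let Q : Submodule ℂ E :=
    { carrier := {ξ | ∀ F : Submodule ℂ E, FiniteDimensional ℂ F →
        (∀ g, ∀ η ∈ F, (π g : E →L[ℂ] E) η ∈ F) → ∀ η ∈ F, inner ℂ η ξ = 0}
      add_mem' := fun {a b} ha hb F hF hFi η hη => by
        rw [inner_add_right, ha F hF hFi η hη, hb F hF hFi η hη, add_zero]
      zero_mem' := fun F hF hFi η hη => inner_zero_right η
      smul_mem' := fun c a ha F hF hFi η hη => by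
        rw [inner_smul_right, ha F hF hFi η hη, mul_zero] }
  have hQi : ∀ g, ∀ ξ ∈ Q, (π g : E →L[ℂ] E) ξ ∈ Q := by
    intro g ξ hξ F hF hFi η hη
    rw [← SolvC_adj, SolvC_star]
    exact hξ F hF hFi _ (hFi _ _ hη)
  have hQc : ∀ g h : N, ∀ ξ ∈ Q, (π g : E →L[ℂ] E) ((π h : E →L[ℂ] E) ξ) =
      (π h : E →L[ℂ] E) ((π g : E →L[ℂ] E) ξ) := by
    intro g h ξ hξ
    have e1 := solv_trivial x y hgen π hc hx hy ((π h : E →L[ℂ] E) ((π g : E →L[ℂ] E) ξ))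
      (hQi h _ (hQi g _ hξ)) g h
    rw [← e1]
    have e2 : (π ⁅g, h⁆ : E →L[ℂ] E) * (π h : E →L[ℂ] E) * (π g : E →L[ℂ] E) =
        (π g : E →L[ℂ] E) * (π h : E →L[ℂ] E) := by
      rw [← Submonoid.coe_mul, ← Submonoid.coe_mul, ← Submonoid.coe_mul, ← map_mul, ← map_mul,
        ← map_mul, commutatorElement_def]
      congr 2
      group
    exact (congrArg (fun (B : E →L[ℂ] E) => B ξ) e2).symm
  -- `T` is normal on `Q`
  have hnormal : ∀ ξ ∈ Q, T ((star T : E →L[ℂ] E) ξ) = (star T : E →L[ℂ] E) (T ξ) := by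
    intro ξ hξ
    have ec := fun g h : N => hQc g h ξ hξ
    rw [hTdef, SolvC_starT]
    simp only [ContinuousLinearMap.add_apply, ContinuousLinearMap.sub_apply,
      ContinuousLinearMap.smul_apply, SolvC_imp_apply, map_add, map_sub, map_smul]
    rw [ec y x, ec y x⁻¹, ec y⁻¹ x, ec y⁻¹ x⁻¹]
    module
  have hkerQ : ∀ ξ ∈ Q, (T ξ = 0 ↔ (star T : E →L[ℂ] E) ξ = 0) := by
    intro ξ hξ
    have e1 : inner ℂ (T ξ) (T ξ) =
        (inner ℂ ((star T : E →L[ℂ] E) ξ) ((star T : E →L[ℂ] E) ξ) : ℂ) := by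
      rw [← SolvC_adj', ← hnormal ξ hξ, ← SolvC_adj]
    constructor
    · intro h
      rw [h, inner_zero_left] at e1
      exact inner_self_eq_zero.1 e1.symm
    · intro h
      rw [h, inner_zero_left] at e1
      exact inner_self_eq_zero.1 e1
  -- the reducing subspace `F₀ ⊔ F₁`
  let F₁ : Submodule ℂ E := Q ⊓ LinearMap.ker (T : E →ₗ[ℂ] E)
  have hF₁fd : FiniteDimensional ℂ F₁ := Submodule.finiteDimensional_of_le inf_le_right
  have hFfd : FiniteDimensional ℂ (F₀ ⊔ F₁ : Submodule ℂ E) :=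
    Submodule.finiteDimensional_sup _ _
  have hFT : ∀ ξ ∈ F₀ ⊔ F₁, T ξ ∈ F₀ ⊔ F₁ := by
    intro η hη
    obtain ⟨a, ha, b, hb, rfl⟩ := Submodule.mem_sup.1 hη
    have hb2 : T b = 0 := hb.2
    rw [map_add, hb2, add_zero]
    exact Submodule.mem_sup_left (hTi F₀ hF₀i a ha)
  have hFT' : ∀ ξ ∈ F₀ ⊔ F₁, (star T : E →L[ℂ] E) ξ ∈ F₀ ⊔ F₁ := by
    intro η hη
    obtain ⟨a, ha, b, hb, rfl⟩ := Submodule.mem_sup.1 hη
    have hb2 : (star T : E →L[ℂ] E) b = 0 := (hkerQ b hb.1).1 hb.2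
    rw [map_add, hb2, add_zero]
    exact Submodule.mem_sup_left (hTi' F₀ hF₀i a ha)
  obtain ⟨P, hPc, hPs, hPP, h0, h1, h2⟩ := exists_proj (F₀ ⊔ F₁)
  have hPT : P * T = T * P := by
    ext ξ
    exact SolvC_comm hPP h0 h1 h2 hFT hFT' ξ
  have hPT' : P * star T = star T * P := by
    have := congrArg star hPT
    rw [star_mul, star_mul, hPs] at this
    exact this.symm
  -- vectors orthogonal to `F₀ ⊔ F₁` in the kernel of `T` or `star T` vanish
  have hfin : ∀ ξ, P ξ = 0 → (T ξ = 0 ∨ (star T : E →L[ℂ] E) ξ = 0) → ξ = 0 := by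
    intro ξ hPξ h
    have e1 : ξ ∈ (F₀ ⊔ F₁)ᗮ := (h0 ξ).1 hPξ
    have e2 : ξ ∈ F₀ᗮ := Submodule.orthogonal_le le_sup_left e1
    have e3 : ξ ∈ Q := by
      rcases h with h | h
      · exact hkey T hTi hTi' hinj ξ e2 h
      · exact hkey (star T) hTi' (by rw [star_star]; exact hTi) hinj' ξ e2 h
    have e4 : T ξ = 0 := by
      rcases h with h | h
      · exact h
      · exact (hkerQ ξ e3).2 h
    have e5 : ξ ∈ F₁ := ⟨e3, e4⟩
    have e6 : inner ℂ ξ ξ = (0 : ℂ) :=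
      (Submodule.mem_orthogonal _ ξ).1 e1 ξ (Submodule.mem_sup_right e5)
    exact inner_self_eq_zero.1 e6
  have hT' : T * (1 - P) + P = V * W + (K + (1 - T) * P) := by
    rw [mul_sub, sub_mul, mul_one, one_mul, hTVW]
    abel
  have hK' : IsCompactOperator (K + (1 - T) * P : E →L[ℂ] E) :=
    IsCompactOperator.add hK (IsCompactOperator.clm_comp hPc (1 - T : E →L[ℂ] E))
  refine index_contra hW hW' hV hK' hT' ?_ ?_
  · intro ξ hξ
    have e1 : P * (T * (1 - P) + P) = P := by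
      rw [mul_add, ← mul_assoc, hPT, mul_assoc, mul_sub, mul_one, hPP, sub_self, mul_zero,
        zero_add]
    have e2 : P ξ = 0 := by
      have := congrArg (fun (B : E →L[ℂ] E) => B ξ) e1
      rw [← this]
      change P ((T * (1 - P) + P) ξ) = 0
      rw [hξ, map_zero]
    have e3 : T ξ = 0 := by
      have : (T * (1 - P) + P) ξ = T (ξ - P ξ) + P ξ := rfl
      rw [this, e2, sub_zero, add_zero] at hξ
      exact hξ
    exact hfin ξ e2 (Or.inl e3)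
  · intro ξ hξ
    have e0 : star (T * (1 - P) + P : E →L[ℂ] E) = star T * (1 - P) + P := by
      rw [star_add, star_mul, star_sub, star_one, hPs, sub_mul, mul_sub, one_mul, mul_one, hPT']
    have e1 : P * (star T * (1 - P) + P) = P := by
      rw [mul_add, ← mul_assoc, hPT', mul_assoc, mul_sub, mul_one, hPP, sub_self, mul_zero,
        zero_add]
    rw [e0] at hξ
    have e2 : P ξ = 0 := by
      have := congrArg (fun (B : E →L[ℂ] E) => B ξ) e1
      rw [← this]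
      change P ((star T * (1 - P) + P) ξ) = 0
      rw [hξ, map_zero]
    have e3 : (star T : E →L[ℂ] E) ξ = 0 := by
      have : (star T * (1 - P) + P) ξ = (star T : E →L[ℂ] E) (ξ - P ξ) + P ξ := rfl
      rw [this, e2, sub_zero, add_zero] at hξ
      exact hξ
    exact hfin ξ e2 (Or.inr e3)

end Pool.Agent.LibCS15
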