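import Pool.Agent.LibCS15.Imp
set_option autoImplicit false
namespace Pool.Agent.LibCS15
open Topology Filter

/-- `(m + 1) • sin (A / (m + 1)) → A` -/
theorem imp_exp_tendsto {D : Type} [CStarAlgebra D] {A : D} (hA : star A = A) (s : ℝ) :
    Tendsto (fun m : ℕ => ((m : ℂ) + 1) • imp (Complex.exp (Complex.I * (s : ℂ)))
      (Complex.exp (Complex.I * (s : ℂ)) • NormedSpace.exp ((Complex.I / ((m : ℂ) + 1)) • A)))
      atTop (𝓝 A) := by
  have hu : (starRingEnd ℂ) (Complex.exp (Complex.I * (s : ℂ))) *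
      Complex.exp (Complex.I * (s : ℂ)) = 1 := by
    rw [← Complex.exp_conj, ← Complex.exp_add]
    simp
  have hstar : ∀ t : ℝ, star (NormedSpace.exp ((Complex.I * (t : ℂ)) • A)) =
      NormedSpace.exp ((-(Complex.I * (t : ℂ))) • A) := by
    intro t
    rw [NormedSpace.star_exp, star_smul, hA]
    congr 2
    simp
  let f : ℂ → D := fun z => NormedSpace.exp (z • A) - NormedSpace.exp ((-z) • A)
  have hf : HasDerivAt f ((2 : ℂ) • A) 0 := by
    have h1 := hasDerivAt_exp_smul_const (𝕂 := ℂ) A (0 : ℂ)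
    have h2 : HasDerivAt (fun z : ℂ => NormedSpace.exp (z • (-A)))
        (NormedSpace.exp ((0 : ℂ) • (-A)) * (-A)) 0 :=
      hasDerivAt_exp_smul_const (𝕂 := ℂ) (-A) (0 : ℂ)
    have h3 := h1.sub h2
    rw [zero_smul, zero_smul, NormedSpace.exp_zero, one_mul, one_mul] at h3
    have h4 : A - -A = (2 : ℂ) • A := by
      rw [two_smul]; abel
    rw [h4] at h3
    refine h3.congr_of_eventuallyEq (Eventually.of_forall fun z => ?_)
    simp [f]
  have hf0 : f 0 = 0 := by simp [f]
  have hslope := hf.tendsto_slope_zero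
  have hz : Tendsto (fun m : ℕ => Complex.I * (((1 / ((m : ℝ) + 1) : ℝ)) : ℂ)) atTop
      (𝓝[≠] 0) := by
    rw [tendsto_nhdsWithin_iff]
    constructor
    · have h1 : Tendsto (fun m : ℕ => (1 / ((m : ℝ) + 1))) atTop (𝓝 0) :=
        tendsto_one_div_add_atTop_nhds_zero_nat
      have h2 : Tendsto (fun m : ℕ => (((1 / ((m : ℝ) + 1) : ℝ)) : ℂ)) atTop (𝓝 ((0 : ℝ) : ℂ)) :=
        (Complex.continuous_ofReal.tendsto 0).comp h1
      have h3 := h2.const_mul Complex.I
      simpa using h3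
    · refine Eventually.of_forall fun m => ?_
      have h1 : (1 / ((m : ℝ) + 1)) ≠ 0 := by positivity
      simp only [Set.mem_compl_iff, Set.mem_singleton_iff]
      exact mul_ne_zero Complex.I_ne_zero (Complex.ofReal_ne_zero.2 h1)
  have hmain := (hslope.comp hz).const_smul ((1 : ℂ) / 2)
  have hlim : ((1 : ℂ) / 2) • ((2 : ℂ) • A) = A := by
    rw [smul_smul]; norm_num
  rw [hlim] at hmain
  refine hmain.congr fun m => ?_
  have hm : ((m : ℂ) + 1) ≠ 0 := by exact_mod_cast Nat.succ_ne_zero m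
  have hI : Complex.I / ((m : ℂ) + 1) = Complex.I * (((1 / ((m : ℝ) + 1) : ℝ)) : ℂ) := by
    push_cast
    ring
  simp only [Function.comp_apply, zero_add, hf0, sub_zero]
  unfold imp
  have hu' : Complex.exp (Complex.I * (s : ℂ)) * star (Complex.exp (Complex.I * (s : ℂ))) = 1 := by
    rw [mul_comm]; exact hu
  rw [hI, star_smul, hstar, smul_smul ((starRingEnd ℂ) _), hu, one_smul,
    smul_smul (Complex.exp (Complex.I * (s : ℂ))), hu', one_smul, smul_smul, smul_smul]
  congr 1
  push_cast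
  field_simp

end Pool.Agent.LibCS15
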