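import Pool.Agent.LibCS15.ToepA
import Pool.Agent.LibCS15.ToepB
import Pool.Agent.LibCS15.Compact
set_option autoImplicit false
namespace Pool.Agent.LibCS15
open Topology Filter

variable {E : Type} [NormedAddCommGroup E] [InnerProductSpace ℂ E] [CompleteSpace E]

/-- `exp_family` for the real and imaginary parts `A = (S + star S) / 2`, `B = (S - star S) / (2 i)` of the shift -/
theorem toeplitz_family {S : E →L[ℂ] E} (hS : star S * S = 1)
    (hcS : IsCompactOperator (1 - S * star S : E →L[ℂ] E)) {H : Type} [Group H]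
    (b₁ b₂ : H → ℝ) (hb₁ : ∀ g h, b₁ (g * h) = b₁ g + b₁ h)
    (hb₂ : ∀ g h, b₂ (g * h) = b₂ g + b₂ h) (s₁ s₂ : ℝ) :
    ∃ v : ℕ → H → (E →L[ℂ] E),
      (∀ m h, star (v m h) * v m h = 1 ∧ v m h * star (v m h) = 1) ∧
      (∀ m h, b₁ h = 0 → b₂ h = 0 → v m h = 1) ∧ (∀ m h, v m h⁻¹ = star (v m h)) ∧
      (∀ m g h, IsCompactOperator (v m (g * h) - v m g * v m h : E →L[ℂ] E)) ∧
      (∀ h, Tendsto (fun m => v m h) atTop
        (𝓝 (Complex.exp (Complex.I * ((b₁ h * s₁ + b₂ h * s₂ : ℝ) : ℂ)) • (1 : E →L[ℂ] E)))) ∧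
      (∀ x y, b₁ x = 1 → b₂ x = 0 → b₁ y = 0 → b₂ y = 1 →
        Tendsto (fun m : ℕ => ((m : ℂ) + 1) • (imp (Complex.exp (Complex.I * (s₁ : ℂ))) (v m x) +
          Complex.I • imp (Complex.exp (Complex.I * (s₂ : ℂ))) (v m y))) atTop (𝓝 S)) := by
  set A : E →L[ℂ] E := (1 / 2 : ℂ) • (S + star S) with hAdef
  set B : E →L[ℂ] E := (1 / (2 * Complex.I) : ℂ) • (S - star S) with hBdef
  have hA : star A = A := by
    rw [hAdef, star_smul, star_add, star_star]
    have h1 : star (1 / 2 : ℂ) = 1 / 2 := by simp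
    rw [h1, add_comm]
  have hB : star B = B := by
    rw [hBdef, star_smul, star_sub, star_star]
    have h1 : star (1 / (2 * Complex.I) : ℂ) = -(1 / (2 * Complex.I)) := by
      simp
    rw [h1, neg_smul, ← smul_neg, neg_sub]
  have hsum : A + Complex.I • B = S := by
    rw [hAdef, hBdef, smul_smul]
    have h1 : Complex.I * (1 / (2 * Complex.I)) = (1 / 2 : ℂ) := by
      field_simp
    rw [h1, ← smul_add]
    have h2 : S + star S + (S - star S) = (2 : ℂ) • S := by
      rw [two_smul]; abel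
    rw [h2, smul_smul]
    norm_num
  have hAB : A * B - B * A = (-(1 / (2 * Complex.I)) : ℂ) • (S * star S - 1) := by
    rw [hAdef, hBdef]
    simp only [smul_mul_smul_comm]
    have h1 : (1 / (2 * Complex.I) * (1 / 2) : ℂ) = 1 / 2 * (1 / (2 * Complex.I)) := by ring
    rw [h1, ← smul_sub]
    have h2 : (S + star S) * (S - star S) - (S - star S) * (S + star S)
        = (-2 : ℂ) • (S * star S - 1) := by
      have h3 : (S + star S) * (S - star S) - (S - star S) * (S + star S)
        = -(S * star S - star S * S) - (S * star S - star S * S) := by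
        noncomm_ring
      rw [h3, hS, neg_smul, two_smul]; abel
    rw [h2, smul_smul]
    congr 1
    ring
  have hK := isClosedIdeal_compact (E := E)
  have hmem : A * B - B * A ∈ {T : E →L[ℂ] E | IsCompactOperator T} := by
    rw [hAB]
    have h1 : (-(1 / (2 * Complex.I)) : ℂ) • (S * star S - 1)
        = ((1 / (2 * Complex.I)) : ℂ) • (1 - S * star S) := by
      rw [neg_smul, ← smul_neg, neg_sub]
    rw [h1]
    exact hcS.smul _
  obtain ⟨v, h1, h2, h3, h4, h5, h6, h7⟩ := exp_family hK hA hB hmem b₁ b₂ hb₁ hb₂ s₁ s₂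
  refine ⟨v, h1, h2, h3, h4, h5, ?_⟩
  intro x y hx1 hx2 hy1 hy2
  have hx := h6 x hx1 hx2
  have hy := h7 y hy1 hy2
  have t1 := imp_exp_tendsto hA s₁
  have t2 := (imp_exp_tendsto hB s₂).const_smul Complex.I
  have t3 := t1.add t2
  rw [hsum] at t3
  refine t3.congr (fun m => ?_)
  rw [hx m, hy m, smul_add, smul_comm Complex.I]

end Pool.Agent.LibCS15
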