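import Pool.Agent.LibCS15.MainA
import Pool.Agent.LibCS15.Pos
import Pool.Agent.LibCS15.ShiftFrame
import Pool.Agent.LibCS15.BlkFactor
import Pool.Agent.LibCS15.SolvC
import Pool.Agent.LibCS15.Toeplitz
import Pool.Agent.LibCS15.Ind
set_option autoImplicit false
namespace Pool.Agent.LibCS15
open Topology Filter
open scoped commutatorElement

theorem add_one {H : Type} [Group H] {b : H → ℝ} (hb : ∀ g h, b (g * h) = b g + b h) : b 1 = 0 := by
  have := hb 1 1
  simp at this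
  exact this

theorem add_inv {H : Type} [Group H] {b : H → ℝ} (hb : ∀ g h, b (g * h) = b g + b h) (g : H) :
    b g⁻¹ = - b g := by
  have := hb g g⁻¹
  rw [mul_inv_cancel, add_one hb] at this
  linarith

theorem add_comm' {H : Type} [Group H] {b : H → ℝ} (hb : ∀ g h, b (g * h) = b g + b h) (g h : H) :
    b ⁅g, h⁆ = 0 := by
  rw [commutatorElement_def, hb, hb, hb, add_inv hb, add_inv hb]
  ring

theorem cnj_mul {G : Type} [Group G] (H : Subgroup G) [H.Normal] (a : G ⧸ H) (g h : H) :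
    cnj H a (g * h) = cnj H a g * cnj H a h := by
  apply Subtype.ext
  simp [cnj, mul_assoc]

theorem cnj_inv {G : Type} [Group G] (H : Subgroup G) [H.Normal] (a : G ⧸ H) (g : H) :
    cnj H a g⁻¹ = (cnj H a g)⁻¹ := by
  apply Subtype.ext
  simp [cnj, mul_assoc]

theorem cnj_base {G : Type} [Group G] (H : Subgroup G) [H.Normal] {b : H → ℝ}
    (hb : ∀ g h, b (g * h) = b g + b h) (x : H) : b (cnj H ((1 : G) : G ⧸ H) x) = b x := by
  have h1 : (((1 : G) : G ⧸ H)).out ∈ H := by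
    have := QuotientGroup.out_eq' (((1 : G) : G ⧸ H))
    have h2 := (QuotientGroup.eq.1 this.symm)
    simpa using h2
  have h2 : cnj H ((1 : G) : G ⧸ H) x = (⟨_, h1⟩ : H)⁻¹ * x * ⟨_, h1⟩ := by
    apply Subtype.ext
    simp [cnj]
  rw [h2, hb, hb, add_inv hb]
  ring

theorem compact_imp {E : Type} [NormedAddCommGroup E] [InnerProductSpace ℂ E] [CompleteSpace E]
    {K : E →L[ℂ] E} (hK : IsCompactOperator K) (u : ℂ) :
    IsCompactOperator (imp u K : E →L[ℂ] E) := by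
  have hI := isClosedIdeal_compact (E := E)
  show imp u K ∈ {T : E →L[ℂ] E | IsCompactOperator T}
  unfold imp
  apply hI.smul_mem
  have h1 : (starRingEnd ℂ u) • K ∈ {T : E →L[ℂ] E | IsCompactOperator T} := hI.smul_mem _ _ hK
  have h2 : (-u) • star K ∈ {T : E →L[ℂ] E | IsCompactOperator T} :=
    hI.smul_mem _ _ (hI.star_mem _ hK)
  have h3 := hI.add_mem _ h1 _ h2
  rwa [neg_smul, ← sub_eq_add_neg] at h3

theorem isOpen_unit_tendsto {D : Type} [CStarAlgebra D] {f : ℕ → D} {c : ℂ} (hc : c ≠ 0)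
    (hf : Tendsto f atTop (𝓝 (c • (1 : D)))) : ∀ᶠ m in atTop, IsUnit (f m) := by
  have h1 : IsUnit (c • (1 : D)) := by
    have : IsUnit (algebraMap ℂ D c) := (IsUnit.mk0 c hc).map (algebraMap ℂ D)
    rwa [Algebra.algebraMap_eq_smul_one] at this
  exact hf.eventually (Units.isOpen.mem_nhds h1)

theorem norm_le_one_of_star {D : Type} [CStarAlgebra D] {v : D} (h : star v * v = 1) : ‖v‖ ≤ 1 := by
  have h1 : ‖v‖ * ‖v‖ = ‖(1 : D)‖ := by rw [← CStarRing.norm_star_mul_self, h]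
  rcases subsingleton_or_nontrivial D with hD | hD
  · rw [Subsingleton.elim v 0]; simp
  · rw [CStarRing.norm_one] at h1
    nlinarith [norm_nonneg v]

theorem main_contra {G : Type} [Group G] [Countable G] (hG : CStarStable G) (H : Subgroup G)
    [H.Normal] [H.FiniteIndex] (x y : H)
    (hN : Group.IsSolvable (Subgroup.closure {x, y} : Subgroup H)) (b₁ b₂ : H → ℝ)
    (hb₁ : ∀ g h, b₁ (g * h) = b₁ g + b₁ h) (hb₂ : ∀ g h, b₂ (g * h) = b₂ g + b₂ h)
    (h1 : b₁ x = 1) (h2 : b₂ x = 0) (h3 : b₁ y = 0) (h4 : b₂ y = 1) : False := by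
  classical
  letI : Fintype (G ⧸ H) := Fintype.ofFinite _
  obtain ⟨ι, S, hι, hS, hS', hcS⟩ := exists_shift_frame (G ⧸ H)
  obtain ⟨s₁, s₂, hgen⟩ := generic (fun a : G ⧸ H => b₁ (cnj H a x)) (fun a => b₂ (cnj H a x))
    (fun a => b₁ (cnj H a y)) (fun a => b₂ (cnj H a y))
  obtain ⟨v, hvu, hv1, hvs, hvm, hvl, hvS⟩ := toeplitz_family hS hcS b₁ b₂ hb₁ hb₂ s₁ s₂
  have hI := isClosedIdeal_compact (E := E2)
  obtain ⟨m₀, π, hπK, hπl⟩ := lifting_ind H hG hI hι v
    (fun m h => norm_le_one_of_star (hvu m h).1) (fun m => hv1 m 1 (add_one hb₁) (add_one hb₂))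
    hvs hvm (by
      intro g h
      have e1 := hvl (g * h)
      have e2 := (hvl g).mul (hvl h)
      have e3 := e1.sub e2
      have e4 : Complex.exp (Complex.I * ((b₁ (g * h) * s₁ + b₂ (g * h) * s₂ : ℝ) : ℂ)) •
          (1 : E2 →L[ℂ] E2) -
          (Complex.exp (Complex.I * ((b₁ g * s₁ + b₂ g * s₂ : ℝ) : ℂ)) • (1 : E2 →L[ℂ] E2)) *
          (Complex.exp (Complex.I * ((b₁ h * s₁ + b₂ h * s₂ : ℝ) : ℂ)) • (1 : E2 →L[ℂ] E2)) = 0 := by
        rw [smul_mul_smul_comm, one_mul, ← Complex.exp_add, hb₁, hb₂]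
        rw [← sub_smul]
        have : Complex.I * (((b₁ g + b₁ h) * s₁ + (b₂ g + b₂ h) * s₂ : ℝ) : ℂ) =
          Complex.I * ((b₁ g * s₁ + b₂ g * s₂ : ℝ) : ℂ) + Complex.I * ((b₁ h * s₁ + b₂ h * s₂ : ℝ) : ℂ) := by
          push_cast; ring
        rw [this, sub_self, zero_smul]
      rw [e4] at e3
      exact e3)
  -- the unitaries
  set u₁ : ℂ := Complex.exp (Complex.I * (s₁ : ℂ)) with hu₁
  set u₂ : ℂ := Complex.exp (Complex.I * (s₂ : ℂ)) with hu₂
  set f : ℕ → G ⧸ H → (E2 →L[ℂ] E2) := fun m a =>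
    imp u₁ (v m (cnj H a x)) + Complex.I • imp u₂ (v m (cnj H a y)) with hf
  have hblk : ∀ m (h : H), ind H ι (v m) (h : G) = blk ι (fun a => v m (cnj H a h)) :=
    fun m h => ind_normal H ι (v m) h
  -- positivity
  obtain ⟨m₁, hm₁⟩ := hasPos_blk hι (f := fun m a => v m (cnj H a x))
    (l := fun a => Complex.exp (Complex.I * ((b₁ (cnj H a x) * s₁ + b₂ (cnj H a x) * s₂ : ℝ) : ℂ)))
    (by
      intro a
      rw [mul_comm, Complex.exp_ofReal_mul_I_re]
      exact (hgen a).1)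
    (fun a => hvl _)
  obtain ⟨m₂, hm₂⟩ := hasPos_blk hι (f := fun m a => v m (cnj H a y))
    (l := fun a => Complex.exp (Complex.I * ((b₁ (cnj H a y) * s₁ + b₂ (cnj H a y) * s₂ : ℝ) : ℂ)))
    (by
      intro a
      rw [mul_comm, Complex.exp_ofReal_mul_I_re]
      exact (hgen a).2.1)
    (fun a => hvl _)
  -- the blocks
  have hshift : ∀ a, (b₁ (cnj H a x) = 1 ∧ b₂ (cnj H a x) = 0) ∧
      (b₁ (cnj H a y) = 0 ∧ b₂ (cnj H a y) = 1) →
      ∀ᶠ m in atTop, ∃ c : ℂ, c ≠ 0 ∧ ‖c • f m a - S‖ < 1 := by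
    intro a ha
    have e1 := hvS (cnj H a x) (cnj H a y) ha.1.1 ha.1.2 ha.2.1 ha.2.2
    have e2 := (Metric.tendsto_nhds.1 e1) 1 one_pos
    filter_upwards [e2] with m hm
    refine ⟨(m : ℂ) + 1, ?_, ?_⟩
    · exact_mod_cast Nat.succ_ne_zero m
    · rw [← dist_eq_norm]; exact hm
  have hblocks : ∀ a, ∀ᶠ m in atTop,
      (IsUnit (f m a) ∨ ∃ c : ℂ, c ≠ 0 ∧ ‖c • f m a - S‖ < 1) := by
    intro a
    rcases (hgen a).2.2 with ha | ha
    · filter_upwards [hshift a ha] with m hm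
      exact Or.inr hm
    · have e1 : Tendsto (fun m => f m a) atTop
          (𝓝 ((((Real.sin ((b₁ (cnj H a x) * s₁ + b₂ (cnj H a x) * s₂) - s₁) : ℝ) : ℂ) +
            Complex.I * ((Real.sin ((b₁ (cnj H a y) * s₁ + b₂ (cnj H a y) * s₂) - s₂) : ℝ) : ℂ)) •
            (1 : E2 →L[ℂ] E2))) := by
        have e2 := ((continuous_imp u₁).tendsto _).comp (hvl (cnj H a x))
        have e3 := ((continuous_imp u₂).tendsto _).comp (hvl (cnj H a y))
        rw [imp_exp_smul_one] at e2 e3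
        have e4 := e2.add (e3.const_smul Complex.I)
        rw [smul_smul, ← add_smul] at e4
        exact e4
      have e5 : (((Real.sin ((b₁ (cnj H a x) * s₁ + b₂ (cnj H a x) * s₂) - s₁) : ℝ) : ℂ) +
            Complex.I * ((Real.sin ((b₁ (cnj H a y) * s₁ + b₂ (cnj H a y) * s₂) - s₂) : ℝ) : ℂ)) ≠ 0 := by
        intro h0
        have hre := congrArg Complex.re h0
        have him := congrArg Complex.im h0
        simp only [Complex.add_re, Complex.ofReal_re, Complex.mul_re, Complex.I_re, zero_mul,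
          Complex.I_im, Complex.ofReal_im, mul_zero, sub_self, add_zero, Complex.zero_re,
          Complex.add_im, Complex.mul_im, one_mul, zero_add, Complex.zero_im] at hre him
        rcases ha with ha | ha
        · exact ha hre
        · exact ha him
      filter_upwards [isOpen_unit_tendsto e5 e1] with m hm
      exact Or.inl hm
  have hbase := hshift ((1 : G) : G ⧸ H) ⟨⟨by rw [cnj_base H hb₁, h1], by rw [cnj_base H hb₂, h2]⟩,
    ⟨by rw [cnj_base H hb₁, h3], by rw [cnj_base H hb₂, h4]⟩⟩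
  have hall : ∀ᶠ m in atTop, ∀ a, (IsUnit (f m a) ∨ ∃ c : ℂ, c ≠ 0 ∧ ‖c • f m a - S‖ < 1) :=
    Filter.eventually_all.2 hblocks
  obtain ⟨m, hm, hmb, hm0, hm1', hm2'⟩ := (hall.and (hbase.and ((eventually_ge_atTop m₀).and
    ((eventually_ge_atTop m₁).and (eventually_ge_atTop m₂))))).exists
  obtain ⟨V, W, hV, hW, hW', hVW⟩ := blk_factor hι hS hS' hm ((1 : G) : G ⧸ H) hmb
  -- the group
  let N : Subgroup H := Subgroup.closure {x, y}
  have hxN : x ∈ N := Subgroup.subset_closure (by simp)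
  have hyN : y ∈ N := Subgroup.subset_closure (by simp)
  haveI : Group.IsSolvable N := hN
  let ρ : N →* unitary (E2 →L[ℂ] E2) := (π m).comp (H.subtype.comp N.subtype)
  have hρ : ∀ g : N, IsCompactOperator ((ρ g : E2 →L[ℂ] E2) - blk ι (fun a => v m (cnj H a g)) :
      E2 →L[ℂ] E2) := by
    intro g
    rw [← hblk]
    exact hπK m hm0 _
  have hgenN : Subgroup.closure {(⟨x, hxN⟩ : N), ⟨y, hyN⟩} = ⊤ := by
    have := Subgroup.closure_closure_coe_preimage (k := ({x, y} : Set H))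
    rw [← this]
    congr 1
    ext z
    simp only [Set.mem_insert_iff, Set.mem_singleton_iff, Set.mem_preimage]
    constructor
    · rintro (rfl | rfl) <;> simp
    · rintro (h | h)
      · exact Or.inl (Subtype.ext h)
      · exact Or.inr (Subtype.ext h)
  refine solv_contra (⟨x, hxN⟩ : N) ⟨y, hyN⟩ hgenN ρ ?_ (hm₁ m hm1' _ (hρ _)) (hm₂ m hm2' _ (hρ _))
    u₁ u₂ hW hW' hV (K := imp u₁ ((ρ ⟨x, hxN⟩ : E2 →L[ℂ] E2) - blk ι (fun a => v m (cnj H a x))) +
      Complex.I • imp u₂ ((ρ ⟨y, hyN⟩ : E2 →L[ℂ] E2) - blk ι (fun a => v m (cnj H a y)))) ?_ ?_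
  · intro g h
    have e1 := hρ ⁅g, h⁆
    have e2 : (fun a : G ⧸ H => v m (cnj H a ((⁅g, h⁆ : N) : H))) = fun _ => (1 : E2 →L[ℂ] E2) := by
      funext a
      have e3 : cnj H a ((⁅g, h⁆ : N) : H) = ⁅cnj H a g, cnj H a h⁆ := by
        simp only [commutatorElement_def, Subgroup.coe_mul, Subgroup.coe_inv, cnj_mul, cnj_inv]
      rw [e3]
      exact hv1 m _ (add_comm' hb₁ _ _) (add_comm' hb₂ _ _)
    rw [e2, blk_one hι] at e1
    exact e1
  · exact hI.add_mem _ (compact_imp (hρ _) _) _ (hI.smul_mem _ _ (compact_imp (hρ _) _))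
  · rw [← hVW]
    have e1 : blk ι (f m) = imp u₁ (blk ι (fun a => v m (cnj H a x))) +
        Complex.I • imp u₂ (blk ι (fun a => v m (cnj H a y))) := by
      rw [imp_blk, imp_blk, blk_smul hι, blk_add hι]
    rw [e1]
    have e2 := imp_add u₁ (blk ι (fun a => v m (cnj H a x)))
      ((ρ ⟨x, hxN⟩ : E2 →L[ℂ] E2) - blk ι (fun a => v m (cnj H a x)))
    have e3 := imp_add u₂ (blk ι (fun a => v m (cnj H a y)))
      ((ρ ⟨y, hyN⟩ : E2 →L[ℂ] E2) - blk ι (fun a => v m (cnj H a y)))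
    rw [add_sub_cancel] at e2 e3
    rw [e2, e3, smul_add]
    abel

end Pool.Agent.LibCS15
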