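import Pool.Agent.LibCS15.Frame
import Pool.Agent.LibCS15.Imp
set_option autoImplicit false
namespace Pool.Agent.LibCS15
open Topology Filter

private theorem tendsto_aux (c d : ℝ) :
    Tendsto (fun ε : ℝ => c * ε + d * ε ^ 2) (𝓝[>] 0) (𝓝 0) := by
  have h : ContinuousAt (fun ε : ℝ => c * ε + d * ε ^ 2) 0 := by fun_prop
  have h2 := h.tendsto
  simp only [mul_zero, ne_eq, OfNat.ofNat_ne_zero, not_false_eq_true, zero_pow, add_zero] at h2
  exact h2.mono_left nhdsWithin_le_nhds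

private theorem ne_aux (c d : ℝ) (h : ¬ (c = 0 ∧ d = 0)) :
    ∀ᶠ ε : ℝ in 𝓝[>] 0, c * ε + d * ε ^ 2 ≠ 0 := by
  have hpos : ∀ᶠ ε : ℝ in 𝓝[>] 0, 0 < ε := eventually_mem_nhdsWithin
  by_cases hc : c = 0
  · have hd : d ≠ 0 := fun hd => h ⟨hc, hd⟩
    filter_upwards [hpos] with ε hε
    rw [hc, zero_mul, zero_add]
    exact mul_ne_zero hd (pow_ne_zero 2 hε.ne')
  · have h1 : Tendsto (fun ε : ℝ => c + d * ε) (𝓝[>] 0) (𝓝 c) := by
      have h : ContinuousAt (fun ε : ℝ => c + d * ε) 0 := by fun_prop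
      have h2 := h.tendsto
      simp only [mul_zero, add_zero] at h2
      exact h2.mono_left nhdsWithin_le_nhds
    filter_upwards [hpos, h1.eventually_ne hc] with ε hε h2
    have : c * ε + d * ε ^ 2 = ε * (c + d * ε) := by ring
    rw [this]
    exact mul_ne_zero hε.ne' h2

private theorem sin_aux (c d : ℝ) (h : ¬ (c = 0 ∧ d = 0)) :
    ∀ᶠ ε : ℝ in 𝓝[>] 0, Real.sin (c * ε + d * ε ^ 2) ≠ 0 := by
  have h1 := ne_aux c d h
  have h2 : ∀ᶠ ε : ℝ in 𝓝[>] 0, -Real.pi < c * ε + d * ε ^ 2 :=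
    (tendsto_aux c d).eventually (lt_mem_nhds (by linarith [Real.pi_pos]))
  have h3 : ∀ᶠ ε : ℝ in 𝓝[>] 0, c * ε + d * ε ^ 2 < Real.pi :=
    (tendsto_aux c d).eventually (gt_mem_nhds Real.pi_pos)
  filter_upwards [h1, h2, h3] with ε e1 e2 e3
  rw [Ne, Real.sin_eq_zero_iff_of_lt_of_lt e2 e3]
  exact e1

private theorem cos_aux (c d : ℝ) :
    ∀ᶠ ε : ℝ in 𝓝[>] 0, 0 < Real.cos (c * ε + d * ε ^ 2) := by
  have h1 : Tendsto (fun ε : ℝ => Real.cos (c * ε + d * ε ^ 2)) (𝓝[>] 0) (𝓝 (Real.cos 0)) :=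
    (Real.continuous_cos.tendsto 0).comp (tendsto_aux c d)
  rw [Real.cos_zero] at h1
  exact h1.eventually (lt_mem_nhds one_pos)

/-- genericity: `s₁ = ε`, `s₂ = ε ^ 2` with `ε > 0` small -/
theorem generic {n : Type} [Finite n] (p₁ p₂ q₁ q₂ : n → ℝ) :
    ∃ s₁ s₂ : ℝ, ∀ a, 0 < Real.cos (p₁ a * s₁ + p₂ a * s₂) ∧ 0 < Real.cos (q₁ a * s₁ + q₂ a * s₂) ∧
      (((p₁ a = 1 ∧ p₂ a = 0) ∧ (q₁ a = 0 ∧ q₂ a = 1)) ∨
      Real.sin (p₁ a * s₁ + p₂ a * s₂ - s₁) ≠ 0 ∨ Real.sin (q₁ a * s₁ + q₂ a * s₂ - s₂) ≠ 0) := by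
  have key : ∀ᶠ ε : ℝ in 𝓝[>] 0, ∀ a, 0 < Real.cos (p₁ a * ε + p₂ a * ε ^ 2) ∧
      0 < Real.cos (q₁ a * ε + q₂ a * ε ^ 2) ∧
      (((p₁ a = 1 ∧ p₂ a = 0) ∧ (q₁ a = 0 ∧ q₂ a = 1)) ∨
      Real.sin (p₁ a * ε + p₂ a * ε ^ 2 - ε) ≠ 0 ∨
      Real.sin (q₁ a * ε + q₂ a * ε ^ 2 - ε ^ 2) ≠ 0) := by
    rw [eventually_all]
    intro a
    have h3 : ∀ᶠ ε : ℝ in 𝓝[>] 0, (((p₁ a = 1 ∧ p₂ a = 0) ∧ (q₁ a = 0 ∧ q₂ a = 1)) ∨
      Real.sin (p₁ a * ε + p₂ a * ε ^ 2 - ε) ≠ 0 ∨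
      Real.sin (q₁ a * ε + q₂ a * ε ^ 2 - ε ^ 2) ≠ 0) := by
      by_cases hp : p₁ a = 1 ∧ p₂ a = 0
      · by_cases hq : q₁ a = 0 ∧ q₂ a = 1
        · exact Eventually.of_forall fun _ => Or.inl ⟨hp, hq⟩
        · have h := sin_aux (q₁ a) (q₂ a - 1) (fun h => hq ⟨h.1, by linarith [h.2]⟩)
          filter_upwards [h] with ε hε
          right; right
          have e : q₁ a * ε + q₂ a * ε ^ 2 - ε ^ 2 = q₁ a * ε + (q₂ a - 1) * ε ^ 2 := by ring
          rw [e]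
          exact hε
      · have h := sin_aux (p₁ a - 1) (p₂ a) (fun h => hp ⟨by linarith [h.1], h.2⟩)
        filter_upwards [h] with ε hε
        right; left
        have e : p₁ a * ε + p₂ a * ε ^ 2 - ε = (p₁ a - 1) * ε + p₂ a * ε ^ 2 := by ring
        rw [e]
        exact hε
    filter_upwards [cos_aux (p₁ a) (p₂ a), cos_aux (q₁ a) (q₂ a), h3] with ε e1 e2 e3
    exact ⟨e1, e2, e3⟩
  obtain ⟨ε, hε⟩ := key.exists
  exact ⟨ε, ε ^ 2, hε⟩

theorem imp_exp_smul_one {D : Type} [CStarAlgebra D] (s t : ℝ) :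
    imp (Complex.exp (Complex.I * (s : ℂ))) (Complex.exp (Complex.I * (t : ℂ)) • (1 : D)) =
      ((Real.sin (t - s) : ℝ) : ℂ) • (1 : D) := by
  unfold imp
  rw [star_smul, star_one, smul_smul, smul_smul, ← sub_smul, smul_smul]
  congr 1
  have hs : (starRingEnd ℂ) (Complex.exp (Complex.I * (s : ℂ))) =
      Complex.exp (-(Complex.I * (s : ℂ))) := by
    rw [← Complex.exp_conj, map_mul, Complex.conj_I, Complex.conj_ofReal]
    ring_nf
  have ht : star (Complex.exp (Complex.I * (t : ℂ))) =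
      Complex.exp (-(Complex.I * (t : ℂ))) := by
    rw [Complex.star_def, ← Complex.exp_conj, map_mul, Complex.conj_I, Complex.conj_ofReal]
    ring_nf
  rw [hs, ht, ← Complex.exp_add, ← Complex.exp_add, Complex.ofReal_sin, Complex.sin]
  have e1 : -(Complex.I * (s : ℂ)) + Complex.I * (t : ℂ) = ((t - s : ℝ) : ℂ) * Complex.I := by
    push_cast; ring
  have e2 : Complex.I * (s : ℂ) + -(Complex.I * (t : ℂ)) = -((t - s : ℝ) : ℂ) * Complex.I := by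
    push_cast; ring
  rw [e1, e2]
  have hI : Complex.I ≠ 0 := Complex.I_ne_zero
  field_simp
  rw [Complex.I_sq]
  ring

theorem continuous_imp {D : Type} [CStarAlgebra D] (u : ℂ) : Continuous (imp u : D → D) := by
  unfold imp
  fun_prop

theorem imp_blk {n : Type} [Fintype n] {D : Type} [CStarAlgebra D] (ι f : n → D) (u : ℂ) :
    imp u (blk ι f) = blk ι (fun a => imp u (f a)) := by
  unfold imp blk
  rw [star_sum, Finset.smul_sum, Finset.smul_sum, ← Finset.sum_sub_distrib, Finset.smul_sum]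
  refine Finset.sum_congr rfl fun a _ => ?_
  rw [star_mul, star_mul, star_star, mul_smul_comm, smul_mul_assoc, mul_sub, sub_mul,
    mul_smul_comm, smul_mul_assoc, mul_smul_comm, smul_mul_assoc, mul_assoc, mul_assoc]

theorem imp_add {D : Type} [CStarAlgebra D] (u : ℂ) (S T : D) :
    imp u (S + T) = imp u S + imp u T := by
  unfold imp
  rw [star_add, ← smul_add, smul_add, smul_add u]
  congr 1
  abel

end Pool.Agent.LibCS15
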