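import Pool.Agent.LibCS15.GenericSmall
set_option autoImplicit false
namespace Pool.Agent.LibCS15
open Topology Filter

/-- the contradiction behind the rank one theorem, for elements `x`, `y` whose images commute in every unitary representation of
`G` in which these images are within `1/4` of `1` -/
theorem main_contraB {G : Type} [Group G] [Countable G] (hG : CStarStable G) (H : Subgroup G)
    [H.Normal] [H.FiniteIndex] (x y : H)
    (hN : ∀ π : G →* unitary (E2 →L[ℂ] E2),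
      ‖((π (x : G) : unitary (E2 →L[ℂ] E2)) : E2 →L[ℂ] E2) - 1‖ < 1 / 4 →
      ‖((π (y : G) : unitary (E2 →L[ℂ] E2)) : E2 →L[ℂ] E2) - 1‖ < 1 / 4 →
      π (x : G) * π (y : G) = π (y : G) * π (x : G)) (b₁ b₂ : H → ℝ)
    (hb₁ : ∀ g h, b₁ (g * h) = b₁ g + b₁ h) (hb₂ : ∀ g h, b₂ (g * h) = b₂ g + b₂ h)
    (h1 : b₁ x = 1) (h2 : b₂ x = 0) (h3 : b₁ y = 0) (h4 : b₂ y = 1) : False := by
  classical
  letI : Fintype (G ⧸ H) := Fintype.ofFinite _
  obtain ⟨ι, S, hι, hS, hS', hcS⟩ := exists_shift_frame (G ⧸ H)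
  obtain ⟨s₁, s₂, hsx, hsy, hgen⟩ := generic_small (fun a : G ⧸ H => b₁ (cnj H a x))
    (fun a => b₂ (cnj H a x)) (fun a => b₁ (cnj H a y)) (fun a => b₂ (cnj H a y))
  obtain ⟨v, hvu, hv1, hvs, hvm, hvl, hvS⟩ := toeplitz_family hS hcS b₁ b₂ hb₁ hb₂ s₁ s₂
  have hI := isClosedIdeal_compact (E := E2)
  obtain ⟨m₀, π, hπK, hπl⟩ := lifting_ind H hG hI hι v
    (fun m h => norm_le_one_of_star (hvu m h).1) (fun m => hv1 m 1 (add_one hb₁) (add_one hb₂))
    hvs hvm (by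
      intro g h
      have e1 := hvl (g * h)
      have e2 := (hvl g).mul (hvl h)
      have e3 := e1.sub e2
      have e4 : Complex.exp (Complex.I * ((b₁ (g * h) * s₁ + b₂ (g * h) * s₂ : ℝ) : ℂ)) •
          (1 : E2 →L[ℂ] E2) -
          (Complex.exp (Complex.I * ((b₁ g * s₁ + b₂ g * s₂ : ℝ) : ℂ)) • (1 : E2 →L[ℂ] E2)) *
          (Complex.exp (Complex.I * ((b₁ h * s₁ + b₂ h * s₂ : ℝ) : ℂ)) • (1 : E2 →L[ℂ] E2)) = 0 := by
        rw [smul_mul_smul_comm, one_mul, ← Complex.exp_add, hb₁, hb₂]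
        rw [← sub_smul]
        have : Complex.I * (((b₁ g + b₁ h) * s₁ + (b₂ g + b₂ h) * s₂ : ℝ) : ℂ) =
          Complex.I * ((b₁ g * s₁ + b₂ g * s₂ : ℝ) : ℂ) + Complex.I * ((b₁ h * s₁ + b₂ h * s₂ : ℝ) : ℂ) := by
          push_cast; ring
        rw [this, sub_self, zero_smul]
      rw [e4] at e3
      exact e3)
  -- the unitaries
  set u₁ : ℂ := Complex.exp (Complex.I * (s₁ : ℂ)) with hu₁
  set u₂ : ℂ := Complex.exp (Complex.I * (s₂ : ℂ)) with hu₂
  set f : ℕ → G ⧸ H → (E2 →L[ℂ] E2) := fun m a =>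
    imp u₁ (v m (cnj H a x)) + Complex.I • imp u₂ (v m (cnj H a y)) with hf
  have hblk : ∀ m (h : H), ind H ι (v m) (h : G) = blk ι (fun a => v m (cnj H a h)) :=
    fun m h => ind_normal H ι (v m) h
  -- closeness to `1`
  have hnear : ∀ z : H, (∑ a : G ⧸ H, |b₁ (cnj H a z) * s₁ + b₂ (cnj H a z) * s₂| < 1 / 8) →
      ∀ᶠ m in atTop, ‖((π m (z : G) : unitary (E2 →L[ℂ] E2)) : E2 →L[ℂ] E2) - 1‖ < 1 / 4 := by
    intro z hz
    have e1 : Tendsto (fun m => ind H ι (v m) (z : G)) atTop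
        (𝓝 (blk ι (fun a => Complex.exp (Complex.I *
          ((b₁ (cnj H a z) * s₁ + b₂ (cnj H a z) * s₂ : ℝ) : ℂ)) • (1 : E2 →L[ℂ] E2)))) := by
      simp only [hblk]
      exact tendsto_blk ι fun a => hvl (cnj H a z)
    have e2 := (hπl (z : G)).add e1
    simp only [sub_add_cancel, zero_add] at e2
    have e3 := (e2.sub_const (1 : E2 →L[ℂ] E2)).norm
    have e4 := norm_blk_exp_sub_one hι (fun a => b₁ (cnj H a z) * s₁ + b₂ (cnj H a z) * s₂)
    exact e3.eventually (gt_mem_nhds (by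
      refine lt_of_le_of_lt e4 ?_
      linarith))
  -- the blocks
  have hshift : ∀ a, (b₁ (cnj H a x) = 1 ∧ b₂ (cnj H a x) = 0) ∧
      (b₁ (cnj H a y) = 0 ∧ b₂ (cnj H a y) = 1) →
      ∀ᶠ m in atTop, ∃ c : ℂ, c ≠ 0 ∧ ‖c • f m a - S‖ < 1 := by
    intro a ha
    have e1 := hvS (cnj H a x) (cnj H a y) ha.1.1 ha.1.2 ha.2.1 ha.2.2
    have e2 := (Metric.tendsto_nhds.1 e1) 1 one_pos
    filter_upwards [e2] with m hm
    refine ⟨(m : ℂ) + 1, ?_, ?_⟩
    · exact_mod_cast Nat.succ_ne_zero m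
    · rw [← dist_eq_norm]; exact hm
  have hblocks : ∀ a, ∀ᶠ m in atTop,
      (IsUnit (f m a) ∨ ∃ c : ℂ, c ≠ 0 ∧ ‖c • f m a - S‖ < 1) := by
    intro a
    rcases hgen a with ha | ha
    · filter_upwards [hshift a ha] with m hm
      exact Or.inr hm
    · have e1 : Tendsto (fun m => f m a) atTop
          (𝓝 ((((Real.sin ((b₁ (cnj H a x) * s₁ + b₂ (cnj H a x) * s₂) - s₁) : ℝ) : ℂ) +
            Complex.I * ((Real.sin ((b₁ (cnj H a y) * s₁ + b₂ (cnj H a y) * s₂) - s₂) : ℝ) : ℂ)) •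
            (1 : E2 →L[ℂ] E2))) := by
        have e2 := ((continuous_imp u₁).tendsto _).comp (hvl (cnj H a x))
        have e3 := ((continuous_imp u₂).tendsto _).comp (hvl (cnj H a y))
        rw [imp_exp_smul_one] at e2 e3
        have e4 := e2.add (e3.const_smul Complex.I)
        rw [smul_smul, ← add_smul] at e4
        exact e4
      have e5 : (((Real.sin ((b₁ (cnj H a x) * s₁ + b₂ (cnj H a x) * s₂) - s₁) : ℝ) : ℂ) +
            Complex.I * ((Real.sin ((b₁ (cnj H a y) * s₁ + b₂ (cnj H a y) * s₂) - s₂) : ℝ) : ℂ)) ≠ 0 := by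
        intro h0
        have hre := congrArg Complex.re h0
        have him := congrArg Complex.im h0
        simp only [Complex.add_re, Complex.ofReal_re, Complex.mul_re, Complex.I_re, zero_mul,
          Complex.I_im, Complex.ofReal_im, mul_zero, sub_self, add_zero, Complex.zero_re,
          Complex.add_im, Complex.mul_im, one_mul, zero_add, Complex.zero_im] at hre him
        rcases ha with ha | ha
        · exact ha hre
        · exact ha him
      filter_upwards [isOpen_unit_tendsto e5 e1] with m hm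
      exact Or.inl hm
  have hbase := hshift ((1 : G) : G ⧸ H) ⟨⟨by rw [cnj_base H hb₁, h1], by rw [cnj_base H hb₂, h2]⟩,
    ⟨by rw [cnj_base H hb₁, h3], by rw [cnj_base H hb₂, h4]⟩⟩
  have hall : ∀ᶠ m in atTop, ∀ a, (IsUnit (f m a) ∨ ∃ c : ℂ, c ≠ 0 ∧ ‖c • f m a - S‖ < 1) :=
    Filter.eventually_all.2 hblocks
  obtain ⟨m, hm, hmb, hm0, hmx, hmy⟩ := (hall.and (hbase.and ((eventually_ge_atTop m₀).and
    ((hnear x hsx).and (hnear y hsy))))).exists
  obtain ⟨V, W, hV, hW, hW', hVW⟩ := blk_factor hι hS hS' hm ((1 : G) : G ⧸ H) hmb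
  have hρ : ∀ g : H, IsCompactOperator (((π m (g : G) : unitary (E2 →L[ℂ] E2)) : E2 →L[ℂ] E2) -
      blk ι (fun a => v m (cnj H a g)) : E2 →L[ℂ] E2) := by
    intro g
    rw [← hblk]
    exact hπK m hm0 _
  refine normal_contra hW hW' hV
    (K := imp u₁ (((π m (x : G) : unitary (E2 →L[ℂ] E2)) : E2 →L[ℂ] E2) - blk ι (fun a => v m (cnj H a x))) +
      Complex.I • imp u₂ (((π m (y : G) : unitary (E2 →L[ℂ] E2)) : E2 →L[ℂ] E2) -
        blk ι (fun a => v m (cnj H a y))))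
    (T := imp u₁ ((π m (x : G) : unitary (E2 →L[ℂ] E2)) : E2 →L[ℂ] E2) +
      Complex.I • imp u₂ ((π m (y : G) : unitary (E2 →L[ℂ] E2)) : E2 →L[ℂ] E2)) ?_ ?_
    (normal_imp u₁ u₂ _ _ (hN (π m) hmx hmy))
  · exact hI.add_mem _ (compact_imp (hρ _) _) _ (hI.smul_mem _ _ (compact_imp (hρ _) _))
  · rw [← hVW]
    have e1 : blk ι (f m) = imp u₁ (blk ι (fun a => v m (cnj H a x))) +
        Complex.I • imp u₂ (blk ι (fun a => v m (cnj H a y))) := by
      rw [imp_blk, imp_blk, blk_smul hι, blk_add hι]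
    rw [e1]
    have e2 := imp_add u₁ (blk ι (fun a => v m (cnj H a x)))
      (((π m (x : G) : unitary (E2 →L[ℂ] E2)) : E2 →L[ℂ] E2) - blk ι (fun a => v m (cnj H a x)))
    have e3 := imp_add u₂ (blk ι (fun a => v m (cnj H a y)))
      (((π m (y : G) : unitary (E2 →L[ℂ] E2)) : E2 →L[ℂ] E2) - blk ι (fun a => v m (cnj H a y)))
    rw [add_sub_cancel] at e2 e3
    rw [e2, e3, smul_add]
    abel

end Pool.Agent.LibCS15
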