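import Pool.Agent.LibCS15.DefsEA
set_option autoImplicit false
namespace Pool.Agent.LibCS15
open Topology Filter

variable {E : Type} [NormedAddCommGroup E] [InnerProductSpace ℂ E] [CompleteSpace E]

omit [CompleteSpace E] in
/-- an isometry `s` with `‖s ^ n - b‖ ≤ 1` for all `n`, where `b` is isometric, is the identity -/
theorem eq_one_of_near {s b : E →L[ℂ] E} (hs : ∀ ξ, ‖s ξ‖ = ‖ξ‖) (hb : ∀ ξ, ‖b ξ‖ = ‖ξ‖)
    (h : ∀ n : ℕ, ‖s ^ n - b‖ ≤ 1) : s = 1 := by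
  have hsn : ∀ n : ℕ, ∀ ξ, ‖(s ^ n) ξ‖ = ‖ξ‖ := by
    intro n
    induction n with
    | zero => intro ξ; simp
    | succ n ih =>
      intro ξ
      rw [pow_succ']
      change ‖s ((s ^ n) ξ)‖ = ‖ξ‖
      rw [hs, ih]
  ext ζ
  set ξ : E := s ζ - ζ with hξ
  have hre : ∀ n : ℕ, (1 / 2 : ℝ) * ‖ξ‖ ^ 2 ≤ (inner ℂ (b ξ) ((s ^ n) ξ) : ℂ).re := by
    intro n
    have h1 := @norm_sub_sq ℂ E _ _ _ ((s ^ n) ξ) (b ξ)
    rw [hsn, hb] at h1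
    have h2 : ‖(s ^ n) ξ - b ξ‖ ≤ ‖ξ‖ := by
      have h3 : (s ^ n) ξ - b ξ = (s ^ n - b) ξ := rfl
      rw [h3]
      calc ‖(s ^ n - b) ξ‖ ≤ ‖s ^ n - b‖ * ‖ξ‖ := ContinuousLinearMap.le_opNorm _ _
        _ ≤ 1 * ‖ξ‖ := by gcongr; exact h n
        _ = ‖ξ‖ := one_mul _
    have h4 : RCLike.re (inner ℂ ((s ^ n) ξ) (b ξ)) = (inner ℂ (b ξ) ((s ^ n) ξ) : ℂ).re := by
      rw [← inner_conj_symm]
      exact RCLike.conj_re _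
    rw [h4] at h1
    have h5 : ‖(s ^ n) ξ - b ξ‖ ^ 2 ≤ ‖ξ‖ ^ 2 := pow_le_pow_left₀ (norm_nonneg _) h2 2
    nlinarith
  have hsum : ∀ N : ℕ, ∑ n ∈ Finset.range N, (s ^ n) ξ = (s ^ N) ζ - ζ := by
    intro N
    induction N with
    | zero => simp
    | succ N ih =>
      rw [Finset.sum_range_succ, ih, hξ, map_sub, pow_succ]
      change (s ^ N) ζ - ζ + ((s ^ N) (s ζ) - (s ^ N) ζ) = (s ^ N) (s ζ) - ζ
      abel
  have hbound : ∀ N : ℕ, (N : ℝ) * ((1 / 2 : ℝ) * ‖ξ‖ ^ 2) ≤ 2 * ‖ξ‖ * ‖ζ‖ := by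
    intro N
    have h1 : ∑ _n ∈ Finset.range N, (1 / 2 : ℝ) * ‖ξ‖ ^ 2 ≤
        ∑ n ∈ Finset.range N, (inner ℂ (b ξ) ((s ^ n) ξ) : ℂ).re :=
      Finset.sum_le_sum fun n _ => hre n
    rw [Finset.sum_const, Finset.card_range, nsmul_eq_mul] at h1
    have h2 : ∑ n ∈ Finset.range N, (inner ℂ (b ξ) ((s ^ n) ξ) : ℂ).re =
        (inner ℂ (b ξ) ((s ^ N) ζ - ζ) : ℂ).re := by
      rw [← hsum, inner_sum, Complex.re_sum]
    rw [h2] at h1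
    refine h1.trans ?_
    calc (inner ℂ (b ξ) ((s ^ N) ζ - ζ) : ℂ).re ≤ ‖(inner ℂ (b ξ) ((s ^ N) ζ - ζ) : ℂ)‖ :=
          Complex.re_le_norm _
      _ ≤ ‖b ξ‖ * ‖(s ^ N) ζ - ζ‖ := norm_inner_le_norm _ _
      _ ≤ ‖ξ‖ * (‖ζ‖ + ‖ζ‖) := by
          rw [hb]
          gcongr
          refine (norm_sub_le _ _).trans ?_
          rw [hsn]
      _ = 2 * ‖ξ‖ * ‖ζ‖ := by ring
  have hzero : ‖ξ‖ = 0 := by
    by_contra hne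
    have hpos : 0 < ‖ξ‖ := lt_of_le_of_ne (norm_nonneg _) (Ne.symm hne)
    obtain ⟨N, hN⟩ := exists_nat_gt (4 * ‖ζ‖ / ‖ξ‖)
    have h1 := hbound N
    rw [div_lt_iff₀ hpos] at hN
    nlinarith
  have h0 : ξ = 0 := norm_eq_zero.1 hzero
  have := sub_eq_zero.1 (hξ ▸ h0 : s ζ - ζ = 0)
  simpa using this

theorem unitary_norm_apply (u : unitary (E →L[ℂ] E)) (ξ : E) : ‖(u : E →L[ℂ] E) ξ‖ = ‖ξ‖ := by
  have h1 : star (u : E →L[ℂ] E) * (u : E →L[ℂ] E) = 1 := Unitary.coe_star_mul_self u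
  have h2 : inner ℂ ((u : E →L[ℂ] E) ξ) ((u : E →L[ℂ] E) ξ) = (inner ℂ ξ ξ : ℂ) := by
    have h3 := congrArg (fun S : E →L[ℂ] E => S ξ) h1
    change (star (u : E →L[ℂ] E)) ((u : E →L[ℂ] E) ξ) = ξ at h3
    rw [← ContinuousLinearMap.adjoint_inner_left]
    change inner ℂ ((star (u : E →L[ℂ] E)) ((u : E →L[ℂ] E) ξ)) ξ = _
    rw [h3]
  have h4 := congrArg Complex.re h2
  have h5 : (inner ℂ ((u : E →L[ℂ] E) ξ) ((u : E →L[ℂ] E) ξ) : ℂ).re = ‖(u : E →L[ℂ] E) ξ‖ ^ 2 := by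
    have := @inner_self_eq_norm_sq_to_K ℂ E _ _ _ ((u : E →L[ℂ] E) ξ)
    rw [this]
    norm_cast
  have h6 : (inner ℂ ξ ξ : ℂ).re = ‖ξ‖ ^ 2 := by
    have := @inner_self_eq_norm_sq_to_K ℂ E _ _ _ ξ
    rw [this]
    norm_cast
  rw [h5, h6] at h4
  exact (sq_eq_sq₀ (norm_nonneg _) (norm_nonneg _)).1 h4

/-- conjugation by a unitary preserves the distance to `1` -/
theorem norm_conj_sub_one (u b : unitary (E →L[ℂ] E)) :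
    ‖((u * b * u⁻¹ : unitary (E →L[ℂ] E)) : E →L[ℂ] E) - 1‖ = ‖(b : E →L[ℂ] E) - 1‖ := by
  have h1 : ((u * b * u⁻¹ : unitary (E →L[ℂ] E)) : E →L[ℂ] E) - 1 =
      (u : E →L[ℂ] E) * ((b : E →L[ℂ] E) - 1) * ((u⁻¹ : unitary (E →L[ℂ] E)) : E →L[ℂ] E) := by
    have h2 : (u : E →L[ℂ] E) * ((u⁻¹ : unitary (E →L[ℂ] E)) : E →L[ℂ] E) = 1 := by
      rw [← Submonoid.coe_mul, mul_inv_cancel]
      rfl
    rw [mul_sub, mul_one, sub_mul, h2]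
    rfl
  rw [h1, CStarRing.norm_mul_coe_unitary, CStarRing.norm_coe_unitary_mul]

theorem norm_sub_unitary_mul (u v w : unitary (E →L[ℂ] E)) :
    ‖((u * v : unitary (E →L[ℂ] E)) : E →L[ℂ] E) - ((u * w : unitary (E →L[ℂ] E)) : E →L[ℂ] E)‖ =
      ‖(v : E →L[ℂ] E) - (w : E →L[ℂ] E)‖ := by
  have h1 : ((u * v : unitary (E →L[ℂ] E)) : E →L[ℂ] E) - ((u * w : unitary (E →L[ℂ] E)) : E →L[ℂ] E) =
      (u : E →L[ℂ] E) * ((v : E →L[ℂ] E) - (w : E →L[ℂ] E)) := by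
    rw [mul_sub]; rfl
  rw [h1, CStarRing.norm_coe_unitary_mul]

/-- Lemma J: if the unitary `b` is near `1` and `b * a * b⁻¹ * a⁻¹` commutes with `a`, then `a` and `b` commute -/
theorem commute_of_near {a b : unitary (E →L[ℂ] E)} (hb : ‖(b : E →L[ℂ] E) - 1‖ < 1)
    (h : (b * a * b⁻¹ * a⁻¹) * a = a * (b * a * b⁻¹ * a⁻¹)) : a * b = b * a := by
  set s : unitary (E →L[ℂ] E) := b * a * b⁻¹ * a⁻¹ with hs
  have hconj : ∀ n : ℕ, a ^ n * b⁻¹ * (a ^ n)⁻¹ = b⁻¹ * s ^ n := by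
    intro n
    induction n with
    | zero => simp
    | succ n ih =>
      have h1 : a ^ (n + 1) * b⁻¹ * (a ^ (n + 1))⁻¹ = a * (a ^ n * b⁻¹ * (a ^ n)⁻¹) * a⁻¹ := by
        rw [pow_succ', mul_inv_rev]
        group
      have h2 : Commute a (s ^ n) := (show Commute a s from h.symm).pow_right n
      have h3 : a * (b⁻¹ * s ^ n) * a⁻¹ = a * b⁻¹ * a⁻¹ * s ^ n := by
        have h4 : s ^ n * a⁻¹ = a⁻¹ * s ^ n := (h2.inv_left.eq).symm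
        calc a * (b⁻¹ * s ^ n) * a⁻¹ = a * b⁻¹ * (s ^ n * a⁻¹) := by group
          _ = a * b⁻¹ * (a⁻¹ * s ^ n) := by rw [h4]
          _ = a * b⁻¹ * a⁻¹ * s ^ n := by group
      have h5 : a * b⁻¹ * a⁻¹ = b⁻¹ * s := by rw [hs]; group
      rw [h1, ih, h3, h5, pow_succ']
      group
  have hnear : ∀ n : ℕ, ‖((s ^ n : unitary (E →L[ℂ] E)) : E →L[ℂ] E) - (b : E →L[ℂ] E)‖ ≤ 1 := by
    intro n
    have h1 : (s ^ n : unitary (E →L[ℂ] E)) = b * (a ^ n * b⁻¹ * (a ^ n)⁻¹) := by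
      rw [hconj]; group
    have h2 : ‖((a ^ n * b⁻¹ * (a ^ n)⁻¹ : unitary (E →L[ℂ] E)) : E →L[ℂ] E) - 1‖ =
        ‖((b⁻¹ : unitary (E →L[ℂ] E)) : E →L[ℂ] E) - 1‖ := norm_conj_sub_one _ _
    have h3 : ‖((b⁻¹ : unitary (E →L[ℂ] E)) : E →L[ℂ] E) - 1‖ = ‖(b : E →L[ℂ] E) - 1‖ := by
      have h4 := norm_sub_unitary_mul b b⁻¹ 1
      rw [mul_inv_cancel, mul_one] at h4
      have h5 : ((1 : unitary (E →L[ℂ] E)) : E →L[ℂ] E) = 1 := rfl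
      rw [h5, norm_sub_rev] at h4
      exact h4.symm
    have h6 := norm_sub_unitary_mul b (a ^ n * b⁻¹ * (a ^ n)⁻¹) 1
    rw [mul_one, ← h1] at h6
    have h5 : ((1 : unitary (E →L[ℂ] E)) : E →L[ℂ] E) = 1 := rfl
    rw [h5, h2, h3] at h6
    rw [h6]
    exact hb.le
  have hone : (s : E →L[ℂ] E) = 1 := by
    refine eq_one_of_near (unitary_norm_apply s) (unitary_norm_apply b) ?_
    intro n
    have := hnear n
    rwa [SubmonoidClass.coe_pow] at this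
  have hs1 : s = 1 := Subtype.ext hone
  rw [hs] at hs1
  have h7 : b * a = a * b := by
    have := congrArg (fun z => z * a * b) hs1
    simpa [mul_assoc] using this
  exact h7.symm

/-- the norm estimate for commutators -/
theorem norm_comm_sub_one (a b : unitary (E →L[ℂ] E)) :
    ‖((a * b * a⁻¹ * b⁻¹ : unitary (E →L[ℂ] E)) : E →L[ℂ] E) - 1‖ ≤
      2 * ‖(a : E →L[ℂ] E) - 1‖ * ‖(b : E →L[ℂ] E) - 1‖ := by
  have h1 : ((a * b * a⁻¹ * b⁻¹ : unitary (E →L[ℂ] E)) : E →L[ℂ] E) - 1 =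
      ((a : E →L[ℂ] E) * b - b * a) * ((a⁻¹ * b⁻¹ : unitary (E →L[ℂ] E)) : E →L[ℂ] E) := by
    rw [sub_mul]
    have h2 : (b : E →L[ℂ] E) * (a : E →L[ℂ] E) * ((a⁻¹ * b⁻¹ : unitary (E →L[ℂ] E)) : E →L[ℂ] E) = 1 := by
      have h3 : (b * a) * (a⁻¹ * b⁻¹) = (1 : unitary (E →L[ℂ] E)) := by group
      exact congrArg Subtype.val h3
    rw [h2]
    congr 1
  have h4 : (a : E →L[ℂ] E) * b - b * a =
      ((a : E →L[ℂ] E) - 1) * ((b : E →L[ℂ] E) - 1) - ((b : E →L[ℂ] E) - 1) * ((a : E →L[ℂ] E) - 1) := by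
    noncomm_ring
  rw [h1, CStarRing.norm_mul_coe_unitary, h4]
  calc ‖((a : E →L[ℂ] E) - 1) * ((b : E →L[ℂ] E) - 1) - ((b : E →L[ℂ] E) - 1) * ((a : E →L[ℂ] E) - 1)‖
      ≤ ‖((a : E →L[ℂ] E) - 1) * ((b : E →L[ℂ] E) - 1)‖ + ‖((b : E →L[ℂ] E) - 1) * ((a : E →L[ℂ] E) - 1)‖ :=
        norm_sub_le _ _
    _ ≤ ‖(a : E →L[ℂ] E) - 1‖ * ‖(b : E →L[ℂ] E) - 1‖ + ‖(b : E →L[ℂ] E) - 1‖ * ‖(a : E →L[ℂ] E) - 1‖ :=
        add_le_add (norm_mul_le _ _) (norm_mul_le _ _)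
    _ = 2 * ‖(a : E →L[ℂ] E) - 1‖ * ‖(b : E →L[ℂ] E) - 1‖ := by ring

end Pool.Agent.LibCS15
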