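import Pool.Agent.LibCS15.Lifting
set_option autoImplicit false
namespace Pool.Agent.LibCS15
open Topology Filter

/-- Representations of a `C*`-stable group which are close to `ρ₀` are joined to `ρ₀` by short paths: `lifting` for the algebra `C([0,1], D)`, the ideal
of functions vanishing at `0` and `1`, and `v m g = (t ↦ (1 - t) • ρ₀ g + t • ρ m g)` -/
theorem path_lemma {G : Type} [Group G] [Countable G] (hG : CStarStable G) {D : Type}
    [CStarAlgebra D] (ρ : ℕ → G →* unitary D) (ρ₀ : G →* unitary D)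
    (h : ∀ g, Tendsto (fun m => (ρ m g : D)) atTop (𝓝 (ρ₀ g : D))) :
    ∃ (m₀ : ℕ) (R : ℕ → G →* unitary C(unitInterval, D)),
      (∀ m, m₀ ≤ m → ∀ g, (R m g : C(unitInterval, D)) 0 = (ρ₀ g : D) ∧
        (R m g : C(unitInterval, D)) 1 = (ρ m g : D)) ∧
      (∀ g, Tendsto (fun m => (R m g : C(unitInterval, D))) atTop
        (𝓝 (ContinuousMap.const _ (ρ₀ g : D)))) := by
  classical
  let X : Type := C(unitInterval, D)
  let c : D → X := fun d => ContinuousMap.const _ d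
  let P : D → D → X := fun d e => ⟨fun t => d + ((t : ℝ) : ℂ) • (e - d), by fun_prop⟩
  have hP : ∀ d e (t : unitInterval), P d e t = d + ((t : ℝ) : ℂ) • (e - d) := fun _ _ _ => rfl
  have hP0 : ∀ d e, P d e 0 = d := by intro d e; rw [hP]; simp
  have hP1 : ∀ d e, P d e 1 = e := by intro d e; rw [hP]; simp
  have hPc : ∀ d e, ‖P d e - c d‖ ≤ ‖e - d‖ := by
    intro d e
    rw [ContinuousMap.norm_le _ (norm_nonneg _)]
    intro t
    show ‖d + ((t : ℝ) : ℂ) • (e - d) - d‖ ≤ _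
    rw [add_sub_cancel_left, norm_smul, Complex.norm_real, Real.norm_eq_abs,
      abs_of_nonneg t.2.1]
    exact mul_le_of_le_one_left (norm_nonneg _) t.2.2
  have hcn : ∀ d, ‖c d‖ ≤ ‖d‖ := by
    intro d
    rw [ContinuousMap.norm_le _ (norm_nonneg _)]
    intro t
    exact le_rfl
  let K : Set X := {f | f 0 = 0 ∧ f 1 = 0}
  have hK : IsClosedIdeal K := by
    constructor
    · have e1 : K = (fun f : X => f 0) ⁻¹' {0} ∩ (fun f : X => f 1) ⁻¹' {0} := rfl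
      rw [e1]
      exact (isClosed_singleton.preimage (continuous_eval_const (F := X) 0)).inter
        (isClosed_singleton.preimage (continuous_eval_const (F := X) 1))
    · exact ⟨rfl, rfl⟩
    · rintro x ⟨hx1, hx2⟩ y ⟨hy1, hy2⟩
      exact ⟨by show x 0 + y 0 = 0; rw [hx1, hy1, add_zero],
        by show x 1 + y 1 = 0; rw [hx2, hy2, add_zero]⟩
    · rintro a x ⟨hx1, hx2⟩
      exact ⟨by show a • x 0 = 0; rw [hx1, smul_zero], by show a • x 1 = 0; rw [hx2, smul_zero]⟩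
    · rintro b x ⟨hx1, hx2⟩
      exact ⟨by show b 0 * x 0 = 0; rw [hx1, mul_zero], by show b 1 * x 1 = 0; rw [hx2, mul_zero]⟩
    · rintro b x ⟨hx1, hx2⟩
      exact ⟨by show x 0 * b 0 = 0; rw [hx1, zero_mul], by show x 1 * b 1 = 0; rw [hx2, zero_mul]⟩
    · rintro x ⟨hx1, hx2⟩
      exact ⟨by show star (x 0) = 0; rw [hx1, star_zero], by show star (x 1) = 0; rw [hx2, star_zero]⟩
  let v : ℕ → G → X := fun m g => P (ρ₀ g) (ρ m g)
  have hvc : ∀ g, Tendsto (fun m => v m g) atTop (𝓝 (c (ρ₀ g))) := by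
    intro g
    rw [tendsto_iff_norm_sub_tendsto_zero]
    refine squeeze_zero (fun _ => norm_nonneg _) (fun m => hPc _ _) ?_
    exact tendsto_iff_norm_sub_tendsto_zero.1 (h g)
  have hρn : ∀ (m : ℕ) (g : G), ‖(ρ m g : D)‖ ≤ 1 := by
    intro m g
    have h1 : ‖(ρ m g : D)‖ * ‖(ρ m g : D)‖ = ‖(1 : D)‖ := by
      rw [← CStarRing.norm_star_mul_self, Unitary.coe_star_mul_self]
    have := norm_one_le' (D := D)
    nlinarith [norm_nonneg (ρ m g : D)]
  have hρ₀n : ∀ (g : G), ‖(ρ₀ g : D)‖ ≤ 1 := by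
    intro g
    have h1 : ‖(ρ₀ g : D)‖ * ‖(ρ₀ g : D)‖ = ‖(1 : D)‖ := by
      rw [← CStarRing.norm_star_mul_self, Unitary.coe_star_mul_self]
    have := norm_one_le' (D := D)
    nlinarith [norm_nonneg (ρ₀ g : D)]
  have hc1 : c 1 = 1 := rfl
  have hcmul : ∀ d e, c (d * e) = c d * c e := fun _ _ => rfl
  have hcstar : ∀ d, c (star d) = star (c d) := fun _ => rfl
  have hbd : ∀ g, ∃ C : ℝ, ∀ m, ‖v m g‖ ≤ C := by
    intro g
    refine ⟨3, fun m => ?_⟩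
    have e1 : ‖v m g‖ ≤ ‖v m g - c (ρ₀ g)‖ + ‖c (ρ₀ g)‖ := by
      simpa using norm_add_le (v m g - c (ρ₀ g)) (c (ρ₀ g))
    have e2 : ‖(ρ m g : D) - (ρ₀ g : D)‖ ≤ ‖(ρ m g : D)‖ + ‖(ρ₀ g : D)‖ := norm_sub_le _ _
    have e3 := hPc (ρ₀ g : D) (ρ m g : D)
    have e4 := hcn (ρ₀ g : D)
    have e5 := hρn m g
    have e6 := hρ₀n g
    have e7 : ‖v m g - c (ρ₀ g)‖ ≤ 2 := e3.trans (e2.trans (by linarith))
    linarith
  have hv1 : ∀ m, v m 1 - 1 ∈ K := by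
    intro m
    refine ⟨?_, ?_⟩
    · show P (ρ₀ 1) (ρ m 1) 0 - 1 = 0
      rw [hP0, map_one, OneMemClass.coe_one, sub_self]
    · show P (ρ₀ 1) (ρ m 1) 1 - 1 = 0
      rw [hP1, map_one, OneMemClass.coe_one, sub_self]
  have hv1' : Tendsto (fun m => v m 1 - 1) atTop (𝓝 0) := by
    have e1 := (hvc 1).sub_const 1
    rwa [map_one, OneMemClass.coe_one, hc1, sub_self] at e1
  have hvm : ∀ m g k, v m (g * k) - v m g * v m k ∈ K := by
    intro m g k
    refine ⟨?_, ?_⟩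
    · show P (ρ₀ (g * k)) (ρ m (g * k)) 0 - P (ρ₀ g) (ρ m g) 0 * P (ρ₀ k) (ρ m k) 0 = 0
      rw [hP0, hP0, hP0, map_mul, MulMemClass.coe_mul, sub_self]
    · show P (ρ₀ (g * k)) (ρ m (g * k)) 1 - P (ρ₀ g) (ρ m g) 1 * P (ρ₀ k) (ρ m k) 1 = 0
      rw [hP1, hP1, hP1, map_mul, MulMemClass.coe_mul, sub_self]
  have hvm' : ∀ g k, Tendsto (fun m => v m (g * k) - v m g * v m k) atTop (𝓝 0) := by
    intro g k
    have e1 := (hvc (g * k)).sub ((hvc g).mul (hvc k))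
    rwa [map_mul, MulMemClass.coe_mul, hcmul, sub_self] at e1
  have hvs : ∀ m g, v m g⁻¹ - star (v m g) ∈ K := by
    intro m g
    refine ⟨?_, ?_⟩
    · show P (ρ₀ g⁻¹) (ρ m g⁻¹) 0 - star (P (ρ₀ g) (ρ m g) 0) = 0
      rw [hP0, hP0, map_inv, ← Unitary.star_eq_inv, Unitary.coe_star, sub_self]
    · show P (ρ₀ g⁻¹) (ρ m g⁻¹) 1 - star (P (ρ₀ g) (ρ m g) 1) = 0
      rw [hP1, hP1, map_inv, ← Unitary.star_eq_inv, Unitary.coe_star, sub_self]
  have hvs' : ∀ g, Tendsto (fun m => v m g⁻¹ - star (v m g)) atTop (𝓝 0) := by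
    intro g
    have e1 := (hvc g⁻¹).sub (hvc g).star
    rwa [map_inv, ← Unitary.star_eq_inv, Unitary.coe_star, hcstar, sub_self] at e1
  obtain ⟨m₀, π, hπK, hπl, -⟩ := lifting hG hK v hbd hv1 hv1' hvm hvm' hvs hvs'
  refine ⟨m₀, π, fun m hm g => ?_, fun g => ?_⟩
  · have e1 := hπK m hm g
    have e2 : (π m g : X) 0 - P (ρ₀ g) (ρ m g) 0 = 0 := e1.1
    have e3 : (π m g : X) 1 - P (ρ₀ g) (ρ m g) 1 = 0 := e1.2
    rw [hP0] at e2
    rw [hP1] at e3
    exact ⟨sub_eq_zero.1 e2, sub_eq_zero.1 e3⟩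
  · have e1 := (hπl g).add (hvc g)
    simpa using e1

end Pool.Agent.LibCS15
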