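import Pool.Agent.LibCS15.Defs
set_option autoImplicit false
namespace Pool.Agent.LibCS15

private theorem quot_cfc {B : Type} [CStarAlgebra B] (k : B) (hk : IsSelfAdjoint k) {ε : ℝ}
    (hε : 0 < ε) : ∃ c d : B, IsSelfAdjoint c ∧ ‖c‖ ≤ 1 ∧ 1 - c = k * d ∧ ‖k * c‖ ≤ ε := by
  have hpos : ∀ t : ℝ, 0 < ε ^ 2 + t ^ 2 := fun t => by positivity
  have hne : ∀ t : ℝ, ε ^ 2 + t ^ 2 ≠ 0 := fun t => (hpos t).ne'
  have hf : Continuous fun t : ℝ => ε ^ 2 / (ε ^ 2 + t ^ 2) :=
    continuous_const.div (by fun_prop) hne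
  have hg : Continuous fun t : ℝ => t / (ε ^ 2 + t ^ 2) :=
    continuous_id.div (by fun_prop) hne
  have hid : cfc (fun t : ℝ => t) k = k := cfc_id' ℝ k
  refine ⟨cfc (fun t : ℝ => ε ^ 2 / (ε ^ 2 + t ^ 2)) k, cfc (fun t : ℝ => t / (ε ^ 2 + t ^ 2)) k,
    cfc_predicate _ k, ?_, ?_, ?_⟩
  · refine norm_cfc_le zero_le_one fun t _ => ?_
    rw [Real.norm_eq_abs, abs_of_pos (by have := hpos t; positivity), div_le_one (hpos t)]
    nlinarith [sq_nonneg t]
  · have h1 : k * cfc (fun t : ℝ => t / (ε ^ 2 + t ^ 2)) k =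
        cfc (fun t : ℝ => t * (t / (ε ^ 2 + t ^ 2))) k := by
      rw [cfc_mul (fun t : ℝ => t) (fun t : ℝ => t / (ε ^ 2 + t ^ 2)) k
        continuous_id.continuousOn hg.continuousOn, hid]
    have h2 : (1 : B) - cfc (fun t : ℝ => ε ^ 2 / (ε ^ 2 + t ^ 2)) k =
        cfc (fun t : ℝ => 1 - ε ^ 2 / (ε ^ 2 + t ^ 2)) k := by
      rw [cfc_sub (fun _ : ℝ => (1 : ℝ)) (fun t : ℝ => ε ^ 2 / (ε ^ 2 + t ^ 2)) k
        continuous_const.continuousOn hf.continuousOn, cfc_const_one ℝ k]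
    rw [h1, h2]
    congr 1
    funext t
    have := hne t
    field_simp
    ring
  · have h1 : k * cfc (fun t : ℝ => ε ^ 2 / (ε ^ 2 + t ^ 2)) k =
        cfc (fun t : ℝ => t * (ε ^ 2 / (ε ^ 2 + t ^ 2))) k := by
      rw [cfc_mul (fun t : ℝ => t) (fun t : ℝ => ε ^ 2 / (ε ^ 2 + t ^ 2)) k
        continuous_id.continuousOn hf.continuousOn, hid]
    rw [h1]
    refine norm_cfc_le hε.le fun t _ => ?_
    rw [Real.norm_eq_abs, abs_mul, abs_of_pos (show 0 < ε ^ 2 / (ε ^ 2 + t ^ 2) by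
      have := hpos t; positivity), ← mul_div_assoc, div_le_iff₀ (hpos t)]
    have h2 : |t| ^ 2 = t ^ 2 := sq_abs t
    nlinarith [sq_nonneg (ε - |t|), abs_nonneg t, mul_pos hε hε,
      mul_nonneg hε.le (sq_nonneg (ε - |t|)), mul_nonneg hε.le (abs_nonneg t)]

private theorem quot_sa {B : Type} [CStarAlgebra B] {J : Set B} (hJ : IsClosedIdeal J) {a k : B}
    (ha : IsSelfAdjoint a) (hk : k ∈ J) : ∃ k' ∈ J, IsSelfAdjoint k' ∧ ‖a + k'‖ ≤ ‖a + k‖ := by
  refine ⟨(1 / 2 : ℂ) • (k + star k), hJ.smul_mem _ _ (hJ.add_mem _ hk _ (hJ.star_mem _ hk)),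
    ?_, ?_⟩
  · rw [isSelfAdjoint_iff, star_smul, star_add, star_star, add_comm (star k) k]
    congr 1
    simp
  · have h1 : a + (1 / 2 : ℂ) • (k + star k) = (1 / 2 : ℂ) • ((a + k) + star (a + k)) := by
      rw [star_add, ha.star_eq]
      module
    rw [h1, norm_smul]
    have h2 : ‖(1 / 2 : ℂ)‖ = 1 / 2 := by simp
    rw [h2]
    have h3 := norm_add_le (a + k) (star (a + k))
    rw [norm_star] at h3
    linarith

/-- the main inequality -/
private theorem quot_ineq {B : Type} [CStarAlgebra B] {J : Set B} (hJ : IsClosedIdeal J) (x k : B)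
    (hk : k ∈ J) {ε : ℝ} (hε : 0 < ε) :
    ∃ y, x - y ∈ J ∧ ‖y‖ * ‖y‖ ≤ ‖star x * x + k‖ + ε := by
  obtain ⟨k', hk', hsa, hle⟩ := quot_sa hJ (IsSelfAdjoint.star_mul_self x) hk
  obtain ⟨c, d, hc, hc1, hcd, hkc⟩ := quot_cfc k' hsa hε
  refine ⟨x * c, ?_, ?_⟩
  · have h1 : x - x * c = x * (k' * d) := by
      rw [← hcd, mul_sub, mul_one]
    rw [h1]
    exact hJ.mul_mem_left _ _ (hJ.mul_mem_right _ _ hk')
  · rw [← CStarRing.norm_star_mul_self, star_mul, hc.star_eq]
    have h1 : c * star x * (x * c) = c * (star x * x + k') * c - c * (k' * c) := by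
      noncomm_ring
    rw [h1]
    have h2 : ‖c * (star x * x + k') * c‖ ≤ ‖star x * x + k'‖ := by
      calc ‖c * (star x * x + k') * c‖ ≤ ‖c * (star x * x + k')‖ * ‖c‖ := norm_mul_le _ _
        _ ≤ (‖c‖ * ‖star x * x + k'‖) * ‖c‖ :=
          mul_le_mul_of_nonneg_right (norm_mul_le _ _) (norm_nonneg _)
        _ ≤ (1 * ‖star x * x + k'‖) * 1 :=
          mul_le_mul (mul_le_mul_of_nonneg_right hc1 (norm_nonneg _)) hc1 (norm_nonneg _)
            (by positivity)
        _ = ‖star x * x + k'‖ := by ring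
    have h3 : ‖c * (k' * c)‖ ≤ ε := by
      calc ‖c * (k' * c)‖ ≤ ‖c‖ * ‖k' * c‖ := norm_mul_le _ _
        _ ≤ 1 * ε := mul_le_mul hc1 hkc (norm_nonneg _) zero_le_one
        _ = ε := one_mul ε
    have h4 := norm_sub_le (c * (star x * x + k') * c) (c * (k' * c))
    linarith

section

open Metric

variable {B : Type} [CStarAlgebra B] (I : Ideal B) [I.IsTwoSided] [hI : IsClosed (I : Set B)]

private noncomputable abbrev quotNormedRing : NormedRing (B ⧸ I) :=
  { Submodule.Quotient.normedAddCommGroup I, Ideal.Quotient.ring I with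
    norm_mul_le := fun x y => le_of_forall_pos_le_add fun ε hε => by
      have := ((nhds_basis_ball.prod_nhds nhds_basis_ball).tendsto_iff nhds_basis_ball).mp
        (continuous_mul.tendsto (‖x‖, ‖y‖)) ε hε
      simp only [Set.mem_prod, mem_ball, and_imp, Prod.forall, Prod.exists] at this
      rcases this with ⟨ε₁, ε₂, ⟨h₁, h₂⟩, h⟩
      obtain ⟨a, rfl, ha⟩ := Submodule.Quotient.norm_mk_lt x h₁
      obtain ⟨b, rfl, hb⟩ := Submodule.Quotient.norm_mk_lt y h₂
      simp only [dist, abs_sub_lt_iff] at h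
      specialize h ‖a‖ ‖b‖
        ⟨by linarith, by linarith [Submodule.Quotient.norm_mk_le (S := I) a]⟩
        ⟨by linarith, by linarith [Submodule.Quotient.norm_mk_le (S := I) b]⟩
      calc
        _ ≤ ‖a * b‖ := Submodule.Quotient.norm_mk_le (S := I) (a * b)
        _ ≤ ‖a‖ * ‖b‖ := norm_mul_le _ _
        _ ≤ _ := (sub_lt_iff_lt_add'.mp h.1).le }

private noncomputable def quotStar : B ⧸ I → B ⧸ I := fun x =>
  Ideal.Quotient.mk I (star (Quotient.out x))

omit hI in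
private theorem quotStar_mk (hs : ∀ x ∈ I, star x ∈ I) (b : B) :
    quotStar I (Ideal.Quotient.mk I b) = Ideal.Quotient.mk I (star b) := by
  rw [quotStar, Ideal.Quotient.eq, ← star_sub]
  apply hs
  rw [← Ideal.Quotient.eq]
  exact Quotient.out_eq _

private theorem quot_exists (hs : ∀ x ∈ I, star x ∈ I) (hJ : IsClosedIdeal (I : Set B)) :
    ∃ (D : Type) (_ : CStarAlgebra D) (q : B →⋆ₐ[ℂ] D),
      Function.Surjective q ∧ ∀ b, q b = 0 ↔ b ∈ I := by
  letI i1 : NormedRing (B ⧸ I) := quotNormedRing I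
  have hsurj : Function.Surjective (Ideal.Quotient.mk I) := Ideal.Quotient.mk_surjective
  letI i2 : StarRing (B ⧸ I) :=
    { star := quotStar I
      star_involutive := fun x => by
        obtain ⟨a, rfl⟩ := hsurj x
        show quotStar I (quotStar I _) = _
        rw [quotStar_mk I hs, quotStar_mk I hs, star_star]
      star_mul := fun x y => by
        obtain ⟨a, rfl⟩ := hsurj x
        obtain ⟨b, rfl⟩ := hsurj y
        show quotStar I (Ideal.Quotient.mk I a * Ideal.Quotient.mk I b) = quotStar I _ * quotStar I _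
        rw [← map_mul, quotStar_mk I hs, quotStar_mk I hs, quotStar_mk I hs, star_mul, map_mul]
      star_add := fun x y => by
        obtain ⟨a, rfl⟩ := hsurj x
        obtain ⟨b, rfl⟩ := hsurj y
        show quotStar I (Ideal.Quotient.mk I a + Ideal.Quotient.mk I b) = quotStar I _ + quotStar I _
        rw [← map_add, quotStar_mk I hs, quotStar_mk I hs, quotStar_mk I hs, star_add, map_add] }
  have hstar : ∀ b : B, star (Ideal.Quotient.mk I b) = Ideal.Quotient.mk I (star b) :=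
    quotStar_mk I hs
  letI i3 : NormedAlgebra ℂ (B ⧸ I) :=
    { Ideal.Quotient.algebra ℂ with
      norm_smul_le := fun c x => norm_smul_le c x }
  haveI i4 : CompleteSpace (B ⧸ I) := Submodule.Quotient.completeSpace I
  haveI i5 : StarModule ℂ (B ⧸ I) := ⟨fun c x => by
    obtain ⟨a, rfl⟩ := hsurj x
    have h1 : ∀ (c : ℂ) (b : B), c • Ideal.Quotient.mk I b = Ideal.Quotient.mk I (c • b) :=
      fun _ _ => rfl
    rw [h1, hstar, hstar, h1, star_smul]⟩
  haveI i6 : CStarRing (B ⧸ I) := ⟨fun x => by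
    obtain ⟨a, rfl⟩ := hsurj x
    rw [hstar, ← map_mul]
    refine le_of_forall_pos_le_add fun ε hε => ?_
    obtain ⟨b, hb, hbn⟩ := Submodule.Quotient.norm_mk_lt (S := I)
      (Ideal.Quotient.mk I (star a * a)) (half_pos hε)
    have hk : b - star a * a ∈ I := by
      rw [← Ideal.Quotient.eq]
      exact hb
    obtain ⟨y, hy, hyn⟩ := quot_ineq hJ a (b - star a * a) hk (half_pos hε)
    have h1 : Ideal.Quotient.mk I a = Ideal.Quotient.mk I y := Ideal.Quotient.eq.2 hy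
    have h2 : ‖(Ideal.Quotient.mk I y : B ⧸ I)‖ ≤ ‖y‖ := Submodule.Quotient.norm_mk_le (S := I) y
    have h3 : star a * a + (b - star a * a) = b := by abel
    rw [h3] at hyn
    rw [h1]
    have h4 := norm_nonneg (Ideal.Quotient.mk I y : B ⧸ I)
    calc ‖(Ideal.Quotient.mk I y : B ⧸ I)‖ * ‖(Ideal.Quotient.mk I y : B ⧸ I)‖ ≤ ‖y‖ * ‖y‖ :=
          mul_le_mul h2 h2 h4 (norm_nonneg _)
      _ ≤ ‖b‖ + ε / 2 := hyn
      _ ≤ _ := by linarith⟩
  letI i7 : CStarAlgebra (B ⧸ I) := { }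
  refine ⟨B ⧸ I, i7, ⟨Ideal.Quotient.mkₐ ℂ I, fun b => (hstar b).symm⟩, hsurj, fun b => ?_⟩
  exact Ideal.Quotient.eq_zero_iff_mem

end

/-- The quotient `C*`-algebra `B / J`.  Take `I : Ideal B` with carrier `J` (`I.IsTwoSided`), `D = B ⧸ I` with
its ring and algebra structure and the quotient norm `‖q b‖ = inf_{j ∈ J} ‖b + j‖` (instances of
`Submodule.Quotient`), the involution induced by `star`.  Only the `C*`-inequality `‖q x‖² ≤ ‖q (star x * x)‖` needs an argument: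
let `a = star x * x` and `k ∈ J` with `‖a + k‖ < ‖q a‖ + ε`; replacing `k` by `(k + star k)/2` we may assume `k` self-adjoint.
For `n : ℕ` let `c = (1 + n k²)⁻¹` (continuous functional calculus), `1 - c = n k² c ∈ J`, `‖c‖ ≤ 1`, `‖k c‖ ≤ 1 / (2 √n)`
(`norm_cfc_le`).  Then `q x = q (x c)` and `‖x c‖² = ‖c a c‖ ≤ ‖c (a + k) c‖ + ‖c k c‖ ≤ ‖a + k‖ + 1 / (2 √n)`. -/
theorem exists_quotient {B : Type} [CStarAlgebra B] {J : Set B} (hJ : IsClosedIdeal J) :
    ∃ (D : Type) (_ : CStarAlgebra D) (q : B →⋆ₐ[ℂ] D),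
      Function.Surjective q ∧ ∀ b, q b = 0 ↔ b ∈ J := by
  let I : Ideal B :=
    { carrier := J
      add_mem' := fun {a b} ha hb => hJ.add_mem a ha b hb
      zero_mem' := hJ.zero_mem
      smul_mem' := fun c x hx => hJ.mul_mem_left c x hx }
  haveI : I.IsTwoSided := ⟨fun {a} b ha => hJ.mul_mem_right b a ha⟩
  haveI : IsClosed (I : Set B) := hJ.isClosed
  exact quot_exists I hJ.star_mem hJ

end Pool.Agent.LibCS15
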