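import Pool.Agent.LibCS15.Fred
import Pool.Agent.LibCS15.Pos
set_option autoImplicit false
namespace Pool.Agent.LibCS15
open Topology Filter
open scoped commutatorElement

variable {E : Type} [NormedAddCommGroup E] [InnerProductSpace ℂ E] [CompleteSpace E]

omit [CompleteSpace E] in
private theorem SolvA_joint (𝒯 : Set (E →L[ℂ] E)) (d : ℕ) : ∀ (M : Submodule ℂ E),
    FiniteDimensional ℂ M → M ≠ ⊥ → Module.finrank ℂ M = d →
    (∀ T ∈ 𝒯, ∀ ξ ∈ M, T ξ ∈ M) →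
    (∀ S ∈ 𝒯, ∀ T ∈ 𝒯, ∀ ξ ∈ M, S (T ξ) = T (S ξ)) →
    ∃ (ξ : E) (χ : (E →L[ℂ] E) → ℂ), ξ ∈ M ∧ ξ ≠ 0 ∧ ∀ T ∈ 𝒯, T ξ = χ T • ξ := by
  induction d using Nat.strong_induction_on with
  | _ d ih =>
  intro M hfd hM hd hinv hcomm
  by_cases hsc : ∀ T : E →L[ℂ] E, ∃ c : ℂ, T ∈ 𝒯 → ∀ ξ ∈ M, T ξ = c • ξ
  · choose χ hχ using hsc
    obtain ⟨ξ, hξ, hξ0⟩ := Submodule.exists_mem_ne_zero_of_ne_bot hM
    exact ⟨ξ, χ, hξ, hξ0, fun T hT => hχ T hT ξ hξ⟩
  · push Not at hsc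
    obtain ⟨T, hT⟩ := hsc
    have hT𝒯 : T ∈ 𝒯 := (hT 0).1
    let TM : Module.End ℂ M := (T : E →ₗ[ℂ] E).restrict (hinv T hT𝒯)
    have : Nontrivial M := Submodule.nontrivial_iff_ne_bot.2 hM
    obtain ⟨μ, hμ⟩ := Module.End.exists_eigenvalue TM
    obtain ⟨v, hv⟩ := hμ.exists_hasEigenvector
    have hv1 : T (v : E) = μ • (v : E) := by
      have := congrArg (Subtype.val) hv.apply_eq_smul
      exact this
    let M' : Submodule ℂ E := M ⊓ LinearMap.ker ((T : E →ₗ[ℂ] E) - μ • LinearMap.id)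
    have hmem : ∀ ξ, ξ ∈ M' ↔ ξ ∈ M ∧ T ξ = μ • ξ := by
      intro ξ
      simp only [M', Submodule.mem_inf, LinearMap.mem_ker, LinearMap.sub_apply,
        LinearMap.smul_apply, LinearMap.id_apply, ContinuousLinearMap.coe_coe, sub_eq_zero]
    have hle : M' ≤ M := fun ξ h => ((hmem ξ).1 h).1
    have hne : M' ≠ M := by
      intro h
      obtain ⟨-, ξ, hξ, h2⟩ := hT μ
      exact h2 ((hmem ξ).1 (h ▸ hξ)).2
    have hlt : M' < M := lt_of_le_of_ne hle hne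
    have hfd' : FiniteDimensional ℂ M' := Submodule.finiteDimensional_of_le hle
    have hbot : M' ≠ ⊥ := by
      intro h
      have h1 : (v : E) ∈ M' := (hmem _).2 ⟨v.2, hv1⟩
      rw [h, Submodule.mem_bot] at h1
      exact hv.2 (Subtype.ext h1)
    have hrk : Module.finrank ℂ M' < d := by
      rw [← hd]
      exact Submodule.finrank_lt_finrank_of_lt hlt
    obtain ⟨ξ, χ, h1, h2, h3⟩ := ih _ hrk M' hfd' hbot rfl
      (fun S hS ξ hξ => by
        obtain ⟨h4, h5⟩ := (hmem ξ).1 hξ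
        refine (hmem _).2 ⟨hinv S hS ξ h4, ?_⟩
        rw [hcomm T hT𝒯 S hS ξ h4, h5, map_smul])
      (fun S hS T' hT' ξ hξ => hcomm S hS T' hT' ξ (hle hξ))
    exact ⟨ξ, χ, hle h1, h2, h3⟩

/-- commuting operators on a non-zero finite-dimensional space have a joint eigenvector (a non-zero invariant subspace of minimal dimension is
an eigenspace of each of the operators) -/
theorem exists_joint_eigen (M : Submodule ℂ E) [FiniteDimensional ℂ M] (hM : M ≠ ⊥)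
    (𝒯 : Set (E →L[ℂ] E)) (hinv : ∀ T ∈ 𝒯, ∀ ξ ∈ M, T ξ ∈ M)
    (hcomm : ∀ S ∈ 𝒯, ∀ T ∈ 𝒯, ∀ ξ ∈ M, S (T ξ) = T (S ξ)) :
    ∃ (ξ : E) (χ : (E →L[ℂ] E) → ℂ), ξ ∈ M ∧ ξ ≠ 0 ∧ ∀ T ∈ 𝒯, T ξ = χ T • ξ :=
  SolvA_joint 𝒯 _ M inferInstance hM rfl hinv hcomm

/-- elements of the derived subgroup act by compact perturbations of `1` -/
theorem compact_of_commutator {N : Type} [Group N] (π : N →* unitary (E →L[ℂ] E))
    (hc : ∀ g h : N, IsCompactOperator ((π ⁅g, h⁆ : E →L[ℂ] E) - 1 : E →L[ℂ] E)) :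
    ∀ g ∈ commutator N, IsCompactOperator ((π g : E →L[ℂ] E) - 1 : E →L[ℂ] E) := by
  intro g hg
  rw [commutator_eq_closure] at hg
  induction hg using Subgroup.closure_induction with
  | mem x hx =>
    obtain ⟨a, b, rfl⟩ := hx
    exact hc a b
  | one =>
    rw [map_one]
    have : ((1 : unitary (E →L[ℂ] E)) : E →L[ℂ] E) - 1 = 0 := sub_self _
    rw [this]
    exact isCompactOperator_zero
  | mul x y _ _ hx hy =>
    have h1 : ((π (x * y) : E →L[ℂ] E) - 1 : E →L[ℂ] E) =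
        (π x : E →L[ℂ] E) * ((π y : E →L[ℂ] E) - 1) + ((π x : E →L[ℂ] E) - 1) := by
      rw [map_mul, Submonoid.coe_mul, mul_sub, mul_one]
      abel
    rw [h1]
    exact IsCompactOperator.add (IsCompactOperator.clm_comp hy (π x : E →L[ℂ] E)) hx
  | inv x _ hx =>
    have h1 : ((π x⁻¹ : E →L[ℂ] E) - 1 : E →L[ℂ] E) =
        (-(π x⁻¹ : E →L[ℂ] E)) * ((π x : E →L[ℂ] E) - 1) := by
      have h2 : (π x⁻¹ : E →L[ℂ] E) * (π x : E →L[ℂ] E) = 1 := by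
        rw [← Submonoid.coe_mul, ← map_mul, inv_mul_cancel, map_one]
        rfl
      rw [neg_mul, mul_sub, h2, mul_one, neg_sub]
    rw [h1]
    exact IsCompactOperator.clm_comp hx (-(π x⁻¹ : E →L[ℂ] E))

end Pool.Agent.LibCS15
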