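import Pool.Agent.LibCS15.SolvA
set_option autoImplicit false
namespace Pool.Agent.LibCS15
open Topology Filter
open scoped commutatorElement

variable {E : Type} [NormedAddCommGroup E] [InnerProductSpace ℂ E] [CompleteSpace E]

/-- the conjugated character -/
private def cj {N : Type} [Group N] (A : Subgroup N) [hA : A.Normal] (g : N) (ψ : A → ℂ) : A → ℂ :=
  fun a => ψ ⟨g⁻¹ * a * g, hA.conj_mem' a a.2 g⟩

private theorem cj_mul {N : Type} [Group N] (A : Subgroup N) [hA : A.Normal] (g h : N)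
    (ψ : A → ℂ) : cj A (g * h) ψ = cj A g (cj A h ψ) := by
  funext a
  simp only [cj]
  congr 1
  apply Subtype.ext
  simp [mul_assoc]

private theorem cj_one {N : Type} [Group N] (A : Subgroup N) [hA : A.Normal]
    (ψ : A → ℂ) : cj A 1 ψ = ψ := by
  funext a
  simp only [cj]
  congr 1
  apply Subtype.ext
  simp

private theorem cj_fixed {N : Type} [Group N] {x y : N} (hgen : Subgroup.closure {x, y} = ⊤)
    (A : Subgroup N) [hA : A.Normal] (ψ : A → ℂ) (hx : cj A x ψ = ψ) (hy : cj A y ψ = ψ) (g : N) :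
    cj A g ψ = ψ := by
  have hg : g ∈ Subgroup.closure {x, y} := by rw [hgen]; trivial
  induction hg using Subgroup.closure_induction with
  | mem g hg =>
    rcases hg with rfl | hg
    · exact hx
    · rw [Set.mem_singleton_iff.1 hg]
      exact hy
  | one => exact cj_one A ψ
  | mul g h _ _ ihg ihh => rw [cj_mul, ihh, ihg]
  | inv g _ ih =>
    have h1 := cj_mul A g⁻¹ g ψ
    rw [inv_mul_cancel, cj_one, ih] at h1
    exact h1.symm

private theorem pi_mul {N : Type} [Group N] (π : N →* unitary (E →L[ℂ] E)) (g h : N) (ξ : E) :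
    (π (g * h) : E →L[ℂ] E) ξ = (π g : E →L[ℂ] E) ((π h : E →L[ℂ] E) ξ) := by
  rw [map_mul]
  rfl

/-- joint eigenspaces -/
private def eg {N : Type} [Group N] (A : Subgroup N) (π : N →* unitary (E →L[ℂ] E))
    (Q : Submodule ℂ E) (ψ : A → ℂ) : Submodule ℂ E where
  carrier := {ξ | ξ ∈ Q ∧ ∀ a : A, (π (a : N) : E →L[ℂ] E) ξ = ψ a • ξ}
  add_mem' := by
    rintro ξ η ⟨h1, h2⟩ ⟨h3, h4⟩
    refine ⟨Q.add_mem h1 h3, fun a => ?_⟩
    rw [map_add, h2, h4, smul_add]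
  zero_mem' := ⟨Q.zero_mem, fun a => by rw [map_zero, smul_zero]⟩
  smul_mem' := by
    rintro c ξ ⟨h1, h2⟩
    refine ⟨Q.smul_mem c h1, fun a => ?_⟩
    rw [map_smul, h2, smul_comm]

private theorem eg_map {N : Type} [Group N] (A : Subgroup N) [hA : A.Normal]
    (π : N →* unitary (E →L[ℂ] E)) (Q : Submodule ℂ E)
    (hQinv : ∀ g, ∀ ξ ∈ Q, (π g : E →L[ℂ] E) ξ ∈ Q) (ψ : A → ℂ) (g : N) {ξ : E}
    (hξ : ξ ∈ eg A π Q ψ) : (π g : E →L[ℂ] E) ξ ∈ eg A π Q (cj A g ψ) := by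
  refine ⟨hQinv g ξ hξ.1, fun a => ?_⟩
  have h1 := hξ.2 ⟨g⁻¹ * a * g, hA.conj_mem' a a.2 g⟩
  have h2 : (a : N) * g = g * (g⁻¹ * a * g) := by simp [mul_assoc]
  rw [← pi_mul, h2, pi_mul]
  simp only at h1
  rw [h1, map_smul]
  rfl

private theorem eg_orth {N : Type} [Group N] (A : Subgroup N) (π : N →* unitary (E →L[ℂ] E))
    (Q : Submodule ℂ E) {ψ ψ' : A → ℂ} (hne : ψ ≠ ψ') {ξ η : E} (hξ : ξ ∈ eg A π Q ψ)
    (hη : η ∈ eg A π Q ψ') : inner ℂ ξ η = 0 := by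
  obtain ⟨a, ha⟩ := Function.ne_iff.1 hne
  by_cases h0 : ξ = 0
  · rw [h0, inner_zero_left]
  have h1 := ContinuousLinearMap.inner_map_map_of_mem_unitary (π (a : N)).2 ξ η
  rw [hξ.2 a, hη.2 a, inner_smul_left, inner_smul_right] at h1
  have h2 := ContinuousLinearMap.norm_map_of_mem_unitary (π (a : N)).2 ξ
  rw [hξ.2 a, norm_smul] at h2
  have h3 : ‖ψ a‖ = 1 := by
    have h4 : ‖ξ‖ ≠ 0 := norm_ne_zero_iff.2 h0
    exact mul_right_cancel₀ h4 (h2.trans (one_mul _).symm)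
  have h5 : (starRingEnd ℂ) (ψ a) * ψ a = 1 := by
    rw [mul_comm, Complex.mul_conj, Complex.normSq_eq_norm_sq, h3]
    simp
  by_contra hin
  have h6 : (starRingEnd ℂ) (ψ a) * ψ' a = 1 := by
    have h7 : ((starRingEnd ℂ) (ψ a) * ψ' a) * inner ℂ ξ η = 1 * inner ℂ ξ η := by
      rw [one_mul, mul_assoc]
      exact h1
    exact mul_right_cancel₀ hin h7
  have h8 : (starRingEnd ℂ) (ψ a) ≠ 0 := left_ne_zero_of_mul_eq_one h5
  exact ha (mul_left_cancel₀ h8 (h5.trans h6.symm))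

/-- only finitely many characters are moved -/
private theorem moved_finite {N : Type} [Group N] (A : Subgroup N) [hA : A.Normal]
    (π : N →* unitary (E →L[ℂ] E)) (Q : Submodule ℂ E)
    (hQinv : ∀ g, ∀ ξ ∈ Q, (π g : E →L[ℂ] E) ξ ∈ Q) {x : N} (hx : HasPos (π x : E →L[ℂ] E)) :
    {ψ : A → ℂ | eg A π Q ψ ≠ ⊥ ∧ cj A x ψ ≠ ψ}.Finite := by
  by_contra hinf
  have hinf' : {ψ : A → ℂ | eg A π Q ψ ≠ ⊥ ∧ cj A x ψ ≠ ψ}.Infinite := hinf
  let e := hinf'.natEmbedding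
  have h1 : ∀ n, ∃ v : E, v ∈ eg A π Q (e n : A → ℂ) ∧ ‖v‖ = 1 := by
    intro n
    obtain ⟨v, hv, hv0⟩ := (Submodule.ne_bot_iff _).1 (e n).2.1
    refine ⟨((‖v‖⁻¹ : ℝ) : ℂ) • v, Submodule.smul_mem _ _ hv, ?_⟩
    rw [norm_smul, Complex.norm_real, norm_inv, norm_norm,
      inv_mul_cancel₀ (norm_ne_zero_iff.2 hv0)]
  choose v hv hv1 using h1
  refine HasPos.not_orthogonal hx (v := v) ⟨hv1, fun m n hmn => ?_⟩ fun n => ?_
  · refine eg_orth A π Q (fun h => hmn ?_) (hv m) (hv n)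
    exact e.injective (Subtype.ext h)
  · exact eg_orth A π Q (Ne.symm (e n).2.2) (hv n) (eg_map A π Q hQinv _ x (hv n))

/-- Let `Q` be a closed `N`-invariant subspace without non-zero finite-dimensional `N`-invariant subspaces, `A ≤ commutator N` a normal subgroup of `N`
which acts on `Q` by commuting operators.  Then `A` acts trivially on `Q`.  Proof: for a character `ψ : A → ℂ` let `Q ψ` be the joint
eigenspace in `Q`; `π g (Q ψ) = Q (ψ ∘ conj g⁻¹)`.  If `A` does not act trivially then `Q χ ≠ 0` for some `χ ≠ 1` (`exists_eigen_sub`, the eigenspace is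
finite-dimensional by `finiteDimensional_eigen`, `exists_joint_eigen`).  The set `O` of the characters `ψ ≠ 1` with `Q ψ ≠ 0` which are
not fixed by `x` (resp. `y`) is finite, by `HasPos.not_orthogonal`: unit vectors `ξ ∈ Q ψ` for different `ψ` are orthonormal, and `π x ξ ∈ Q (x ψ)` is
orthogonal to `ξ`.  All the `Q ψ` with `ψ ≠ 1` are finite-dimensional.  If the orbit of `χ` contains a character fixed by `x` and `y` then it is `{χ}`
(as `x` and `y` generate `N`) and `Q χ` is invariant; otherwise the orbit of `χ` is contained in `O`, and the sum of the `Q ψ` over the orbit is finite-dimensional and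
invariant.  In both cases this is a contradiction. -/
theorem abelian_trivial {N : Type} [Group N] (x y : N) (hgen : Subgroup.closure {x, y} = ⊤)
    (π : N →* unitary (E →L[ℂ] E))
    (hc : ∀ g h : N, IsCompactOperator ((π ⁅g, h⁆ : E →L[ℂ] E) - 1 : E →L[ℂ] E))
    (hx : HasPos (π x : E →L[ℂ] E)) (hy : HasPos (π y : E →L[ℂ] E))
    (Q : Submodule ℂ E) (hQ : IsClosed (Q : Set E))
    (hQinv : ∀ g, ∀ ξ ∈ Q, (π g : E →L[ℂ] E) ξ ∈ Q)
    (hQ0 : ∀ F : Submodule ℂ E, FiniteDimensional ℂ F →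
      (∀ g, ∀ ξ ∈ F, (π g : E →L[ℂ] E) ξ ∈ F) → F ≤ Q → F = ⊥)
    (A : Subgroup N) [A.Normal] (hA : A ≤ commutator N)
    (hAc : ∀ a ∈ A, ∀ b ∈ A, ∀ ξ ∈ Q, (π a : E →L[ℂ] E) ((π b : E →L[ℂ] E) ξ) =
      (π b : E →L[ℂ] E) ((π a : E →L[ℂ] E) ξ)) :
    ∀ a ∈ A, ∀ ξ ∈ Q, (π a : E →L[ℂ] E) ξ = ξ := by
  by_contra hcon
  push Not at hcon
  obtain ⟨a₀, ha₀, ξ₀, hξ₀, hne₀⟩ := hcon
  have hcomp : ∀ a ∈ A, IsCompactOperator ((π a : E →L[ℂ] E) - 1 : E →L[ℂ] E) := fun a ha =>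
    compact_of_commutator π hc a (hA ha)
  -- a character
  have hχ : ∃ χ : A → ℂ, eg A π Q χ ≠ ⊥ ∧ ∃ a, χ a ≠ 1 := by
    have hinvQ : ∀ ξ ∈ Q, (star (π a₀ : E →L[ℂ] E) : E →L[ℂ] E) ξ ∈ Q := by
      intro ξ hξ
      have h1 : (star (π a₀ : E →L[ℂ] E) : E →L[ℂ] E) = (π a₀⁻¹ : E →L[ℂ] E) := by
        rw [map_inv]
        rfl
      rw [h1]
      exact hQinv _ ξ hξ
    obtain ⟨l, ξ, hl, hξ0, hξQ, hξ⟩ := exists_eigen_sub (z := (π a₀ : E →L[ℂ] E))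
      (Unitary.coe_star_mul_self (π a₀)) (Unitary.coe_mul_star_self (π a₀)) (hcomp a₀ ha₀) Q hQ
      (hQinv a₀) hinvQ ⟨ξ₀, hξ₀, hne₀⟩
    let M : Submodule ℂ E :=
      { carrier := {ξ | ξ ∈ Q ∧ (π a₀ : E →L[ℂ] E) ξ = l • ξ}
        add_mem' := by
          rintro ξ η ⟨h1, h2⟩ ⟨h3, h4⟩
          refine ⟨Q.add_mem h1 h3, ?_⟩
          rw [map_add, h2, h4, smul_add]
        zero_mem' := ⟨Q.zero_mem, by rw [map_zero, smul_zero]⟩
        smul_mem' := by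
          rintro c ξ ⟨h1, h2⟩
          refine ⟨Q.smul_mem c h1, ?_⟩
          rw [map_smul, h2, smul_comm] }
    haveI : FiniteDimensional ℂ M := finiteDimensional_eigen (hcomp a₀ ha₀) hl M fun ξ hξ => hξ.2
    have hM : M ≠ ⊥ := (Submodule.ne_bot_iff _).2 ⟨ξ, ⟨hξQ, hξ⟩, hξ0⟩
    obtain ⟨η, χ, hηM, hη0, hη⟩ := exists_joint_eigen M hM
      {T | ∃ a ∈ A, T = (π a : E →L[ℂ] E)} (by
        rintro T ⟨a, ha, rfl⟩ ζ ⟨h1, h2⟩
        refine ⟨hQinv a ζ h1, ?_⟩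
        rw [hAc a₀ ha₀ a ha ζ h1, h2, map_smul]) (by
        rintro S ⟨a, ha, rfl⟩ T ⟨b, hb, rfl⟩ ζ ⟨h1, h2⟩
        exact hAc a ha b hb ζ h1)
    refine ⟨fun a => χ (π (a : N) : E →L[ℂ] E), (Submodule.ne_bot_iff _).2 ⟨η, ⟨hηM.1, fun a =>
      hη _ ⟨a, a.2, rfl⟩⟩, hη0⟩, ⟨a₀, ha₀⟩, ?_⟩
    intro h1
    have h2 := hη _ ⟨a₀, ha₀, rfl⟩
    have h3 := hηM.2
    rw [h2] at h3
    have h4 : χ (π a₀ : E →L[ℂ] E) = l := smul_left_injective ℂ hη0 h3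
    exact hl (h4.symm.trans h1)
  -- finite dimension
  have hfd : ∀ ψ : A → ℂ, (∃ a, ψ a ≠ 1) → FiniteDimensional ℂ (eg A π Q ψ) := by
    rintro ψ ⟨a, ha⟩
    exact finiteDimensional_eigen (hcomp a a.2) ha _ fun ξ hξ => hξ.2 a
  have hcj1 : ∀ (g : N) (ψ : A → ℂ), (∃ a, ψ a ≠ 1) → ∃ a, cj A g ψ a ≠ 1 := by
    rintro g ψ ⟨a, ha⟩
    refine ⟨⟨g * a * g⁻¹, ‹A.Normal›.conj_mem a a.2 g⟩, ?_⟩
    have h1 : cj A g ψ ⟨g * a * g⁻¹, ‹A.Normal›.conj_mem a a.2 g⟩ = ψ a := by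
      simp only [cj]
      congr 1
      apply Subtype.ext
      simp [mul_assoc]
    rw [h1]
    exact ha
  have hcj2 : ∀ (g : N) (ψ : A → ℂ), eg A π Q ψ ≠ ⊥ → eg A π Q (cj A g ψ) ≠ ⊥ := by
    intro g ψ h
    obtain ⟨ξ, hξ, hξ0⟩ := (Submodule.ne_bot_iff _).1 h
    refine (Submodule.ne_bot_iff _).2 ⟨_, eg_map A π Q hQinv ψ g hξ, fun h1 => hξ0 ?_⟩
    have h2 := ContinuousLinearMap.norm_map_of_mem_unitary (π g).2 ξ
    rw [h1, norm_zero] at h2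
    exact norm_eq_zero.1 h2.symm
  let X : Set (A → ℂ) := {ψ | eg A π Q ψ ≠ ⊥ ∧ ∃ a, ψ a ≠ 1}
  have hXfin : X.Finite := by
    refine ((moved_finite A π Q hQinv hx).union (moved_finite A π Q hQinv hy)).subset ?_
    rintro ψ ⟨h1, h2⟩
    by_contra h3
    simp only [Set.mem_union, Set.mem_setOf_eq, not_or, not_and, not_not] at h3
    have h4 := cj_fixed hgen A ψ (h3.1 h1) (h3.2 h1)
    refine h1 (hQ0 _ (hfd ψ h2) (fun g ξ hξ => ?_) fun ξ hξ => hξ.1)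
    have h5 := eg_map A π Q hQinv ψ g hξ
    rwa [h4 g] at h5
  haveI : Finite X := hXfin
  haveI : ∀ ψ : X, FiniteDimensional ℂ (eg A π Q (ψ : A → ℂ)) := fun ψ => hfd _ ψ.2.2
  have hF := hQ0 (⨆ ψ : X, eg A π Q (ψ : A → ℂ)) inferInstance (fun g ξ hξ => ?_)
    (iSup_le fun ψ ξ hξ => hξ.1)
  · obtain ⟨χ, h1, h2⟩ := hχ
    apply h1
    rw [eq_bot_iff, ← hF]
    exact le_iSup (fun ψ : X => eg A π Q (ψ : A → ℂ)) ⟨χ, h1, h2⟩
  · have h1 : (⨆ ψ : X, eg A π Q (ψ : A → ℂ)) ≤ (⨆ ψ : X, eg A π Q (ψ : A → ℂ)).comap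
        ((π g : E →L[ℂ] E) : E →ₗ[ℂ] E) := by
      refine iSup_le fun ψ ζ hζ => ?_
      refine (le_iSup (fun ψ : X => eg A π Q (ψ : A → ℂ))
        ⟨cj A g ψ, hcj2 g ψ ψ.2.1, hcj1 g ψ ψ.2.2⟩) ?_
      exact eg_map A π Q hQinv ψ g hζ
    exact h1 hξ

end Pool.Agent.LibCS15
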