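import Pool.Agent.LibCS15.SolvA2
set_option autoImplicit false
namespace Pool.Agent.LibCS15
open Topology Filter
open scoped commutatorElement

variable {E : Type} [NormedAddCommGroup E] [InnerProductSpace ℂ E] [CompleteSpace E]

/-- Vectors orthogonal to all the finite-dimensional invariant subspaces are fixed by the derived subgroup: downward induction along the derived series,
with `abelian_trivial` for the subspace `Q` of these vectors and `A = derivedSeries N k`, `1 ≤ k` -/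
theorem solv_trivial {N : Type} [Group N] [Group.IsSolvable N] (x y : N)
    (hgen : Subgroup.closure {x, y} = ⊤) (π : N →* unitary (E →L[ℂ] E))
    (hc : ∀ g h : N, IsCompactOperator ((π ⁅g, h⁆ : E →L[ℂ] E) - 1 : E →L[ℂ] E))
    (hx : HasPos (π x : E →L[ℂ] E)) (hy : HasPos (π y : E →L[ℂ] E)) (ξ : E)
    (hξ : ∀ F : Submodule ℂ E, FiniteDimensional ℂ F →
      (∀ g, ∀ η ∈ F, (π g : E →L[ℂ] E) η ∈ F) → ∀ η ∈ F, inner ℂ η ξ = 0) :
    ∀ g h : N, (π ⁅g, h⁆ : E →L[ℂ] E) ξ = ξ := by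
  classical
  let 𝓕 : Set (Submodule ℂ E) := {F | FiniteDimensional ℂ F ∧
    ∀ g, ∀ η ∈ F, (π g : E →L[ℂ] E) η ∈ F}
  let Q : Submodule ℂ E := ⨅ F : 𝓕, (F : Submodule ℂ E)ᗮ
  have hmem : ∀ ζ : E, ζ ∈ Q ↔ ∀ F ∈ 𝓕, ∀ η ∈ F, inner ℂ η ζ = 0 := by
    intro ζ
    change ζ ∈ (⨅ F : 𝓕, (F : Submodule ℂ E)ᗮ) ↔ _
    rw [Submodule.mem_iInf]
    constructor
    · intro h F hF η hη
      exact (Submodule.mem_orthogonal _ _).1 (h ⟨F, hF⟩) η hη
    · intro h F
      exact (Submodule.mem_orthogonal _ _).2 (h F.1 F.2)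
  have hQ : IsClosed (Q : Set E) := by
    change IsClosed ((⨅ F : 𝓕, (F : Submodule ℂ E)ᗮ : Submodule ℂ E) : Set E)
    rw [Submodule.coe_iInf]
    exact isClosed_iInter fun F => Submodule.isClosed_orthogonal _
  have hstar : ∀ (g : N) (η ζ : E), inner ℂ η ((π g : E →L[ℂ] E) ζ) =
      inner ℂ ((π g⁻¹ : E →L[ℂ] E) η) ζ := by
    intro g η ζ
    have h1 : ((π g⁻¹ : unitary (E →L[ℂ] E)) : E →L[ℂ] E) = star (π g : E →L[ℂ] E) := by
      rw [map_inv, ← Unitary.star_eq_inv]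
      rfl
    rw [h1, ContinuousLinearMap.star_eq_adjoint, ContinuousLinearMap.adjoint_inner_left]
  have hQinv : ∀ g, ∀ ξ ∈ Q, (π g : E →L[ℂ] E) ξ ∈ Q := by
    intro g ζ hζ
    rw [hmem] at hζ ⊢
    intro F hF η hη
    rw [hstar]
    exact hζ F hF _ (hF.2 _ η hη)
  have hQ0 : ∀ F : Submodule ℂ E, FiniteDimensional ℂ F →
      (∀ g, ∀ ξ ∈ F, (π g : E →L[ℂ] E) ξ ∈ F) → F ≤ Q → F = ⊥ := by
    intro F h1 h2 h3
    rw [Submodule.eq_bot_iff]
    intro η hη
    exact inner_self_eq_zero.1 ((hmem η).1 (h3 hη) F ⟨h1, h2⟩ η hη)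
  have hmul : ∀ (g h : N) (ζ : E), (π (g * h) : E →L[ℂ] E) ζ =
      (π g : E →L[ℂ] E) ((π h : E →L[ℂ] E) ζ) := by
    intro g h ζ
    rw [map_mul]
    rfl
  have hstep : ∀ j : ℕ, (∀ a ∈ derivedSeries N (j + 2), ∀ ζ ∈ Q, (π a : E →L[ℂ] E) ζ = ζ) →
      ∀ a ∈ derivedSeries N (j + 1), ∀ ζ ∈ Q, (π a : E →L[ℂ] E) ζ = ζ := by
    intro j hj
    haveI : (derivedSeries N (j + 1)).Normal := derivedSeries_normal N (j + 1)
    have hA : derivedSeries N (j + 1) ≤ commutator N := by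
      rw [← derivedSeries_one]
      exact derivedSeries_antitone N (Nat.le_add_left 1 j)
    refine abelian_trivial x y hgen π hc hx hy Q hQ hQinv hQ0 _ hA ?_
    intro a ha b hb ζ hζ
    rw [← hmul, ← hmul]
    have h1 : a * b = ⁅a, b⁆ * (b * a) := by
      rw [commutatorElement_def]; group
    rw [h1, hmul]
    refine hj _ ?_ _ (hQinv _ _ hζ)
    exact Subgroup.commutator_mem_commutator ha hb
  obtain ⟨n, hn⟩ := Group.IsSolvable.solvable (G := N)
  have hmain : ∀ i j : ℕ, n ≤ i + j + 1 → ∀ a ∈ derivedSeries N (j + 1), ∀ ζ ∈ Q,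
      (π a : E →L[ℂ] E) ζ = ζ := by
    intro i
    induction i with
    | zero =>
      intro j hj a ha ζ _
      have h1 : a ∈ derivedSeries N n := derivedSeries_antitone N (by omega) ha
      rw [hn, Subgroup.mem_bot] at h1
      rw [h1, map_one]
      rfl
    | succ i ih =>
      intro j hj
      exact hstep j (ih (j + 1) (by omega))
  have hξQ : ξ ∈ Q := (hmem ξ).2 fun F hF η hη => hξ F hF.1 hF.2 η hη
  intro g h
  refine hmain n 0 (by omega) _ ?_ ξ hξQ
  rw [zero_add, derivedSeries_one]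
  exact Subgroup.commutator_mem_commutator (Subgroup.mem_top g) (Subgroup.mem_top h)

end Pool.Agent.LibCS15
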