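import Pool.Agent.LibCS15.Quot
set_option autoImplicit false
namespace Pool.Agent.LibCS15
open Topology Filter

/-- exponentials of self-adjoint elements commuting modulo an ideal (pass to the quotient `exists_quotient`, where
`NormedSpace.exp` of commuting elements is multiplicative; `map_exp`) -/
theorem exp_mul_mem {D : Type} [CStarAlgebra D] {K : Set D} (hK : IsClosedIdeal K) {a b : D}
    (hab : a * b - b * a ∈ K) :
    NormedSpace.exp (a + b) - NormedSpace.exp a * NormedSpace.exp b ∈ K := by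
  obtain ⟨D', _, q, -, hq⟩ := exists_quotient hK
  let _ : NormedAlgebra ℚ D := NormedAlgebra.restrictScalars ℚ ℂ D
  let _ : NormedAlgebra ℚ D' := NormedAlgebra.restrictScalars ℚ ℂ D'
  have hqc : Continuous q :=
    AddMonoidHomClass.continuous_of_bound q 1 fun x => by
      rw [one_mul]
      exact NonUnitalStarAlgHom.norm_apply_le q x
  have hexp : ∀ x : D, q (NormedSpace.exp x) = NormedSpace.exp (q x) := fun x =>
    NormedSpace.map_exp q hqc x
  have hcomm : Commute (q a) (q b) := by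
    have h1 := (hq _).2 hab
    rw [map_sub, map_mul, map_mul, sub_eq_zero] at h1
    exact h1
  rw [← hq, map_sub, map_mul, hexp, hexp, hexp, map_add,
    NormedSpace.exp_add_of_commute hcomm, sub_self]

private theorem ta_smul_one {D : Type} [CStarAlgebra D] (c : ℂ) :
    NormedSpace.exp (c • (1 : D)) = Complex.exp c • (1 : D) := by
  rw [← Algebra.algebraMap_eq_smul_one, ← NormedSpace.algebraMap_exp_comm,
    ← Complex.exp_eq_exp_ℂ, Algebra.algebraMap_eq_smul_one]

private theorem ta_comm {D : Type} [CStarAlgebra D] (A B : D) (l x y l' x' y' : ℂ) :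
    (l • (1 : D) + x • A + y • B) * (l' • (1 : D) + x' • A + y' • B) -
      (l' • (1 : D) + x' • A + y' • B) * (l • (1 : D) + x • A + y • B) =
      (x * y' - y * x') • (A * B - B * A) := by
  simp only [mul_add, add_mul, smul_mul_assoc, mul_smul_comm, one_mul, mul_one]
  module

private theorem ta_split {D : Type} [CStarAlgebra D] (c : ℂ) (x : D) :
    NormedSpace.exp (c • (1 : D) + x) = Complex.exp c • NormedSpace.exp x := by
  let _ : NormedAlgebra ℚ D := NormedAlgebra.restrictScalars ℚ ℂ D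
  have hc : Commute (c • (1 : D)) x := (Commute.one_left x).smul_left c
  rw [NormedSpace.exp_add_of_commute hc, ta_smul_one, smul_mul_assoc, one_mul]

private theorem ta_unit {D : Type} [CStarAlgebra D] {X : D} (hX : star X = -X) :
    star (NormedSpace.exp X) = NormedSpace.exp (-X) ∧
    star (NormedSpace.exp X) * NormedSpace.exp X = 1 ∧
      NormedSpace.exp X * star (NormedSpace.exp X) = 1 := by
  let _ : NormedAlgebra ℚ D := NormedAlgebra.restrictScalars ℚ ℂ D
  have h1 : star (NormedSpace.exp X) = NormedSpace.exp (-X) := by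
    rw [NormedSpace.star_exp, hX]
  refine ⟨h1, ?_, ?_⟩
  · rw [h1, ← NormedSpace.exp_add_of_commute (Commute.refl X).neg_left, neg_add_cancel,
      NormedSpace.exp_zero]
  · rw [h1, ← NormedSpace.exp_add_of_commute (Commute.refl X).neg_right, add_neg_cancel,
      NormedSpace.exp_zero]

private theorem ta_conj (r : ℝ) : (starRingEnd ℂ) (Complex.I * (r : ℂ)) = -(Complex.I * (r : ℂ)) := by
  rw [map_mul, Complex.conj_I, Complex.conj_ofReal, neg_mul]

/-- the family of almost representations attached to a self-adjoint pair `A`, `B` commuting modulo `K`: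
`v m h = exp (i (b₁ h (s₁ + A / (m + 1)) + b₂ h (s₂ + B / (m + 1))))` -/
theorem exp_family {D : Type} [CStarAlgebra D] {K : Set D} (hK : IsClosedIdeal K) {A B : D}
    (hA : star A = A) (hB : star B = B) (hAB : A * B - B * A ∈ K) {H : Type} [Group H]
    (b₁ b₂ : H → ℝ) (hb₁ : ∀ g h, b₁ (g * h) = b₁ g + b₁ h)
    (hb₂ : ∀ g h, b₂ (g * h) = b₂ g + b₂ h) (s₁ s₂ : ℝ) :
    ∃ v : ℕ → H → D,
      (∀ m h, star (v m h) * v m h = 1 ∧ v m h * star (v m h) = 1) ∧
      (∀ m h, b₁ h = 0 → b₂ h = 0 → v m h = 1) ∧ (∀ m h, v m h⁻¹ = star (v m h)) ∧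
      (∀ m g h, v m (g * h) - v m g * v m h ∈ K) ∧
      (∀ h, Tendsto (fun m => v m h) atTop
        (𝓝 (Complex.exp (Complex.I * ((b₁ h * s₁ + b₂ h * s₂ : ℝ) : ℂ)) • (1 : D)))) ∧
      (∀ h, b₁ h = 1 → b₂ h = 0 → ∀ m : ℕ, v m h =
        Complex.exp (Complex.I * (s₁ : ℂ)) • NormedSpace.exp ((Complex.I / ((m : ℂ) + 1)) • A)) ∧
      (∀ h, b₁ h = 0 → b₂ h = 1 → ∀ m : ℕ, v m h =
        Complex.exp (Complex.I * (s₂ : ℂ)) • NormedSpace.exp ((Complex.I / ((m : ℂ) + 1)) • B)) := by
  -- the exponent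
  set X : ℕ → H → D := fun m h =>
    (Complex.I * ((b₁ h * s₁ + b₂ h * s₂ : ℝ) : ℂ)) • (1 : D) +
      (Complex.I * ((b₁ h / ((m : ℝ) + 1) : ℝ) : ℂ)) • A +
      (Complex.I * ((b₂ h / ((m : ℝ) + 1) : ℝ) : ℂ)) • B with hXdef
  have hXstar : ∀ m h, star (X m h) = -X m h := by
    intro m h
    simp only [hXdef, star_add, star_smul, star_one, hA, hB, neg_add, ← neg_smul]
    simp only [← starRingEnd_apply, ta_conj]
  have hXadd : ∀ m g h, X m (g * h) = X m g + X m h := by
    intro m g h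
    simp only [hXdef, hb₁, hb₂]
    push_cast
    module
  have hone : b₁ 1 = 0 ∧ b₂ 1 = 0 := by
    have h1 := hb₁ 1 1
    have h2 := hb₂ 1 1
    rw [mul_one] at h1 h2
    exact ⟨by linarith, by linarith⟩
  have hXzero : ∀ m h, b₁ h = 0 → b₂ h = 0 → X m h = 0 := by
    intro m h h1 h2
    simp [hXdef, h1, h2]
  have hXinv : ∀ m h, X m h⁻¹ = -X m h := by
    intro m h
    have h1 := hXadd m h h⁻¹
    rw [mul_inv_cancel, hXzero m 1 hone.1 hone.2] at h1
    exact (neg_eq_of_add_eq_zero_right h1.symm).symm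
  let _ : NormedAlgebra ℚ D := NormedAlgebra.restrictScalars ℚ ℂ D
  refine ⟨fun m h => NormedSpace.exp (X m h), ?_, ?_, ?_, ?_, ?_, ?_, ?_⟩
  · intro m h
    exact (ta_unit (hXstar m h)).2
  · intro m h h1 h2
    beta_reduce
    rw [hXzero m h h1 h2, NormedSpace.exp_zero]
  · intro m h
    beta_reduce
    rw [hXinv, (ta_unit (hXstar m h)).1]
  · intro m g h
    beta_reduce
    rw [hXadd]
    refine exp_mul_mem hK ?_
    have h1 := ta_comm A B (Complex.I * ((b₁ g * s₁ + b₂ g * s₂ : ℝ) : ℂ))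
      (Complex.I * ((b₁ g / ((m : ℝ) + 1) : ℝ) : ℂ)) (Complex.I * ((b₂ g / ((m : ℝ) + 1) : ℝ) : ℂ))
      (Complex.I * ((b₁ h * s₁ + b₂ h * s₂ : ℝ) : ℂ))
      (Complex.I * ((b₁ h / ((m : ℝ) + 1) : ℝ) : ℂ)) (Complex.I * ((b₂ h / ((m : ℝ) + 1) : ℝ) : ℂ))
    simp only [hXdef]
    rw [h1]
    exact hK.smul_mem _ _ hAB
  · intro h
    have hinv : Tendsto (fun m : ℕ => (((1 : ℝ) / ((m : ℝ) + 1) : ℝ) : ℂ)) atTop (𝓝 0) := by
      have h0 := (Complex.continuous_ofReal.tendsto 0).comp
        (tendsto_one_div_add_atTop_nhds_zero_nat (𝕜 := ℝ))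
      rw [Complex.ofReal_zero] at h0
      exact h0
    have hX : Tendsto (fun m => X m h) atTop
        (𝓝 ((Complex.I * ((b₁ h * s₁ + b₂ h * s₂ : ℝ) : ℂ)) • (1 : D) +
          (Complex.I * (b₁ h : ℂ) * 0) • A + (Complex.I * (b₂ h : ℂ) * 0) • B)) := by
      have e : (fun m => X m h) = fun m : ℕ =>
          (Complex.I * ((b₁ h * s₁ + b₂ h * s₂ : ℝ) : ℂ)) • (1 : D) +
          (Complex.I * (b₁ h : ℂ) * (((1 : ℝ) / ((m : ℝ) + 1) : ℝ) : ℂ)) • A +
          (Complex.I * (b₂ h : ℂ) * (((1 : ℝ) / ((m : ℝ) + 1) : ℝ) : ℂ)) • B := by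
        funext m
        have ea : Complex.I * ((b₁ h / ((m : ℝ) + 1) : ℝ) : ℂ) =
            Complex.I * (b₁ h : ℂ) * (((1 : ℝ) / ((m : ℝ) + 1) : ℝ) : ℂ) := by
          push_cast
          ring
        have eb : Complex.I * ((b₂ h / ((m : ℝ) + 1) : ℝ) : ℂ) =
            Complex.I * (b₂ h : ℂ) * (((1 : ℝ) / ((m : ℝ) + 1) : ℝ) : ℂ) := by
          push_cast
          ring
        simp only [hXdef]
        rw [ea, eb]
      rw [e]
      exact (tendsto_const_nhds.add ((hinv.const_mul _).smul_const A)).add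
        ((hinv.const_mul _).smul_const B)
    have h2 := hX.exp
    rw [mul_zero, mul_zero, zero_smul, zero_smul, add_zero, add_zero, ta_smul_one] at h2
    exact h2
  · intro h h1 h2 m
    have e : X m h = (Complex.I * (s₁ : ℂ)) • (1 : D) + (Complex.I / ((m : ℂ) + 1)) • A := by
      simp only [hXdef, h1, h2]
      push_cast
      simp only [one_mul, zero_mul, add_zero, zero_div, mul_zero, zero_smul, mul_one_div]
    beta_reduce
    rw [e, ta_split]
  · intro h h1 h2 m
    have e : X m h = (Complex.I * (s₂ : ℂ)) • (1 : D) + (Complex.I / ((m : ℂ) + 1)) • B := by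
      simp only [hXdef, h1, h2]
      push_cast
      simp only [one_mul, zero_mul, zero_add, add_zero, zero_div, mul_zero, zero_smul, mul_one_div]
    beta_reduce
    rw [e, ta_split]

end Pool.Agent.LibCS15
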