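import Mathlib
set_option autoImplicit false
namespace Pool.Agent.LibCS15
open Topology Filter

/-- normalised real 2-cocycles (trivial coefficients) -/
structure IsCocycle {G : Type} [Group G] (w : G → G → ℝ) : Prop where
  one_left : ∀ g, w 1 g = 0
  one_right : ∀ g, w g 1 = 0
  cocycle : ∀ g h k, w g h + w (g * h) k = w h k + w g (h * k)

private theorem tw_pos : 0 < (2 : ENNReal).toReal := by norm_num

private theorem tw_mem {G : Type} (c : G → ℂ) (hc : ∀ x, ‖c x‖ = 1) (e : G ≃ G)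
    (f : lp (fun _ : G => ℂ) 2) : Memℓp (fun x => c x * f (e x)) (2 : ENNReal) := by
  rw [memℓp_gen_iff tw_pos]
  have h1 := (memℓp_gen_iff tw_pos).1 (lp.memℓp f)
  have h2 := (e.summable_iff (f := fun x => ‖f x‖ ^ (2 : ENNReal).toReal)).2 h1
  refine h2.congr fun x => ?_
  rw [norm_mul, hc, one_mul]
  rfl

/-- weighted permutation of coordinates -/
private noncomputable def twMap {G : Type} (c : G → ℂ) (hc : ∀ x, ‖c x‖ = 1) (e : G ≃ G) :
    lp (fun _ : G => ℂ) 2 →ₗ[ℂ] lp (fun _ : G => ℂ) 2 where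
  toFun f := ⟨fun x => c x * f (e x), tw_mem c hc e f⟩
  map_add' f g := by
    ext x
    exact mul_add (c x) (f (e x)) (g (e x))
  map_smul' a f := by
    ext x
    exact mul_left_comm (c x) a (f (e x))

private theorem tw_apply {G : Type} (c : G → ℂ) (hc : ∀ x, ‖c x‖ = 1) (e : G ≃ G)
    (f : lp (fun _ : G => ℂ) 2) (x : G) : twMap c hc e f x = c x * f (e x) := rfl

private theorem tw_norm {G : Type} (c : G → ℂ) (hc : ∀ x, ‖c x‖ = 1) (e : G ≃ G)
    (f : lp (fun _ : G => ℂ) 2) : ‖twMap c hc e f‖ = ‖f‖ := by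
  rw [lp.norm_eq_tsum_rpow tw_pos, lp.norm_eq_tsum_rpow tw_pos]
  congr 1
  rw [← e.tsum_eq (fun x => ‖f x‖ ^ (2 : ENNReal).toReal)]
  refine tsum_congr fun x => ?_
  rw [tw_apply, norm_mul, hc, one_mul]

/-- the isometry -/
private noncomputable def twIso {G : Type} (c : G → ℂ) (hc : ∀ x, ‖c x‖ = 1) (e : G ≃ G) :
    lp (fun _ : G => ℂ) 2 ≃ₗᵢ[ℂ] lp (fun _ : G => ℂ) 2 :=
  LinearIsometryEquiv.mk
    (LinearEquiv.ofLinear (twMap c hc e)
      (twMap (fun y => (c (e.symm y))⁻¹) (fun y => by rw [norm_inv, hc, inv_one]) e.symm)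
      (by
        ext f x
        have h0 : c x ≠ 0 := norm_ne_zero_iff.1 (by rw [hc]; exact one_ne_zero)
        change c x * ((c (e.symm (e x)))⁻¹ * f (e.symm (e x))) = f x
        rw [e.symm_apply_apply, mul_inv_cancel_left₀ h0])
      (by
        ext f x
        have h0 : c (e.symm x) ≠ 0 := norm_ne_zero_iff.1 (by rw [hc]; exact one_ne_zero)
        change (c (e.symm x))⁻¹ * (c (e.symm x) * f (e (e.symm x))) = f x
        rw [e.apply_symm_apply, inv_mul_cancel_left₀ h0]))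
    (tw_norm c hc e)

private theorem twIso_apply {G : Type} (c : G → ℂ) (hc : ∀ x, ‖c x‖ = 1) (e : G ≃ G)
    (f : lp (fun _ : G => ℂ) 2) (x : G) : twIso c hc e f x = c x * f (e x) := rfl

private theorem tw_exp (r : ℝ) : ‖Complex.exp (Complex.I * (r : ℂ))‖ = 1 := by
  rw [mul_comm]
  exact Complex.norm_exp_ofReal_mul_I r

/-- The twisted regular representations: `(U θ g f) x = exp (i θ w(g, g⁻¹ x)) f (g⁻¹ x)` on `D = B(ℓ²(G))` (`lp (fun _ : G => ℂ) 2`), i.e.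
`U θ g δ_y = exp (i θ w(g, y)) δ_{g y}`, and `τ T = ⟨δ_1, T δ_1⟩` -/
theorem exists_twisted {G : Type} [Group G] {w : G → G → ℝ} (hw : IsCocycle w) :
    ∃ (D : Type) (_ : CStarAlgebra D) (τ : D →L[ℂ] ℂ) (U : ℝ → G → unitary D),
      (∀ (θ : ℝ) (g h : G), (U θ g : D) * (U θ h : D) =
        Complex.exp (Complex.I * ((θ * w g h : ℝ) : ℂ)) • (U θ (g * h) : D)) ∧
      (∀ θ, τ (U θ 1 : D) = 1) ∧ (∀ (θ : ℝ) (g : G), g ≠ 1 → τ (U θ g : D) = 0) := by
  classical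
  -- the isometries
  let V : ℝ → G → (lp (fun _ : G => ℂ) 2 ≃ₗᵢ[ℂ] lp (fun _ : G => ℂ) 2) := fun θ g =>
    twIso (fun x => Complex.exp (Complex.I * ((θ * w g (g⁻¹ * x) : ℝ) : ℂ)))
      (fun x => tw_exp _) (Equiv.mulLeft g⁻¹)
  have hV : ∀ θ g (f : lp (fun _ : G => ℂ) 2) x, V θ g f x =
      Complex.exp (Complex.I * ((θ * w g (g⁻¹ * x) : ℝ) : ℂ)) * f (g⁻¹ * x) :=
    fun θ g f x => rfl
  let δ : lp (fun _ : G => ℂ) 2 := lp.single 2 1 (1 : ℂ)
  let τ : (lp (fun _ : G => ℂ) 2 →L[ℂ] lp (fun _ : G => ℂ) 2) →L[ℂ] ℂ :=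
    (innerSL ℂ δ).comp (ContinuousLinearMap.apply ℂ (lp (fun _ : G => ℂ) 2) δ)
  have hτ : ∀ θ g, τ ((Unitary.linearIsometryEquiv.symm (V θ g) :
      unitary (lp (fun _ : G => ℂ) 2 →L[ℂ] lp (fun _ : G => ℂ) 2)) :
      lp (fun _ : G => ℂ) 2 →L[ℂ] lp (fun _ : G => ℂ) 2) = V θ g δ 1 := by
    intro θ g
    have h1 : τ ((Unitary.linearIsometryEquiv.symm (V θ g) :
      unitary (lp (fun _ : G => ℂ) 2 →L[ℂ] lp (fun _ : G => ℂ) 2)) :
      lp (fun _ : G => ℂ) 2 →L[ℂ] lp (fun _ : G => ℂ) 2) = inner ℂ δ (V θ g δ) := rfl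
    rw [h1]
    have h2 := lp.inner_single_left (𝕜 := ℂ) (G := fun _ : G => ℂ) (1 : G) (1 : ℂ) (V θ g δ)
    rw [show (inner ℂ δ (V θ g δ) : ℂ) = inner ℂ (lp.single 2 (1 : G) (1 : ℂ)) (V θ g δ) from rfl,
      h2]
    simp
  refine ⟨lp (fun _ : G => ℂ) 2 →L[ℂ] lp (fun _ : G => ℂ) 2, inferInstance, τ,
    fun θ g => Unitary.linearIsometryEquiv.symm (V θ g), ?_, ?_, ?_⟩
  · intro θ g h
    ext f x
    change V θ g (V θ h f) x =
      Complex.exp (Complex.I * ((θ * w g h : ℝ) : ℂ)) * V θ (g * h) f x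
    have e1 : (g * h)⁻¹ * x = h⁻¹ * (g⁻¹ * x) := by group
    have e2 := hw.cocycle g h (h⁻¹ * (g⁻¹ * x))
    rw [mul_inv_cancel_left] at e2
    rw [hV, hV, hV, e1, ← mul_assoc (Complex.exp _), ← mul_assoc (Complex.exp _),
      ← Complex.exp_add, ← Complex.exp_add]
    congr 2
    rw [← mul_add, ← mul_add, ← Complex.ofReal_add, ← Complex.ofReal_add]
    congr 2
    rw [← mul_add, ← mul_add]
    congr 1
    linarith
  · intro θ
    rw [hτ, hV]
    have e1 : (1 : G)⁻¹ * 1 = 1 := by group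
    rw [e1, hw.one_left, mul_zero, Complex.ofReal_zero, mul_zero, Complex.exp_zero, one_mul]
    exact lp.single_apply_self (E := fun _ : G => ℂ) 2 (1 : G) (1 : ℂ)
  · intro θ g hg
    rw [hτ, hV, mul_one]
    have e1 : δ g⁻¹ = 0 := 
      lp.single_apply_ne (E := fun _ : G => ℂ) 2 (1 : G) (1 : ℂ) (fun h => hg (inv_eq_one.1 h))
    rw [e1, mul_zero]

end Pool.Agent.LibCS15
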