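import Pool.Agent.LibCS15.Dependent
import Pool.Agent.LibCS15.Chars
import Pool.Agent.LibCS15.FinQuot
import Pool.Agent.LibCS15.GrpA
import Pool.Agent.LibCS15.GrpA2
import Pool.Agent.LibCS15.GrpB
import Pool.Agent.LibCS15.GrpC
import Pool.Agent.LibCS15.GrpC2
set_option autoImplicit false
namespace Pool.Agent.LibCS15
open Topology Filter

/-- any two homomorphisms to `ℝ` are proportional on a virtually solvable finite index subgroup -/
theorem proportional {G : Type} [Group G] [Countable G] (hG : CStarStable G) (H : Subgroup G)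
    [H.FiniteIndex] (hS : Group.IsSolvable H) :
    ∀ b₁ b₂ : H → ℝ, (∀ x y, b₁ (x * y) = b₁ x + b₁ y) → (∀ x y, b₂ (x * y) = b₂ x + b₂ y) →
      ∀ x y, b₁ x * b₂ y = b₁ y * b₂ x := by
  intro b₁ b₂ hb₁ hb₂ x y
  have : Group.IsSolvable (⊤ : Subgroup (⊤ : Subgroup H)) := inferInstance
  exact dependent hG H ⊤ ⊤ this b₁ b₂ hb₁ hb₂ x y trivial trivial

theorem fg_of_nilpotent {G : Type} [Group G] [Countable G] (hG : CStarStable G) (H : Subgroup G)
    [H.Normal] [H.FiniteIndex] [Group.IsNilpotent H]
    (ht : ∀ z ∈ commutator H, IsOfFinOrder z) (x₁ : H)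
    (hx₁ : ∀ x : H, ∃ (N : ℕ) (M : ℤ), 0 < N ∧ IsOfFinOrder (x ^ N * (x₁ ^ M)⁻¹)) :
    Group.FG H := by
  classical
  haveI : Finite (G ⧸ H) := inferInstance
  set X : Set H := Set.range (fun a : G ⧸ H => cnj H a x₁) with hX
  refine fg_of_quot X (Set.finite_range _) ?_
  haveI : Countable H := inferInstance
  haveI : Countable (Abelianization H) :=
    (QuotientGroup.mk'_surjective (commutator H)).countable
  haveI : Countable (Abelianization H ⧸ Subgroup.closure (Abelianization.of '' X)) :=
    (QuotientGroup.mk'_surjective (Subgroup.closure (Abelianization.of '' X))).countable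
  apply finite_of_chars
  intro χ hχ
  let q : H →* (Abelianization H ⧸ Subgroup.closure (Abelianization.of '' X)) :=
    (QuotientGroup.mk' _).comp Abelianization.of
  have hq : Function.Surjective q := by
    have h1 : Function.Surjective (Abelianization.of : H →* Abelianization H) :=
      QuotientGroup.mk'_surjective (commutator H)
    exact (QuotientGroup.mk'_surjective _).comp h1
  obtain ⟨m₀, hm₀⟩ := chars_trivial hG H x₁ (fun x y => ht _ (by
      rw [commutator_def]
      exact Subgroup.commutator_mem_commutator (Subgroup.mem_top x) (Subgroup.mem_top y))) hx₁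
    (fun m => (χ m).comp q) (fun h => hχ (q h)) (by
      intro m a
      have : q (cnj H a x₁) = 1 := by
        show (QuotientGroup.mk' _) (Abelianization.of (cnj H a x₁)) = 1
        rw [QuotientGroup.mk'_apply, QuotientGroup.eq_one_iff]
        exact Subgroup.subset_closure ⟨_, ⟨a, rfl⟩, rfl⟩
      rw [MonoidHom.comp_apply, this, map_one])
  refine ⟨m₀, fun m hm => ?_⟩
  have h1 := hm₀ m hm
  refine MonoidHom.ext fun z => ?_
  obtain ⟨h, rfl⟩ := hq z
  exact DFunLike.congr_fun h1 h

theorem virt_nilpotent {G : Type} [Group G] [Countable G] (hG : CStarStable G) (H₀ : Subgroup G)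
    [H₀.FiniteIndex] (hH : Group.IsNilpotent H₀) :
    Finite G ∨ ∃ Z : Subgroup G, Z.FiniteIndex ∧ Nonempty (Z ≃* Multiplicative ℤ) := by
  classical
  set H : Subgroup G := H₀.normalCore with hHdef
  haveI : H.Normal := inferInstance
  haveI : H.FiniteIndex := inferInstance
  haveI : Group.IsNilpotent H := by
    have h1 : H ≤ H₀ := Subgroup.normalCore_le H₀
    haveI : Group.IsNilpotent (H.subgroupOf H₀) := inferInstance
    exact (Group.isNilpotent_congr (Subgroup.subgroupOfEquivOfLe h1)).1 this
  have hrel := exists_relation (proportional hG H inferInstance)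
  have ht := torsion_commutator hrel
  obtain ⟨x₁, hx₁⟩ := exists_rank_one hrel ht
  haveI : Group.FG H := fg_of_nilpotent hG H ht x₁ hx₁
  haveI hCfi : (Subgroup.center H).FiniteIndex := center_finiteIndex ht
  set C : Subgroup G := (Subgroup.center H).map H.subtype with hC
  haveI : C.FiniteIndex := by
    constructor
    rw [hC, Subgroup.index_map, Subgroup.ker_subtype, sup_bot_eq, Subgroup.range_subtype]
    exact mul_ne_zero hCfi.index_ne_zero (Subgroup.FiniteIndex.index_ne_zero)
  have e : Subgroup.center H ≃* C :=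
    (Subgroup.center H).equivMapOfInjective H.subtype H.subtype_injective
  haveI : Group.FG (Subgroup.center H) := by
    exact Subgroup.fg_of_index_ne_zero (Subgroup.center H)
  have hCs : Group.IsSolvable C := by
    haveI : Group.IsSolvable (Subgroup.center H) := inferInstance
    exact Group.isSolvable_of_surjective (f := e.toMonoidHom) e.surjective
  have hprop := proportional hG C hCs
  have hprop' : ∀ b₁ b₂ : Subgroup.center H → ℝ, (∀ x y, b₁ (x * y) = b₁ x + b₁ y) →
      (∀ x y, b₂ (x * y) = b₂ x + b₂ y) → ∀ x y, b₁ x * b₂ y = b₁ y * b₂ x := by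
    intro b₁ b₂ hb₁ hb₂ x y
    have := hprop (fun c => b₁ (e.symm c)) (fun c => b₂ (e.symm c))
      (fun x y => by simp only [map_mul, hb₁]) (fun x y => by simp only [map_mul, hb₂]) (e x) (e y)
    simpa using this
  rcases abelian_virt_cyclic (A := Subgroup.center H)
    (fun x y => Subtype.ext ((Subgroup.mem_center_iff.1 y.2 x))) hprop' with hfin | ⟨Z, hZ, ⟨eZ⟩⟩
  · left
    haveI : Finite C := Finite.of_equiv _ e.toEquiv
    have : Finite (G ⧸ C) := inferInstance
    exact Finite.of_subgroup_quotient C
  · right
    refine ⟨(Z.map e.toMonoidHom).map C.subtype, ?_, ?_⟩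
    · constructor
      rw [Subgroup.index_map, Subgroup.ker_subtype, sup_bot_eq, Subgroup.range_subtype,
        Subgroup.index_map_of_bijective e.bijective]
      exact mul_ne_zero hZ.index_ne_zero (Subgroup.FiniteIndex.index_ne_zero)
    · have e1 : Z ≃* Z.map e.toMonoidHom := Z.equivMapOfInjective _ e.injective
      have e2 : Z.map e.toMonoidHom ≃* (Z.map e.toMonoidHom).map C.subtype :=
        Subgroup.equivMapOfInjective _ _ C.subtype_injective
      exact ⟨(e2.symm.trans e1.symm).trans eZ⟩

end Pool.Agent.LibCS15
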